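import Pool.Agent.Lib.MP_e426f4_ag.CK.LocPairs
import Pool.Agent.Lib.MP_e426f4_ag.N.FewNotGood

/-!
CK-BadA: points that are not well-rounded. Templates: C/BadA.lean, NK/BadA.lean. few_not_good (n = 2), loc_pairs_le; MT = JJ TL XR with TL = Vol dens ((Q/W^s)^1)^m, Vol = ((2kap^2)^2 (2th) B^3)^m/vg (r = 1, n = 2).
-/

namespace NKCHP

open NumberField GenHP NFHP NKHP Finset Filter Topology
open ConicHP (ev JJ)

variable {K : Type} [Field K] [NumberField K] {S : Type} [Fintype S]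

/-- the comparison of the error term with the main term -/
private theorem ckba_few_points_le (c : CPar K S) {eps k0 : ℝ} {w : ℕ} (hc : c.Valid eps k0 w) :
    ∃ e : ℝ, 0 < e ∧ ∀ th : ℝ, 0 < th → ∀ s : ℕ, c.p.Q ∣ c.p.W ^ s →
      ∀ᶠ H : ℝ in atTop, ∀ St : Set (Fin (2 + 1) → 𝓞 K), St ⊆ c.p.XX (c.BB H) →
        (St.ncard : ℝ) ≤ e * (c.BB H : ℝ) ^ (mK K * (2 + 1)) →
        ((c.LP c.p.rho th s St H).ncard : ℝ) ≤ eps / 2 * c.MT th s H := by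
  obtain ⟨C, hC, hloc⟩ := loc_pairs_le c hc
  have hp := hc.pv
  have hvg := hp.vg_pos
  have hd := dens_pos c.p hp
  have hQ : (0 : ℝ) < c.p.Q := by exact_mod_cast hp.Q_pos
  have hW : (0 : ℝ) < c.p.W := by exact_mod_cast hp.W_pos
  have hk := hp.kap_pos
  have hr := hp.rho_pos
  have he := hp.eps_pos
  refine ⟨eps / 2 * (((2 * c.p.kap ^ 2) ^ (2 + 1 - 1) * 2 ^ 1 * (c.p.Q : ℝ) ^ 1) ^ mK K / c.p.vg *
    c.p.dens) / C, by positivity, ?_⟩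
  intro th hth s hs
  filter_upwards [hloc th hth s hs, eventually_ge_atTop 0] with H hH hH0 St hSt hcard
  refine (hH St hSt).trans ?_
  have hX : 0 ≤ c.XR c.p.rho H := by
    rw [CPar.XR]
    positivity
  have h1 : eps / 2 * c.MT th s H =
      (JJ H : ℝ) * (eps / 2 * (((2 * c.p.kap ^ 2) ^ (2 + 1 - 1) * 2 ^ 1 * (c.p.Q : ℝ) ^ 1) ^ mK K /
        c.p.vg * c.p.dens) / C * (c.BB H : ℝ) ^ (mK K * (2 + 1))) *
        (C * (th / (c.p.W : ℝ) ^ s) ^ mK K) * c.XR c.p.rho H := by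
    rw [CPar.MT, Par.TL, NKHP.Vol, mul_comm (mK K) (2 + 1), pow_mul (c.BB H : ℝ)]
    have h2 : ((2 * c.p.kap ^ 2) ^ (2 + 1 - 1) * (2 * th) ^ 1 * (c.BB H : ℝ) ^ (2 + 1)) ^ mK K *
        (((c.p.Q : ℝ) / (c.p.W : ℝ) ^ s) ^ 1) ^ mK K =
        ((2 * c.p.kap ^ 2) ^ (2 + 1 - 1) * 2 ^ 1 * (c.p.Q : ℝ) ^ 1) ^ mK K *
        ((c.BB H : ℝ) ^ (2 + 1)) ^ mK K * (th / (c.p.W : ℝ) ^ s) ^ mK K := by
      rw [← mul_pow, ← mul_pow, ← mul_pow]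
      congr 1
      rw [pow_one, pow_one, pow_one, pow_one]
      ring
    calc eps / 2 * ((JJ H : ℝ) * (((2 * c.p.kap ^ 2) ^ (2 + 1 - 1) * (2 * th) ^ 1 *
          (c.BB H : ℝ) ^ (2 + 1)) ^ mK K / c.p.vg * c.p.dens *
          (((c.p.Q : ℝ) / (c.p.W : ℝ) ^ s) ^ 1) ^ mK K) * c.XR c.p.rho H) =
        (JJ H : ℝ) * (eps / 2 / c.p.vg * c.p.dens * (((2 * c.p.kap ^ 2) ^ (2 + 1 - 1) *
          (2 * th) ^ 1 * (c.BB H : ℝ) ^ (2 + 1)) ^ mK K *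
          (((c.p.Q : ℝ) / (c.p.W : ℝ) ^ s) ^ 1) ^ mK K)) * c.XR c.p.rho H := by ring
      _ = _ := by
        rw [h2]
        field_simp
  rw [h1]
  apply mul_le_mul_of_nonneg_right _ hX
  apply mul_le_mul_of_nonneg_right _ (by positivity)
  exact mul_le_mul_of_nonneg_left hcard (Nat.cast_nonneg _)

theorem bad_not_good (c : CPar K S) {eps k0 : ℝ} {w : ℕ} (hc : c.Valid eps k0 w) :
    ∃ R0 : ℝ, 1 ≤ R0 ∧ ∀ R, R0 ≤ R → ∀ th : ℝ, 0 < th → ∀ s : ℕ, c.p.Q ∣ c.p.W ^ s →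
      ∀ᶠ H : ℝ in atTop,
        ((c.LP c.p.rho th s {x | x ∈ c.p.XX (c.BB H) ∧ ¬ Good R (c.BB H) x} H).ncard : ℝ) ≤
          eps / 2 * c.MT th s H := by
  obtain ⟨e, he, hfew⟩ := ckba_few_points_le c hc
  obtain ⟨R0, hR0, hR⟩ := few_not_good K 2 le_rfl e he
  refine ⟨R0, hR0, ?_⟩
  intro R hRR th hth s hs
  filter_upwards [hfew th hth s hs, (BB_atTop c hc).eventually (eventually_ge_atTop 1)]
    with H hH hB1
  refine hH _ (fun x hx => hx.1) ?_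
  refine le_trans ?_ (hR R hRR (c.BB H) hB1)
  have hfin : {x : Fin (2 + 1) → 𝓞 K | x ∈ Bx 2 (2 * (c.BB H : ℝ)) ∧
      ¬ Good R (c.BB H) x}.Finite := (Bx_finite _).subset fun x hx => hx.1
  have hsub : {x | x ∈ c.p.XX (c.BB H) ∧ ¬ Good R (c.BB H) x} ⊆
      {x : Fin (2 + 1) → 𝓞 K | x ∈ Bx 2 (2 * (c.BB H : ℝ)) ∧ ¬ Good R (c.BB H) x} :=
    fun x hx => ⟨(mem_XX_bounds c.p hc.pv _).1 x hx.1, hx.2⟩
  exact_mod_cast Set.ncard_le_ncard hsub hfin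

end NKCHP
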