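import Pool.Agent.Lib.MP_e426f4_ag.CK.Basic
import Pool.Agent.Lib.MP_e426f4_ag.N.CardCl
import Pool.Agent.Lib.MP_e426f4_ag.N.CubeCount

/-!
CK-CardCl: number of vectors of forms in a class. Templates: C/CardCl.lean, N/CardCl.lean: product over m of the cube counts NFHP.cube_count (b = (Q), c = H AC m, radius r H), eps'' with (1 +- eps'')^MM within 1 +- eps'.
-/

namespace NKCHP

open NumberField GenHP NFHP NKHP Finset Filter Topology
open ConicHP (ev JJ)

variable {K : Type} [Field K] [NumberField K] {S : Type} [Fintype S]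

private theorem ccl_eq (c : CPar K S) (r H : ℝ) :
    c.Cl r H = Set.pi Set.univ fun m : Idx 2 2 × S =>
      {a : 𝓞 K | a - c.A0 m ∈ Ideal.span {(c.p.Q : 𝓞 K)} ∧
        ∀ j, |(crd a j : ℝ) - (fun j => H * c.AC m j) j| ≤ r * H} := by
  ext A
  simp only [CPar.Cl, Set.mem_pi, Set.mem_univ, true_implies, Set.mem_ofPred_eq,
    Ideal.mem_span_singleton]
  exact ⟨fun h t => ⟨h.2 t, h.1 t⟩, fun h => ⟨fun t => (h t).2, fun t => (h t).1⟩⟩

theorem card_Cl (c : CPar K S) (hQ : 0 < c.p.Q) (r eps' : ℝ) (hr : 0 < r) (he : 0 < eps') :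
    ∀ᶠ H : ℝ in atTop,
      (1 - eps') * c.XR r H ≤ ((c.Cl r H).ncard : ℝ) ∧
      ((c.Cl r H).ncard : ℝ) ≤ (1 + eps') * c.XR r H := by
  classical
  have hQ' : (0 : ℝ) < c.p.Q := by exact_mod_cast hQ
  obtain ⟨e0, he0, he1, he2, he3⟩ := exists_radius (MM S) (min eps' 1) (by positivity)
    (min_le_right _ _)
  have hb : Ideal.span {(c.p.Q : 𝓞 K)} ≠ ⊥ := by
    rw [Ne, Ideal.span_singleton_eq_bot]
    exact_mod_cast hQ.ne'
  obtain ⟨R0, hR0, hcc⟩ := cube_count (Ideal.span {(c.p.Q : 𝓞 K)}) hb e0 he0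
  filter_upwards [eventually_ge_atTop (R0 / r), eventually_gt_atTop 0] with H hH hH0
  have hrH : R0 ≤ r * H := by
    rw [div_le_iff₀ hr] at hH
    linarith
  set T : Idx 2 2 × S → Set (𝓞 K) := fun m =>
    {a : 𝓞 K | a - c.A0 m ∈ Ideal.span {(c.p.Q : 𝓞 K)} ∧
      ∀ j, |(crd a j : ℝ) - (fun j => H * c.AC m j) j| ≤ r * H} with hT
  have hfin : ∀ m, (T m).Finite := fun m => (hcc (r * H) hrH (fun j => H * c.AC m j) (c.A0 m)).1
  obtain ⟨V, hV⟩ : ∃ V : ℝ, V = (2 * (r * H)) ^ mK K /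
    Ideal.absNorm (Ideal.span {(c.p.Q : 𝓞 K)}) := ⟨_, rfl⟩
  have hlo : ∀ m, (1 - e0) * V ≤ ((T m).ncard : ℝ) := fun m => by
    rw [hV]; exact (hcc (r * H) hrH (fun j => H * c.AC m j) (c.A0 m)).2.1
  have hup : ∀ m, ((T m).ncard : ℝ) ≤ (1 + e0) * V := fun m => by
    rw [hV]; exact (hcc (r * H) hrH (fun j => H * c.AC m j) (c.A0 m)).2.2
  have hVQ : V = (2 * r * H / c.p.Q) ^ mK K := by
    rw [hV, cu_absNorm, div_pow]
    push_cast
    congr 1
    ring
  have hV0 : 0 < V := by rw [hVQ]; positivity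
  have hXR : c.XR r H = V ^ MM S := by
    rw [hVQ, ← pow_mul]; rfl
  have hcl : c.Cl r H = ↑(Fintype.piFinset fun m => (hfin m).toFinset) := by
    rw [ccl_eq]
    ext A
    simp only [Set.mem_pi, Set.mem_univ, true_implies, Finset.mem_coe, Fintype.mem_piFinset,
      Set.Finite.mem_toFinset]
    exact Iff.rfl
  have hcard : ((c.Cl r H).ncard : ℝ) = ∏ m, ((T m).ncard : ℝ) := by
    rw [hcl, Set.ncard_coe_finset, Fintype.card_piFinset]
    push_cast
    refine Finset.prod_congr rfl fun m _ => ?_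
    rw [Set.ncard_eq_toFinset_card _ (hfin m)]
  have h20 : (univ : Finset (Idx 2 2 × S)).card = MM S := rfl
  have hXR0 : 0 ≤ V ^ MM S := by positivity
  rw [hcard, hXR]
  constructor
  · calc (1 - eps') * V ^ MM S ≤ (1 - e0) ^ MM S * V ^ MM S := by
          refine mul_le_mul_of_nonneg_right ?_ hXR0
          have := min_le_left eps' 1
          linarith
      _ = ∏ _m : Idx 2 2 × S, ((1 - e0) * V) := by rw [Finset.prod_const, h20, mul_pow]
      _ ≤ ∏ m, ((T m).ncard : ℝ) :=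
        Finset.prod_le_prod (fun _ _ => mul_nonneg (by linarith) hV0.le) fun m _ => hlo m
  · calc ∏ m, ((T m).ncard : ℝ) ≤ ∏ _m : Idx 2 2 × S, ((1 + e0) * V) :=
          Finset.prod_le_prod (fun _ _ => by positivity) fun m _ => hup m
      _ = (1 + e0) ^ MM S * V ^ MM S := by rw [Finset.prod_const, h20, mul_pow]
      _ ≤ (1 + eps') * V ^ MM S := by
          refine mul_le_mul_of_nonneg_right ?_ hXR0
          have := min_le_left eps' 1
          linarith

end NKCHP
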