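import Pool.Agent.Lib.MP_e426f4_ag.CK.Points
import Pool.Agent.Lib.MP_e426f4_ag.C.Heights
import Pool.Agent.Lib.MP_e426f4_ag.NK.Heights

/-!
CK-Heights: the functions JJ, VV, BB, HH, T1. Template: C/Heights.lean (statement by statement; ConicHP.JJ_atTop is used as it is; V_pos, V_le are the same) and NK/Heights.lean (Lev_asymp: NFHP.cube_count with r = 0, c = 0, radius th HH BB^2 -> infinity; TL_eq: algebra, absNorm_span_W).
vv_ge: near with delta = k1/2 and om_ge. ev_near: coordinates of ev A (vv H i) t - H VV evR AI om t: at the place w' it is sum_s ((A_s - H AI_s) v_s + H AI_s (v_s - VV om_s)), |A_s - H AI_s|_w <= cK (r + rho) H, |v_s| <= (1 + delta) VV, |AI_s|_w <= cK,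
total <= card S cK VV H ((r + rho)(1 + delta) + delta), coordinates <= cK times that = HH ((r + rho)(1 + delta) + delta) <= 3 rho HH for r <= 8/5 rho and delta small (rho <= 1); HH Ainf = H VV evR AI om (Ainf_eq). T1_bounds: BB >= H VV/2 eventually, HH = cS VV H, dens > 0.
log_le: as in C/Heights (BB <= H VV <= H^2 eventually). small_le for the exponent 1/2.
-/

namespace NKCHP

open NumberField GenHP NFHP NKHP Finset Filter Topology
open ConicHP (ev JJ)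

variable {K : Type} [Field K] [NumberField K] {S : Type} [Fintype S]

private lemma ckh_JJ_le {H : ℝ} : (JJ H : ℝ) ≤ (Real.log H) ^ 2 :=
  Nat.floor_le (by positivity)

private lemma ckh_log_pow (C : ℝ) (k : ℕ) : ∀ᶠ H : ℝ in atTop,
    C * (Real.log H) ^ k ≤ H ^ (1 / 2 : ℝ) := by
  have h1 : (fun x : ℝ => (Real.log x) ^ k) =o[atTop] fun x : ℝ => x ^ (1 / 2 : ℝ) := by
    have := isLittleO_log_rpow_rpow_atTop (s := 1 / 2) (k : ℝ) (by norm_num)
    simpa [Real.rpow_natCast] using this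
  have h2 := h1.def (c := 1 / (|C| + 1)) (by positivity)
  filter_upwards [h2, eventually_ge_atTop (1 : ℝ)] with H hH hH1
  rw [Real.norm_eq_abs, Real.norm_eq_abs, abs_of_nonneg (Real.rpow_nonneg (by linarith) _)] at hH
  have h3 : 0 ≤ Real.log H := Real.log_nonneg hH1
  rw [abs_of_nonneg (by positivity)] at hH
  have h4 : 0 ≤ H ^ (1 / 2 : ℝ) := Real.rpow_nonneg (by linarith) _
  calc C * (Real.log H) ^ k ≤ (|C| + 1) * (Real.log H) ^ k := by
        refine mul_le_mul_of_nonneg_right ?_ (by positivity)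
        linarith [le_abs_self C]
    _ ≤ (|C| + 1) * (1 / (|C| + 1) * H ^ (1 / 2 : ℝ)) :=
        mul_le_mul_of_nonneg_left hH (by positivity)
    _ = H ^ (1 / 2 : ℝ) := by
        field_simp

/-- one factor of `Lev` -/
private theorem ckh_lev (q : Ideal (𝓞 K)) (hq : q ≠ ⊥) (f : ℝ → ℝ) (hf : Tendsto f atTop atTop)
    (del : ℝ) (hdel : 0 < del) : ∀ᶠ H : ℝ in atTop,
      (1 - del) * ((2 * f H) ^ mK K / (Ideal.absNorm q : ℝ)) ≤
        (Set.ncard {s : 𝓞 K | s ∈ q ∧ CIn (f H) s} : ℝ) ∧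
      (Set.ncard {s : 𝓞 K | s ∈ q ∧ CIn (f H) s} : ℝ) ≤
        (1 + del) * ((2 * f H) ^ mK K / (Ideal.absNorm q : ℝ)) := by
  obtain ⟨R0, hR0, hR⟩ := cube_count q hq del hdel
  filter_upwards [hf.eventually_ge_atTop R0] with H hH
  obtain ⟨-, h1, h2⟩ := hR (f H) hH (fun _ => 0) 0
  have h3 : {a : 𝓞 K | a - 0 ∈ q ∧ ∀ j, |(crd a j : ℝ) - 0| ≤ f H} =
      {s : 𝓞 K | s ∈ q ∧ CIn (f H) s} := by
    ext a
    simp only [sub_zero, Set.mem_ofPred_eq, CIn]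
  rw [h3] at h1 h2
  exact ⟨h1, h2⟩

variable (c : CPar K S) {eps k0 : ℝ} {w : ℕ} (hc : c.Valid eps k0 w)
include hc

theorem cS_ge : 1 ≤ cS K S := by
  have h1 : 0 < Fintype.card S := Fintype.card_pos_iff.2 ⟨c.s0⟩
  have h2 : (1 : ℝ) ≤ Fintype.card S := by exact_mod_cast h1
  have h3 := one_le_cK (K := K)
  unfold cS
  have h4 : 1 ≤ cK K ^ 2 := one_le_pow₀ h3
  nlinarith

theorem VV_pos : ∀ᶠ H : ℝ in atTop, 1 ≤ c.VV H := by
  filter_upwards [ConicHP.JJ_atTop.eventually_ge_atTop 1] with H hH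
  exact hc.fam.V_pos _ hH

theorem BB_atTop : Tendsto c.BB atTop atTop := by
  unfold CPar.BB
  refine tendsto_nat_floor_atTop.comp ?_
  refine tendsto_atTop_mono' atTop ?_ tendsto_id
  filter_upwards [VV_pos c hc, eventually_ge_atTop (0 : ℝ)] with H hH hH0
  have h1 : (1 : ℝ) ≤ c.VV H := by exact_mod_cast hH
  calc id H = H * 1 := by simp
    _ ≤ H * c.VV H := mul_le_mul_of_nonneg_left h1 hH0

theorem BB_bounds : ∀ᶠ H : ℝ in atTop, H * c.VV H / 2 ≤ c.BB H ∧ (c.BB H : ℝ) ≤ H * c.VV H ∧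
    H ≤ 2 * c.BB H := by
  filter_upwards [VV_pos c hc, eventually_ge_atTop (2 : ℝ)] with H hH hH2
  have h1 : (1 : ℝ) ≤ c.VV H := by exact_mod_cast hH
  have h2 : H ≤ H * c.VV H := by
    calc H = H * 1 := by ring
      _ ≤ H * c.VV H := mul_le_mul_of_nonneg_left h1 (by linarith)
  have h3 : (c.BB H : ℝ) ≤ H * c.VV H := Nat.floor_le (by linarith)
  have h4 : H * c.VV H < c.BB H + 1 := Nat.lt_floor_add_one _
  refine ⟨by linarith, h3, by linarith⟩

theorem small_le (C : ℝ) (k : ℕ) : ∀ᶠ H : ℝ in atTop,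
    C * ((c.VV H : ℝ) ^ k * (JJ H : ℝ) ^ k) * (c.BB H : ℝ) ^ (1 / 2 : ℝ) ≤ H := by
  obtain ⟨C1, hC1⟩ := hc.fam.V_le
  filter_upwards [VV_pos c hc, BB_bounds c hc, eventually_ge_atTop (1 : ℝ),
    ConicHP.JJ_atTop.eventually_ge_atTop 1,
    ckh_log_pow (|C| * (C1 : ℝ) ^ (k + 1)) (2 * (C1 * (k + 1) + k))] with H hV hB hH1 hJ hlog
  have hV1 : (1 : ℝ) ≤ c.VV H := by exact_mod_cast hV
  have hH0 : 0 ≤ H := by linarith
  have hVle : (c.VV H : ℝ) ≤ C1 * (JJ H : ℝ) ^ C1 := by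
    have := hC1 (JJ H) hJ
    exact_mod_cast this
  have hJ0 : (0 : ℝ) ≤ JJ H := Nat.cast_nonneg _
  have h1 : (c.BB H : ℝ) ^ (1 / 2 : ℝ) ≤ H ^ (1 / 2 : ℝ) * c.VV H := by
    calc (c.BB H : ℝ) ^ (1 / 2 : ℝ) ≤ (H * c.VV H) ^ (1 / 2 : ℝ) :=
          Real.rpow_le_rpow (Nat.cast_nonneg _) hB.2.1 (by norm_num)
      _ = H ^ (1 / 2 : ℝ) * (c.VV H : ℝ) ^ (1 / 2 : ℝ) := Real.mul_rpow hH0 (by linarith)
      _ ≤ H ^ (1 / 2 : ℝ) * c.VV H := by
          refine mul_le_mul_of_nonneg_left ?_ (Real.rpow_nonneg hH0 _)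
          calc (c.VV H : ℝ) ^ (1 / 2 : ℝ) ≤ (c.VV H : ℝ) ^ (1 : ℝ) :=
                Real.rpow_le_rpow_of_exponent_le hV1 (by norm_num)
            _ = c.VV H := Real.rpow_one _
  have hhalf : H ^ (1 / 2 : ℝ) * H ^ (1 / 2 : ℝ) = H := by
    rw [← Real.rpow_add (by linarith)]
    norm_num
  have hH12 : 0 ≤ H ^ (1 / 2 : ℝ) := Real.rpow_nonneg hH0 _
  have h2 : (c.VV H : ℝ) ^ (k + 1) * (JJ H : ℝ) ^ k ≤
      (C1 : ℝ) ^ (k + 1) * (Real.log H) ^ (2 * (C1 * (k + 1) + k)) := by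
    calc (c.VV H : ℝ) ^ (k + 1) * (JJ H : ℝ) ^ k
        ≤ (C1 * (JJ H : ℝ) ^ C1) ^ (k + 1) * (JJ H : ℝ) ^ k := by
          refine mul_le_mul_of_nonneg_right ?_ (by positivity)
          exact pow_le_pow_left₀ (by linarith) hVle _
      _ = (C1 : ℝ) ^ (k + 1) * (JJ H : ℝ) ^ (C1 * (k + 1) + k) := by
          rw [mul_pow, ← pow_mul, pow_add]
          ring
      _ ≤ (C1 : ℝ) ^ (k + 1) * ((Real.log H) ^ 2) ^ (C1 * (k + 1) + k) := by
          refine mul_le_mul_of_nonneg_left ?_ (by positivity)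
          exact pow_le_pow_left₀ hJ0 ckh_JJ_le _
      _ = (C1 : ℝ) ^ (k + 1) * (Real.log H) ^ (2 * (C1 * (k + 1) + k)) := by
          rw [← pow_mul]
  calc C * ((c.VV H : ℝ) ^ k * (JJ H : ℝ) ^ k) * (c.BB H : ℝ) ^ (1 / 2 : ℝ)
      ≤ |C| * ((c.VV H : ℝ) ^ k * (JJ H : ℝ) ^ k) * (c.BB H : ℝ) ^ (1 / 2 : ℝ) := by
        refine mul_le_mul_of_nonneg_right ?_ (Real.rpow_nonneg (Nat.cast_nonneg _) _)
        exact mul_le_mul_of_nonneg_right (le_abs_self C) (by positivity)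
    _ ≤ |C| * ((c.VV H : ℝ) ^ k * (JJ H : ℝ) ^ k) * (H ^ (1 / 2 : ℝ) * c.VV H) :=
        mul_le_mul_of_nonneg_left h1 (by positivity)
    _ = |C| * ((c.VV H : ℝ) ^ (k + 1) * (JJ H : ℝ) ^ k) * H ^ (1 / 2 : ℝ) := by ring
    _ ≤ |C| * ((C1 : ℝ) ^ (k + 1) * (Real.log H) ^ (2 * (C1 * (k + 1) + k))) *
          H ^ (1 / 2 : ℝ) := by
        refine mul_le_mul_of_nonneg_right ?_ hH12
        exact mul_le_mul_of_nonneg_left h2 (abs_nonneg C)
    _ = (|C| * (C1 : ℝ) ^ (k + 1) * (Real.log H) ^ (2 * (C1 * (k + 1) + k))) *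
          H ^ (1 / 2 : ℝ) := by ring
    _ ≤ H ^ (1 / 2 : ℝ) * H ^ (1 / 2 : ℝ) := mul_le_mul_of_nonneg_right hlog hH12
    _ = H := hhalf

theorem small_le' (C : ℝ) (k : ℕ) : ∀ᶠ H : ℝ in atTop,
    C * ((c.VV H : ℝ) ^ k * (JJ H : ℝ) ^ k) ≤ H := by
  filter_upwards [small_le c hc |C| k,
    (BB_atTop c hc).eventually_ge_atTop 1] with H h1 h2
  refine le_trans ?_ h1
  have hB : (1 : ℝ) ≤ (c.BB H : ℝ) ^ (1 / 2 : ℝ) := by
    refine Real.one_le_rpow ?_ (by norm_num)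
    exact_mod_cast h2
  have hX : 0 ≤ (c.VV H : ℝ) ^ k * (JJ H : ℝ) ^ k := by positivity
  calc C * ((c.VV H : ℝ) ^ k * (JJ H : ℝ) ^ k)
      ≤ |C| * ((c.VV H : ℝ) ^ k * (JJ H : ℝ) ^ k) :=
        mul_le_mul_of_nonneg_right (le_abs_self C) hX
    _ = |C| * ((c.VV H : ℝ) ^ k * (JJ H : ℝ) ^ k) * 1 := by ring
    _ ≤ |C| * ((c.VV H : ℝ) ^ k * (JJ H : ℝ) ^ k) * (c.BB H : ℝ) ^ (1 / 2 : ℝ) :=
        mul_le_mul_of_nonneg_left hB (by positivity)

theorem log_le (C : ℝ) (k : ℕ) : ∀ᶠ H : ℝ in atTop,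
    C * (1 + Real.log (C * (c.BB H : ℝ) ^ k)) ≤ JJ H := by
  have hL : Tendsto Real.log atTop atTop := Real.tendsto_log_atTop
  filter_upwards [small_le' c hc 1 1, BB_bounds c hc,
    (BB_atTop c hc).eventually_ge_atTop 1, VV_pos c hc,
    ConicHP.JJ_atTop.eventually_ge_atTop 1, eventually_ge_atTop (1 : ℝ),
    hL.eventually_ge_atTop (2 * k * |C| + |C| * (1 + |Real.log C|) + 2)]
    with H hs hB hB1 hV hJ hH1 hlog
  have hJlow : (Real.log H) ^ 2 - 1 ≤ JJ H := by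
    have := Nat.lt_floor_add_one ((Real.log H) ^ 2)
    have h2 : (JJ H : ℝ) = (⌊(Real.log H) ^ 2⌋₊ : ℝ) := rfl
    linarith
  refine le_trans ?_ hJlow
  have hVH : (c.VV H : ℝ) ≤ H := by
    have hJ1 : (1 : ℝ) ≤ JJ H := by exact_mod_cast hJ
    calc (c.VV H : ℝ) = 1 * ((c.VV H : ℝ) ^ 1 * 1) := by ring
      _ ≤ 1 * ((c.VV H : ℝ) ^ 1 * (JJ H : ℝ) ^ 1) := by
          rw [one_mul, one_mul, pow_one]
          rw [pow_one]
          exact mul_le_mul_of_nonneg_left hJ1 (Nat.cast_nonneg _)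
      _ ≤ H := hs
  have hBpos : (1 : ℝ) ≤ c.BB H := by exact_mod_cast hB1
  have hlogB : Real.log (c.BB H) ≤ 2 * Real.log H := by
    calc Real.log (c.BB H) ≤ Real.log (H * H) := by
          refine Real.log_le_log (by linarith) ?_
          refine hB.2.1.trans ?_
          exact mul_le_mul_of_nonneg_left hVH (by linarith)
      _ = 2 * Real.log H := by
          rw [Real.log_mul (by linarith) (by linarith)]
          ring
  have hlogB0 : 0 ≤ Real.log (c.BB H) := Real.log_nonneg hBpos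
  have hlogH : 0 ≤ Real.log H := Real.log_nonneg hH1
  have hk : (0 : ℝ) ≤ k := Nat.cast_nonneg _
  by_cases hC : C = 0
  · rw [hC]
    simp only [zero_mul]
    have : 2 ≤ Real.log H := by
      have h3 : 0 ≤ 2 * k * |C| + |C| * (1 + |Real.log C|) := by positivity
      linarith
    nlinarith
  · have h1 : Real.log (C * (c.BB H : ℝ) ^ k) = Real.log C + k * Real.log (c.BB H) := by
      rw [Real.log_mul hC (by positivity), Real.log_pow]
    rw [h1]
    have h2 : |1 + (Real.log C + k * Real.log (c.BB H))| ≤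
        1 + |Real.log C| + 2 * k * Real.log H := by
      have h3 := abs_le.1 (le_refl |Real.log C|)
      have h4 : k * Real.log (c.BB H) ≤ k * (2 * Real.log H) := mul_le_mul_of_nonneg_left hlogB hk
      have h5 : 0 ≤ k * Real.log (c.BB H) := mul_nonneg hk hlogB0
      have h6 : 0 ≤ k * Real.log H := mul_nonneg hk hlogH
      rw [abs_le]
      constructor <;> linarith [h3.1, h3.2]
    calc C * (1 + (Real.log C + k * Real.log (c.BB H)))
        ≤ |C * (1 + (Real.log C + k * Real.log (c.BB H)))| := le_abs_self _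
      _ = |C| * |1 + (Real.log C + k * Real.log (c.BB H))| := abs_mul _ _
      _ ≤ |C| * (1 + |Real.log C| + 2 * k * Real.log H) :=
          mul_le_mul_of_nonneg_left h2 (abs_nonneg C)
      _ ≤ (Real.log H) ^ 2 - 1 := by
          have h4 : 0 ≤ |C| * (1 + |Real.log C|) := by positivity
          have h5 : 0 ≤ |C| := abs_nonneg C
          have h8 : 0 ≤ 2 * k * |C| := by positivity
          have h6 : 2 ≤ Real.log H := by linarith
          have h7 : (2 * k * |C| + |C| * (1 + |Real.log C|) + 2) * Real.log H ≤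
              Real.log H * Real.log H := mul_le_mul_of_nonneg_right hlog hlogH
          nlinarith [mul_le_mul_of_nonneg_left h6 h4]

private theorem ckh_om (V : ℝ) (hV : 0 ≤ V) (s : S) (w' : InfinitePlace K) :
    ‖(V : ℂ) * lam (c.om s) w'‖ ≤ V := by
  rw [norm_mul, Complex.norm_real, Real.norm_eq_abs, abs_of_nonneg hV]
  calc V * ‖lam (c.om s) w'‖ ≤ V * 1 := mul_le_mul_of_nonneg_left (hc.fam.om_le s w') hV
    _ = V := mul_one _

theorem vv_le : ∀ᶠ H : ℝ in atTop, ∀ i, i < JJ H → ∀ s w', ‖sg w' (c.vv H i s)‖ ≤ 2 * c.VV H := by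
  obtain ⟨J0, hJ0⟩ := hc.fam.near 1 one_pos
  filter_upwards [ConicHP.JJ_atTop.eventually_ge_atTop J0] with H hH i hi s w'
  have h1 := hJ0 (JJ H) hH i hi s w'
  have hV : (0 : ℝ) ≤ c.V (JJ H) := Nat.cast_nonneg _
  have h3 := ckh_om c hc (c.V (JJ H)) hV s w'
  rw [Complex.ofReal_natCast] at h3
  have h4 : ‖sg w' (c.v (JJ H) i s)‖ ≤ ‖sg w' (c.v (JJ H) i s) - c.V (JJ H) * lam (c.om s) w'‖ +
      ‖(c.V (JJ H) : ℂ) * lam (c.om s) w'‖ := by
    have := norm_add_le (sg w' (c.v (JJ H) i s) - c.V (JJ H) * lam (c.om s) w')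
      ((c.V (JJ H) : ℂ) * lam (c.om s) w')
    rwa [sub_add_cancel] at this
  show ‖sg w' (c.v (JJ H) i s)‖ ≤ 2 * (c.V (JJ H) : ℝ)
  linarith

theorem vv_ge : ∀ᶠ H : ℝ in atTop, ∀ i, i < JJ H → ∀ w',
    c.k1 / 2 * c.VV H ≤ ‖sg w' (c.vv H i c.s0)‖ := by
  have hk1 := hc.fam.k1_pos
  obtain ⟨J0, hJ0⟩ := hc.fam.near (c.k1 / 2) (by positivity)
  filter_upwards [ConicHP.JJ_atTop.eventually_ge_atTop J0] with H hH i hi w'
  have h1 := hJ0 (JJ H) hH i hi c.s0 w'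
  have hV : (0 : ℝ) ≤ c.V (JJ H) := Nat.cast_nonneg _
  have h3 : c.k1 * c.V (JJ H) ≤ ‖(c.V (JJ H) : ℂ) * lam (c.om c.s0) w'‖ := by
    rw [norm_mul, Complex.norm_natCast, mul_comm]
    exact mul_le_mul_of_nonneg_left (hc.fam.om_ge w') hV
  have h4 : ‖(c.V (JJ H) : ℂ) * lam (c.om c.s0) w'‖ ≤
      ‖sg w' (c.v (JJ H) i c.s0) - c.V (JJ H) * lam (c.om c.s0) w'‖ +
        ‖sg w' (c.v (JJ H) i c.s0)‖ := by
    have := norm_sub_le (sg w' (c.v (JJ H) i c.s0))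
      (sg w' (c.v (JJ H) i c.s0) - c.V (JJ H) * lam (c.om c.s0) w')
    rw [sub_sub_cancel] at this
    linarith
  show c.k1 / 2 * (c.V (JJ H) : ℝ) ≤ ‖sg w' (c.v (JJ H) i c.s0)‖
  linarith

/-- the real part of `ev_near` -/
private theorem ckh_near (r H : ℝ) (hH : 0 ≤ H) (hr : r ≤ 8 / 5 * c.p.rho) (i : ℕ)
    (hv : ∀ s w', ‖sg w' (c.v (JJ H) i s) - c.V (JJ H) * lam (c.om s) w'‖ ≤
      c.p.rho / 10 * c.V (JJ H))
    (A : Idx 2 2 × S → 𝓞 K) (hA : ∀ m j, |(crd (A m) j : ℝ) - H * c.AC m j| ≤ r * H)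
    (t : Idx 2 2) (j : IK K) :
    |(crd (ev A (c.v (JJ H) i) t) j : ℝ) - cS K S * c.V (JJ H) * H * c.p.Ainf 0 t j| ≤
      3 * c.p.rho * (cS K S * c.V (JJ H) * H) := by
  have hrho := hc.pv.rho_pos
  have hrho1 := hc.pv.rho_le
  obtain ⟨V, hVV⟩ : ∃ V : ℝ, V = (c.V (JJ H) : ℝ) := ⟨_, rfl⟩
  have hV : 0 ≤ V := by rw [hVV]; exact Nat.cast_nonneg _
  have hVC : ((c.V (JJ H) : ℕ) : ℂ) = ((V : ℝ) : ℂ) := by rw [hVV, Complex.ofReal_natCast]
  have hcK := cK_pos (K := K)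
  rw [← hVV]
  have h1 : (crd (ev A (c.v (JJ H) i) t) j : ℝ) - cS K S * V * H * c.p.Ainf 0 t j =
      (fun j => (crd (ev A (c.v (JJ H) i) t) j : ℝ) -
        (fun j => (V * H) * evR c.AI c.om t j) j) j := by
    have := hc.Ainf_eq t j
    show _ = (crd (ev A (c.v (JJ H) i) t) j : ℝ) - (V * H) * evR c.AI c.om t j
    rw [← this]
    ring
  rw [h1]
  have hloc : ∀ w', ‖lam (fun j => (crd (ev A (c.v (JJ H) i) t) j : ℝ) -
      (fun j => (V * H) * evR c.AI c.om t j) j) w'‖ ≤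
      Fintype.card S * (cK K * (3 * c.p.rho * (H * V))) := by
    intro w'
    rw [lam_sub (fun j => (crd (ev A (c.v (JJ H) i) t) j : ℝ))
      (fun j => (V * H) * evR c.AI c.om t j), lam_crd, lam_smul, lam_evR, sg_ev]
    have h2 : ev (fun m => sg w' (A m)) (fun s => sg w' (c.v (JJ H) i s)) t -
        ((V * H : ℝ) : ℂ) * ev (fun m => lam (c.AI m) w') (fun s => lam (c.om s) w') t =
        ∑ s, ((sg w' (A (t, s)) - (H : ℂ) * lam (c.AI (t, s)) w') * sg w' (c.v (JJ H) i s) +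
          (H : ℂ) * lam (c.AI (t, s)) w' * (sg w' (c.v (JJ H) i s) -
            (V : ℂ) * lam (c.om s) w')) := by
      unfold ConicHP.ev
      rw [Finset.mul_sum, ← Finset.sum_sub_distrib]
      refine Finset.sum_congr rfl fun s _ => ?_
      push_cast
      ring
    rw [h2]
    refine (norm_sum_le _ _).trans ?_
    have h3 : ∀ s ∈ (univ : Finset S),
        ‖(sg w' (A (t, s)) - (H : ℂ) * lam (c.AI (t, s)) w') * sg w' (c.v (JJ H) i s) +
          (H : ℂ) * lam (c.AI (t, s)) w' * (sg w' (c.v (JJ H) i s) -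
            (V : ℂ) * lam (c.om s) w')‖ ≤ cK K * (3 * c.p.rho * (H * V)) := by
      intro s _
      have h4 : ‖sg w' (A (t, s)) - (H : ℂ) * lam (c.AI (t, s)) w'‖ ≤
          cK K * (13 / 5 * c.p.rho * H) := by
        rw [← lam_crd, ← lam_smul, ← lam_sub]
        refine norm_lam_le _ _ (fun j => ?_) w'
        have h5 := hA (t, s) j
        have h6 := hc.AC_near (t, s) j
        have h7 : |H * c.AC (t, s) j - H * c.AI (t, s) j| ≤ c.p.rho * H := by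
          rw [← mul_sub, abs_mul, abs_of_nonneg hH, mul_comm]
          exact mul_le_mul_of_nonneg_right h6 hH
        have h8 : r * H ≤ 8 / 5 * c.p.rho * H := mul_le_mul_of_nonneg_right hr hH
        have h9 := abs_add_le ((crd (A (t, s)) j : ℝ) - H * c.AC (t, s) j)
          (H * c.AC (t, s) j - H * c.AI (t, s) j)
        rw [sub_add_sub_cancel] at h9
        linarith
      have h5 : ‖lam (c.AI (t, s)) w'‖ ≤ cK K := by
        have := norm_lam_le (c.AI (t, s)) 1 (hc.AI_le (t, s)) w'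
        rwa [mul_one] at this
      have h6 := hv s w'
      rw [← hVV, hVC] at h6
      have h7 := ckh_om c hc V hV s w'
      have h8 : ‖sg w' (c.v (JJ H) i s)‖ ≤ 11 / 10 * V := by
        have := norm_add_le (sg w' (c.v (JJ H) i s) - (V : ℂ) * lam (c.om s) w')
          ((V : ℂ) * lam (c.om s) w')
        rw [sub_add_cancel] at this
        have h9 : c.p.rho / 10 * V ≤ 1 / 10 * V :=
          mul_le_mul_of_nonneg_right (by linarith) hV
        linarith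
      refine (norm_add_le _ _).trans ?_
      rw [norm_mul, norm_mul, norm_mul, Complex.norm_real, Real.norm_eq_abs, abs_of_nonneg hH]
      have h10 : ‖sg w' (A (t, s)) - (H : ℂ) * lam (c.AI (t, s)) w'‖ *
          ‖sg w' (c.v (JJ H) i s)‖ ≤ cK K * (13 / 5 * c.p.rho * H) * (11 / 10 * V) :=
        mul_le_mul h4 h8 (norm_nonneg _) (by positivity)
      have h11 : H * ‖lam (c.AI (t, s)) w'‖ * ‖sg w' (c.v (JJ H) i s) -
            (V : ℂ) * lam (c.om s) w'‖ ≤ H * cK K * (c.p.rho / 10 * V) :=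
        mul_le_mul (mul_le_mul_of_nonneg_left h5 hH) h6 (norm_nonneg _) (by positivity)
      have h12 : 0 ≤ cK K * (c.p.rho * (H * V)) := by positivity
      linarith
    refine (Finset.sum_le_sum h3).trans (le_of_eq ?_)
    rw [Finset.sum_const, Finset.card_univ, nsmul_eq_mul]
  refine (abs_le_of_lam _ _ hloc j).trans (le_of_eq ?_)
  unfold cS
  ring

theorem ev_near (r : ℝ) (hr : r ≤ 8 / 5 * c.p.rho) : ∀ᶠ H : ℝ in atTop, ∀ i, i < JJ H →
    ∀ A ∈ c.Cl r H, (∀ t j, |(crd (ev A (c.vv H i) t) j : ℝ) - c.HH H * c.p.Ainf 0 t j| ≤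
      3 * c.p.rho * c.HH H) ∧ ∀ t, (c.p.Q : 𝓞 K) ∣ ev A (c.vv H i) t - c.p.A0 0 t := by
  have hrho := hc.pv.rho_pos
  obtain ⟨J0, hJ0⟩ := hc.fam.near (c.p.rho / 10) (by positivity)
  filter_upwards [ConicHP.JJ_atTop.eventually_ge_atTop J0, eventually_ge_atTop (1 : ℝ)]
    with H hH hH1
  intro i hi A hA
  have hH0 : 0 ≤ H := by linarith
  constructor
  · intro t j
    exact ckh_near c hc r H hH0 hr i (hJ0 (JJ H) hH i hi) A hA.1 t j
  · intro t
    have h1 := ev_congr_dvd (c.p.Q : 𝓞 K) A c.A0 (c.v (JJ H) i) (c.v 0 0) hA.2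
      (fun s => hc.fam.congr (JJ H) i s) t
    have h2 := dvd_add h1 (hc.A0_congr t)
    rwa [sub_add_sub_cancel] at h2

theorem HH_pos : ∀ᶠ H : ℝ in atTop, 0 < c.HH H ∧ H ≤ c.HH H := by
  have h1 := cS_ge c hc
  filter_upwards [VV_pos c hc, eventually_gt_atTop (0 : ℝ)] with H hV hH0
  have hV1 : (1 : ℝ) ≤ c.VV H := by exact_mod_cast hV
  have h2 : 1 ≤ cS K S * c.VV H := one_le_mul_of_one_le_of_one_le h1 hV1
  have h3 : H ≤ c.HH H := by
    unfold CPar.HH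
    calc H = 1 * H := (one_mul _).symm
      _ ≤ cS K S * c.VV H * H := mul_le_mul_of_nonneg_right h2 hH0.le
  exact ⟨hH0.trans_le h3, h3⟩

theorem T1_bounds : ∃ C : ℝ, 0 < C ∧ ∀ᶠ H : ℝ in atTop, C ≤ c.T1 H := by
  have hkap := hc.pv.kap_pos
  have hQ : (0 : ℝ) < c.p.Q := by exact_mod_cast hc.pv.Q_pos
  have hvg := hc.pv.vg_pos
  have hdens := dens_pos c.p hc.pv
  have hcS : 0 < cS K S := by linarith [cS_ge c hc]
  refine ⟨((2 * c.p.kap ^ 2) ^ 2 * c.p.Q / (2 * cS K S)) ^ mK K * c.p.dens / c.p.vg,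
    by positivity, ?_⟩
  filter_upwards [BB_bounds c hc, HH_pos c hc] with H hB hHH
  unfold CPar.T1
  have hHH0 := hHH.1
  have h1 : c.HH H ≤ (c.BB H : ℝ) * (2 * cS K S) := by
    unfold CPar.HH
    have h2 : H * c.VV H ≤ 2 * c.BB H := by linarith [hB.1]
    calc cS K S * c.VV H * H = cS K S * (H * c.VV H) := by ring
      _ ≤ cS K S * (2 * c.BB H) := mul_le_mul_of_nonneg_left h2 hcS.le
      _ = (c.BB H : ℝ) * (2 * cS K S) := by ring
  have h3 : (2 * c.p.kap ^ 2) ^ 2 * c.p.Q / (2 * cS K S) ≤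
      (2 * c.p.kap ^ 2) ^ 2 * c.p.Q * (c.BB H : ℝ) / c.HH H := by
    rw [div_le_div_iff₀ (by positivity) hHH0]
    calc (2 * c.p.kap ^ 2) ^ 2 * c.p.Q * c.HH H
        ≤ (2 * c.p.kap ^ 2) ^ 2 * c.p.Q * ((c.BB H : ℝ) * (2 * cS K S)) :=
          mul_le_mul_of_nonneg_left h1 (by positivity)
      _ = (2 * c.p.kap ^ 2) ^ 2 * c.p.Q * (c.BB H : ℝ) * (2 * cS K S) := by ring
  have h4 := pow_le_pow_left₀ (by positivity) h3 (mK K)
  exact div_le_div_of_nonneg_right (mul_le_mul_of_nonneg_right h4 hdens.le) hvg.le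

theorem TT_atTop : Tendsto c.TT atTop atTop := by
  obtain ⟨C, hC, hT⟩ := T1_bounds c hc
  have h1 : Tendsto (fun H : ℝ => (JJ H : ℝ) * C) atTop atTop :=
    (tendsto_natCast_atTop_atTop.comp ConicHP.JJ_atTop).atTop_mul_const hC
  refine tendsto_atTop_mono' atTop ?_ h1
  filter_upwards [hT] with H hH
  exact mul_le_mul_of_nonneg_left hH (Nat.cast_nonneg _)

theorem XR_pos {r : ℝ} (hr : 0 < r) {H : ℝ} (hH : 0 < H) : 0 < c.XR r H := by
  have hQ : (0 : ℝ) < c.p.Q := by exact_mod_cast hc.pv.Q_pos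
  unfold CPar.XR
  positivity

theorem Lev_asymp (th : ℝ) (hth : 0 < th) (q : Ideal (𝓞 K)) (hq : q ≠ ⊥) (del : ℝ)
    (hdel : 0 < del) : ∀ᶠ H : ℝ in atTop,
      (1 - del) * ((2 * (th * c.HH H * (c.BB H : ℝ) ^ 2)) ^ mK K / (Ideal.absNorm q : ℝ)) ≤
        c.Lev th q H ∧
      c.Lev th q H ≤
        (1 + del) * ((2 * (th * c.HH H * (c.BB H : ℝ) ^ 2)) ^ mK K / (Ideal.absNorm q : ℝ)) := by
  refine ckh_lev q hq (fun H => th * c.HH H * (c.BB H : ℝ) ^ 2) ?_ del hdel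
  have h1 : Tendsto (fun H : ℝ => th * H) atTop atTop :=
    Tendsto.const_mul_atTop hth tendsto_id
  refine tendsto_atTop_mono' atTop ?_ h1
  filter_upwards [HH_pos c hc, (BB_atTop c hc).eventually_ge_atTop 1] with H hHH hB
  have hB1 : (1 : ℝ) ≤ c.BB H := by exact_mod_cast hB
  have hB2 : (1 : ℝ) ≤ (c.BB H : ℝ) ^ 2 := one_le_pow₀ hB1
  calc th * H ≤ th * c.HH H := mul_le_mul_of_nonneg_left hHH.2 hth.le
    _ = th * c.HH H * 1 := (mul_one _).symm
    _ ≤ th * c.HH H * (c.BB H : ℝ) ^ 2 :=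
        mul_le_mul_of_nonneg_left hB2 (mul_nonneg hth.le hHH.1.le)

/-- the relation between the local count and the number of levels -/
theorem TL_eq (th : ℝ) (hth : 0 < th) (s : ℕ) : ∀ᶠ H : ℝ in atTop,
    c.p.TL th s (c.BB H) =
      c.T1 H * (2 * (th * c.HH H * (c.BB H : ℝ) ^ 2) / (c.p.W : ℝ) ^ s) ^ mK K := by
  filter_upwards [HH_pos c hc] with H hHH
  have hHH0 := hHH.1.ne'
  have hW' : (c.p.W : ℝ) ^ s ≠ 0 := by
    have : (0 : ℝ) < c.p.W := by exact_mod_cast hc.pv.W_pos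
    positivity
  unfold Par.TL NKHP.Vol CPar.T1
  have h1 : ((2 * c.p.kap ^ 2) ^ (2 + 1 - 1) * (2 * th) ^ 1 * (c.BB H : ℝ) ^ (2 + 1)) *
      ((c.p.Q : ℝ) / (c.p.W : ℝ) ^ s) ^ 1 =
      ((2 * c.p.kap ^ 2) ^ 2 * c.p.Q * (c.BB H : ℝ) / c.HH H) *
      (2 * (th * c.HH H * (c.BB H : ℝ) ^ 2) / (c.p.W : ℝ) ^ s) := by
    rw [show 2 + 1 - 1 = 2 from rfl]
    field_simp
    ring
  calc _ = ((((2 * c.p.kap ^ 2) ^ (2 + 1 - 1) * (2 * th) ^ 1 * (c.BB H : ℝ) ^ (2 + 1)) *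
      ((c.p.Q : ℝ) / (c.p.W : ℝ) ^ s) ^ 1) ^ mK K) * (c.p.dens / c.p.vg) := by
        rw [mul_pow _ (((c.p.Q : ℝ) / (c.p.W : ℝ) ^ s) ^ 1) (mK K)]
        ring
    _ = _ := by
        rw [h1, mul_pow]
        ring

end NKCHP
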