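import Pool.Agent.Lib.MP_e426f4_ag.CK.BadA
import Pool.Agent.Lib.MP_e426f4_ag.CK.BadB
import Pool.Agent.Lib.MP_e426f4_ag.CK.BadC
import Pool.Agent.Lib.MP_e426f4_ag.N.Minors

/-!
CK-BadPoints: all bad points. Template: NK/BadPoints.lean (XX minus GC is covered by the sets of BadA, BadB, BadC).
-/

namespace NKCHP

open NumberField GenHP NFHP NKHP Finset Filter Topology
open ConicHP (ev JJ)

variable {K : Type} [Field K] [NumberField K] {S : Type} [Fintype S]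

/-- a maximal ideal which contains a point of the class does not contain `W` -/
private theorem ckbp_W_notMem (c : CPar K S) {eps k0 : ℝ} {w : ℕ} (hc : c.Valid eps k0 w)
    (B : ℕ) (x : Fin (2 + 1) → 𝓞 K) (hx : x ∈ c.p.XX B) (P : Ideal (𝓞 K)) (hP : P.IsMaximal)
    (hxP : ∀ i, x i ∈ P) : (c.p.W : 𝓞 K) ∉ P := by
  intro hW
  obtain ⟨u, a, b, hab⟩ := x_unimod c.p hc.pv B x hx
  apply hP.ne_top
  rw [Ideal.eq_top_iff_one, ← hab]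
  refine P.add_mem (P.mul_mem_left _ (P.sum_mem fun i _ => P.mul_mem_left _ (hxP i)))
    (P.mul_mem_left _ hW)

theorem bad_points (c : CPar K S) {eps k0 : ℝ} {w : ℕ} (hc : c.Valid eps k0 w)
    (E : ℝ) (hE : TailE K w E) :
    ∃ R0 : ℝ, 1 ≤ R0 ∧ ∀ R, R0 ≤ R → ∀ th : ℝ, 0 < th → th ≤ c.p.th1 →
      ∀ s : ℕ, c.p.Q ∣ c.p.W ^ s → ∀ᶠ H : ℝ in atTop,
        ((c.LP c.p.rho th s (c.p.XX (c.BB H) \ c.GC R H) H).ncard : ℝ) ≤
          (eps + 2 * E) * c.MT th s H := by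
  obtain ⟨R0, hR0, hR⟩ := bad_not_good c hc
  obtain ⟨z, hz⟩ := bad_large_prime c hc
  refine ⟨R0, hR0, ?_⟩
  intro R hRR th hth hth2 s hs
  filter_upwards [hR R hRR th hth s hs, hz th hth s hs,
    bad_medium_prime c hc E hE z th hth hth2 s hs] with H h1 h2 h3
  have hXX : (c.p.XX (c.BB H)).Finite := NKHP.XX_finite (by norm_num) c.p (c.BB H)
  have hsub : c.LP c.p.rho th s (c.p.XX (c.BB H) \ c.GC R H) H ⊆
      (c.LP c.p.rho th s {x | x ∈ c.p.XX (c.BB H) ∧ ¬ Good R (c.BB H) x} H ∪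
      c.LP c.p.rho th s {x | x ∈ c.p.XX (c.BB H) ∧ ∃ P : Ideal (𝓞 K), P.IsMaximal ∧
          z < Ideal.absNorm P ∧ ∀ i, x i ∈ P} H) ∪
      c.LP c.p.rho th s {x | x ∈ c.p.XX (c.BB H) ∧ ∃ P : Ideal (𝓞 K), P.IsMaximal ∧
        (c.p.W : 𝓞 K) ∉ P ∧ Ideal.absNorm P ≤ z ∧ ∀ i, x i ∈ P} H := by
    rintro q ⟨hq1, hq1', ⟨hq2, hq3⟩, hq4, hq5⟩
    by_cases hgood : Good R (c.BB H) q.2.2
    · have hprim : ¬ Prim q.2.2 := fun h => hq3 ⟨hq2, h, hgood⟩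
      obtain ⟨P, hP, hxP⟩ := exists_prime_of_not_prim q.2.2 hprim
      have hWP := ckbp_W_notMem c hc (c.BB H) q.2.2 hq2 P hP hxP
      rcases le_or_gt (Ideal.absNorm P) z with hlz | hlz
      · exact Or.inr ⟨hq1, hq1', ⟨hq2, P, hP, hWP, hlz, hxP⟩, hq4, hq5⟩
      · exact Or.inl (Or.inr ⟨hq1, hq1', ⟨hq2, P, hP, hlz, hxP⟩, hq4, hq5⟩)
    · exact Or.inl (Or.inl ⟨hq1, hq1', ⟨hq2, hgood⟩, hq4, hq5⟩)
  have hf1 := LP_finite c c.p.rho th s {x | x ∈ c.p.XX (c.BB H) ∧ ¬ Good R (c.BB H) x}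
    (hXX.subset fun x hx => hx.1) H
  have hf2 := LP_finite c c.p.rho th s {x | x ∈ c.p.XX (c.BB H) ∧ ∃ P : Ideal (𝓞 K),
    P.IsMaximal ∧ z < Ideal.absNorm P ∧ ∀ i, x i ∈ P} (hXX.subset fun x hx => hx.1) H
  have hf3 := LP_finite c c.p.rho th s {x | x ∈ c.p.XX (c.BB H) ∧ ∃ P : Ideal (𝓞 K),
    P.IsMaximal ∧ (c.p.W : 𝓞 K) ∉ P ∧ Ideal.absNorm P ≤ z ∧ ∀ i, x i ∈ P}
    (hXX.subset fun x hx => hx.1) H
  have h4 := Set.ncard_le_ncard hsub ((hf1.union hf2).union hf3)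
  have h5 := h4.trans (Set.ncard_union_le _ _)
  have h6 := h5.trans (Nat.add_le_add_right (Set.ncard_union_le _ _) _)
  have h7 : ((c.LP c.p.rho th s (c.p.XX (c.BB H) \ c.GC R H) H).ncard : ℝ) ≤
      ((c.LP c.p.rho th s {x | x ∈ c.p.XX (c.BB H) ∧ ¬ Good R (c.BB H) x} H).ncard : ℝ) +
      ((c.LP c.p.rho th s {x | x ∈ c.p.XX (c.BB H) ∧ ∃ P : Ideal (𝓞 K), P.IsMaximal ∧
          z < Ideal.absNorm P ∧ ∀ i, x i ∈ P} H).ncard : ℝ) +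
      ((c.LP c.p.rho th s {x | x ∈ c.p.XX (c.BB H) ∧ ∃ P : Ideal (𝓞 K), P.IsMaximal ∧
        (c.p.W : 𝓞 K) ∉ P ∧ Ideal.absNorm P ≤ z ∧ ∀ i, x i ∈ P} H).ncard : ℝ) := by
    exact_mod_cast h6
  refine h7.trans ?_
  have h8 : (eps + 2 * E) * c.MT th s H =
      eps / 2 * c.MT th s H + eps / 2 * c.MT th s H + 2 * E * c.MT th s H := by ring
  rw [h8]
  linarith

end NKCHP
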