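import Pool.Agent.Lib.MP_e426f4_ag.CK.Defs
import Pool.Agent.Lib.MP_e426f4_ag.NK.Basic

/-!
CK-Basic: algebra of evR, finiteness, the tail condition. Templates: C/Ev.lean, NK/Basic.lean, N/Sg.lean, N/Const.lean.
lam_mulR: lam is linear and lam of the coordinates of b_k b_l is sg w (b_k b_l) = sg w b_k sg w b_l (NFHP.lam_crd), bilinearity. sg_ev, F_ev_sg: ConicHP.F_ev, map_sum, NFHP.F_sg. mulR_le: |lam (mulR a b) w| <= cK alpha * beta, then NFHP.abs_le_of_lam. evR_le: sum over s, then cS = card S cK^2.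
TailE.sq: N >= 1 and 1 + 1/m <= 2 (m = mK K >= 1): Real.rpow_le_rpow_of_exponent_le. Finiteness: the sets are subsets of products of c.Cl r H (finite: coordinates bounded, N.CubeCount / NKHP.sys_finite idea), {i < JJ H} and GC (NKHP.GG_finite with r = 1 <= 2 + 1); LP: St finite.
-/

namespace NKCHP

open NumberField GenHP NFHP NKHP Finset Filter Topology
open ConicHP (ev JJ)

variable {K : Type} [Field K] [NumberField K] {S : Type} [Fintype S]

theorem lam_mulR (a b : IK K → ℝ) (w : InfinitePlace K) :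
    lam (mulR a b) w = lam a w * lam b w := by
  have h : ∀ k l : IK K, sg w (RingOfIntegers.basis K k * RingOfIntegers.basis K l) =
      ∑ j, (crd (RingOfIntegers.basis K k * RingOfIntegers.basis K l) j : ℂ) *
        sg w (RingOfIntegers.basis K j) := by
    intro k l
    rw [← lam_crd]
    unfold lam
    refine Finset.sum_congr rfl fun j _ => ?_
    push_cast
    rfl
  calc lam (mulR a b) w = ∑ j, ∑ k, ∑ l, (a k : ℂ) * (b l : ℂ) *
        (crd (RingOfIntegers.basis K k * RingOfIntegers.basis K l) j : ℂ) *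
        sg w (RingOfIntegers.basis K j) := by
        unfold lam mulR
        refine Finset.sum_congr rfl fun j _ => ?_
        push_cast
        rw [Finset.sum_mul]
        refine Finset.sum_congr rfl fun k _ => ?_
        rw [Finset.sum_mul]
    _ = ∑ k, ∑ l, ∑ j, (a k : ℂ) * (b l : ℂ) *
        (crd (RingOfIntegers.basis K k * RingOfIntegers.basis K l) j : ℂ) *
        sg w (RingOfIntegers.basis K j) := by
        rw [Finset.sum_comm]
        refine Finset.sum_congr rfl fun k _ => ?_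
        rw [Finset.sum_comm]
    _ = ∑ k, ∑ l, (a k : ℂ) * (b l : ℂ) *
        sg w (RingOfIntegers.basis K k * RingOfIntegers.basis K l) := by
        refine Finset.sum_congr rfl fun k _ => Finset.sum_congr rfl fun l _ => ?_
        rw [h k l, Finset.mul_sum]
        refine Finset.sum_congr rfl fun j _ => ?_
        ring
    _ = lam a w * lam b w := by
        unfold lam
        rw [Finset.sum_mul_sum]
        refine Finset.sum_congr rfl fun k _ => Finset.sum_congr rfl fun l _ => ?_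
        rw [map_mul]
        ring

private theorem lam_sumR {I : Type} [Fintype I] (f : I → IK K → ℝ) (w : InfinitePlace K) :
    lam (fun j => ∑ i, f i j) w = ∑ i, lam (f i) w := by
  unfold lam
  rw [Finset.sum_comm]
  refine Finset.sum_congr rfl fun j _ => ?_
  push_cast
  rw [Finset.sum_mul]

theorem lam_evR (A : Idx 2 2 × S → IK K → ℝ) (v : S → IK K → ℝ) (t : Idx 2 2)
    (w : InfinitePlace K) :
    lam (evR A v t) w = ev (fun m => lam (A m) w) (fun s => lam (v s) w) t := by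
  unfold evR
  rw [lam_sumR]
  unfold ev
  exact Finset.sum_congr rfl fun s _ => lam_mulR _ _ w

theorem sg_ev (w : InfinitePlace K) (A : Idx 2 2 × S → 𝓞 K) (v : S → 𝓞 K) (t : Idx 2 2) :
    sg w (ev A v t) = ev (fun m => sg w (A m)) (fun s => sg w (v s)) t := by
  unfold ev
  rw [map_sum]
  exact Finset.sum_congr rfl fun s _ => map_mul _ _ _

theorem F_ev_sg (w : InfinitePlace K) (A : Idx 2 2 × S → 𝓞 K) (v : S → 𝓞 K)
    (x : Fin (2 + 1) → 𝓞 K) :
    F (ev (fun m => sg w (A m)) (fun s => sg w (v s))) (fun i => sg w (x i)) =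
      sg w (F (ev A v) x) := by
  rw [← F_sg]
  congr 1
  funext t
  exact (sg_ev w A v t).symm

theorem ev_congr_dvd (N : 𝓞 K) (A A' : Idx 2 2 × S → 𝓞 K) (v v' : S → 𝓞 K)
    (hA : ∀ m, N ∣ A m - A' m) (hv : ∀ s, N ∣ v s - v' s) (t : Idx 2 2) :
    N ∣ ev A v t - ev A' v' t := by
  simp only [ev]
  rw [← Finset.sum_sub_distrib]
  refine Finset.dvd_sum fun s _ => ?_
  have h : A (t, s) * v s - A' (t, s) * v' s =
      (A (t, s) - A' (t, s)) * v s + A' (t, s) * (v s - v' s) := by ring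
  rw [h]
  exact dvd_add (Dvd.dvd.mul_right (hA _) _) (Dvd.dvd.mul_left (hv _) _)

theorem mulR_le (a b : IK K → ℝ) (α β : ℝ) (ha : ∀ j, |a j| ≤ α) (hb : ∀ w, ‖lam b w‖ ≤ β)
    (j : IK K) : |mulR a b j| ≤ cK K ^ 2 * (α * β) := by
  have h1 := abs_le_of_lam (mulR a b) (cK K * α * β) (fun w => by
    rw [lam_mulR, norm_mul]
    have h2 := norm_lam_le a α ha w
    exact mul_le_mul h2 (hb w) (norm_nonneg _) ((norm_nonneg _).trans h2)) j
  calc |mulR a b j| ≤ cK K * (cK K * α * β) := h1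
    _ = cK K ^ 2 * (α * β) := by ring

theorem evR_le (A : Idx 2 2 × S → IK K → ℝ) (v : S → IK K → ℝ) (α β : ℝ)
    (ha : ∀ m j, |A m j| ≤ α) (hb : ∀ s w, ‖lam (v s) w‖ ≤ β) (t : Idx 2 2) (j : IK K) :
    |evR A v t j| ≤ cS K S * (α * β) := by
  unfold evR
  refine (Finset.abs_sum_le_sum_abs _ _).trans ?_
  calc ∑ s, |mulR (A (t, s)) (v s) j| ≤ ∑ _s : S, cK K ^ 2 * (α * β) :=
        Finset.sum_le_sum fun s _ => mulR_le _ _ α β (ha _) (hb s) j
    _ = cS K S * (α * β) := by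
        rw [Finset.sum_const, Finset.card_univ, nsmul_eq_mul]
        unfold cS
        ring

theorem TailE.sq {w : ℕ} {E : ℝ} (h : TailE K w E) (T : Finset (Ideal (𝓞 K)))
    (hT : ∀ I ∈ T, w < Ideal.absNorm I) :
    ∑ I ∈ T, 1 / (Ideal.absNorm I : ℝ) ^ 2 ≤ E := by
  refine le_trans (Finset.sum_le_sum fun I hI => ?_) (h T hT)
  have h1 : 1 ≤ Ideal.absNorm I := by
    have := hT I hI
    omega
  have h2 : (1 : ℝ) ≤ Ideal.absNorm I := by exact_mod_cast h1
  have h3 : (1 : ℝ) ≤ mK K := by exact_mod_cast (mK_pos (K := K))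
  have h4 : 1 + 1 / (mK K : ℝ) ≤ 2 := by
    have : 1 / (mK K : ℝ) ≤ 1 := by
      rw [div_le_one (by linarith)]
      exact h3
    linarith
  have h5 : (Ideal.absNorm I : ℝ) ^ (1 + 1 / (mK K : ℝ)) ≤ (Ideal.absNorm I : ℝ) ^ 2 := by
    calc (Ideal.absNorm I : ℝ) ^ (1 + 1 / (mK K : ℝ)) ≤ (Ideal.absNorm I : ℝ) ^ (2 : ℝ) :=
          Real.rpow_le_rpow_of_exponent_le h2 h4
      _ = (Ideal.absNorm I : ℝ) ^ 2 := by
          rw [← Real.rpow_natCast]
          norm_num
  exact one_div_le_one_div_of_le (Real.rpow_pos_of_pos (by linarith) _) h5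

theorem finite_of_norm_le {I : Type} [Fintype I] (T : Set (I → 𝓞 K)) (C : ℝ)
    (h : ∀ A ∈ T, ∀ m w, ‖sg w (A m)‖ ≤ C) : T.Finite :=
  (Set.Finite.pi' fun _ : I => CIn_finite (K := K) (cK K * C)).subset fun A hA m =>
    CIn_of_norm (h A hA m)

theorem Cl_finite (c : CPar K S) (r H : ℝ) : (c.Cl r H).Finite :=
  (Set.Finite.pi' fun m : Idx 2 2 × S =>
    cube_finite (K := K) (fun j => H * c.AC m j) (r * H)).subset fun _ hA m j => hA.1 m j

theorem GC_finite (c : CPar K S) (R H : ℝ) : (c.GC R H).Finite :=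
  NKHP.GG_finite (by norm_num) c.p R _

theorem Pairs_finite (c : CPar K S) (r R H : ℝ) : (c.Pairs r R H).Finite :=
  ((Cl_finite c r H).prod ((Set.finite_lt_nat (JJ H)).prod (GC_finite c R H))).subset
    fun _ hq => ⟨hq.1, hq.2.1, hq.2.2.1⟩

theorem LP_finite (c : CPar K S) (r th : ℝ) (s : ℕ) (St : Set (Fin (2 + 1) → 𝓞 K))
    (hS : St.Finite) (H : ℝ) : (c.LP r th s St H).Finite :=
  ((Cl_finite c r H).prod ((Set.finite_lt_nat (JJ H)).prod hS)).subset
    fun _ hq => ⟨hq.1, hq.2.1, hq.2.2.1⟩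

theorem TSame_finite (c : CPar K S) (R H : ℝ) : (c.TSame R H).Finite :=
  ((Cl_finite c c.p.rho H).prod ((Set.finite_lt_nat (JJ H)).prod
    ((GC_finite c R H).prod (GC_finite c R H)))).subset
    fun _ hq => ⟨hq.1, hq.2.1, hq.2.2.1, hq.2.2.2.1⟩

theorem TSx_finite (c : CPar K S) (R H : ℝ) : (c.TSx R H).Finite :=
  ((Cl_finite c c.p.rho H).prod ((Set.finite_lt_nat (JJ H)).prod
    ((Set.finite_lt_nat (JJ H)).prod (GC_finite c R H)))).subset
    fun _ hq => ⟨hq.1, hq.2.1, hq.2.2.1, hq.2.2.2.2.1⟩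

theorem TBad_finite (c : CPar K S) (R : ℝ) (G : ℕ) (tau H : ℝ) :
    (c.TBad R G tau H).Finite :=
  ((Cl_finite c c.p.rho H).prod (((Set.finite_lt_nat (JJ H)).prod (GC_finite c R H)).prod
    ((Set.finite_lt_nat (JJ H)).prod (GC_finite c R H)))).subset
    fun _ hq => ⟨hq.1, ⟨hq.2.1, hq.2.2.2.2.1⟩, hq.2.2.1, hq.2.2.2.2.2.1⟩

theorem TMain_finite (c : CPar K S) (R : ℝ) (G : ℕ) (tau H : ℝ) :
    (c.TMain R G tau H).Finite :=
  ((Cl_finite c c.p.rho H).prod (((Set.finite_lt_nat (JJ H)).prod (GC_finite c R H)).prod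
    ((Set.finite_lt_nat (JJ H)).prod (GC_finite c R H)))).subset
    fun _ hq => ⟨hq.1, ⟨hq.2.1, hq.2.2.2.2.1⟩, hq.2.2.1, hq.2.2.2.2.2.1⟩

end NKCHP
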