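import Pool.Agent.Lib.MP_e426f4_ag.CK.ClassThm

/-! Module CK-ClassGen: the class theorem for families of conics over a number field, with `2`
replaced by variables. -/

set_option linter.unusedSectionVars false

namespace NKCHP

open NumberField GenHP NFHP NKHP Finset Filter Topology
open ConicHP (ev JJ)

/-- value along a vector, general format of the coefficients -/
def evgK {S : Type*} [Fintype S] {R : Type*} [CommRing R] {a b : ℕ} (A : Idx a b × S → R)
    (v : S → R) : Idx a b → R := fun t => ∑ s, A (t, s) * v s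

/-- one form as a system -/
def syg {a b : ℕ} {R : Type*} (A : Idx a b → R) : CIHP.Sys a (fun _ : Fin 1 => b) R := fun _ => A

/-- the fibre over `v` in real coordinates -/
noncomputable def evgR {K : Type} [Field K] [NumberField K] {S : Type} [Fintype S] {a b : ℕ}
    (A : Idx a b × S → IK K → ℝ) (v : S → IK K → ℝ) (t : Idx a b) : IK K → ℝ :=
  fun j => ∑ s, mulR (A (t, s)) (v s) j

/-- some fibre of the family has a zero over `K` -/
def FSolg {K : Type} [Field K] [NumberField K] {S : Type} [Fintype S] {a b : ℕ}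
    (v : ℕ → ℕ → S → 𝓞 K) (A : Idx a b × S → 𝓞 K) : Prop :=
  ∃ J i, ∃ x : Fin (a + 1) → 𝓞 K, x ≠ 0 ∧ F (evgK A (v J i)) x = 0

theorem class_thm_genK (K : Type) [Field K] [NumberField K] (a b : ℕ) (ha : a = 2) (hb2 : b = 2)
    (S : Type) [Fintype S] [Nonempty S] (eps : ℝ) (he : 0 < eps) :
    ∃ w1 : ℕ, ∀ w : ℕ, w1 ≤ w → 2 ≤ w → ∀ bet : ℝ, 0 < bet → bet ≤ 1 →
    ∃ rho0 : ℝ, 0 < rho0 ∧ rho0 ≤ 1 ∧ ∀ rho : ℝ, 0 < rho → rho ≤ rho0 → ∀ k : ℕ, 1 ≤ k →
      ∀ (om : S → IK K → ℝ) (v : ℕ → ℕ → S → 𝓞 K) (V : ℕ → ℕ) (D0 : ℕ) (s0 : S) (k1 : ℝ),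
      FamValid ((primorial w) ^ (2 * k)) (primorial w) om v V D0 s0 k1 →
      ∀ A0 : Idx a b × S → 𝓞 K,
      (∀ P : Ideal (𝓞 K), P.IsMaximal → (primorial w : 𝓞 K) ∈ P →
        GoodPS P (k * vW (primorial w) P) (syg (evgK A0 (v 0 0)))) →
      ∀ (AC AI : Idx a b × S → IK K → ℝ), (∀ m j, |AI m j| ≤ 1) →
      (∀ m j, |AC m j - AI m j| ≤ rho) →
      (∀ w', GoodIS w' rho0 bet (syg (fun t => lam (evgR AI om t) w'))) →
      ∀ᶠ H : ℝ in atTop,
        (Set.ncard {A : Idx a b × S → 𝓞 K | (∀ m j, |(crd (A m) j : ℝ) - H * AC m j| ≤ rho * H) ∧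
          (∀ m, (((primorial w) ^ (2 * k) : ℕ) : 𝓞 K) ∣ A m - A0 m) ∧ ¬ FSolg v A} : ℝ) ≤
          eps * (2 * rho * H / ((primorial w : ℝ)) ^ (2 * k)) ^
            (mK K * Fintype.card (Idx a b × S)) := by
  subst ha
  subst hb2
  exact class_thm K S eps he

end NKCHP
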