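import Pool.Agent.Lib.MP_e426f4_ag.CK.Basic
import Pool.Agent.Lib.MP_e426f4_ag.N.Ideals
import Pool.Agent.Lib.MP_e426f4_ag.N.Lat

/-!
CK-IdealSums: sums over ideals. Template: N/Ideals.lean. First re-prove its private lemma count_le (copy the proof): #{I /= bot : N I <= x} <= C x for x >= 1. Dyadic sums: #{2^k < N <= 2^(k+1)} <= C 2^(k+1), so the sum of N^-a over N > 2^K0 is <= C sum_{k>=K0} 2^(k+1) 2^(-ka), a > 1;
sum of 1/N over N <= X: sum over k <= log_2 X of 2C <= C' (1 + log X).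
-/

namespace NKCHP

open NumberField GenHP NFHP NKHP Finset Filter Topology
open ConicHP (ev JJ)

variable {K : Type} [Field K] [NumberField K]

private theorem is_fin_le (x : ℝ) : {I : Ideal (𝓞 K) | (Ideal.absNorm I : ℝ) ≤ x}.Finite := by
  refine (Ideal.finite_setOfPred_absNorm_le (S := 𝓞 K) ⌊x⌋₊).subset fun I h => ?_
  have h' : (Ideal.absNorm I : ℝ) ≤ x := h
  exact Nat.le_floor h'

private theorem is_count_le (K : Type) [Field K] [NumberField K] :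
    ∃ C : ℝ, 0 < C ∧ ∀ x : ℝ, 1 ≤ x →
    (Set.ncard {I : Ideal (𝓞 K) | (Ideal.absNorm I : ℝ) ≤ x} : ℝ) ≤ C * x := by
  have hlim := NumberField.Ideal.tendsto_norm_le_div_atTop K
  set L := (2 ^ InfinitePlace.nrRealPlaces K * (2 * Real.pi) ^ InfinitePlace.nrComplexPlaces K *
    Units.regulator K * classNumber K) / (Units.torsionOrder K * Real.sqrt |discr K|) with hL
  have h1 := hlim.eventually (gt_mem_nhds (lt_add_one L))
  obtain ⟨x0, hx0⟩ := (h1.and (eventually_ge_atTop 1)).exists_forall_of_atTop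
  have hx1 : 1 ≤ x0 := (hx0 x0 le_rfl).2
  set M : ℝ := (Set.ncard {I : Ideal (𝓞 K) | (Ideal.absNorm I : ℝ) ≤ x0} : ℝ) with hM
  refine ⟨|L + 1| + M + 1, by positivity, fun x hx => ?_⟩
  rcases le_total x0 x with h | h
  · have h2 := (hx0 x h).1
    rw [div_lt_iff₀ (by linarith)] at h2
    have h3 : (Nat.card {I : Ideal (𝓞 K) // (Ideal.absNorm I : ℝ) ≤ x} : ℝ) =
        (Set.ncard {I : Ideal (𝓞 K) | (Ideal.absNorm I : ℝ) ≤ x} : ℝ) := rfl
    rw [← h3]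
    have hMn : 0 ≤ M := by positivity
    nlinarith [le_abs_self (L + 1)]
  · have h2 : (Set.ncard {I : Ideal (𝓞 K) | (Ideal.absNorm I : ℝ) ≤ x} : ℝ) ≤ M := by
      rw [hM]
      exact_mod_cast Set.ncard_le_ncard (fun I hI => le_trans (show (Ideal.absNorm I : ℝ) ≤ x
        from hI) h) (is_fin_le x0)
    have hMn : 0 ≤ M := by positivity
    nlinarith [abs_nonneg (L + 1)]

/-- dyadic decomposition -/
private theorem is_dyad (K : Type) [Field K] [NumberField K] : ∃ C : ℝ, 0 < C ∧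
    ∀ a : ℝ, 0 ≤ a → ∀ (M : ℕ) (T : Finset (Ideal (𝓞 K))),
      (∀ I ∈ T, I ≠ ⊥ ∧ Nat.log 2 (Ideal.absNorm I) < M) →
      ∑ I ∈ T, 1 / (Ideal.absNorm I : ℝ) ^ a ≤
        ∑ k ∈ Finset.range M, 2 * C * ((2 : ℝ) ^ (1 - a)) ^ k := by
  classical
  obtain ⟨C, hC, hcount⟩ := is_count_le K
  refine ⟨C, hC, fun a ha M T hT => ?_⟩
  have hmaps : ∀ I ∈ T, Nat.log 2 (Ideal.absNorm I) ∈ Finset.range M := fun I hI =>
    Finset.mem_range.mpr (hT I hI).2
  rw [← Finset.sum_fiberwise_of_maps_to hmaps]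
  refine Finset.sum_le_sum fun k _ => ?_
  have h1 : ∀ I ∈ T.filter (fun I => Nat.log 2 (Ideal.absNorm I) = k),
      1 / (Ideal.absNorm I : ℝ) ^ a ≤ 1 / ((2 : ℝ) ^ k) ^ a := by
    intro I hI
    rw [Finset.mem_filter] at hI
    have h0 : Ideal.absNorm I ≠ 0 := (absNorm_pos (hT I hI.1).1).ne'
    have h2 : 2 ^ k ≤ Ideal.absNorm I := by
      rw [← hI.2]
      exact Nat.pow_log_le_self 2 h0
    have h3 : (2 : ℝ) ^ k ≤ Ideal.absNorm I := by exact_mod_cast h2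
    exact one_div_le_one_div_of_le (by positivity) (Real.rpow_le_rpow (by positivity) h3 ha)
  have h2 : ((T.filter (fun I => Nat.log 2 (Ideal.absNorm I) = k)).card : ℝ) ≤
      C * 2 ^ (k + 1) := by
    refine le_trans ?_ (hcount (2 ^ (k + 1)) (one_le_pow₀ (by norm_num)))
    rw [← Set.ncard_coe_finset]
    refine Nat.cast_le.mpr (Set.ncard_le_ncard (fun I hI => ?_) (is_fin_le _))
    have hI' := Finset.mem_filter.mp (Finset.mem_coe.mp hI)
    show (Ideal.absNorm I : ℝ) ≤ 2 ^ (k + 1)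
    have h3 : Ideal.absNorm I < 2 ^ (k + 1) := by
      rw [← hI'.2]
      exact Nat.lt_pow_succ_log_self (by norm_num) _
    exact_mod_cast h3.le
  have h5 : ((2 : ℝ) ^ k) ^ a = ((2 : ℝ) ^ a) ^ k := by
    rw [← Real.rpow_natCast, ← Real.rpow_mul (by norm_num), mul_comm, Real.rpow_mul (by norm_num),
      Real.rpow_natCast]
  have h6 : (2 : ℝ) ^ (1 - a) = 2 / (2 : ℝ) ^ a := by
    rw [Real.rpow_sub (by norm_num), Real.rpow_one]
  calc ∑ I ∈ T with Nat.log 2 (Ideal.absNorm I) = k, 1 / (Ideal.absNorm I : ℝ) ^ a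
      ≤ (T.filter (fun I => Nat.log 2 (Ideal.absNorm I) = k)).card • (1 / ((2 : ℝ) ^ k) ^ a) :=
        Finset.sum_le_card_nsmul _ _ _ h1
    _ = (T.filter (fun I => Nat.log 2 (Ideal.absNorm I) = k)).card * (1 / ((2 : ℝ) ^ k) ^ a) := by
        rw [nsmul_eq_mul]
    _ ≤ C * 2 ^ (k + 1) * (1 / ((2 : ℝ) ^ k) ^ a) :=
        mul_le_mul_of_nonneg_right h2 (by positivity)
    _ = 2 * C * ((2 : ℝ) ^ (1 - a)) ^ k := by
        rw [h5, h6, div_pow, pow_succ]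
        ring

/-- sums of `N(I)^(-a)`, `a > 1` -/
theorem ideal_sum_rpow (K : Type) [Field K] [NumberField K] (a : ℝ) (ha : 1 < a) :
    ∃ Z : ℝ, 1 ≤ Z ∧ ∀ T : Finset (Ideal (𝓞 K)), (∀ I ∈ T, I ≠ ⊥) →
      ∑ I ∈ T, 1 / (Ideal.absNorm I : ℝ) ^ a ≤ Z := by
  obtain ⟨C, hC, h⟩ := is_dyad K
  have hρ0 : 0 ≤ (2 : ℝ) ^ (1 - a) := by positivity
  have hρ1 : (2 : ℝ) ^ (1 - a) < 1 := Real.rpow_lt_one_of_one_lt_of_neg (by norm_num) (by linarith)
  have hpos : 0 < (1 - (2 : ℝ) ^ (1 - a))⁻¹ := inv_pos.mpr (by linarith)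
  refine ⟨2 * C * (1 - (2 : ℝ) ^ (1 - a))⁻¹ + 1, by nlinarith [mul_pos hC hpos], fun T hT => ?_⟩
  set M := T.sup (fun I => Nat.log 2 (Ideal.absNorm I)) + 1 with hM
  have h1 := h a (by linarith) M T fun I hI => ⟨hT I hI, by
    rw [hM]
    exact Nat.lt_succ_of_le (Finset.le_sup (f := fun I => Nat.log 2 (Ideal.absNorm I)) hI)⟩
  refine h1.trans ?_
  rw [← Finset.mul_sum]
  have h2 : ∑ k ∈ Finset.range M, ((2 : ℝ) ^ (1 - a)) ^ k ≤ (1 - (2 : ℝ) ^ (1 - a))⁻¹ :=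
    (summable_geometric_of_lt_one hρ0 hρ1).sum_le_tsum _ (fun k _ => pow_nonneg hρ0 k)
      |>.trans_eq (tsum_geometric_of_lt_one hρ0 hρ1)
  have h3 := mul_le_mul_of_nonneg_left h2 (by positivity : 0 ≤ 2 * C)
  linarith

theorem ideal_tail_rpow (K : Type) [Field K] [NumberField K] (a : ℝ) (ha : 1 < a) (e : ℝ)
    (he : 0 < e) : ∃ G : ℕ, 1 ≤ G ∧ ∀ T : Finset (Ideal (𝓞 K)),
      (∀ I ∈ T, G < Ideal.absNorm I) → ∑ I ∈ T, 1 / (Ideal.absNorm I : ℝ) ^ a ≤ e := by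
  classical
  obtain ⟨Z, -, hZ⟩ := ideal_sum_rpow K a ha
  have hs : Summable fun I : Ideal (𝓞 K) => 1 / (Ideal.absNorm I : ℝ) ^ a := by
    refine summable_of_sum_le (c := Z) (fun I => by positivity) fun S => ?_
    have h1 : ∑ I ∈ S, 1 / (Ideal.absNorm I : ℝ) ^ a =
        ∑ I ∈ S.filter (fun I => I ≠ ⊥), 1 / (Ideal.absNorm I : ℝ) ^ a := by
      rw [Finset.sum_filter_of_ne]
      intro I _ hne h0
      rw [h0, Ideal.absNorm_bot, Nat.cast_zero, Real.zero_rpow (by linarith)] at hne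
      simp at hne
    rw [h1]
    exact hZ _ fun I hI => (Finset.mem_filter.mp hI).2
  obtain ⟨T, hT⟩ := summable_iff_vanishing_norm.mp hs e he
  refine ⟨T.sup Ideal.absNorm + 1, by omega, fun S hS => ?_⟩
  have h1 := hT S (Finset.disjoint_left.mpr fun I hI hIT => by
    have h2 := hS I hI
    have h3 : Ideal.absNorm I ≤ T.sup Ideal.absNorm := Finset.le_sup hIT
    omega)
  exact (le_abs_self _).trans h1.le

/-- sums of `1 / N(I)` -/
theorem ideal_sum_log (K : Type) [Field K] [NumberField K] :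
    ∃ C : ℝ, 0 < C ∧ ∀ X : ℝ, 1 ≤ X → ∀ T : Finset (Ideal (𝓞 K)),
      (∀ I ∈ T, I ≠ ⊥ ∧ (Ideal.absNorm I : ℝ) ≤ X) →
      ∑ I ∈ T, 1 / (Ideal.absNorm I : ℝ) ≤ C * (1 + Real.log X) := by
  obtain ⟨C, hC, h⟩ := is_dyad K
  refine ⟨4 * C, by positivity, fun X hX T hT => ?_⟩
  have hlog : 0 ≤ Real.log X := Real.log_nonneg hX
  have h2pos : 0 < Real.log 2 := Real.log_pos (by norm_num)
  set M : ℕ := ⌊Real.log X / Real.log 2⌋₊ + 1 with hM
  have h1 := h 1 zero_le_one M T fun I hI => ⟨(hT I hI).1, by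
    rw [hM, Nat.lt_succ_iff]
    apply Nat.le_floor
    rw [le_div_iff₀ h2pos]
    have h0 : Ideal.absNorm I ≠ 0 := (absNorm_pos (hT I hI).1).ne'
    have h2 : 2 ^ Nat.log 2 (Ideal.absNorm I) ≤ Ideal.absNorm I := Nat.pow_log_le_self 2 h0
    have h3 : (2 : ℝ) ^ Nat.log 2 (Ideal.absNorm I) ≤ X := by
      refine le_trans ?_ (hT I hI).2
      exact_mod_cast h2
    rw [← Real.log_pow]
    exact Real.log_le_log (by positivity) h3⟩
  have h2 : ∑ I ∈ T, 1 / (Ideal.absNorm I : ℝ) = ∑ I ∈ T, 1 / (Ideal.absNorm I : ℝ) ^ (1 : ℝ) := by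
    refine Finset.sum_congr rfl fun I _ => ?_
    rw [Real.rpow_one]
  rw [h2]
  refine h1.trans ?_
  have h3 : ∑ k ∈ Finset.range M, 2 * C * ((2 : ℝ) ^ ((1 : ℝ) - 1)) ^ k = M * (2 * C) := by
    rw [sub_self, Real.rpow_zero]
    simp
  rw [h3]
  have h4 : (M : ℝ) ≤ 2 * (1 + Real.log X) := by
    rw [hM]
    push_cast
    have h5 : (⌊Real.log X / Real.log 2⌋₊ : ℝ) ≤ Real.log X / Real.log 2 :=
      Nat.floor_le (by positivity)
    have h6 : Real.log X / Real.log 2 ≤ 2 * Real.log X := by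
      rw [div_le_iff₀ h2pos]
      have := Real.log_two_gt_d9
      nlinarith
    linarith
  nlinarith

end NKCHP
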