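import Pool.Agent.Lib.MP_e426f4_ag.CK.SecondMoment
import Pool.Agent.Lib.MP_e426f4_ag.CK.IdealSums
import Pool.Agent.Lib.MP_e426f4_ag.NK.RealCount
import Pool.Agent.Lib.MP_e426f4_ag.NK.HensLocal
import Pool.Agent.Lib.MP_e426f4_ag.NK.Dirs
import Pool.Agent.Lib.MP_e426f4_ag.N.Dir

/-!
CK-ClassThm: the class theorem for families of conics. Templates: NK/ClassThm.lean (choice of u, h, xi, kap, rho0, th1, vg, P, x0; here r = 1, n = 2, e = 2), C/ClassThm.lean. E = eps/40: ideal_tail_rpow (a = 1 + 1/m) gives w1; eps' = min(1/10, eps/400). The fibre data: Ainf 0 t j = evR AI om t j/cS K S (|.| <= 1: evR_le with |AI| <= 1, |om|_w <= 1),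
lam (Ainf 0 t) w = ev (lam AI) (lam om) t/cS (lam_evR), so F, D of the fibre at the point z_w of GoodIS are divided by cS (F_smul, D_smul): real_count with bet' = bet v0'/cS (v0' from exists_dirs), rho0 of the theorem = min 1 (cS rho0') suitable (|F| <= rho0 gives |F|/cS <= rho0'; cS >= 1, so rho0 = rho0' works). p.A0 0 = ev A0 (v 0 0), hens_of_local for sy (ev A0 (v 0 0)).
C0 of the Par is irrelevant (take 1). Valid: AI_le, AC_near, Ainf_eq (multiply by cS), A0_congr (difference 0).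
-/

namespace NKCHP

open NumberField GenHP NFHP NKHP Finset Filter Topology
open ConicHP (ev JJ)

private theorem ct_cS (K : Type) [Field K] [NumberField K] (S : Type) [Fintype S] [Nonempty S] :
    1 ≤ cS K S := by
  unfold cS
  have h1 : (1 : ℝ) ≤ Fintype.card S := by
    have : 0 < Fintype.card S := Fintype.card_pos
    exact_mod_cast this
  have h2 : 1 ≤ cK K ^ 2 := one_le_pow₀ one_le_cK
  nlinarith

theorem class_thm (K : Type) [Field K] [NumberField K] (S : Type) [Fintype S] [Nonempty S]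
    (eps : ℝ) (he : 0 < eps) :
    ∃ w1 : ℕ, ∀ w : ℕ, w1 ≤ w → 2 ≤ w → ∀ bet : ℝ, 0 < bet → bet ≤ 1 →
    ∃ rho0 : ℝ, 0 < rho0 ∧ rho0 ≤ 1 ∧ ∀ rho : ℝ, 0 < rho → rho ≤ rho0 → ∀ k : ℕ, 1 ≤ k →
      ∀ (om : S → IK K → ℝ) (v : ℕ → ℕ → S → 𝓞 K) (V : ℕ → ℕ) (D0 : ℕ) (s0 : S) (k1 : ℝ),
      FamValid ((primorial w) ^ (2 * k)) (primorial w) om v V D0 s0 k1 →
      ∀ A0 : Idx 2 2 × S → 𝓞 K,
      (∀ P : Ideal (𝓞 K), P.IsMaximal → (primorial w : 𝓞 K) ∈ P →
        GoodPS P (k * vW (primorial w) P) (sy (ev A0 (v 0 0)))) →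
      ∀ (AC AI : Idx 2 2 × S → IK K → ℝ), (∀ m j, |AI m j| ≤ 1) →
      (∀ m j, |AC m j - AI m j| ≤ rho) →
      (∀ w', GoodIS w' rho0 bet (sy (fun t => lam (evR AI om t) w'))) →
      ∀ᶠ H : ℝ in atTop,
        (Set.ncard {A : Idx 2 2 × S → 𝓞 K | (∀ m j, |(crd (A m) j : ℝ) - H * AC m j| ≤ rho * H) ∧
          (∀ m, (((primorial w) ^ (2 * k) : ℕ) : 𝓞 K) ∣ A m - A0 m) ∧ ¬ FSol v A} : ℝ) ≤
          eps * (2 * rho * H / ((primorial w : ℝ)) ^ (2 * k)) ^ (mK K * MM S) := by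
  have hcS : 1 ≤ cS K S := ct_cS K S
  have hcS0 : 0 < cS K S := by linarith
  have hm0 : 0 < (mK K : ℝ) := by exact_mod_cast (mK_pos (K := K))
  obtain ⟨G, hG, hGS⟩ := ideal_tail_rpow K (1 + 1 / (mK K : ℝ))
    (by have : 0 < 1 / (mK K : ℝ) := by positivity
        linarith) (eps / 40) (by positivity)
  refine ⟨G, fun w hGw hw bet hb hb1 => ?_⟩
  have hE : TailE K w (eps / 40) := fun T hT => hGS T fun I hI => lt_of_le_of_lt hGw (hT I hI)
  set e1 : ℝ := min (1 / 10) (eps / 400) with he1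
  have he10 : 0 < e1 := lt_min (by norm_num) (by positivity)
  have he11 : e1 ≤ 1 / 10 := min_le_left _ _
  have he12 : e1 ≤ eps / 400 := min_le_right _ _
  obtain ⟨v0, hv0, hv1, hdir⟩ := exists_dir 2 (mK K) mK_pos
  obtain ⟨v0', hv0', hv1', hdirs⟩ := exists_dirs 2 1 (mK K) (by norm_num) mK_pos
  have hbc : 0 < bet / cS K S := by positivity
  have hbc1 : bet / cS K S ≤ 1 := by
    rw [div_le_one hcS0]
    linarith
  have hbv : 0 < bet / cS K S * v0' := mul_pos hbc hv0'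
  have hbv1 : bet / cS K S * v0' ≤ 1 := mul_le_one₀ hbc1 hv0'.le hv1'
  obtain ⟨kap, hkap, hkap1, rho0, th1, hrho0, hrho01, hth1, hRC⟩ :=
    real_count K 2 e22 le_rfl (by norm_num) (fun i => by norm_num) e1 (bet / cS K S * v0') v0
      he10 he11 hbv hbv1 hv0 hv1
  refine ⟨rho0, hrho0, hrho01, fun rho hrho hrho' k hk om v V D0 s0 k1 hfam A0 hloc AC AI hAI
    hAC hI => ?_⟩
  obtain ⟨P, x0, hP, hH⟩ := hens_of_local w k hw hk (sy (ev A0 (v 0 0))) hloc
  have hWp : 0 < primorial w := primorial_pos w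
  have hQp : 0 < primorial w ^ (2 * k) := pow_pos hWp _
  -- the fibre at the infinite places
  set Ainf : CIHP.Sys 2 e22 (IK K → ℝ) := fun _ t j => (1 / cS K S) * evR AI om t j with hAinf
  have hA : ∀ i t j, |Ainf i t j| ≤ 1 := by
    intro i t j
    have h1 := evR_le AI om 1 1 hAI hfam.om_le t j
    show |1 / cS K S * evR AI om t j| ≤ 1
    rw [abs_mul, abs_of_pos (by positivity : (0 : ℝ) < 1 / cS K S), one_div,
      inv_mul_le_iff₀ hcS0]
    linarith
  have hsys : ∀ w' i, sysC Ainf w' i =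
      fun t => ((1 / cS K S : ℝ) : ℂ) * lam (evR AI om t) w' := by
    intro w' i
    funext t
    show lam (fun j => 1 / cS K S * evR AI om t j) w' = _
    rw [lam_smul]
  have hnorm : ‖((1 / cS K S : ℝ) : ℂ)‖ = 1 / cS K S := by
    rw [Complex.norm_real, Real.norm_of_nonneg (by positivity)]
  -- the points at the infinite places
  choose z hz hzF J hzD using hI
  have hRVz : ∀ i, RV fun w' => z w' i := fun i w' hw' => (hz w').1 hw' i
  choose xi hxi using fun i => exists_lam (hRVz i)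
  have hxi' : ∀ w', ptC xi w' = z w' := fun w' => funext fun i => hxi i w'
  obtain ⟨h, hhid, hhle, hhge⟩ := hdirs (InfinitePlace K) card_places_le
    (fun w' => Matrix.of fun i j => D (sysC Ainf w' i) (ptC xi w') j) (bet / cS K S) hbc.le
    (fun w' => by
      refine ⟨J w', ?_⟩
      have h1 := hzD w'
      rw [Matrix.det_fin_one] at h1 ⊢
      have h2 : (CIHP.Jac (sy fun t => lam (evR AI om t) w') (z w') (J w')) 0 0 =
          D (fun t => lam (evR AI om t) w') (z w') (J w' 0) := rfl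
      rw [h2] at h1
      show bet / cS K S ≤ ‖D (sysC Ainf w' 0) (ptC xi w') (J w' 0)‖
      rw [hsys, hxi', D_smul, norm_mul, hnorm, div_eq_mul_one_div, mul_comm]
      exact mul_le_mul_of_nonneg_left h1 (by positivity))
  obtain ⟨u, hu0, hule, huge⟩ := hdir (InfinitePlace K) card_places_le
    (fun w' i => lam (xi i) w') 1 zero_le_one (fun w' => by
      obtain ⟨j, hj⟩ := (hz w').2.2
      exact ⟨j, by rw [hxi, hj]⟩)
  have hxile : ∀ i w', ‖lam (xi i) w'‖ ≤ 1 := fun i w' => by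
    rw [hxi]
    exact (hz w').2.1 i
  have hxieq : ∀ w', ∃ i, ‖lam (xi i) w'‖ = 1 := fun w' => by
    obtain ⟨j, hj⟩ := (hz w').2.2
    exact ⟨j, by rw [hxi, hj]⟩
  have hFle : ∀ w' i, ‖F (sysC Ainf w' i) (ptC xi w')‖ ≤ rho0 := fun w' i => by
    have h1 : ‖F (fun t => lam (evR AI om t) w') (z w')‖ ≤ rho0 := hzF w' 0
    rw [hsys, hxi', F_smul, norm_mul, hnorm, one_div, inv_mul_le_iff₀ hcS0]
    nlinarith
  have hDge : ∀ w', bet / cS K S * v0' ≤ ‖(Dh (sysC Ainf w') (ptC xi w') h).det‖ :=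
    fun w' => hhge w'
  have hhid' : ∀ l l' : Fin 1, h l (fr 2 l') = if l = l' then 1 else 0 := by
    intro l l'
    have h1 : ((fr 2 l' : Fin (2 + 1)) : ℕ) = (l' : ℕ) := fr_val (by norm_num) l'
    rw [hhid l (fr 2 l') (by rw [h1]; exact l'.isLt), h1]
    by_cases hll : l = l'
    · rw [if_pos hll, if_pos (by rw [hll])]
    · rw [if_neg hll, if_neg fun h2 => hll (Fin.ext h2.symm)]
  obtain ⟨vg, hvg, hRCv⟩ := hRC rho hrho hrho' Ainf xi h hA hxile hxieq hhid' hhle hFle hDge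
  set p : Par K 2 e22 := ⟨Ainf, Ainf, xi, h, u, kap, rho, th1, vg, 1, primorial w,
    primorial w ^ (2 * k), P, sy (ev A0 (v 0 0)), x0⟩ with hpdef
  have hpv : PV p e1 v0 w := by
    refine ⟨le_rfl, by norm_num, fun i => le_rfl, he10, he11, hv0, hv1, hw, hkap, hkap1, hrho,
      hrho'.trans hrho01, hth1, hA, hxile, hxieq, hhid', hhle, hu0, hule, ?_, hvg, hRCv, hWp, ?_,
      hQp, hP, hH⟩
    · intro w'
      have h1 := huge w'
      rw [one_mul] at h1
      refine h1.trans (le_of_eq ?_)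
      congr 1
      exact Finset.sum_congr rfl fun i _ => mul_comm _ _
    · intro l hl
      show l ∣ primorial w ↔ l ≤ w
      unfold primorial
      rw [Prime.dvd_finsetProd_iff hl.prime]
      constructor
      · rintro ⟨q, hq, hlq⟩
        rw [Finset.mem_filter, Finset.mem_range] at hq
        rw [Nat.prime_dvd_prime_iff_eq hl hq.2] at hlq
        omega
      · intro hlw
        exact ⟨l, Finset.mem_filter.mpr ⟨Finset.mem_range.mpr (by omega), hl⟩, dvd_rfl⟩
  set c : CPar K S := ⟨p, AI, AC, A0, om, v, V, D0, s0, k1⟩ with hcdef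
  have hvalid : c.Valid e1 v0 w := by
    refine ⟨hpv, hfam, hAI, hAC, ?_, ?_⟩
    · intro t j
      show cS K S * (1 / cS K S * evR AI om t j) = evR AI om t j
      field_simp
    · intro t
      show ((primorial w ^ (2 * k) : ℕ) : 𝓞 K) ∣ ev A0 (v 0 0) t - ev A0 (v 0 0) t
      rw [sub_self]
      exact dvd_zero _
  have hsm := second_moment c hvalid (eps / 40) hE
  filter_upwards [hsm, Filter.eventually_ge_atTop 0] with H hH hH0
  have e1' : {A : Idx 2 2 × S → 𝓞 K | (∀ m j, |(crd (A m) j : ℝ) - H * AC m j| ≤ rho * H) ∧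
          (∀ m, (((primorial w) ^ (2 * k) : ℕ) : 𝓞 K) ∣ A m - A0 m) ∧ ¬ FSol v A} =
      {A | A ∈ c.Cl c.p.rho H ∧ ¬ FSol c.v A} := by
    ext A
    simp only [CPar.Cl, hcdef, hpdef, ← and_assoc]
    rfl
  rw [e1']
  refine hH.trans ?_
  have e2 : c.XR c.p.rho H =
      (2 * rho * H / ((primorial w : ℝ)) ^ (2 * k)) ^ (mK K * MM S) := by
    unfold CPar.XR
    rw [hcdef, hpdef]
    push_cast
    rfl
  rw [e2]
  refine mul_le_mul_of_nonneg_right ?_ (by positivity)
  linarith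

end NKCHP
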