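import Pool.Agent.Lib.MP_e426f4_ag.CK.Complement
import Pool.Agent.Lib.MP_e426f4_ag.C.Family

/-!
CK-Family: the family of vectors over `𝓞 K`.

TEMPLATE: C/Family.lean (exists_family, family_sep, family_near, yv, yv_prim, repl_prim, ...): repl, repl_self, repl_ne, vy_map, vy_scale, sum_prod_vy are stated over every
commutative ring there (namespace ConicHP) and are reused; F_T (G/Alg) is over every ring. The parameters J, i stay natural numbers.

yvK Q y u J i a = (1 + Q (J^2 + i)) * y a + Q * u a over 𝓞 K. v J i = vy i0 (repl i1 z (yvK Q y u J i)), y = block i1 of z, u, c, c' from exists_complementK;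
V J = V0 * (Q * J ^ 2) ^ d i1; D0 = Q ^ 2.
* vy_primK: vy_prim of M/Eval.lean over 𝓞 K (same proof with F_T).
* congr: vy_map with the quotient map Ideal.Quotient.mk (span {Q}) instead of Int.cast to ZMod (Ideal.Quotient.eq, Ideal.mem_span_singleton).
* near: family_near over ℂ at every infinite place w (replace Int.cast to ℝ by sg w : 𝓞 K →+* ℂ, |.| by ‖.‖, continuity of vy over ℂ); J0 = maximum over the finitely many w
  (Finite.exists_le or Finset.sup / choose + Finset.exists_le). lam (fun j => crd a j / V0) w = sg w a / V0 (basis representation: lam is linear; see NFHP lam_crd-type lemma in N/Sg.lean or N/Const.lean).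
* om_le, om_ge, V_le (V0 Q^(d i1) + 2 d i1), sep (family_sep word for word; the right side is ((D0 * (i - i') : ℤ) : 𝓞 K), push_cast) as in C/Family.
-/

set_option linter.unusedSectionVars false

namespace NKCHP

open NumberField GenHP NFHP NKHP Finset Filter Topology

section multi
variable {K : Type} [Field K] [NumberField K] {ι : Type} [Fintype ι] [DecidableEq ι] {n d : ι → ℕ}

open ConicHP (repl repl_self repl_ne vy_map vy_scale sum_prod_vy)

theorem vy_primK (i0 : ι) (z : MVar n → 𝓞 K) (hz : ∀ j, j ≠ i0 → NFHP.Prim fun a => z ⟨j, a⟩) :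
    ∃ c : SIdx n d i0 → 𝓞 K, ∑ s, c s * vy i0 z s = 1 := by
  choose c hc using fun j : {j // j ≠ i0} => hz j.1 j.2
  refine ⟨fun s => ∏ j : {j // j ≠ i0}, T (fun _ : Fin (d j) => c j) (s j), ?_⟩
  rw [sum_prod_vy i0 (fun j : {j // j ≠ i0} => T (fun _ : Fin (d j) => c j)) z]
  refine Finset.prod_eq_one fun j _ => ?_
  rw [F_T]
  exact Finset.prod_eq_one fun i _ => hc j

theorem vy_congr_modK (i0 : ι) (N : 𝓞 K) (z z' : MVar n → 𝓞 K) (h : ∀ v, N ∣ z v - z' v)
    (s : SIdx n d i0) : N ∣ vy i0 z s - vy i0 z' s := by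
  rw [← Ideal.mem_span_singleton, ← Ideal.Quotient.eq, ← vy_map, ← vy_map]
  have h2 : (fun v => Ideal.Quotient.mk (Ideal.span {N}) (z v)) =
      fun v => Ideal.Quotient.mk (Ideal.span {N}) (z' v) := by
    funext v
    rw [Ideal.Quotient.eq, Ideal.mem_span_singleton]
    exact h v
  rw [h2]

theorem vy_continuousC (i0 : ι) :
    Continuous fun (w : MVar n → ℂ) (s : SIdx n d i0) => vy i0 w s := by
  refine continuous_pi fun s => ?_
  unfold vy mon
  fun_prop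

/-- the vectors of the block `i1` -/
def yvK {m : ℕ} (Q : ℕ) (y u : Fin (m + 1) → 𝓞 K) (J i : ℕ) : Fin (m + 1) → 𝓞 K :=
  fun a => (1 + Q * ((J : 𝓞 K) ^ 2 + i)) * y a + Q * u a

theorem sum_mul_yvK {m : ℕ} (Q : ℕ) (y u c : Fin (m + 1) → 𝓞 K) (p q : 𝓞 K)
    (hp : ∑ a, c a * y a = p) (hq : ∑ a, c a * u a = q) (J i : ℕ) :
    ∑ a, c a * yvK Q y u J i a = (1 + Q * ((J : 𝓞 K) ^ 2 + i)) * p + Q * q := by
  unfold yvK
  rw [← hp, ← hq, Finset.mul_sum, Finset.mul_sum, ← Finset.sum_add_distrib]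
  exact Finset.sum_congr rfl fun a _ => by ring

theorem yvK_prim {m : ℕ} (Q : ℕ) (y u c c' : Fin (m + 1) → 𝓞 K) (h1 : ∑ a, c a * y a = 1)
    (h2 : ∑ a, c a * u a = 0) (h3 : ∑ a, c' a * y a = 0) (h4 : ∑ a, c' a * u a = 1) (J i : ℕ) :
    NFHP.Prim (yvK Q y u J i) := by
  refine ⟨fun a => c a - ((J : 𝓞 K) ^ 2 + i) * c' a, ?_⟩
  have e1 := sum_mul_yvK Q y u c 1 0 h1 h2 J i
  have e2 := sum_mul_yvK Q y u c' 0 1 h3 h4 J i
  have e3 : ∑ a, (c a - ((J : 𝓞 K) ^ 2 + i) * c' a) * yvK Q y u J i a =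
      ∑ a, c a * yvK Q y u J i a - ((J : 𝓞 K) ^ 2 + i) * ∑ a, c' a * yvK Q y u J i a := by
    rw [Finset.mul_sum, ← Finset.sum_sub_distrib]
    exact Finset.sum_congr rfl fun a _ => by ring
  rw [e3, e1, e2]
  ring

theorem repl_primK (i1 : ι) (z : MVar n → 𝓞 K) (hz : ∀ j, NFHP.Prim fun a => z ⟨j, a⟩)
    (y : Fin (n i1 + 1) → 𝓞 K) (hy : NFHP.Prim y) (j : ι) :
    NFHP.Prim fun a => repl i1 z y ⟨j, a⟩ := by
  by_cases hj : j = i1
  · subst hj
    have : (fun a => repl j z y ⟨j, a⟩) = y := funext fun a => repl_self j z y a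
    rw [this]
    exact hy
  · have : (fun a => repl i1 z y ⟨j, a⟩) = fun a => z ⟨j, a⟩ :=
      funext fun a => repl_ne i1 z y j hj a
    rw [this]
    exact hz j

theorem repl_congr_modK (i1 : ι) (N : 𝓞 K) (z : MVar n → 𝓞 K) (y y' : Fin (n i1 + 1) → 𝓞 K)
    (h : ∀ a, N ∣ y a - y' a) (v : MVar n) : N ∣ repl i1 z y v - repl i1 z y' v := by
  obtain ⟨j, a⟩ := v
  by_cases hj : j = i1
  · subst hj
    rw [repl_self, repl_self]
    exact h a
  · rw [repl_ne _ _ _ _ hj, repl_ne _ _ _ _ hj, sub_self]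
    exact dvd_zero _

theorem yvK_congr_mod {m : ℕ} (Q : ℕ) (y u : Fin (m + 1) → 𝓞 K) (J i : ℕ) (a : Fin (m + 1)) :
    (Q : 𝓞 K) ∣ yvK Q y u J i a - y a := by
  refine ⟨((J : 𝓞 K) ^ 2 + i) * y a + u a, ?_⟩
  unfold yvK
  ring

/-- separation of the vectors -/
theorem family_sepK (hd : ∀ i, 1 ≤ d i) (i0 i1 : ι) (h01 : i1 ≠ i0)
    (z : MVar n → 𝓞 K) (hz : ∀ j, NFHP.Prim fun a => z ⟨j, a⟩) (Q : ℕ)
    (y u c c' : Fin (n i1 + 1) → 𝓞 K) (h1 : ∑ a, c a * y a = 1)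
    (h2 : ∑ a, c a * u a = 0) (h3 : ∑ a, c' a * y a = 0) (h4 : ∑ a, c' a * u a = 1)
    (J i i' : ℕ) : ∃ a : SIdx n d i0 → 𝓞 K,
      ∑ s, a s * vy i0 (repl i1 z (yvK Q y u J i)) s = 0 ∧
      ∑ s, a s * vy i0 (repl i1 z (yvK Q y u J i')) s = (Q : 𝓞 K) ^ 2 * ((i : 𝓞 K) - i') := by
  have hprim : ∀ j, NFHP.Prim fun a => repl i1 z (yvK Q y u J i') ⟨j, a⟩ :=
    repl_primK i1 z hz _ (yvK_prim Q y u c c' h1 h2 h3 h4 J i')
  choose C hC using hprim
  set l : Fin (n i1 + 1) → 𝓞 K := fun a => (1 + Q * ((J : 𝓞 K) ^ 2 + i)) * c' a - Q * c a with hl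
  have hl1 : ∀ k : ℕ, ∑ a, l a * yvK Q y u J k a = (Q : 𝓞 K) ^ 2 * ((i : 𝓞 K) - k) := by
    intro k
    have e1 := sum_mul_yvK Q y u c 1 0 h1 h2 J k
    have e2 := sum_mul_yvK Q y u c' 0 1 h3 h4 J k
    have e3 : ∑ a, l a * yvK Q y u J k a =
        (1 + Q * ((J : 𝓞 K) ^ 2 + i)) * ∑ a, c' a * yvK Q y u J k a -
          Q * ∑ a, c a * yvK Q y u J k a := by
      rw [Finset.mul_sum, Finset.mul_sum, ← Finset.sum_sub_distrib]
      exact Finset.sum_congr rfl fun a _ => by simp only [hl]; ring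
    rw [e3, e1, e2]
    ring
  set L : ∀ j, Fin (n j + 1) → 𝓞 K := Function.update C i1 l with hL
  set B : ∀ j : {j // j ≠ i0}, Idx (n j) (d j) → 𝓞 K :=
    fun j => T (fun k : Fin (d j) => if (k : ℕ) = 0 then L j else C j) with hB
  refine ⟨fun s => ∏ j, B j (s j), ?_, ?_⟩
  · rw [sum_prod_vy]
    refine Finset.prod_eq_zero (Finset.mem_univ ⟨i1, h01⟩) ?_
    rw [hB]
    simp only
    rw [F_T]
    refine Finset.prod_eq_zero (Finset.mem_univ ⟨0, hd i1⟩) ?_
    simp only [if_true]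
    have e1 : ∀ a, L i1 a * repl i1 z (yvK Q y u J i) ⟨i1, a⟩ = l a * yvK Q y u J i a := by
      intro a
      rw [repl_self, hL, Function.update_self]
    rw [Finset.sum_congr rfl fun a _ => e1 a, hl1 i]
    ring
  · rw [sum_prod_vy]
    rw [Finset.prod_eq_single (⟨i1, h01⟩ : {j // j ≠ i0})]
    · rw [hB]
      simp only
      rw [F_T]
      rw [Finset.prod_eq_single (⟨0, hd i1⟩ : Fin (d i1))]
      · simp only [if_true]
        have e1 : ∀ a, L i1 a * repl i1 z (yvK Q y u J i') ⟨i1, a⟩ = l a * yvK Q y u J i' a := by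
          intro a
          rw [repl_self, hL, Function.update_self]
        rw [Finset.sum_congr rfl fun a _ => e1 a, hl1 i']
      · intro k _ hk
        have hk' : (k : ℕ) ≠ 0 := fun h => hk (Fin.ext h)
        simp only [if_neg hk']
        exact hC i1
      · intro h
        exact absurd (Finset.mem_univ _) h
    · intro j _ hj
      have hj' : (j : ι) ≠ i1 := fun h => hj (Subtype.ext h)
      rw [hB]
      simp only
      rw [F_T]
      refine Finset.prod_eq_one fun k _ => ?_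
      have e1 : (if (k : ℕ) = 0 then L j else C j) = C j := by
        rw [hL, Function.update_of_ne hj']
        simp
      rw [e1]
      exact hC j
    · intro h
      exact absurd (Finset.mem_univ _) h

/-- the directions of the vectors, at one infinite place -/
theorem family_nearK (w : InfinitePlace K) (i0 i1 : ι) (h01 : i1 ≠ i0) (z : MVar n → 𝓞 K)
    (Q : ℕ) (hQ : 0 < Q) (u : Fin (n i1 + 1) → 𝓞 K) (V0 : ℕ) (hV0 : 0 < V0) (δ : ℝ)
    (hδ : 0 < δ) : ∃ J0 : ℕ, ∀ J, J0 ≤ J → ∀ i, i < J → ∀ s : SIdx n d i0,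
      ‖sg w (vy i0 (repl i1 z (yvK Q (fun a => z ⟨i1, a⟩) u J i)) s) -
        ((V0 * (Q * J ^ 2) ^ d i1 : ℕ) : ℂ) * (sg w (vy i0 z s) / V0)‖ ≤
          δ * ((V0 * (Q * J ^ 2) ^ d i1 : ℕ) : ℝ) := by
  set y : Fin (n i1 + 1) → 𝓞 K := fun a => z ⟨i1, a⟩ with hy
  set zr : MVar n → ℂ := fun v => sg w (z v) with hzr
  have hcont := (vy_continuousC (n := n) (d := d) i0).continuousAt (x := zr)
  rw [Metric.continuousAt_iff] at hcont
  have hV0' : (0 : ℝ) < V0 := by exact_mod_cast hV0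
  obtain ⟨η, hη, hη2⟩ := hcont (δ * V0) (by positivity)
  -- a bound for `y` and `u`
  obtain ⟨Y, hY⟩ : ∃ Y : ℝ, ∀ a, ‖sg w (y a)‖ + ‖sg w (u a)‖ ≤ Y := by
    refine ⟨∑ a, (‖sg w (y a)‖ + ‖sg w (u a)‖), fun a => ?_⟩
    exact Finset.single_le_sum (f := fun a => ‖sg w (y a)‖ + ‖sg w (u a)‖)
      (fun _ _ => by positivity) (Finset.mem_univ a)
  obtain ⟨J0, hJ0⟩ := exists_nat_gt (Y / η)
  refine ⟨J0 + 1, fun J hJ i hi s => ?_⟩
  have hJ1 : (1 : ℝ) ≤ J := by exact_mod_cast (by omega : 1 ≤ J)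
  have hJpos : (0 : ℝ) < J := by linarith
  have hQ' : (0 : ℝ) < Q := by exact_mod_cast hQ
  have hQ1 : (1 : ℝ) ≤ Q := by exact_mod_cast hQ
  set R : ℝ := Q * (J : ℝ) ^ 2 with hR
  have hRpos : 0 < R := by positivity
  have hRC : (R : ℂ) ≠ 0 := by exact_mod_cast hRpos.ne'
  set yr : Fin (n i1 + 1) → ℂ := fun a => sg w (y a) +
    ((1 + Q * i) * sg w (y a) + Q * sg w (u a)) / (R : ℂ) with hyr
  set ww : MVar n → ℂ := repl i1 zr yr with hww
  -- closeness
  have hdist : dist ww zr < η := by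
    rw [dist_pi_lt_iff hη]
    rintro ⟨j, a⟩
    by_cases hj : j = i1
    · subst hj
      rw [hww, repl_self, dist_eq_norm]
      have e1 : yr a - zr ⟨j, a⟩ =
          ((1 + Q * i) * sg w (y a) + Q * sg w (u a)) / (R : ℂ) := by
        rw [hyr, hzr, hy]
        simp only
        ring
      rw [e1, norm_div, Complex.norm_real, Real.norm_eq_abs, abs_of_pos hRpos,
        div_lt_iff₀ hRpos]
      have hiJ : (i : ℝ) + 1 ≤ J := by exact_mod_cast hi
      have e2 : (1 + (Q : ℝ) * i) ≤ Q * J := by nlinarith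
      have e3 : ‖(1 + (Q : ℂ) * i) * sg w (y a) + Q * sg w (u a)‖ ≤ Q * J * Y := by
        have h5 : 0 ≤ 1 + (Q : ℝ) * i := by positivity
        have h6 : ‖(1 + (Q : ℂ) * i)‖ = 1 + (Q : ℝ) * i := by
          have : (1 + (Q : ℂ) * i) = ((1 + (Q : ℝ) * i : ℝ) : ℂ) := by push_cast; ring
          rw [this, Complex.norm_real, Real.norm_eq_abs, abs_of_nonneg h5]
        calc ‖(1 + (Q : ℂ) * i) * sg w (y a) + Q * sg w (u a)‖ ≤
            ‖(1 + (Q : ℂ) * i) * sg w (y a)‖ + ‖(Q : ℂ) * sg w (u a)‖ := norm_add_le _ _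
          _ = (1 + (Q : ℝ) * i) * ‖sg w (y a)‖ + Q * ‖sg w (u a)‖ := by
              rw [norm_mul, norm_mul, h6, Complex.norm_natCast]
          _ ≤ Q * J * ‖sg w (y a)‖ + Q * J * ‖sg w (u a)‖ := by
              refine add_le_add (mul_le_mul_of_nonneg_right e2 (norm_nonneg _))
                (mul_le_mul_of_nonneg_right ?_ (norm_nonneg _))
              nlinarith
          _ = Q * J * (‖sg w (y a)‖ + ‖sg w (u a)‖) := by ring
          _ ≤ Q * J * Y := mul_le_mul_of_nonneg_left (hY a) (by positivity)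
      refine lt_of_le_of_lt e3 ?_
      have e4 : Y < η * J := by
        rw [div_lt_iff₀ hη] at hJ0
        have h6 : (J0 : ℝ) ≤ J := by exact_mod_cast (by omega : J0 ≤ J)
        nlinarith
      calc (Q : ℝ) * J * Y < Q * J * (η * J) := mul_lt_mul_of_pos_left e4 (by positivity)
        _ = η * R := by rw [hR]; ring
    · rw [hww, repl_ne _ _ _ _ hj, dist_self]
      exact hη
  have hclose : ‖vy i0 ww s - vy i0 zr s‖ < δ * V0 := by
    have h1 := hη2 hdist
    have h2 : dist (vy i0 ww s) (vy i0 zr s) ≤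
        dist (fun s : SIdx n d i0 => vy i0 ww s) (fun s => vy i0 zr s) :=
      dist_le_pi_dist (fun s : SIdx n d i0 => vy i0 ww s) (fun s => vy i0 zr s) s
    rw [← dist_eq_norm]
    exact lt_of_le_of_lt h2 h1
  -- the complex vector
  have hscale : sg w (vy i0 (repl i1 z (yvK Q y u J i)) s) = (R : ℂ) ^ d i1 * vy i0 ww s := by
    have e1 : sg w (vy i0 (repl i1 z (yvK Q y u J i)) s) =
        vy i0 (fun v => sg w (repl i1 z (yvK Q y u J i) v)) s :=
      (vy_map (sg w) i0 _ s).symm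
    have e2 : (fun v => sg w (repl i1 z (yvK Q y u J i) v)) =
        fun v : MVar n => (if v.1 = i1 then (R : ℂ) else 1) * ww v := by
      funext v
      obtain ⟨j, a⟩ := v
      by_cases hj : j = i1
      · subst hj
        rw [repl_self, hww, repl_self, if_pos rfl, hyr]
        simp only
        rw [mul_add, mul_div_cancel₀ _ hRC]
        unfold yvK
        rw [hR]
        simp only [map_add, map_mul, map_pow, map_natCast, map_one]
        push_cast
        ring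
      · rw [repl_ne _ _ _ _ hj, hww, repl_ne _ _ _ _ hj, if_neg hj, one_mul]
    rw [e1, e2, vy_scale i0 (fun j => if j = i1 then (R : ℂ) else 1) ww s]
    congr 1
    rw [Finset.prod_eq_single (⟨i1, h01⟩ : {j // j ≠ i0})]
    · simp
    · intro j _ hj
      have hj' : (j : ι) ≠ i1 := fun h => hj (Subtype.ext h)
      simp [hj']
    · intro h
      exact absurd (Finset.mem_univ _) h
  have hz0 : sg w (vy i0 z s) = vy i0 zr s := (vy_map (sg w) i0 z s).symm
  have hVJ : ((V0 * (Q * J ^ 2) ^ d i1 : ℕ) : ℝ) = V0 * R ^ d i1 := by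
    rw [hR]; push_cast; ring
  have hVJ' : ((V0 * (Q * J ^ 2) ^ d i1 : ℕ) : ℂ) = V0 * (R : ℂ) ^ d i1 := by
    rw [hR]; push_cast; ring
  have hV0C : (V0 : ℂ) ≠ 0 := by exact_mod_cast hV0.ne'
  rw [hscale, hz0, hVJ, hVJ']
  have e1 : (R : ℂ) ^ d i1 * vy i0 ww s - V0 * (R : ℂ) ^ d i1 * (vy i0 zr s / V0) =
      (R : ℂ) ^ d i1 * (vy i0 ww s - vy i0 zr s) := by
    field_simp
  rw [e1, norm_mul, norm_pow, Complex.norm_real, Real.norm_eq_abs, abs_of_pos hRpos]
  calc R ^ d i1 * ‖vy i0 ww s - vy i0 zr s‖ ≤ R ^ d i1 * (δ * V0) :=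
        mul_le_mul_of_nonneg_left hclose.le (by positivity)
    _ = δ * (V0 * R ^ d i1) := by ring

theorem lam_crd_div (a : 𝓞 K) (V0 : ℕ) (w : InfinitePlace K) :
    lam (fun j => (crd a j : ℝ) / V0) w = sg w a / V0 := by
  have h2 : (fun j => (crd a j : ℝ) / V0) = fun j => ((V0 : ℝ)⁻¹) * (crd a j : ℝ) := by
    funext j
    rw [div_eq_inv_mul]
  rw [h2, lam_smul, lam_crd, div_eq_inv_mul]
  push_cast
  rfl

theorem exists_familyK (hd : ∀ i, 1 ≤ d i) (hn : ∀ i, 1 ≤ n i) (i0 i1 : ι) (h01 : i1 ≠ i0)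
    (z : MVar n → 𝓞 K) (hz : ∀ j, NFHP.Prim fun a => z ⟨j, a⟩) (Q W : ℕ) (hQ : 0 < Q)
    (hQW : ∀ q : ℕ, q.Prime → q ∣ Q → q ∣ W) (V0 : ℕ) (hV0 : 0 < V0)
    (hV : ∀ (s : SIdx n d i0) w, ‖sg w (vy i0 z s)‖ ≤ V0) (s0 : SIdx n d i0) (k1 : ℝ)
    (hk1 : 0 < k1) (hs0 : ∀ w, k1 * V0 ≤ ‖sg w (vy i0 z s0)‖) :
    ∃ (v : ℕ → ℕ → SIdx n d i0 → 𝓞 K) (V : ℕ → ℕ) (D0 : ℕ),
      FamValid Q W (fun s j => (crd (vy i0 z s) j : ℝ) / V0) v V D0 s0 k1 ∧
      (∀ s, (Q : 𝓞 K) ∣ v 0 0 s - vy i0 z s) ∧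
      ∀ J i, ∃ z' : MVar n → 𝓞 K, (∀ j, NFHP.Prim fun a => z' ⟨j, a⟩) ∧ v J i = vy i0 z' := by
  have hV0' : (0 : ℝ) < V0 := by exact_mod_cast hV0
  set y : Fin (n i1 + 1) → 𝓞 K := fun a => z ⟨i1, a⟩ with hy
  obtain ⟨u, c, c', h1, h2, h3, h4⟩ := exists_complementK (hn i1) y (hz i1)
  have hprim : ∀ J i j, NFHP.Prim fun a => repl i1 z (yvK Q y u J i) ⟨j, a⟩ := fun J i =>
    repl_primK i1 z hz _ (yvK_prim Q y u c c' h1 h2 h3 h4 J i)
  have hzy : repl i1 z y = z := by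
    funext v
    obtain ⟨j, a⟩ := v
    by_cases hj : j = i1
    · subst hj
      rw [repl_self]
    · rw [repl_ne _ _ _ _ hj]
  have hmod : ∀ (J i : ℕ) (s : SIdx n d i0),
      (Q : 𝓞 K) ∣ vy i0 (repl i1 z (yvK Q y u J i)) s - vy i0 z s := by
    intro J i s
    have := vy_congr_modK (d := d) i0 (Q : 𝓞 K) (repl i1 z (yvK Q y u J i)) (repl i1 z y)
      (repl_congr_modK i1 (Q : 𝓞 K) z _ _ (yvK_congr_mod Q y u J i)) s
    rwa [hzy] at this
  refine ⟨fun J i => vy i0 (repl i1 z (yvK Q y u J i)), fun J => V0 * (Q * J ^ 2) ^ d i1,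
    Q ^ 2, ?_, fun s => hmod 0 0 s, fun J i => ⟨_, hprim J i, rfl⟩⟩
  refine ⟨?_, hk1, ?_, ?_, ?_, ?_, ?_, ?_, ?_, ?_, ?_⟩
  · intro s w
    rw [lam_crd_div, norm_div, Complex.norm_natCast, div_le_one hV0']
    exact hV s w
  · intro w
    rw [lam_crd_div, norm_div, Complex.norm_natCast, le_div_iff₀ hV0']
    exact hs0 w
  · intro J hJ
    have : 0 < V0 * (Q * J ^ 2) ^ d i1 := by positivity
    exact this
  · refine ⟨V0 * Q ^ d i1 + 2 * d i1, fun J hJ => ?_⟩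
    have e1 : V0 * (Q * J ^ 2) ^ d i1 = V0 * Q ^ d i1 * J ^ (2 * d i1) := by
      rw [mul_pow, ← pow_mul]
      ring
    show V0 * (Q * J ^ 2) ^ d i1 ≤ _
    rw [e1]
    exact Nat.mul_le_mul (Nat.le_add_right _ _) (Nat.pow_le_pow_right hJ (Nat.le_add_left _ _))
  · intro δ hδ
    choose J0 hJ0 using fun w : InfinitePlace K =>
      family_nearK (d := d) w i0 i1 h01 z Q hQ u V0 hV0 δ hδ
    refine ⟨Finset.univ.sup J0, fun J hJ i hi s w => ?_⟩
    have h5 := hJ0 w J ((Finset.le_sup (Finset.mem_univ w)).trans hJ) i hi s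
    rw [lam_crd_div]
    exact h5
  · intro J i
    exact vy_primK i0 _ fun j _ => hprim J i j
  · intro J i s
    have e1 := hmod J i s
    have e2 := hmod 0 0 s
    have e3 := dvd_sub e1 e2
    rwa [sub_sub_sub_cancel_right] at e3
  · positivity
  · intro q hq hqd
    exact hQW q hq (hq.dvd_of_dvd_pow hqd)
  · intro J i i' _
    obtain ⟨a, ha, ha'⟩ := family_sepK hd i0 i1 h01 z hz Q y u c c' h1 h2 h3 h4 J i i'
    refine ⟨a, ha, ?_⟩
    rw [ha']
    push_cast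
    ring

end multi

end NKCHP
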