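import Pool.Agent.Lib.MP_e426f4_ag.CK.Defs

/-!
CK-Complement: completing a unimodular vector over `𝓞 K`.

TEMPLATE: C/Complement.lean (over ℤ; sum_two_single works over every ring). 𝓞 K is not a PID, therefore another proof:

PROOF. Prim y: some y a ≠ 0 (∑ c y = 1 ≠ 0). b ≠ a another index (1 <= m; Fin.nontrivial_iff_two_le).
(1) there is t : Fin (m + 1) → 𝓞 K with t a = 0, t b = 1 and IsCoprime (y a) (∑ k, t k * y k): the set of the maximal ideals P with y a ∈ P is finite
(Ideal.finite_factors for the ideal span {y a} ≠ 0, as HeightOneSpectrum; or the finset of the prime factors of span {y a}). For each such P choose tP: Fin (m+1) → 𝓞 K with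
tP a = 0, tP b = 1, ∑ tP k y k ∉ P: if y b ∉ P take tP = Pi.single b 1; otherwise some k ≠ a, b has y k ∉ P (else ∑ c y = 1 ∈ P) and tP = Pi.single b 1 + Pi.single k 1.
CRT for each k (`IsDedekindDomain.exists_forall_sub_mem_ideal` with exponents 1 : ∃ y, ∀ i (hi : i ∈ s), y - x ⟨i, hi⟩ ∈ P i ^ e i): t k ≡ tP k mod P for all these P; put t a = 0, t b = 1.
IsCoprime: otherwise the ideal span {y a, l}, l = ∑ t k y k, lies in a maximal P (Ideal.exists_le_maximal; IsCoprime <-> span ⊔ span = ⊤: Ideal.isCoprime_iff_sup_eq / Ideal.isCoprime_span_singleton_iff or Ideal.mem_span_pair),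
y a ∈ P, so P is one of the ideals, l ≡ ∑ tP k y k ∉ P: contradiction.
(2) c0 * y a + c1 * l = 1. c = fun k => c0 * δ_{k a} + c1 * t k, u = - c1 e_a + c0 e_b, c' = fun k => y a * t k - l * δ_{k a}. Then
∑ c y = c0 y a + c1 l = 1, ∑ c u = - c1 c0 + c0 c1 = 0 (t a = 0, t b = 1), ∑ c' y = y a l - l y a = 0, ∑ c' u = c1 l + c0 y a = 1.
-/

set_option linter.unusedSectionVars false

namespace NKCHP

open NumberField GenHP NFHP NKHP Finset

private theorem cpl_local {R : Type*} [CommRing R] {m : ℕ} (y c0 : Fin (m + 1) → R)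
    (hc : ∑ k, c0 k * y k = 1) (a b : Fin (m + 1)) (hab : a ≠ b) (P : Ideal R) (hP : P.IsPrime) :
    ∃ t : Fin (m + 1) → R, t a = 0 ∧ t b = 1 ∧ (y a ∈ P → ∑ k, t k * y k ∉ P) := by
  classical
  by_cases hb : y b ∈ P
  · by_cases ha : y a ∈ P
    · -- some other index
      have h1 : ∃ k, y k ∉ P := by
        by_contra hcon
        push Not at hcon
        apply hP.ne_top
        rw [Ideal.eq_top_iff_one, ← hc]
        exact Ideal.sum_mem _ fun k _ => P.mul_mem_left _ (hcon k)
      obtain ⟨k, hk⟩ := h1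
      have hka : k ≠ a := fun h => hk (h ▸ ha)
      have hkb : k ≠ b := fun h => hk (h ▸ hb)
      refine ⟨Pi.single b 1 + Pi.single k 1, ?_, ?_, fun _ => ?_⟩
      · rw [Pi.add_apply, Pi.single_eq_of_ne hab, Pi.single_eq_of_ne (Ne.symm hka), add_zero]
      · rw [Pi.add_apply, Pi.single_eq_same, Pi.single_eq_of_ne (Ne.symm hkb), add_zero]
      · have h2 : ∑ j, (Pi.single b 1 + Pi.single k 1 : Fin (m + 1) → R) j * y j = y b + y k := by
          simp only [Pi.add_apply, add_mul, Finset.sum_add_distrib]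
          congr 1
          · rw [Finset.sum_eq_single b]
            · rw [Pi.single_eq_same, one_mul]
            · intro j _ hj
              rw [Pi.single_eq_of_ne hj, zero_mul]
            · intro h
              exact absurd (Finset.mem_univ _) h
          · rw [Finset.sum_eq_single k]
            · rw [Pi.single_eq_same, one_mul]
            · intro j _ hj
              rw [Pi.single_eq_of_ne hj, zero_mul]
            · intro h
              exact absurd (Finset.mem_univ _) h
        rw [h2]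
        intro h3
        exact hk ((P.add_mem_iff_right hb).1 h3)
    · refine ⟨Pi.single b 1, Pi.single_eq_of_ne hab _, Pi.single_eq_same _ _, fun h => absurd h ha⟩
  · refine ⟨Pi.single b 1, Pi.single_eq_of_ne hab _, Pi.single_eq_same _ _, fun _ => ?_⟩
    rw [Finset.sum_eq_single b]
    · rwa [Pi.single_eq_same, one_mul]
    · intro j _ hj
      rw [Pi.single_eq_of_ne hj, zero_mul]
    · intro h
      exact absurd (Finset.mem_univ _) h

private theorem cpl_coprime {R : Type*} [CommRing R] [IsDomain R] [IsDedekindDomain R] {m : ℕ}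
    (y c0 : Fin (m + 1) → R) (hc : ∑ k, c0 k * y k = 1) (a b : Fin (m + 1)) (hab : a ≠ b)
    (ha : y a ≠ 0) :
    ∃ t : Fin (m + 1) → R, t a = 0 ∧ t b = 1 ∧ IsCoprime (y a) (∑ k, t k * y k) := by
  classical
  have hspan : Ideal.span {y a} ≠ ⊥ := by
    rw [Ne, Ideal.span_singleton_eq_bot]
    exact ha
  let s : Finset (Ideal R) := (UniqueFactorizationMonoid.normalizedFactors (Ideal.span {y a})).toFinset
  have hs : ∀ P : Ideal R, P ∈ s ↔ P.IsPrime ∧ Ideal.span {y a} ≤ P := by
    intro P
    rw [Multiset.mem_toFinset]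
    exact Ideal.mem_normalizedFactors_iff hspan
  have hprime : ∀ P ∈ s, Prime P := by
    intro P hP
    exact UniqueFactorizationMonoid.prime_of_normalized_factor P (Multiset.mem_toFinset.1 hP)
  have h1 : ∀ P : s, ∃ t : Fin (m + 1) → R, t a = 0 ∧ t b = 1 ∧
      (y a ∈ (P : Ideal R) → ∑ k, t k * y k ∉ (P : Ideal R)) := fun P =>
    cpl_local y c0 hc a b hab P ((hs P).1 P.2).1
  choose T hTa hTb hT using h1
  have h2 : ∀ k : Fin (m + 1), ∃ z : R, ∀ (P : Ideal R) (hP : P ∈ s), z - T ⟨P, hP⟩ k ∈ P := by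
    intro k
    obtain ⟨z, hz⟩ := IsDedekindDomain.exists_forall_sub_mem_ideal (s := s) (fun P : Ideal R => P)
      (fun _ => 1) hprime (fun P _ Q _ h => h) (fun P => T P k)
    refine ⟨z, fun P hP => ?_⟩
    have := hz P hP
    rwa [pow_one] at this
  choose t' ht' using h2
  refine ⟨fun k => if k = a then 0 else if k = b then 1 else t' k, ?_, ?_, ?_⟩
  · simp
  · simp [Ne.symm hab]
  · have h3 : ∀ (P : Ideal R) (hP : P ∈ s) (k : Fin (m + 1)),
        (if k = a then 0 else if k = b then 1 else t' k) - T ⟨P, hP⟩ k ∈ P := by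
      intro P hP k
      by_cases hka : k = a
      · rw [if_pos hka, hka, hTa, sub_zero]
        exact P.zero_mem
      · by_cases hkb : k = b
        · rw [if_neg hka, if_pos hkb, hkb, hTb, sub_self]
          exact P.zero_mem
        · rw [if_neg hka, if_neg hkb]
          exact ht' k P hP
    set l : R := ∑ k, (if k = a then 0 else if k = b then 1 else t' k) * y k with hl
    by_contra hcon
    have h4 : Ideal.span {y a} ⊔ Ideal.span {l} ≠ ⊤ := by
      intro h
      apply hcon
      rw [← Ideal.isCoprime_span_singleton_iff, Ideal.isCoprime_iff_sup_eq]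
      exact h
    obtain ⟨P, hPm, hP⟩ := Ideal.exists_le_maximal _ h4
    have h5 : Ideal.span {y a} ≤ P := le_sup_left.trans hP
    have h6 : l ∈ P := (le_sup_right.trans hP) (Ideal.mem_span_singleton_self l)
    have h7 : P ∈ s := (hs P).2 ⟨hPm.isPrime, h5⟩
    refine hT ⟨P, h7⟩ (h5 (Ideal.mem_span_singleton_self _)) ?_
    have h8 : ∑ k, T ⟨P, h7⟩ k * y k = l -
        ∑ k, ((if k = a then 0 else if k = b then 1 else t' k) - T ⟨P, h7⟩ k) * y k := by
      rw [hl, ← Finset.sum_sub_distrib]
      refine Finset.sum_congr rfl fun k _ => ?_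
      ring
    rw [h8]
    refine P.sub_mem h6 (Ideal.sum_mem _ fun k _ => P.mul_mem_right _ (h3 P h7 k))

theorem exists_complementK {K : Type} [Field K] [NumberField K] {m : ℕ} (hm : 1 ≤ m)
    (y : Fin (m + 1) → 𝓞 K) (hy : Prim y) :
    ∃ u c c' : Fin (m + 1) → 𝓞 K, ∑ a, c a * y a = 1 ∧ ∑ a, c a * u a = 0 ∧
      ∑ a, c' a * y a = 0 ∧ ∑ a, c' a * u a = 1 := by
  classical
  obtain ⟨c0, hc0⟩ := hy
  have h1 : ∃ a, y a ≠ 0 := by
    by_contra hcon
    push Not at hcon
    have : (1 : 𝓞 K) = 0 := by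
      rw [← hc0]
      exact Finset.sum_eq_zero fun k _ => by rw [hcon k, mul_zero]
    exact one_ne_zero this
  obtain ⟨a, ha⟩ := h1
  obtain ⟨b, hb⟩ : ∃ b : Fin (m + 1), b ≠ a := by
    haveI : Nontrivial (Fin (m + 1)) := Fin.nontrivial_iff_two_le.2 (by omega)
    exact exists_ne a
  obtain ⟨t, hta, htb, e0, e1, he⟩ := cpl_coprime y c0 hc0 a b (Ne.symm hb) ha
  set l : 𝓞 K := ∑ k, t k * y k with hl
  have hS : ∀ (f : Fin (m + 1) → 𝓞 K) (z : 𝓞 K) (j : Fin (m + 1)),
      ∑ k, (z * if k = j then 1 else 0) * f k = z * f j := by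
    intro f z j
    rw [Finset.sum_eq_single j]
    · rw [if_pos rfl, mul_one]
    · intro k _ hk
      rw [if_neg hk, mul_zero, zero_mul]
    · intro h
      exact absurd (Finset.mem_univ _) h
  have hS2 : ∀ (f : Fin (m + 1) → 𝓞 K) (z : 𝓞 K) (j : Fin (m + 1)),
      ∑ k, f k * (z * if k = j then 1 else 0) = f j * z := by
    intro f z j
    rw [Finset.sum_eq_single j]
    · rw [if_pos rfl, mul_one]
    · intro k _ hk
      rw [if_neg hk, mul_zero, mul_zero]
    · intro h
      exact absurd (Finset.mem_univ _) h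
  refine ⟨fun k => (-e1) * (if k = a then 1 else 0) + e0 * (if k = b then 1 else 0),
    fun k => e0 * (if k = a then 1 else 0) + e1 * t k,
    fun k => y a * t k + (-l) * (if k = a then 1 else 0), ?_, ?_, ?_, ?_⟩
  · have h5 : ∑ k, e1 * t k * y k = e1 * l := by
      rw [hl, Finset.mul_sum]
      exact Finset.sum_congr rfl fun k _ => by ring
    simp only [add_mul, Finset.sum_add_distrib, hS, h5]
    exact he
  · simp only [mul_add, Finset.sum_add_distrib, hS2, hta, htb, if_pos, if_neg hb,
      mul_zero, mul_one, add_zero, zero_add]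
    ring
  · have h5 : ∑ k, y a * t k * y k = y a * l := by
      rw [hl, Finset.mul_sum]
      exact Finset.sum_congr rfl fun k _ => by ring
    simp only [add_mul, Finset.sum_add_distrib, hS, h5]
    ring
  · simp only [mul_add, Finset.sum_add_distrib, hS2, hta, htb, if_pos, if_neg hb,
      mul_zero, mul_one, add_zero, zero_add]
    linear_combination he

end NKCHP
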