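import Pool.Agent.Lib.MP_e426f4_ag.CK.ShortA
import Pool.Agent.Lib.MP_e426f4_ag.N.Crude
import Pool.Agent.Lib.MP_e426f4_ag.N.Lat

/-!
CK-CrudeA: crude counts, one point and two points in one fibre. Templates: C/CrudeA.lean, N/Crude.lean (levels_countK). levels_evK: as NFHP.levels_countK, with De: (A, s) -> A + t_s is injective since F (ev . v) z determines De s and O_K is a domain. The constant c of the lower bound is NFHP.lat_lower.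
crude_one: levels s in top with |s|_w <= R B^2 U/8 (t of size <= R/2 + R/2), translates in |.| <= 3R, whose number is <= C R^(m MM) (NFHP.lat_upper_vec, I = top, R >= 1). crude_same: levels s in mgI x y with |s|_w <= R U dl_w/(2 c3), translates in {|A| <= 2R, F(ev A v) x = 0}, then crude_one.
-/

namespace NKCHP

open NumberField GenHP NFHP NKHP Finset Filter Topology
open ConicHP (ev JJ)

variable {K : Type} [Field K] [NumberField K] {S : Type} [Fintype S]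

/-- counting by translation along levels -/
theorem levels_evK {c : ℝ} (hc : ∀ I : Ideal (𝓞 K), I ≠ ⊥ → ∀ X : InfinitePlace K → ℝ,
      (∀ w, 0 < X w) → c * (np X / Ideal.absNorm I) ≤
        (Set.ncard {a : 𝓞 K | a ∈ I ∧ ∀ w, ‖sg w a‖ ≤ X w} : ℝ))
    (X U : Set (Idx 2 2 × S → 𝓞 K)) (hT : U.Finite) (v : S → 𝓞 K) (z : Fin (2 + 1) → 𝓞 K)
    (I : Ideal (𝓞 K)) (hI : I ≠ ⊥) (Y : InfinitePlace K → ℝ) (hY : ∀ w, 0 < Y w)
    (De : 𝓞 K) (hDe : De ≠ 0) (hS : ∀ A ∈ X, F (ev A v) z = 0)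
    (h : ∀ s ∈ I, (∀ w, ‖sg w s‖ ≤ Y w) →
      ∃ t : Idx 2 2 × S → 𝓞 K, F (ev t v) z = De * s ∧ ∀ A ∈ X, (fun i => A i + t i) ∈ U) :
    (X.ncard : ℝ) * (c * (np Y / Ideal.absNorm I)) ≤ U.ncard := by
  set L : Set (𝓞 K) := {a : 𝓞 K | a ∈ I ∧ ∀ w, ‖sg w a‖ ≤ Y w} with hL
  have hlev : ∀ s : 𝓞 K, ∃ t : Idx 2 2 × S → 𝓞 K, s ∈ L →
      (F (ev t v) z = De * s ∧ ∀ A ∈ X, (fun i => A i + t i) ∈ U) := by
    intro s
    by_cases hs : s ∈ L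
    · obtain ⟨t, h1, h2⟩ := h s hs.1 hs.2
      exact ⟨t, fun _ => ⟨h1, h2⟩⟩
    · exact ⟨0, fun h => absurd h hs⟩
  choose t ht using hlev
  have hle : (X ×ˢ L).ncard ≤ U.ncard := by
    refine Set.ncard_le_ncard_of_injOn (fun p i => p.1 i + t p.2 i) ?_ ?_ hT
    · rintro ⟨A, s⟩ ⟨hA, hs⟩
      exact (ht s hs).2 A hA
    · rintro ⟨A, s⟩ ⟨hA, hs⟩ ⟨A', s'⟩ ⟨hA', hs'⟩ heq
      simp only at heq hA hs hA' hs'
      have e1 : F (ev (fun i => A i + t s i) v) z = De * s := by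
        rw [ConicHP.F_ev_add, hS A hA, (ht s hs).1, zero_add]
      have e2 : F (ev (fun i => A' i + t s' i) v) z = De * s' := by
        rw [ConicHP.F_ev_add, hS A' hA', (ht s' hs').1, zero_add]
      have e4 : s = s' := mul_left_cancel₀ hDe (by rw [← e1, ← e2, heq])
      subst e4
      congr 1
      funext i
      have := congrFun heq i
      simpa using this
  rw [Set.ncard_prod] at hle
  have hle' : (X.ncard : ℝ) * (L.ncard : ℝ) ≤ U.ncard := by exact_mod_cast hle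
  refine le_trans ?_ hle'
  exact mul_le_mul_of_nonneg_left (hc I hI Y hY) (Nat.cast_nonneg _)

/-- vectors in a box -/
theorem crude_box_card {C' : ℝ} (hlat : ∀ (ι : Type) [Fintype ι] (I : Ideal (𝓞 K)), I ≠ ⊥ →
      ∀ X : InfinitePlace K → ℝ, (∀ w, 0 < X w) → ∀ v : ι → InfinitePlace K → ℂ,
      {a : ι → 𝓞 K | (∀ i, a i ∈ I) ∧ ∀ i w, ‖sg w (a i) - v i w‖ ≤ X w}.Finite ∧
      (Set.ncard {a : ι → 𝓞 K | (∀ i, a i ∈ I) ∧ ∀ i w, ‖sg w (a i) - v i w‖ ≤ X w} : ℝ) ≤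
        (C' * (np X / Ideal.absNorm I + 1)) ^ Fintype.card ι) (X : ℝ) (hX : 0 < X) :
    {A : Idx 2 2 × S → 𝓞 K | ∀ m w, ‖sg w (A m)‖ ≤ X}.Finite ∧
      (Set.ncard {A : Idx 2 2 × S → 𝓞 K | ∀ m w, ‖sg w (A m)‖ ≤ X} : ℝ) ≤
        (C' * (X ^ mK K + 1)) ^ MM S := by
  obtain ⟨h3, h4⟩ := hlat (Idx 2 2 × S) ⊤ (by simp) (fun _ => X) (fun _ => hX) (fun _ _ => 0)
  have e1 : {a : Idx 2 2 × S → 𝓞 K | (∀ i, a i ∈ (⊤ : Ideal (𝓞 K))) ∧ ∀ i w,
      ‖sg w (a i) - 0‖ ≤ X} = {A : Idx 2 2 × S → 𝓞 K | ∀ m w, ‖sg w (A m)‖ ≤ X} := by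
    ext a
    simp
  rw [e1] at h3 h4
  rw [np_const, Ideal.absNorm_top, Nat.cast_one, div_one] at h4
  exact ⟨h3, h4⟩

theorem crude_one (K : Type) [Field K] [NumberField K] (S : Type) [Fintype S] :
    ∃ C : ℝ, 0 < C ∧ ∀ B : ℕ, 1 ≤ B → ∀ x : Fin (2 + 1) → 𝓞 K, Prim x → ∀ mu : ℝ, 1 ≤ mu →
    Ortho mu x → (∀ w, ∃ i, (B : ℝ) / 2 ≤ ‖sg w (x i)‖) →
    ∀ v : S → 𝓞 K, PrimS v → ∀ (s0 : S) (U : ℝ), 0 < U → (∀ w, U ≤ ‖sg w (v s0)‖) →
    ∀ Mv : ℝ, (∀ s w, ‖sg w (v s)‖ ≤ Mv) →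
    ∀ R : ℝ, 1 ≤ R → c1 K 2 2 * mu / U + cK K * (Fintype.card S * Mv) ≤ R / 2 →
      (Set.ncard {A : Idx 2 2 × S → 𝓞 K | (∀ m w, ‖sg w (A m)‖ ≤ 2 * R) ∧
        F (ev A v) x = 0} : ℝ) * (R * (B : ℝ) ^ 2 * U) ^ mK K ≤ C * R ^ (mK K * MM S) := by
  obtain ⟨c, hc0, hc⟩ := lat_lower K
  obtain ⟨C', hC', hlat⟩ := lat_upper_vec K
  refine ⟨(2 * C' * 3 ^ mK K) ^ MM S * 8 ^ mK K / c, by positivity, ?_⟩
  intro B hB x hx mu hmu hgx hi v hv s0 U hU hs0 Mv hMv R hR h1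
  have hBpos : (0 : ℝ) < B := by exact_mod_cast hB
  have hRpos : 0 < R := by linarith
  have hbox := crude_box_card (S := S) hlat (3 * R) (by linarith)
  have hbox2 := crude_box_card (S := S) hlat (2 * R) (by linarith)
  have hstep := levels_evK hc
    {A : Idx 2 2 × S → 𝓞 K | (∀ m w, ‖sg w (A m)‖ ≤ 2 * R) ∧ F (ev A v) x = 0}
    {A : Idx 2 2 × S → 𝓞 K | ∀ m w, ‖sg w (A m)‖ ≤ 3 * R} hbox.1 v x ⊤ (by simp)
    (fun _ => R * (B : ℝ) ^ 2 * U / 8) (fun _ => by positivity) 1 one_ne_zero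
    (fun A hA => hA.2) (by
      intro s _ hsL
      obtain ⟨t, htx, htm⟩ := short_one B hB x hx mu hmu hgx hi v hv s0 U hU hs0 Mv hMv s
      refine ⟨t, by rw [htx, one_mul], fun A hA m w => ?_⟩
      have h3 : 4 * ‖sg w s‖ / (B : ℝ) ^ 2 / U ≤ R / 2 := by
        rw [div_div, div_le_div_iff₀ (by positivity) (by norm_num)]
        have hsw : ‖sg w s‖ ≤ R * (B : ℝ) ^ 2 * U / 8 := hsL w
        nlinarith
      have h4 := htm m w
      have h5 := hA.1 m w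
      rw [add_div] at h4
      rw [map_add]
      refine (norm_add_le _ _).trans ?_
      linarith)
  rw [Ideal.absNorm_top, Nat.cast_one, div_one, np_const] at hstep
  have h2 := hbox.2
  set N1 : ℝ := (Set.ncard {A : Idx 2 2 × S → 𝓞 K | (∀ m w, ‖sg w (A m)‖ ≤ 2 * R) ∧
    F (ev A v) x = 0} : ℝ)
  have h3 : N1 * (c * (R * (B : ℝ) ^ 2 * U / 8) ^ mK K) ≤ (2 * C' * 3 ^ mK K) ^ MM S *
      R ^ (mK K * MM S) := by
    refine hstep.trans (h2.trans ?_)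
    calc (C' * ((3 * R) ^ mK K + 1)) ^ MM S ≤ (2 * C' * 3 ^ mK K * R ^ mK K) ^ MM S := by
          apply pow_le_pow_left₀ (by positivity)
          have h5 : (1 : ℝ) ≤ (3 * R) ^ mK K := one_le_pow₀ (by linarith)
          calc C' * ((3 * R) ^ mK K + 1) ≤ C' * ((3 * R) ^ mK K + (3 * R) ^ mK K) := by gcongr
            _ = 2 * C' * 3 ^ mK K * R ^ mK K := by rw [mul_pow]; ring
      _ = _ := by rw [mul_pow _ (R ^ mK K), ← pow_mul]
  calc N1 * (R * (B : ℝ) ^ 2 * U) ^ mK K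
      = N1 * (c * (R * (B : ℝ) ^ 2 * U / 8) ^ mK K) * (8 ^ mK K / c) := by
        rw [div_pow]
        field_simp
    _ ≤ (2 * C' * 3 ^ mK K) ^ MM S * R ^ (mK K * MM S) * (8 ^ mK K / c) := by gcongr
    _ = _ := by ring

theorem crude_same (K : Type) [Field K] [NumberField K] (S : Type) [Fintype S] :
    ∃ C : ℝ, 0 < C ∧ ∀ B : ℕ, 1 ≤ B → ∀ x y : Fin (2 + 1) → 𝓞 K, Prim x → Prim y →
    ∀ mu : ℝ, 1 ≤ mu → Ortho mu x → Ortho mu y →
    (∀ w, ∃ i, (B : ℝ) / 2 ≤ ‖sg w (x i)‖ ∧ (B : ℝ) / 2 ≤ ‖sg w (y i)‖) →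
    x ∈ Bx 2 (2 * (B : ℝ)) → y ∈ Bx 2 (2 * (B : ℝ)) → mgI x y ≠ ⊥ →
    ∀ v : S → 𝓞 K, PrimS v → ∀ (s0 : S) (U : ℝ), 0 < U → (∀ w, U ≤ ‖sg w (v s0)‖) →
    ∀ Mv : ℝ, (∀ s w, ‖sg w (v s)‖ ≤ Mv) →
    ∀ R : ℝ, 1 ≤ R → c2 K 2 2 * mu ^ 2 / U + cK K * (Fintype.card S * Mv) ≤ R / 2 →
    c1 K 2 2 * mu / U + cK K * (Fintype.card S * Mv) ≤ R / 2 →
      (Set.ncard {A : Idx 2 2 × S → 𝓞 K | (∀ m w, ‖sg w (A m)‖ ≤ R) ∧ F (ev A v) x = 0 ∧
        F (ev A v) y = 0} : ℝ) ≤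
        C * R ^ (mK K * MM S) * mgN x y /
          np (fun w => R ^ 2 * U ^ 2 * (B : ℝ) ^ 2 * dl w x y) := by
  obtain ⟨c, hc0, hc⟩ := lat_lower K
  obtain ⟨C1, hC1, hone⟩ := crude_one K S
  obtain ⟨C', hC', hlat⟩ := lat_upper_vec K
  have hc3 := c3_pos 2 2
  refine ⟨C1 * (2 * c3 2 2) ^ mK K / c, by positivity, ?_⟩
  intro B hB x y hx hy mu hmu hgx hgy hi hx2 hy2 h v hv s0 U hU hs0 Mv hMv R hR h1 h2
  have hBpos : (0 : ℝ) < B := by exact_mod_cast hB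
  have hdpos : ∀ w, 0 < dl w x y := fun w => dl_pos x y h w
  have hmpos : (0 : ℝ) < mgN x y := by exact_mod_cast mgN_pos x y h
  have hRpos : 0 < R := by linarith
  have hbox2 := crude_box_card (S := S) hlat (2 * R) (by linarith)
  let L1 : InfinitePlace K → ℝ := fun w => R * U * dl w x y / (2 * c3 2 2)
  have hL1 : ∀ w, 0 < L1 w := by
    intro w
    have := hdpos w
    change 0 < R * U * dl w x y / (2 * c3 2 2)
    positivity
  have hstep := levels_evK hc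
    {A : Idx 2 2 × S → 𝓞 K | (∀ m w, ‖sg w (A m)‖ ≤ R) ∧ F (ev A v) x = 0 ∧ F (ev A v) y = 0}
    {A : Idx 2 2 × S → 𝓞 K | (∀ m w, ‖sg w (A m)‖ ≤ 2 * R) ∧ F (ev A v) x = 0}
    (hbox2.1.subset fun A hA => hA.1) v y (mgI x y) h L1 hL1 1 one_ne_zero
    (fun A hA => hA.2.2) (by
      intro s hs hsL
      obtain ⟨t, htx, hty, htm⟩ := short_same B hB x y hx hy mu hmu hgx hgy hi hx2 hy2 h v hv
        s0 U hU hs0 Mv hMv s hs
      refine ⟨t, by rw [hty, one_mul], fun A hA => ⟨fun m w => ?_, ?_⟩⟩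
      · have hdw := hdpos w
        have h3 : c3 2 2 * ‖sg w s‖ / dl w x y / U ≤ R / 2 := by
          rw [div_div, div_le_div_iff₀ (by positivity) (by norm_num)]
          have hsw : ‖sg w s‖ ≤ R * U * dl w x y / (2 * c3 2 2) := hsL w
          rw [le_div_iff₀ (by positivity)] at hsw
          calc c3 2 2 * ‖sg w s‖ * 2 = ‖sg w s‖ * (2 * c3 2 2) := by ring
            _ ≤ R * U * dl w x y := hsw
            _ = R * (dl w x y * U) := by ring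
        have h4 := htm m w
        have h5 := hA.1 m w
        rw [add_div] at h4
        rw [map_add]
        refine (norm_add_le _ _).trans ?_
        linarith
      · rw [ConicHP.F_ev_add, hA.2.1, htx, add_zero])
  have hlast := hone B hB x hx mu hmu hgx
    (fun w => ⟨(hi w).choose, (hi w).choose_spec.1⟩) v hv s0 U hU hs0 Mv hMv R hR h2
  set N0 : ℝ := (Set.ncard {A : Idx 2 2 × S → 𝓞 K | (∀ m w, ‖sg w (A m)‖ ≤ R) ∧
    F (ev A v) x = 0 ∧ F (ev A v) y = 0} : ℝ)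
  set N1 : ℝ := (Set.ncard {A : Idx 2 2 × S → 𝓞 K | (∀ m w, ‖sg w (A m)‖ ≤ 2 * R) ∧
    F (ev A v) x = 0} : ℝ)
  have hnp1 := np_pos hL1
  have hnp3 : 0 < np (fun w => R ^ 2 * U ^ 2 * (B : ℝ) ^ 2 * dl w x y) :=
    np_pos fun w => by
      have := hdpos w
      positivity
  have h3 : N0 * (c * (np L1 / mgN x y)) * (R * (B : ℝ) ^ 2 * U) ^ mK K ≤
      C1 * R ^ (mK K * MM S) := by
    refine le_trans ?_ hlast
    exact mul_le_mul_of_nonneg_right hstep (by positivity)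
  have h4 : np L1 * (R * (B : ℝ) ^ 2 * U) ^ mK K =
      np (fun w => R ^ 2 * U ^ 2 * (B : ℝ) ^ 2 * dl w x y) / (2 * c3 2 2) ^ mK K := by
    rw [← np_const (K := K) (R * (B : ℝ) ^ 2 * U), ← np_mul, ← np_const (K := K) (2 * c3 2 2),
      ← np_div]
    congr 1
    funext w
    change R * U * dl w x y / (2 * c3 2 2) * (R * (B : ℝ) ^ 2 * U) = _
    ring
  rw [le_div_iff₀ hnp3]
  have h6 : np (fun w => R ^ 2 * U ^ 2 * (B : ℝ) ^ 2 * dl w x y) =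
      np L1 * (R * (B : ℝ) ^ 2 * U) ^ mK K * (2 * c3 2 2) ^ mK K := by
    rw [h4]
    field_simp
  calc N0 * np (fun w => R ^ 2 * U ^ 2 * (B : ℝ) ^ 2 * dl w x y)
      = N0 * (c * (np L1 / mgN x y)) * (R * (B : ℝ) ^ 2 * U) ^ mK K *
        ((2 * c3 2 2) ^ mK K / c * mgN x y) := by
        rw [h6]
        field_simp
    _ ≤ C1 * R ^ (mK K * MM S) * ((2 * c3 2 2) ^ mK K / c * mgN x y) :=
        mul_le_mul_of_nonneg_right h3 (by positivity)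
    _ = _ := by ring

end NKCHP
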