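import Pool.Agent.Lib.MP_e426f4_ag.CK.Basic
import Pool.Agent.Lib.MP_e426f4_ag.N.ShortTwo

/-!
CK-RealPair: the complex solution for two points at one place. Templates: the corresponding part of the proof of NFHP.short_pair (N/ShortTwo.lean, exists_large_minorK), C/RealPair.lean. c3 2 2 = 32 * 9. The last clause: everything is real at a real place.
-/

namespace NKCHP

open NumberField GenHP NFHP NKHP Finset Filter Topology
open ConicHP (ev JJ)

variable {K : Type} [Field K] [NumberField K]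

theorem real_pairC (B : ℕ) (hB : 1 ≤ B) (x y : Fin (2 + 1) → 𝓞 K) (w : InfinitePlace K)
    (i0 : Fin (2 + 1)) (hi0 : (B : ℝ) / 2 ≤ ‖sg w (x i0)‖) (hi0' : (B : ℝ) / 2 ≤ ‖sg w (y i0)‖)
    (hx2 : ∀ i, ‖sg w (x i)‖ ≤ 2 * B) (h : 0 < dl w x y) (s : ℂ) :
    ∃ t : Idx 2 2 → ℂ, F t (fun i => sg w (x i)) = 0 ∧ F t (fun i => sg w (y i)) = s ∧
      (∀ m, ‖t m‖ ≤ c3 2 2 * ‖s‖ / dl w x y) ∧ (w.IsReal → s.im = 0 → ∀ m, (t m).im = 0) := by
  have hBpos : (0 : ℝ) < B := by exact_mod_cast hB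
  have hy0 : sg w (y i0) ≠ 0 := by
    intro h
    rw [h, norm_zero] at hi0'
    linarith
  obtain ⟨j, hj⟩ := exists_large_minorK B hB x y w i0 hi0 hx2
  set δ : ℂ := sg w (minor x y i0 j) with hδ
  have hδ0 : δ ≠ 0 := by
    intro h1
    rw [h1, norm_zero, mul_zero] at hj
    linarith
  have hji : j ≠ i0 := by
    rintro rfl
    apply hδ0
    rw [hδ, NFHP.minor, sub_self, map_zero]
  have hδe : δ = sg w (x i0) * sg w (y j) - sg w (x j) * sg w (y i0) := by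
    rw [hδ]
    simp only [NFHP.minor, map_sub, map_mul]
  set m1 : Idx 2 2 := mk fun _ => i0 with hm1
  set m2 : Idx 2 2 := mk (Fin.cons j fun _ => i0 : Fin (1 + 1) → Fin (2 + 1)) with hm2
  have hm12 : m2 ≠ m1 := mk_cons_ne (e := 1) i0 j hji
  set tR : Idx 2 2 → ℂ := fun m => s / (sg w (y i0) * δ) *
    ((Pi.single m2 (sg w (x i0)) : Idx 2 2 → ℂ) m
      - (Pi.single m1 (sg w (x j)) : Idx 2 2 → ℂ) m) with htR
  have hFR : ∀ z : Fin (2 + 1) → ℂ, F tR z = s / (sg w (y i0) * δ) *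
      (sg w (x i0) * (z j * z i0) - sg w (x j) * (z i0 ^ 2)) := by
    intro z
    rw [htR, F_smul]
    congr 1
    have h3 : F (fun m => (Pi.single m2 (sg w (x i0)) : Idx 2 2 → ℂ) m
      - (Pi.single m1 (sg w (x j)) : Idx 2 2 → ℂ) m) z =
      F (Pi.single m2 (sg w (x i0)) : Idx 2 2 → ℂ) z
        - F (Pi.single m1 (sg w (x j)) : Idx 2 2 → ℂ) z := by
      simp only [F, sub_mul, Finset.sum_sub_distrib]
    rw [h3, F_single, F_single, hm1, hm2, mon_mk, mon_mk, Fin.prod_univ_succ]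
    simp
  refine ⟨tR, ?_, ?_, fun m => ?_, fun hw hs m => ?_⟩
  · rw [hFR]
    ring
  · rw [hFR]
    have h4 : sg w (x i0) * (sg w (y j) * sg w (y i0)) - sg w (x j) * (sg w (y i0) ^ 2) =
        sg w (y i0) * δ := by
      rw [hδe]
      ring
    rw [h4]
    field_simp
  · rw [htR]
    simp only
    rw [norm_mul, norm_div, norm_mul]
    have h2 : ‖(Pi.single m2 (sg w (x i0)) : Idx 2 2 → ℂ) m
        - (Pi.single m1 (sg w (x j)) : Idx 2 2 → ℂ) m‖ ≤ 2 * B := by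
      by_cases h3 : m = m1
      · subst h3
        rw [Pi.single_eq_of_ne hm12.symm, Pi.single_eq_same, zero_sub, norm_neg]
        exact hx2 j
      · rw [Pi.single_eq_of_ne h3, sub_zero]
        by_cases h4 : m = m2
        · subst h4
          rw [Pi.single_eq_same]
          exact hx2 i0
        · rw [Pi.single_eq_of_ne h4, norm_zero]
          positivity
    have hy0' : 0 < ‖sg w (y i0)‖ := norm_pos_iff.mpr hy0
    have hδ' : 0 < ‖δ‖ := norm_pos_iff.mpr hδ0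
    have hj' : dl w x y / 72 ≤ ‖δ‖ := by
      have h5 : (8 : ℝ) * (((2 : ℕ) : ℝ) + 1) ^ 2 = 72 := by norm_num
      rw [h5] at hj
      linarith
    calc ‖s‖ / (‖sg w (y i0)‖ * ‖δ‖) *
          ‖(Pi.single m2 (sg w (x i0)) : Idx 2 2 → ℂ) m
            - (Pi.single m1 (sg w (x j)) : Idx 2 2 → ℂ) m‖
        ≤ ‖s‖ / (‖sg w (y i0)‖ * ‖δ‖) * (2 * B) := by gcongr
      _ ≤ ‖s‖ / ((B : ℝ) / 2 * (dl w x y / 72)) * (2 * B) := by gcongr
      _ = c3 2 2 * ‖s‖ / dl w x y := by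
        rw [c3]
        push_cast
        field_simp
        ring
  · have hre : ∀ a : 𝓞 K, ∃ r : ℝ, sg w a = (r : ℂ) := by
      intro a
      refine ⟨w.embedding_of_isReal hw (algebraMap (𝓞 K) K a), ?_⟩
      rw [InfinitePlace.embedding_of_isReal_apply hw]
      rfl
    obtain ⟨sr, hsr⟩ : ∃ r : ℝ, s = (r : ℂ) := ⟨s.re, Complex.ext rfl (by simpa using hs)⟩
    obtain ⟨a1, ha1⟩ := hre (y i0)
    obtain ⟨a2, ha2⟩ := hre (minor x y i0 j)
    obtain ⟨a3, ha3⟩ := hre (x i0)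
    obtain ⟨a4, ha4⟩ := hre (x j)
    have e2 : ∀ (k : Idx 2 2) (r : ℝ), ∃ r' : ℝ, (Pi.single k (r : ℂ) : Idx 2 2 → ℂ) m = (r' : ℂ) := by
      intro k r
      by_cases h5 : m = k
      · subst h5
        exact ⟨r, by rw [Pi.single_eq_same]⟩
      · exact ⟨0, by rw [Pi.single_eq_of_ne h5, Complex.ofReal_zero]⟩
    obtain ⟨b1, hb1⟩ := e2 m2 a3
    obtain ⟨b2, hb2⟩ := e2 m1 a4
    rw [htR]
    simp only
    rw [hδ, ha1, ha2, ha3, ha4, hb1, hb2, hsr]
    have e3 : (sr : ℂ) / ((a1 : ℂ) * (a2 : ℂ)) * ((b1 : ℂ) - (b2 : ℂ)) =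
        ((sr / (a1 * a2) * (b1 - b2) : ℝ) : ℂ) := by
      push_cast
      ring
    rw [e3]
    exact Complex.ofReal_im _

end NKCHP
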