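import Pool.Agent.Lib.MP_e426f4_ag.CK.Basic
import Pool.Agent.Lib.MP_e426f4_ag.N.ShortOne

/-!
CK-RoundLin: rounding along a finite family of integer vectors, arbitrary finite index type. Templates: NFHP.round_familyK and NFHP.exists_RV_coeff (N/ShortOne.lean) with Idx n d replaced by I and F . y replaced by the linear form with coefficients L, individual bounds b i as in ConicHP.round_lin (C/ShortC.lean).
-/

namespace NKCHP

open NumberField GenHP NFHP NKHP Finset Filter Topology
open ConicHP (ev JJ)

variable {K : Type} [Field K] [NumberField K]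

/-- at the real places the coefficients can be taken to be real -/
private theorem exists_RV_coeffI {I J : Type} [Fintype J] (V : J → I → 𝓞 K)
    (tR : I → InfinitePlace K → ℂ) (htR : ∀ m, RV (tR m))
    (h : ∀ w, ∃ r : J → ℂ, ∀ m, tR m w = ∑ i, r i * sg w (V i m)) :
    ∃ r : J → InfinitePlace K → ℂ, (∀ i, RV (r i)) ∧
      ∀ w m, tR m w = ∑ i, r i w * sg w (V i m) := by
  classical
  choose r hr using h
  refine ⟨fun i w => if w.IsReal then ((r w i).re : ℂ) else r w i, ?_, ?_⟩
  · intro i w hw
    simp only [hw, if_true, Complex.ofReal_im]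
  · intro w m
    by_cases hw : w.IsReal
    · simp only [hw, if_true]
      have h1 := (RV_iff _).mp (htR m) w hw
      have h2 : ∀ i, ((sg w (V i m)).re : ℂ) = sg w (V i m) := fun i =>
        (RV_iff _).mp (RV_sg (V i m)) w hw
      rw [← h1, hr w m, Complex.re_sum, Complex.ofReal_sum]
      refine Finset.sum_congr rfl fun i _ => ?_
      rw [Complex.mul_re, ← h2 i, Complex.ofReal_im, Complex.ofReal_re, mul_zero, sub_zero,
        Complex.ofReal_mul]
    · simp only [hw, if_false]
      exact hr w m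

theorem round_linK {I J : Type} [Fintype I] [Fintype J] (V : J → I → 𝓞 K) (b : J → ℝ)
    (hV : ∀ i m w, ‖sg w (V i m)‖ ≤ b i) (t0 : I → 𝓞 K) (tR : I → InfinitePlace K → ℂ)
    (htR : ∀ m, RV (tR m))
    (h : ∀ w, ∃ r : J → ℂ, ∀ m, sg w (t0 m) - tR m w = ∑ i, r i * sg w (V i m)) :
    ∃ t : I → 𝓞 K, (∀ L : I → 𝓞 K, (∀ i, ∑ m, V i m * L m = 0) →
      ∑ m, t m * L m = ∑ m, t0 m * L m) ∧
      ∀ m w, ‖sg w (t m)‖ ≤ ‖tR m w‖ + cK K * ∑ i, b i := by
  classical
  obtain ⟨r, hrR, hr⟩ := exists_RV_coeffI V (fun m w => sg w (t0 m) - tR m w)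
    (fun m => RV_sub (RV_sg _) (htR m)) h
  choose a ha using fun i => exists_round (hrR i)
  refine ⟨fun m => t0 m - ∑ i, a i * V i m, ?_, ?_⟩
  · intro L hL
    have h1 : ∑ m, (t0 m - ∑ i, a i * V i m) * L m =
        ∑ m, t0 m * L m - ∑ i, a i * ∑ m, V i m * L m := by
      simp only [sub_mul, Finset.sum_sub_distrib, Finset.sum_mul, Finset.mul_sum]
      congr 1
      rw [Finset.sum_comm]
      exact Finset.sum_congr rfl fun i _ => Finset.sum_congr rfl fun m _ => by ring
    rw [h1, Finset.sum_eq_zero (s := Finset.univ) (f := fun i => a i * ∑ m, V i m * L m)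
      (fun i _ => by rw [hL i, mul_zero]), sub_zero]
  · intro m w
    have h1 : sg w (t0 m - ∑ i, a i * V i m) =
        tR m w - ∑ i, (sg w (a i) - r i w) * sg w (V i m) := by
      have h2 := hr w m
      rw [map_sub, map_sum]
      simp only [map_mul, sub_mul, Finset.sum_sub_distrib]
      linear_combination h2
    rw [h1]
    refine (norm_sub_le _ _).trans ?_
    gcongr
    refine (norm_sum_le _ _).trans ?_
    rw [Finset.mul_sum]
    refine Finset.sum_le_sum fun i _ => ?_
    rw [norm_mul]
    exact mul_le_mul (ha i w) (hV i m w) (norm_nonneg _) (cK_pos (K := K)).le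

end NKCHP
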