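import Pool.Agent.Lib.MP_e426f4_ag.CK.SpanCross
import Pool.Agent.Lib.MP_e426f4_ag.CK.RoundLin
import Pool.Agent.Lib.MP_e426f4_ag.CK.RealPair
import Pool.Agent.Lib.MP_e426f4_ag.N.Minors

/-!
CK-ShortC: short vectors for two points in two different fibres. Template: ConicHP.short_cross (C/ShortC.lean). Integral solution: s = s1 + s2 Dd with s1 in mgI x y; t1 = b1 (x) a1 (NFHP.exists_vec_mg: F b1 x = 0, F b1 y = s1; sum a1 v' = 1), t2 = s2 T(cy,cy) (x) a2 (sum cy y = 1; a2 from hsep: F(ev t2 v) x = 0, F(ev t2 v') y = s2 Dd).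
Real solution at the place w: bR_w (real_pairC with s_w = sg w s) times e_{s0}/v'_{s0}: size <= c3 |s|_w/(dl_w U); RV by the last clause of real_pairC. The difference is in the span of the vectors of span_cross at each place; round_linK. Sum of the bounds: 6 card S * 4 Vm^2 + 12 * 3 mu Vm <= 36 (mu Vm + card S Vm^2) (card (Idx 2 2) = 6, card QQ = 6).
-/

namespace NKCHP

open NumberField GenHP NFHP NKHP Finset Filter Topology
open ConicHP (ev JJ)

variable {K : Type} [Field K] [NumberField K] {S : Type} [Fintype S]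

theorem short_cross (B : ℕ) (hB : 1 ≤ B) (x y : Fin (2 + 1) → 𝓞 K)
    (hx : Prim x) (hy : Prim y) (mu : ℝ) (hmu : 1 ≤ mu) (hgx : Ortho mu x) (hgy : Ortho mu y)
    (hi : ∀ w, ∃ i, (B : ℝ) / 2 ≤ ‖sg w (x i)‖ ∧ (B : ℝ) / 2 ≤ ‖sg w (y i)‖)
    (hx2 : x ∈ Bx 2 (2 * (B : ℝ))) (h : mgI x y ≠ ⊥)
    (v v' : S → 𝓞 K) (hv : PrimS v) (hv' : PrimS v') (s0 : S) (U : ℝ) (hU : 0 < U)
    (hs0 : ∀ w, U ≤ ‖sg w (v' s0)‖)
    (Vm : ℝ) (hVm : 1 ≤ Vm) (hVv : ∀ s w, ‖sg w (v s)‖ ≤ Vm) (hVv' : ∀ s w, ‖sg w (v' s)‖ ≤ Vm)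
    (Dd : ℕ) (hDd : 0 < Dd)
    (hsep : ∃ a : S → 𝓞 K, ∑ s, a s * v s = 0 ∧ ∑ s, a s * v' s = (Dd : 𝓞 K)) (s : 𝓞 K)
    (hs : s ∈ mgI x y ⊔ Ideal.span {(Dd : 𝓞 K)}) :
    ∃ t : Idx 2 2 × S → 𝓞 K, F (ev t v) x = 0 ∧ F (ev t v') y = s ∧
      ∀ m w, ‖sg w (t m)‖ ≤ c3 2 2 * ‖sg w s‖ / (dl w x y * U) +
        cK K * (36 * (mu * Vm + Fintype.card S * Vm ^ 2)) := by
  classical
  have hBpos : (0 : ℝ) < B := by exact_mod_cast hB
  have hVm0 : (0 : ℝ) ≤ Vm := by linarith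
  have hmu0 : (0 : ℝ) ≤ mu := by linarith
  have hdpos : ∀ w, 0 < dl w x y := fun w => dl_pos x y h w
  choose i0 hi0 hi0' using hi
  have hxne : x ≠ 0 := by
    intro h0
    have h1 := hi0 (Classical.arbitrary _)
    rw [h0] at h1
    simp only [Pi.zero_apply, map_zero, norm_zero] at h1
    linarith
  have hyne : y ≠ 0 := by
    intro h0
    have h1 := hi0' (Classical.arbitrary _)
    rw [h0] at h1
    simp only [Pi.zero_apply, map_zero, norm_zero] at h1
    linarith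
  obtain ⟨s1, s2, hDe⟩ := exists_minorS v v' hv Dd hDd hsep
  obtain ⟨V, hV0, hVb, hVs⟩ := span_cross x y hxne hyne mu hmu hgx hgy v v' Vm hVm hVv hVv' s1 s2 hDe
  choose bR hbx hby hbb hbim using fun w =>
    real_pairC B hB x y w (i0 w) (hi0 w) (hi0' w) (fun i => hx2 i w) (hdpos w) (sg w s)
  obtain ⟨u1, hu1, z, hz, husz⟩ := Submodule.mem_sup.1 hs
  obtain ⟨k, hk⟩ := Ideal.mem_span_singleton'.1 hz
  obtain ⟨b1, hb1x, hb1y⟩ := exists_vec_mg (d := 2) (by norm_num) x y hy u1 hu1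
  obtain ⟨cy, hcy⟩ := hy
  obtain ⟨a1, ha1⟩ := hv'
  obtain ⟨a2, ha2v, ha2v'⟩ := hsep
  have hvs0 : ∀ w, 0 < ‖sg w (v' s0)‖ := fun w => hU.trans_le (hs0 w)
  have hvs0' : ∀ w, sg w (v' s0) ≠ 0 := fun w => norm_pos_iff.1 (hvs0 w)
  -- the integral solution
  set t1 : Idx 2 2 × S → 𝓞 K := fun m => b1 m.1 * a1 m.2 with ht1
  set t2 : Idx 2 2 × S → 𝓞 K := fun m => T (fun _ : Fin 2 => cy) m.1 * a2 m.2 with ht2
  set t0 : Idx 2 2 × S → 𝓞 K := fun m => t1 m + (fun m => k * t2 m) m with ht0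
  have h1x : F (ev t1 v) x = 0 := by rw [ht1, ConicHP.F_ev_tensor, hb1x, mul_zero]
  have h1y : F (ev t1 v') y = u1 := by rw [ht1, ConicHP.F_ev_tensor, hb1y, ha1, one_mul]
  have h2x : F (ev t2 v) x = 0 := by rw [ht2, ConicHP.F_ev_tensor, ha2v, zero_mul]
  have h2y : F (ev t2 v') y = Dd := by
    rw [ht2, ConicHP.F_ev_tensor, ha2v', F_T, hcy]
    simp
  have h0x : F (ev t0 v) x = 0 := by
    rw [ht0, ConicHP.F_ev_add, ConicHP.F_ev_smul, h1x, h2x]
    ring
  have h0y : F (ev t0 v') y = s := by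
    rw [ht0, ConicHP.F_ev_add, ConicHP.F_ev_smul, h1y, h2y, hk, husz]
  -- the complex solution
  obtain ⟨aR, haR⟩ : ∃ aR : InfinitePlace K → S → ℂ,
      aR = fun w => Pi.single s0 (1 / sg w (v' s0)) := ⟨_, rfl⟩
  have haR0 : ∀ w, aR w s0 = 1 / sg w (v' s0) := fun w => by
    rw [haR]
    exact Pi.single_eq_same _ _
  have haR1 : ∀ w i, i ≠ s0 → aR w i = 0 := fun w i hi => by
    rw [haR]
    exact Pi.single_eq_of_ne hi _
  obtain ⟨tR, htR⟩ : ∃ tR : Idx 2 2 × S → InfinitePlace K → ℂ,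
      tR = fun m w => bR w m.1 * aR w m.2 := ⟨_, rfl⟩
  have htR' : ∀ w, (fun m => tR m w) = fun m : Idx 2 2 × S => bR w m.1 * aR w m.2 := fun w => by
    rw [htR]
  have htRV : ∀ m, RV (tR m) := by
    intro m w hw
    have h1 : (bR w m.1).im = 0 := hbim w hw (RV_sg s w hw) m.1
    have h2 : (aR w m.2).im = 0 := by
      by_cases hm : m.2 = s0
      · rw [hm, haR0]
        have h3 : RV fun w' : InfinitePlace K => sg w' (1 : 𝓞 K) / sg w' (v' s0) :=
          RV_div (RV_sg _) (RV_sg _)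
        have h4 := h3 w hw
        simp only [map_one] at h4
        exact h4
      · rw [haR1 w _ hm, Complex.zero_im]
    rw [htR]
    simp only
    rw [Complex.mul_im, h1, h2]
    ring
  have haRv' : ∀ w, ∑ s, aR w s * sg w (v' s) = 1 := by
    intro w
    rw [Finset.sum_eq_single s0, haR0]
    · have := hvs0' w
      field_simp
    · intro i _ hi
      rw [haR1 w i hi, zero_mul]
    · intro h0
      exact absurd (Finset.mem_univ s0) h0
  have hRx : ∀ w, F (ev (fun m => tR m w) fun s => sg w (v s)) (fun i => sg w (x i)) = 0 := by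
    intro w
    rw [htR', ConicHP.F_ev_tensor, hbx, mul_zero]
  have hRy : ∀ w, F (ev (fun m => tR m w) fun s => sg w (v' s)) (fun i => sg w (y i)) =
      sg w s := by
    intro w
    rw [htR', ConicHP.F_ev_tensor, hby, haRv', one_mul]
  have hsub : ∀ (w : InfinitePlace K) (u : S → 𝓞 K) (z : Fin (2 + 1) → 𝓞 K),
      F (ev (fun m => sg w (t0 m) - tR m w) (fun s => sg w (u s))) (fun i => sg w (z i)) =
      sg w (F (ev t0 u) z) -
        F (ev (fun m => tR m w) fun s => sg w (u s)) (fun i => sg w (z i)) := by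
    intro w u z
    rw [← F_ev_sg, ConicHP.F_ev, ConicHP.F_ev, ConicHP.F_ev, ← Finset.sum_sub_distrib]
    exact Finset.sum_congr rfl fun m _ => by ring
  obtain ⟨t, ht, htb⟩ := round_linK V _ hVb t0 tR htRV (fun w => by
    refine hVs w _ ?_ ?_
    · rw [hsub, hRx, h0x, map_zero, sub_zero]
    · rw [hsub, hRy, h0y, sub_self])
  refine ⟨t, ?_, ?_, fun m w => (htb m w).trans ?_⟩
  · rw [ConicHP.F_ev, ht, ← ConicHP.F_ev, h0x]
    intro i
    rw [← ConicHP.F_ev]
    exact (hV0 i).1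
  · rw [ConicHP.F_ev, ht, ← ConicHP.F_ev, h0y]
    intro i
    rw [← ConicHP.F_ev]
    exact (hV0 i).2
  · have hc3 : 0 ≤ c3 2 2 := by
      unfold c3
      positivity
    have hdp := hdpos w
    have e1 : ‖tR m w‖ ≤ c3 2 2 * ‖sg w s‖ / (dl w x y * U) := by
      have e0 : tR m w = bR w m.1 * aR w m.2 := by rw [htR]
      rw [e0, norm_mul]
      have f1 : ‖aR w m.2‖ ≤ 1 / U := by
        by_cases hm : m.2 = s0
        · rw [hm, haR0, norm_div, norm_one]
          exact one_div_le_one_div_of_le hU (hs0 w)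
        · rw [haR1 w _ hm, norm_zero]
          positivity
      calc ‖bR w m.1‖ * ‖aR w m.2‖ ≤ c3 2 2 * ‖sg w s‖ / dl w x y * (1 / U) :=
            mul_le_mul (hbb w _) f1 (norm_nonneg _) (by positivity)
        _ = _ := by
            field_simp
    have e2 : ∑ i : (Idx 2 2 × S) ⊕ (ConicHP.QQ ⊕ ConicHP.QQ),
        Sum.elim (fun _ => 4 * Vm ^ 2) (fun _ => 3 * mu * Vm) i =
        24 * Fintype.card S * Vm ^ 2 + 36 * (mu * Vm) := by
      rw [Fintype.sum_sum_type]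
      simp only [Sum.elim_inl, Sum.elim_inr, Finset.sum_const, Finset.card_univ, nsmul_eq_mul,
        Fintype.card_prod, Fintype.card_sum]
      have c1 : Fintype.card (Idx 2 2) = 6 := by decide
      have c2 : Fintype.card (Fin (2 - 1) → Fin (2 + 1)) = 3 := by simp
      rw [c1, c2, Fintype.card_fin]
      push_cast
      ring
    rw [e2]
    have e3 : (0 : ℝ) ≤ Fintype.card S * Vm ^ 2 := by positivity
    have e4 := cK_pos (K := K)
    have e5 : cK K * (24 * Fintype.card S * Vm ^ 2 + 36 * (mu * Vm)) ≤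
        cK K * (36 * (mu * Vm + Fintype.card S * Vm ^ 2)) := by
      refine mul_le_mul_of_nonneg_left ?_ e4.le
      linarith
    linarith

end NKCHP
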