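import Pool.Agent.Lib.MP_e426f4_ag.CK.SpanCross
import Pool.Agent.Lib.MP_e426f4_ag.N.ShortOne

/-!
CK-ShortD: the same point in two different fibres. Template: C/ShortD.lean. De = v s1 v' s2 - v s2 v' s1 /= 0 (exists_minorS; s1 /= s2), a = v_{s1} e_{s2} - v_{s2} e_{s1}: sum a v = 0, sum a v' = De, |a|_w <= Vm; t = b (x) a with b from NFHP.short_single (F b x = s): F(ev t v') x = De s.
-/

namespace NKCHP

open NumberField GenHP NFHP NKHP Finset Filter Topology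
open ConicHP (ev JJ)

variable {K : Type} [Field K] [NumberField K] {S : Type} [Fintype S]

omit [NumberField K] in
/-- the vector `v_{s1} e_{s2} - v_{s2} e_{s1}` -/
private theorem exists_sep_vecK (v v' : S → 𝓞 K) (s1 s2 : S) (Vm : ℝ) (hVm : 1 ≤ Vm)
    (hVv : ∀ s w, ‖sg w (v s)‖ ≤ Vm) (hs : s1 ≠ s2) :
    ∃ a : S → 𝓞 K, ∑ s, a s * v s = 0 ∧ ∑ s, a s * v' s = v s1 * v' s2 - v s2 * v' s1 ∧
      ∀ s w, ‖sg w (a s)‖ ≤ Vm := by
  classical
  have key : ∀ u : S → 𝓞 K, ∑ s, (if s = s2 then v s1 else if s = s1 then - v s2 else 0) * u s =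
      v s1 * u s2 - v s2 * u s1 := by
    intro u
    have h : ∀ s, (if s = s2 then v s1 else if s = s1 then - v s2 else 0) * u s =
        (if s = s2 then v s1 * u s2 else 0) + (if s = s1 then - (v s2 * u s1) else 0) := by
      intro s
      by_cases h1 : s = s2
      · subst h1
        simp [hs.symm]
      · by_cases h2 : s = s1
        · subst h2
          simp [h1]
        · simp [h1, h2]
    simp only [h, Finset.sum_add_distrib, Finset.sum_ite_eq', mem_univ, if_true]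
    ring
  refine ⟨fun s => if s = s2 then v s1 else if s = s1 then - v s2 else 0, ?_, key v', ?_⟩
  · rw [key v]
    ring
  · intro s w
    show ‖sg w (if s = s2 then v s1 else if s = s1 then - v s2 else 0)‖ ≤ Vm
    split_ifs
    · exact hVv s1 w
    · rw [map_neg, norm_neg]
      exact hVv s2 w
    · rw [map_zero, norm_zero]
      linarith

theorem short_samex (B : ℕ) (hB : 1 ≤ B) (x : Fin (2 + 1) → 𝓞 K)
    (hx : Prim x) (mu : ℝ) (hmu : 1 ≤ mu) (hgx : Ortho mu x)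
    (hi : ∀ w, ∃ i, (B : ℝ) / 2 ≤ ‖sg w (x i)‖)
    (v v' : S → 𝓞 K) (hv : PrimS v)
    (Vm : ℝ) (hVm : 1 ≤ Vm) (hVv : ∀ s w, ‖sg w (v s)‖ ≤ Vm)
    (Dd : ℕ) (hDd : 0 < Dd)
    (hsep : ∃ a : S → 𝓞 K, ∑ s, a s * v s = 0 ∧ ∑ s, a s * v' s = (Dd : 𝓞 K)) :
    ∃ De : 𝓞 K, De ≠ 0 ∧ ∀ s : 𝓞 K, ∃ t : Idx 2 2 × S → 𝓞 K, F (ev t v) x = 0 ∧
      F (ev t v') x = De * s ∧
      ∀ m w, ‖sg w (t m)‖ ≤ Vm * (4 * ‖sg w s‖ / (B : ℝ) ^ 2 + c1 K 2 2 * mu) := by
  obtain ⟨s1, s2, h12⟩ := exists_minorS v v' hv Dd hDd hsep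
  have hne : s1 ≠ s2 := by
    rintro rfl
    exact h12 (by ring)
  obtain ⟨a, ha1, ha2, ha3⟩ := exists_sep_vecK v v' s1 s2 Vm hVm hVv hne
  refine ⟨_, h12, fun s => ?_⟩
  obtain ⟨b, hb1, hb2⟩ := short_single (n := 2) (d := 2) (by norm_num) B hB x hx mu hmu hgx hi s
  refine ⟨fun m => b m.1 * a m.2, ?_, ?_, ?_⟩
  · rw [ConicHP.F_ev_tensor, ha1, zero_mul]
  · rw [ConicHP.F_ev_tensor, ha2, hb1]
  · intro m w
    show ‖sg w (b m.1 * a m.2)‖ ≤ _
    rw [map_mul, norm_mul, mul_comm]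
    refine mul_le_mul (ha3 m.2 w) ((hb2 m.1 w).trans (le_of_eq ?_)) (norm_nonneg _) (by linarith)
    norm_num

end NKCHP
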