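import Pool.Agent.Lib.MP_e426f4_ag.CK.CrudeA
import Pool.Agent.Lib.MP_e426f4_ag.CK.ShortC
import Pool.Agent.Lib.MP_e426f4_ag.CK.ShortD

/-!
CK-CrudeB: crude counts, two points in two different fibres, and the same point in two different fibres. Templates: C/CrudeB.lean, C/CrudeC.lean. crude_cross: levels s in I = mgI x y + (Dd) (/= bot), |s|_w <= R U dl_w/(2 c3) (short_cross, U for v'), translates in {|A| <= 2R, F(ev A v) x = 0}, then crude_one (U for v).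
crude_samex: levels s in top, |s|_w <= R B^2/(8 Vm) (short_samex, De), translates in {|A| <= 2R, F(ev A v) x = 0}, then crude_one with Mv = Vm.
-/

namespace NKCHP

open NumberField GenHP NFHP NKHP Finset Filter Topology
open ConicHP (ev JJ)

variable {K : Type} [Field K] [NumberField K] {S : Type} [Fintype S]

theorem crude_cross (K : Type) [Field K] [NumberField K] (S : Type) [Fintype S] :
    ∃ C : ℝ, 0 < C ∧ ∀ B : ℕ, 1 ≤ B → ∀ x y : Fin (2 + 1) → 𝓞 K, Prim x → Prim y →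
    ∀ mu : ℝ, 1 ≤ mu → Ortho mu x → Ortho mu y →
    (∀ w, ∃ i, (B : ℝ) / 2 ≤ ‖sg w (x i)‖ ∧ (B : ℝ) / 2 ≤ ‖sg w (y i)‖) →
    x ∈ Bx 2 (2 * (B : ℝ)) → y ∈ Bx 2 (2 * (B : ℝ)) → mgI x y ≠ ⊥ →
    ∀ v v' : S → 𝓞 K, PrimS v → PrimS v' → ∀ (s0 : S) (U : ℝ), 0 < U →
    (∀ w, U ≤ ‖sg w (v s0)‖) → (∀ w, U ≤ ‖sg w (v' s0)‖) →
    ∀ Vm : ℝ, 1 ≤ Vm → (∀ s w, ‖sg w (v s)‖ ≤ Vm) → (∀ s w, ‖sg w (v' s)‖ ≤ Vm) →
    ∀ Dd : ℕ, 0 < Dd →
    (∃ a : S → 𝓞 K, ∑ s, a s * v s = 0 ∧ ∑ s, a s * v' s = (Dd : 𝓞 K)) →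
    ∀ R : ℝ, 1 ≤ R → cK K * (36 * (mu * Vm + Fintype.card S * Vm ^ 2)) ≤ R / 2 →
    c1 K 2 2 * mu / U + cK K * (Fintype.card S * Vm) ≤ R / 2 →
      (Set.ncard {A : Idx 2 2 × S → 𝓞 K | (∀ m w, ‖sg w (A m)‖ ≤ R) ∧ F (ev A v) x = 0 ∧
        F (ev A v') y = 0} : ℝ) ≤
        C * R ^ (mK K * MM S) * Ideal.absNorm (mgI x y ⊔ Ideal.span {(Dd : 𝓞 K)}) /
          np (fun w => R ^ 2 * U ^ 2 * (B : ℝ) ^ 2 * dl w x y) := by
  obtain ⟨c, hc0, hc⟩ := lat_lower K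
  obtain ⟨C1, hC1, hone⟩ := crude_one K S
  have hc3 := c3_pos 2 2
  refine ⟨C1 * (2 * c3 2 2) ^ mK K / c, by positivity, ?_⟩
  intro B hB x y hx hy mu hmu hgx hgy hi hx2 hy2 h v v' hv hv' s0 U hU hs0 hs0' Vm hVm hVv hVv'
    Dd hDd hsep R hR h1 h2
  have hBpos : (0 : ℝ) < B := by exact_mod_cast hB
  have hRpos : 0 < R := by linarith
  have hdpos : ∀ w, 0 < dl w x y := fun w => dl_pos x y h w
  have hI : mgI x y ⊔ Ideal.span {(Dd : 𝓞 K)} ≠ ⊥ := fun h0 => h (le_bot_iff.mp (h0 ▸ le_sup_left))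
  have hNI : (0 : ℝ) < Ideal.absNorm (mgI x y ⊔ Ideal.span {(Dd : 𝓞 K)}) := by
    exact_mod_cast absNorm_pos hI
  let Y : InfinitePlace K → ℝ := fun w => R * U * dl w x y / (2 * c3 2 2)
  have hY : ∀ w, 0 < Y w := by
    intro w
    have := hdpos w
    change 0 < R * U * dl w x y / (2 * c3 2 2)
    positivity
  have hstep := levels_evK hc
    {A : Idx 2 2 × S → 𝓞 K | (∀ m w, ‖sg w (A m)‖ ≤ R) ∧ F (ev A v) x = 0 ∧ F (ev A v') y = 0}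
    {A : Idx 2 2 × S → 𝓞 K | (∀ m w, ‖sg w (A m)‖ ≤ 2 * R) ∧ F (ev A v) x = 0}
    (finite_of_norm_le _ (2 * R) fun A hA => hA.1) v' y
    (mgI x y ⊔ Ideal.span {(Dd : 𝓞 K)}) hI Y hY 1 one_ne_zero (fun A hA => hA.2.2) (by
      intro s hs hsL
      obtain ⟨t, htx, hty, htm⟩ := short_cross B hB x y hx hy mu hmu hgx hgy hi hx2 h v v' hv hv'
        s0 U hU hs0' Vm hVm hVv hVv' Dd hDd hsep s hs
      refine ⟨t, by rw [hty, one_mul], fun A hA => ⟨fun m w => ?_, ?_⟩⟩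
      · have hdw := hdpos w
        have h3 : c3 2 2 * ‖sg w s‖ / (dl w x y * U) ≤ R / 2 := by
          rw [div_le_div_iff₀ (by positivity) (by norm_num)]
          have hsw : ‖sg w s‖ ≤ R * U * dl w x y / (2 * c3 2 2) := hsL w
          rw [le_div_iff₀ (by positivity)] at hsw
          calc c3 2 2 * ‖sg w s‖ * 2 = ‖sg w s‖ * (2 * c3 2 2) := by ring
            _ ≤ R * U * dl w x y := hsw
            _ = R * (dl w x y * U) := by ring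
        have h4 := htm m w
        have h5 := hA.1 m w
        rw [map_add]
        refine (norm_add_le _ _).trans ?_
        linarith
      · have := ConicHP.F_ev_add A t v x
        rw [hA.2.1, htx, add_zero] at this
        exact this)
  have hlast := hone B hB x hx mu hmu hgx (fun w => ⟨(hi w).choose, (hi w).choose_spec.1⟩)
    v hv s0 U hU hs0 Vm hVv R hR h2
  set N0 : ℝ := (Set.ncard {A : Idx 2 2 × S → 𝓞 K | (∀ m w, ‖sg w (A m)‖ ≤ R) ∧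
    F (ev A v) x = 0 ∧ F (ev A v') y = 0} : ℝ)
  set N1 : ℝ := (Set.ncard {A : Idx 2 2 × S → 𝓞 K | (∀ m w, ‖sg w (A m)‖ ≤ 2 * R) ∧
    F (ev A v) x = 0} : ℝ)
  set g : ℝ := (Ideal.absNorm (mgI x y ⊔ Ideal.span {(Dd : 𝓞 K)}) : ℝ)
  have hnpY := np_pos hY
  have h4 : N0 * (c * (np Y / g)) * (R * (B : ℝ) ^ 2 * U) ^ mK K ≤
      C1 * R ^ (mK K * MM S) := by
    refine le_trans ?_ hlast
    exact mul_le_mul_of_nonneg_right hstep (by positivity)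
  have h5 : np (fun w => R ^ 2 * U ^ 2 * (B : ℝ) ^ 2 * dl w x y) =
      np Y * (R * (B : ℝ) ^ 2 * U) ^ mK K * (2 * c3 2 2) ^ mK K := by
    rw [← np_const (K := K) (R * (B : ℝ) ^ 2 * U), ← np_const (K := K) (2 * c3 2 2), ← np_mul,
      ← np_mul]
    congr 1
    funext w
    change _ = R * U * dl w x y / (2 * c3 2 2) * (R * (B : ℝ) ^ 2 * U) * (2 * c3 2 2)
    field_simp
  have h6 : 0 < np (fun w => R ^ 2 * U ^ 2 * (B : ℝ) ^ 2 * dl w x y) := np_pos fun w => by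
    have := hdpos w
    positivity
  rw [le_div_iff₀ h6, h5]
  calc N0 * (np Y * (R * (B : ℝ) ^ 2 * U) ^ mK K * (2 * c3 2 2) ^ mK K) =
      N0 * (c * (np Y / g)) * (R * (B : ℝ) ^ 2 * U) ^ mK K * ((2 * c3 2 2) ^ mK K / c * g) := by
        field_simp
    _ ≤ C1 * R ^ (mK K * MM S) * ((2 * c3 2 2) ^ mK K / c * g) :=
        mul_le_mul_of_nonneg_right h4 (by positivity)
    _ = _ := by ring

theorem crude_samex (K : Type) [Field K] [NumberField K] (S : Type) [Fintype S] :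
    ∃ C : ℝ, 0 < C ∧ ∀ B : ℕ, 1 ≤ B → ∀ x : Fin (2 + 1) → 𝓞 K, Prim x → ∀ mu : ℝ, 1 ≤ mu →
    Ortho mu x → (∀ w, ∃ i, (B : ℝ) / 2 ≤ ‖sg w (x i)‖) →
    ∀ v v' : S → 𝓞 K, PrimS v → ∀ (s0 : S) (U : ℝ), 0 < U → (∀ w, U ≤ ‖sg w (v s0)‖) →
    ∀ Vm : ℝ, 1 ≤ Vm → (∀ s w, ‖sg w (v s)‖ ≤ Vm) →
    ∀ Dd : ℕ, 0 < Dd →
    (∃ a : S → 𝓞 K, ∑ s, a s * v s = 0 ∧ ∑ s, a s * v' s = (Dd : 𝓞 K)) →
    ∀ R : ℝ, 1 ≤ R → Vm * (c1 K 2 2 * mu) ≤ R / 2 →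
    c1 K 2 2 * mu / U + cK K * (Fintype.card S * Vm) ≤ R / 2 →
      (Set.ncard {A : Idx 2 2 × S → 𝓞 K | (∀ m w, ‖sg w (A m)‖ ≤ R) ∧ F (ev A v) x = 0 ∧
        F (ev A v') x = 0} : ℝ) ≤
        C * R ^ (mK K * MM S) * (Vm / (R ^ 2 * U * (B : ℝ) ^ 4)) ^ mK K := by
  obtain ⟨c, hc0, hc⟩ := lat_lower K
  obtain ⟨C1, hC1, hone⟩ := crude_one K S
  refine ⟨C1 * 8 ^ mK K / c, by positivity, ?_⟩
  intro B hB x hx mu hmu hgx hi v v' hv s0 U hU hs0 Vm hVm hVv Dd hDd hsep R hR h1 h2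
  have hBpos : (0 : ℝ) < B := by exact_mod_cast hB
  have hRpos : 0 < R := by linarith
  have hVpos : 0 < Vm := by linarith
  obtain ⟨De, hDe, hlev⟩ := short_samex B hB x hx mu hmu hgx hi v v' hv Vm hVm hVv Dd hDd hsep
  have hY : ∀ w : InfinitePlace K, 0 < (fun _ : InfinitePlace K => R * (B : ℝ) ^ 2 / (8 * Vm)) w :=
    fun w => by positivity
  have hstep := levels_evK hc
    {A : Idx 2 2 × S → 𝓞 K | (∀ m w, ‖sg w (A m)‖ ≤ R) ∧ F (ev A v) x = 0 ∧ F (ev A v') x = 0}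
    {A : Idx 2 2 × S → 𝓞 K | (∀ m w, ‖sg w (A m)‖ ≤ 2 * R) ∧ F (ev A v) x = 0}
    (finite_of_norm_le _ (2 * R) fun A hA => hA.1) v' x ⊤ (by simp)
    (fun _ => R * (B : ℝ) ^ 2 / (8 * Vm)) hY De hDe (fun A hA => hA.2.2) (by
      intro s _ hsL
      obtain ⟨t, htx, hty, htm⟩ := hlev s
      refine ⟨t, hty, fun A hA => ⟨fun m w => ?_, ?_⟩⟩
      · have h4 := htm m w
        have h5 := hA.1 m w
        have h6 : Vm * (4 * ‖sg w s‖ / (B : ℝ) ^ 2 + c1 K 2 2 * mu) ≤ R := by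
          have hk : ‖sg w s‖ ≤ R * (B : ℝ) ^ 2 / (8 * Vm) := hsL w
          have e1 : 4 * ‖sg w s‖ / (B : ℝ) ^ 2 * Vm ≤ R / 2 := by
            rw [le_div_iff₀ (by positivity)] at hk
            rw [div_mul_eq_mul_div, div_le_div_iff₀ (by positivity) (by norm_num)]
            linarith
          linarith
        rw [map_add]
        refine (norm_add_le _ _).trans ?_
        linarith
      · have := ConicHP.F_ev_add A t v x
        rw [hA.2.1, htx, add_zero] at this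
        exact this)
  have hlast := hone B hB x hx mu hmu hgx hi v hv s0 U hU hs0 Vm hVv R hR h2
  set N0 : ℝ := (Set.ncard {A : Idx 2 2 × S → 𝓞 K | (∀ m w, ‖sg w (A m)‖ ≤ R) ∧
    F (ev A v) x = 0 ∧ F (ev A v') x = 0} : ℝ)
  set N1 : ℝ := (Set.ncard {A : Idx 2 2 × S → 𝓞 K | (∀ m w, ‖sg w (A m)‖ ≤ 2 * R) ∧
    F (ev A v) x = 0} : ℝ)
  rw [np_const, Ideal.absNorm_top, Nat.cast_one, div_one] at hstep
  have h4 : N0 * (c * (R * (B : ℝ) ^ 2 / (8 * Vm)) ^ mK K) * (R * (B : ℝ) ^ 2 * U) ^ mK K ≤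
      C1 * R ^ (mK K * MM S) := by
    refine le_trans ?_ hlast
    exact mul_le_mul_of_nonneg_right hstep (by positivity)
  have h5 : (R * (B : ℝ) ^ 2 / (8 * Vm)) ^ mK K * (R * (B : ℝ) ^ 2 * U) ^ mK K *
      (8 ^ mK K * (Vm / (R ^ 2 * U * (B : ℝ) ^ 4)) ^ mK K) = 1 := by
    rw [← mul_pow, ← mul_pow, ← mul_pow]
    have : R * (B : ℝ) ^ 2 / (8 * Vm) * (R * (B : ℝ) ^ 2 * U) *
        (8 * (Vm / (R ^ 2 * U * (B : ℝ) ^ 4))) = 1 := by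
      field_simp
    rw [this, one_pow]
  calc N0 = N0 * ((R * (B : ℝ) ^ 2 / (8 * Vm)) ^ mK K * (R * (B : ℝ) ^ 2 * U) ^ mK K *
      (8 ^ mK K * (Vm / (R ^ 2 * U * (B : ℝ) ^ 4)) ^ mK K)) := by rw [h5, mul_one]
    _ = N0 * (c * (R * (B : ℝ) ^ 2 / (8 * Vm)) ^ mK K) * (R * (B : ℝ) ^ 2 * U) ^ mK K *
      (8 ^ mK K * (Vm / (R ^ 2 * U * (B : ℝ) ^ 4)) ^ mK K / c) := by field_simp
    _ ≤ C1 * R ^ (mK K * MM S) *
      (8 ^ mK K * (Vm / (R ^ 2 * U * (B : ℝ) ^ 4)) ^ mK K / c) :=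
        mul_le_mul_of_nonneg_right h4 (by positivity)
    _ = _ := by ring

end NKCHP
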