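import Pool.Agent.Lib.MP_e426f4_ag.NK.Defs
import Pool.Agent.Lib.MP_e426f4_ag.C.Ev

/-!
# Families of conics over a number field: definitions

`A : Idx 2 2 × S → 𝓞 K` is a vector of `|S|` ternary quadratic forms; for `v : S → 𝓞 K` the form
`ev A v = ∑_s v_s A_s` is the fibre over `v`.  A class of such `A` is studied through the fibres over
vectors `v_{J,i}`, `i < J`, with `J = ⌊(log H)^2⌋`, as in `C/Defs.lean` (the case `K = ℚ`).
-/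

namespace NKCHP

open NumberField GenHP NFHP NKHP Finset Filter Topology
open ConicHP (ev JJ)

/-- the degree of the single form -/
abbrev e22 : Fin 1 → ℕ := fun _ => 2

/-- one form as a system -/
def sy {R : Type*} (a : Idx 2 2 → R) : CIHP.Sys 2 e22 R := fun _ => a

/-! ### Real coordinates of products -/

section real
variable {K : Type} [Field K] [NumberField K]

/-- multiplication of `K ⊗ ℝ` in real coordinates -/
noncomputable def mulR (a b : IK K → ℝ) : IK K → ℝ := fun j =>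
  ∑ k, ∑ l, a k * b l * (crd (RingOfIntegers.basis K k * RingOfIntegers.basis K l) j : ℝ)

/-- the fibre over `v` in real coordinates -/
noncomputable def evR {S : Type} [Fintype S] (A : Idx 2 2 × S → IK K → ℝ) (v : S → IK K → ℝ)
    (t : Idx 2 2) : IK K → ℝ :=
  fun j => ∑ s, mulR (A (t, s)) (v s) j

/-- `v : S → 𝓞 K` is unimodular. -/
def PrimS {S : Type} [Fintype S] (v : S → 𝓞 K) : Prop := ∃ c : S → 𝓞 K, ∑ s, c s * v s = 1

/-- normalising constant of the fibres -/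
noncomputable def cS (K : Type) [Field K] [NumberField K] (S : Type) [Fintype S] : ℝ :=
  Fintype.card S * cK K ^ 2

/-- the tail of the sum of `N(I)^(-1-1/m)` -/
def TailE (K : Type) [Field K] [NumberField K] (w : ℕ) (E : ℝ) : Prop :=
  ∀ T : Finset (Ideal (𝓞 K)), (∀ I ∈ T, w < Ideal.absNorm I) →
    ∑ I ∈ T, 1 / (Ideal.absNorm I : ℝ) ^ (1 + 1 / (mK K : ℝ)) ≤ E

end real

/-! ### Validity of the data of one fibre -/

/-- Validity of fibre data (like `NKHP.Par.Valid`, without the conditions on the height function). -/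
structure PV {K : Type} [Field K] [NumberField K] {n r : ℕ} {e : Fin r → ℕ} (p : Par K n e)
    (eps k0 : ℝ) (w : ℕ) : Prop where
  r_pos : 1 ≤ r
  n_ge : r + 1 ≤ n
  e_ge : ∀ i, 2 ≤ e i
  eps_pos : 0 < eps
  eps_le : eps ≤ 1 / 10
  k0_pos : 0 < k0
  k0_le : k0 ≤ 1
  w_two : 2 ≤ w
  kap_pos : 0 < p.kap
  kap_le : p.kap ≤ kmax K n r k0
  rho_pos : 0 < p.rho
  rho_le : p.rho ≤ 1
  th1_pos : 0 < p.th1
  Ainf_le : ∀ i t j, |p.Ainf i t j| ≤ 1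
  xi_le : ∀ i w', ‖lam (p.xi i) w'‖ ≤ 1
  xi_eq : ∀ w', ∃ i, ‖lam (p.xi i) w'‖ = 1
  h_id : ∀ l l' : Fin r, p.h l (fr n l') = if l = l' then 1 else 0
  h_le : ∀ l i, |p.h l i| ≤ hb n (mK K)
  u0 : p.u 0 = 1
  u_le : ∀ i, |p.u i| ≤ hb n (mK K)
  u_ge : ∀ w', k0 ≤ ‖∑ i, (p.u i : ℂ) * lam (p.xi i) w'‖
  vg_pos : 0 < p.vg
  rc : RC p.Ainf p.xi p.h p.kap p.rho p.th1 p.vg eps
  W_pos : 0 < p.W
  W_primes : ∀ q : ℕ, q.Prime → (q ∣ p.W ↔ q ≤ w)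
  Q_pos : 0 < p.Q
  P_ne : p.P ≠ ⊥
  hens : Hens p.P p.Q p.W p.A0 p.x0

/-! ### The data of a class -/

/-- Data of a class: fibre data `p`, centre and residue class of the vectors of forms, and the family
of vectors `v J i`, with common direction `om` and size `V J`. -/
structure CPar (K : Type) [Field K] [NumberField K] (S : Type) where
  /-- fibre data -/
  p : Par K 2 e22
  /-- real coordinates of the vector of forms with the real points -/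
  AI : Idx 2 2 × S → IK K → ℝ
  /-- centre of the cube -/
  AC : Idx 2 2 × S → IK K → ℝ
  /-- residue class -/
  A0 : Idx 2 2 × S → 𝓞 K
  /-- limit direction of the vectors -/
  om : S → IK K → ℝ
  /-- the vectors -/
  v : ℕ → ℕ → S → 𝓞 K
  /-- size of the vectors -/
  V : ℕ → ℕ
  /-- separation constant -/
  D0 : ℕ
  /-- index of a coordinate which is large at all places -/
  s0 : S
  /-- lower bound for this coordinate -/
  k1 : ℝ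

/-- The conditions on the family of vectors (`Q` modulus, `W` product of the small primes). -/
structure FamValid {K : Type} [Field K] [NumberField K] {S : Type} [Fintype S] (Q W : ℕ)
    (om : S → IK K → ℝ) (v : ℕ → ℕ → S → 𝓞 K) (V : ℕ → ℕ) (D0 : ℕ) (s0 : S) (k1 : ℝ) : Prop where
  om_le : ∀ s w, ‖lam (om s) w‖ ≤ 1
  k1_pos : 0 < k1
  om_ge : ∀ w, k1 ≤ ‖lam (om s0) w‖
  V_pos : ∀ J, 1 ≤ J → 1 ≤ V J
  V_le : ∃ C : ℕ, ∀ J, 1 ≤ J → V J ≤ C * J ^ C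
  near : ∀ δ : ℝ, 0 < δ → ∃ J0 : ℕ, ∀ J, J0 ≤ J → ∀ i, i < J → ∀ s w,
    ‖sg w (v J i s) - V J * lam (om s) w‖ ≤ δ * V J
  prim : ∀ J i, PrimS (v J i)
  congr : ∀ J i s, (Q : 𝓞 K) ∣ v J i s - v 0 0 s
  D0_pos : 0 < D0
  D0_primes : ∀ q : ℕ, q.Prime → q ∣ D0 → q ∣ W
  sep : ∀ J i i', i ≠ i' → ∃ a : S → 𝓞 K, ∑ s, a s * v J i s = 0 ∧
    ∑ s, a s * v J i' s = ((D0 * ((i : ℤ) - i') : ℤ) : 𝓞 K)

section cpar
variable {K : Type} [Field K] [NumberField K] {S : Type} [Fintype S]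

/-- Validity of the data of a class. -/
structure CPar.Valid (c : CPar K S) (eps k0 : ℝ) (w : ℕ) : Prop where
  pv : PV c.p eps k0 w
  fam : FamValid c.p.Q c.p.W c.om c.v c.V c.D0 c.s0 c.k1
  AI_le : ∀ m j, |c.AI m j| ≤ 1
  AC_near : ∀ m j, |c.AC m j - c.AI m j| ≤ c.p.rho
  Ainf_eq : ∀ t j, cS K S * c.p.Ainf 0 t j = evR c.AI c.om t j
  A0_congr : ∀ t, (c.p.Q : 𝓞 K) ∣ ev c.A0 (c.v 0 0) t - c.p.A0 0 t

/-- Vectors of forms of the class in the cube with centre `H * AC` and half side `r * H`. -/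
def CPar.Cl (c : CPar K S) (r H : ℝ) : Set (Idx 2 2 × S → 𝓞 K) :=
  {A | (∀ m j, |(crd (A m) j : ℝ) - H * c.AC m j| ≤ r * H) ∧ ∀ m, (c.p.Q : 𝓞 K) ∣ A m - c.A0 m}

/-- the size of the vectors `v` -/
noncomputable def CPar.VV (c : CPar K S) (H : ℝ) : ℕ := c.V (JJ H)

/-- the vectors of the fibres used at height `H` -/
noncomputable def CPar.vv (c : CPar K S) (H : ℝ) (i : ℕ) : S → 𝓞 K := c.v (JJ H) i

/-- the height of the points -/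
noncomputable def CPar.BB (c : CPar K S) (H : ℝ) : ℕ := ⌊H * c.VV H⌋₊

/-- the height of the fibres -/
noncomputable def CPar.HH (c : CPar K S) (H : ℝ) : ℝ := cS K S * c.VV H * H

/-- number of coefficients -/
def MM (S : Type) [Fintype S] : ℕ := Fintype.card (Idx 2 2 × S)

/-- expected number of points in one fibre -/
noncomputable def CPar.T1 (c : CPar K S) (H : ℝ) : ℝ :=
  ((2 * c.p.kap ^ 2) ^ 2 * c.p.Q * (c.BB H : ℝ) / c.HH H) ^ mK K * c.p.dens / c.p.vg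

/-- expected number of points -/
noncomputable def CPar.TT (c : CPar K S) (H : ℝ) : ℝ := (JJ H : ℝ) * c.T1 H

/-- expected number of vectors of forms with half side `r` -/
noncomputable def CPar.XR (c : CPar K S) (r H : ℝ) : ℝ := (2 * r * H / c.p.Q) ^ (mK K * MM S)

/-- the well-rounded unimodular points of the class -/
noncomputable def CPar.GC (c : CPar K S) (R H : ℝ) : Set (Fin (2 + 1) → 𝓞 K) := c.p.GG R (c.BB H)

/-- triples (forms, fibre, point) -/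
def CPar.Pairs (c : CPar K S) (r R H : ℝ) :
    Set ((Idx 2 2 × S → 𝓞 K) × ℕ × (Fin (2 + 1) → 𝓞 K)) :=
  {q | q.1 ∈ c.Cl r H ∧ q.2.1 < JJ H ∧ q.2.2 ∈ c.GC R H ∧ F (ev q.1 (c.vv H q.2.1)) q.2.2 = 0}

/-- local triples: `W^s ∣ F` and coordinates at most `θ H' B^2` -/
def CPar.LP (c : CPar K S) (r th : ℝ) (s : ℕ) (St : Set (Fin (2 + 1) → 𝓞 K)) (H : ℝ) :
    Set ((Idx 2 2 × S → 𝓞 K) × ℕ × (Fin (2 + 1) → 𝓞 K)) :=
  {q | q.1 ∈ c.Cl r H ∧ q.2.1 < JJ H ∧ q.2.2 ∈ St ∧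
    (c.p.W : 𝓞 K) ^ s ∣ F (ev q.1 (c.vv H q.2.1)) q.2.2 ∧
    CIn (th * c.HH H * (c.BB H : ℝ) ^ 2) (F (ev q.1 (c.vv H q.2.1)) q.2.2)}

/-- number of levels in the ideal `q` -/
noncomputable def CPar.Lev (c : CPar K S) (th : ℝ) (q : Ideal (𝓞 K)) (H : ℝ) : ℝ :=
  (Set.ncard {s : 𝓞 K | s ∈ q ∧ CIn (th * c.HH H * (c.BB H : ℝ) ^ 2) s} : ℝ)

/-- the local main term -/
noncomputable def CPar.MT (c : CPar K S) (th : ℝ) (s : ℕ) (H : ℝ) : ℝ :=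
  (JJ H : ℝ) * c.p.TL th s (c.BB H) * c.XR c.p.rho H

/-- two distinct points in the same fibre: `(A, i, x, y)` -/
def CPar.TSame (c : CPar K S) (R H : ℝ) :
    Set ((Idx 2 2 × S → 𝓞 K) × ℕ × (Fin (2 + 1) → 𝓞 K) × (Fin (2 + 1) → 𝓞 K)) :=
  {q | q.1 ∈ c.Cl c.p.rho H ∧ q.2.1 < JJ H ∧ q.2.2.1 ∈ c.GC R H ∧ q.2.2.2 ∈ c.GC R H ∧
    F (ev q.1 (c.vv H q.2.1)) q.2.2.1 = 0 ∧ F (ev q.1 (c.vv H q.2.1)) q.2.2.2 = 0 ∧
    q.2.2.1 ≠ q.2.2.2}

/-- the same point in two different fibres: `(A, i, i', x)` -/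
def CPar.TSx (c : CPar K S) (R H : ℝ) :
    Set ((Idx 2 2 × S → 𝓞 K) × ℕ × ℕ × (Fin (2 + 1) → 𝓞 K)) :=
  {q | q.1 ∈ c.Cl c.p.rho H ∧ q.2.1 < JJ H ∧ q.2.2.1 < JJ H ∧ q.2.1 ≠ q.2.2.1 ∧
    q.2.2.2 ∈ c.GC R H ∧
    F (ev q.1 (c.vv H q.2.1)) q.2.2.2 = 0 ∧ F (ev q.1 (c.vv H q.2.2.1)) q.2.2.2 = 0}

/-- bad pairs of points in different fibres: `(A, (i, x), (i', y))` -/
def CPar.TBad (c : CPar K S) (R : ℝ) (G : ℕ) (tau H : ℝ) :
    Set ((Idx 2 2 × S → 𝓞 K) × (ℕ × (Fin (2 + 1) → 𝓞 K)) × (ℕ × (Fin (2 + 1) → 𝓞 K))) :=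
  {q | q.1 ∈ c.Cl c.p.rho H ∧ q.2.1.1 < JJ H ∧ q.2.2.1 < JJ H ∧ q.2.1.1 ≠ q.2.2.1 ∧
    q.2.1.2 ∈ c.GC R H ∧ q.2.2.2 ∈ c.GC R H ∧
    F (ev q.1 (c.vv H q.2.1.1)) q.2.1.2 = 0 ∧ F (ev q.1 (c.vv H q.2.2.1)) q.2.2.2 = 0 ∧
    q.2.1.2 ≠ q.2.2.2 ∧ BadPr G tau (c.BB H) q.2.1.2 q.2.2.2}

/-- good pairs of points in different fibres -/
def CPar.TMain (c : CPar K S) (R : ℝ) (G : ℕ) (tau H : ℝ) :
    Set ((Idx 2 2 × S → 𝓞 K) × (ℕ × (Fin (2 + 1) → 𝓞 K)) × (ℕ × (Fin (2 + 1) → 𝓞 K))) :=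
  {q | q.1 ∈ c.Cl c.p.rho H ∧ q.2.1.1 < JJ H ∧ q.2.2.1 < JJ H ∧ q.2.1.1 ≠ q.2.2.1 ∧
    q.2.1.2 ∈ c.GC R H ∧ q.2.2.2 ∈ c.GC R H ∧
    F (ev q.1 (c.vv H q.2.1.1)) q.2.1.2 = 0 ∧ F (ev q.1 (c.vv H q.2.2.1)) q.2.2.2 = 0 ∧
    q.2.1.2 ≠ q.2.2.2 ∧ ¬ BadPr G tau (c.BB H) q.2.1.2 q.2.2.2}

/-- constant of the translation over one point -/
noncomputable def CPar.c4 (c : CPar K S) : ℝ := 8 * cS K S * cK K ^ 2 / c.k1 + 1

/-- constant of the translation over two points -/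
noncomputable def CPar.c5 (c : CPar K S) : ℝ := 2 * c3 2 2 * cS K S * cK K ^ 2 / c.k1 + 1

/-- some fibre of the family has a zero over `K` -/
def FSol (v : ℕ → ℕ → S → 𝓞 K) (A : Idx 2 2 × S → 𝓞 K) : Prop :=
  ∃ J i, ∃ x : Fin (2 + 1) → 𝓞 K, x ≠ 0 ∧ F (ev A (v J i)) x = 0

end cpar

end NKCHP
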