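import Pool.Agent.Lib.MP_e426f4_ag.CK.Lin
import Pool.Agent.Lib.MP_e426f4_ag.N.ShortOne
import Pool.Agent.Lib.MP_e426f4_ag.N.ShortTwo

/-!
CK-ShortA: short vectors for one point, and for two points in the same fibre. Templates: C/ShortA.lean, C/ShortB.lean. NFHP.short_single (d = 2), resp. NFHP.short_pair (d = 2, B^(2-2) = 1), then exists_lift.
-/

namespace NKCHP

open NumberField GenHP NFHP NKHP Finset Filter Topology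
open ConicHP (ev JJ)

variable {K : Type} [Field K] [NumberField K] {S : Type} [Fintype S]

theorem short_one (B : ℕ) (hB : 1 ≤ B) (x : Fin (2 + 1) → 𝓞 K) (hx : Prim x) (mu : ℝ)
    (hmu : 1 ≤ mu) (hg : Ortho mu x) (hi : ∀ w, ∃ i, (B : ℝ) / 2 ≤ ‖sg w (x i)‖)
    (v : S → 𝓞 K) (hv : PrimS v) (s0 : S) (U : ℝ) (hU : 0 < U)
    (hs0 : ∀ w, U ≤ ‖sg w (v s0)‖) (Mv : ℝ) (hMv : ∀ s w, ‖sg w (v s)‖ ≤ Mv) (s : 𝓞 K) :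
    ∃ t : Idx 2 2 × S → 𝓞 K, F (ev t v) x = s ∧
      ∀ m w, ‖sg w (t m)‖ ≤ (4 * ‖sg w s‖ / (B : ℝ) ^ 2 + c1 K 2 2 * mu) / U +
        cK K * (Fintype.card S * Mv) := by
  obtain ⟨b, hb1, hb2⟩ := short_single (n := 2) (d := 2) (by norm_num) B hB x hx mu hmu hg hi s
  obtain ⟨t, ht1, ht2⟩ := exists_lift v hv s0 U hU hs0 Mv hMv b
  refine ⟨t, by rw [ht1, hb1], fun m w => (ht2 m w).trans ?_⟩
  have h1 : ‖sg w (b m.1)‖ ≤ 4 * ‖sg w s‖ / (B : ℝ) ^ 2 + c1 K 2 2 * mu := by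
    refine (hb2 m.1 w).trans (le_of_eq ?_)
    norm_num
  have h2 := div_le_div_of_nonneg_right h1 hU.le
  linarith

theorem short_same (B : ℕ) (hB : 1 ≤ B) (x y : Fin (2 + 1) → 𝓞 K) (hx : Prim x) (hy : Prim y)
    (mu : ℝ) (hmu : 1 ≤ mu) (hgx : Ortho mu x) (hgy : Ortho mu y)
    (hi : ∀ w, ∃ i, (B : ℝ) / 2 ≤ ‖sg w (x i)‖ ∧ (B : ℝ) / 2 ≤ ‖sg w (y i)‖)
    (hx2 : x ∈ Bx 2 (2 * (B : ℝ))) (hy2 : y ∈ Bx 2 (2 * (B : ℝ))) (h : mgI x y ≠ ⊥)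
    (v : S → 𝓞 K) (hv : PrimS v) (s0 : S) (U : ℝ) (hU : 0 < U)
    (hs0 : ∀ w, U ≤ ‖sg w (v s0)‖) (Mv : ℝ) (hMv : ∀ s w, ‖sg w (v s)‖ ≤ Mv) (s : 𝓞 K)
    (hs : s ∈ mgI x y) :
    ∃ t : Idx 2 2 × S → 𝓞 K, F (ev t v) x = 0 ∧ F (ev t v) y = s ∧
      ∀ m w, ‖sg w (t m)‖ ≤ (c3 2 2 * ‖sg w s‖ / dl w x y + c2 K 2 2 * mu ^ 2) / U +
        cK K * (Fintype.card S * Mv) := by
  obtain ⟨b, hb1, hb2, hb3⟩ := short_pair (n := 2) (d := 2) le_rfl B hB x y hx hy mu hmu hgx hgy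
    hi hx2 hy2 h s hs
  obtain ⟨t, ht1, ht2⟩ := exists_lift v hv s0 U hU hs0 Mv hMv b
  refine ⟨t, by rw [ht1, hb1], by rw [ht1, hb2], fun m w => (ht2 m w).trans ?_⟩
  have h1 : ‖sg w (b m.1)‖ ≤ c3 2 2 * ‖sg w s‖ / dl w x y + c2 K 2 2 * mu ^ 2 := by
    refine (hb3 m.1 w).trans (le_of_eq ?_)
    norm_num
  have h2 := div_le_div_of_nonneg_right h1 hU.le
  linarith

end NKCHP
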