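import Pool.Agent.Lib.MP_e426f4_ag.CK.Heights
import Pool.Agent.Lib.MP_e426f4_ag.CK.ShortA

/-!
CK-Trans: translation inequalities for triples. Templates: C/Trans.lean, NK/Trans.lean. tr_short_level: t = Q t', t' from short_one with s/Q, mu = R BB^(1/2) (GG: Good), U = k1/2 VV (vv_ge), Mv = 2 VV (vv_le): |t|_w <= 4 cK th HH/U + Q (c1 mu/U + 2 cK card S VV) = 8 cK th cS H/k1 + o(H)
(small_le; CIn_norm), coordinates <= cK times that <= c4 th H eventually. LP(r - c4 th) -> Pairs(r) x levels and back as in NK/Trans (levels in (W^s), Q | W^s).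
-/

namespace NKCHP

open NumberField GenHP NFHP NKHP Finset Filter Topology
open ConicHP (ev JJ)

variable {K : Type} [Field K] [NumberField K] {S : Type} [Fintype S]

theorem tr_short_level (c : CPar K S) {eps k0 : ℝ} {w : ℕ} (hc : c.Valid eps k0 w)
    (R : ℝ) (hR : 1 ≤ R) (th : ℝ) (hth : 0 < th) :
    ∀ᶠ H : ℝ in atTop, ∀ i : ℕ, i < JJ H → ∀ x ∈ c.GC R H, ∀ s : 𝓞 K, (c.p.Q : 𝓞 K) ∣ s →
      CIn (th * c.HH H * (c.BB H : ℝ) ^ 2) s →
      ∃ t : Idx 2 2 × S → 𝓞 K, F (ev t (c.vv H i)) x = s ∧ (∀ m, (c.p.Q : 𝓞 K) ∣ t m) ∧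
        ∀ m j, |(crd (t m) j : ℝ)| ≤ c.c4 * th * H := by
  have hQ0 : (0 : ℝ) < c.p.Q := by exact_mod_cast hc.pv.Q_pos
  have hcK := cK_pos (K := K)
  have hc1 : 0 ≤ c1 K 2 2 := by unfold NFHP.c1; positivity
  have hk1 := hc.fam.k1_pos
  have hS1 : 1 ≤ cS K S := cS_ge c hc
  filter_upwards [small_le c hc (4 * cK K * c.p.Q * c1 K 2 2 * R / (c.k1 * th)) 0,
    small_le' c hc (4 * cK K ^ 2 * c.p.Q * Fintype.card S / th) 1, vv_le c hc, vv_ge c hc,
    (BB_atTop c hc).eventually_ge_atTop 1, VV_pos c hc,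
    ConicHP.JJ_atTop.eventually_ge_atTop 1, eventually_gt_atTop 0] with H h1 h1' hvle hvge hB1 hV
      hJ hH0
  intro i hi x hx s hs hsb
  have hB1r : (1 : ℝ) ≤ c.BB H := by exact_mod_cast hB1
  have hV1 : (1 : ℝ) ≤ c.VV H := by exact_mod_cast hV
  have hJ1 : (1 : ℝ) ≤ JJ H := by exact_mod_cast hJ
  have hsb' : ∀ w', ‖sg w' s‖ ≤ cK K * (th * c.HH H * (c.BB H : ℝ) ^ 2) :=
    fun w' => CIn_norm hsb w'
  obtain ⟨s', rfl⟩ := hs
  have hxb : ∀ w' : InfinitePlace K, ∃ i, ((c.BB H : ℕ) : ℝ) / 2 ≤ ‖sg w' (x i)‖ := by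
    intro w'
    obtain ⟨i, hi⟩ := (mem_XX_bounds c.p hc.pv (c.BB H)).2 w'
    exact ⟨i, hi x hx.1⟩
  have hmu : 1 ≤ R * (c.BB H : ℝ) ^ (1 / ((2 : ℕ) : ℝ)) := by
    have : 1 ≤ (c.BB H : ℝ) ^ (1 / ((2 : ℕ) : ℝ)) := Real.one_le_rpow hB1r (by positivity)
    nlinarith
  have hU0 : 0 < c.k1 / 2 * c.VV H := by positivity
  obtain ⟨t, ht, htb⟩ := short_one (c.BB H) hB1 x hx.2.1
    (R * (c.BB H : ℝ) ^ (1 / ((2 : ℕ) : ℝ))) hmu hx.2.2 hxb (c.vv H i) (hc.fam.prim _ _) c.s0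
    (c.k1 / 2 * c.VV H) hU0 (hvge i hi) (2 * c.VV H) (hvle i hi) s'
  have e3 : (1 / ((2 : ℕ) : ℝ)) = (1 / 2 : ℝ) := by norm_num
  rw [e3] at htb
  refine ⟨fun m => c.p.Q * t m, ?_, fun m => Dvd.intro _ rfl, fun m j => ?_⟩
  · rw [ConicHP.F_ev_smul, ht]
  · have hB0 : (0 : ℝ) < (c.BB H : ℝ) ^ 2 := by positivity
    obtain ⟨Y, hY⟩ : ∃ Y : ℝ, Y = (c.BB H : ℝ) ^ (1 / 2 : ℝ) := ⟨_, rfl⟩
    have hY0 : 0 ≤ Y := by rw [hY]; positivity
    rw [← hY] at htb h1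
    simp only [pow_zero, mul_one] at h1
    simp only [pow_one] at h1'
    -- the middle term
    have h8 : cK K * ((c.p.Q : ℝ) * (c1 K 2 2 * (R * Y) / (c.k1 / 2 * c.VV H))) ≤
        th * H / 2 := by
      have h9 : 4 * cK K * c.p.Q * c1 K 2 2 * R / (c.k1 * th) * Y * (th / 2) ≤ H * (th / 2) :=
        mul_le_mul_of_nonneg_right h1 (by positivity)
      have h10 : 4 * cK K * c.p.Q * c1 K 2 2 * R / (c.k1 * th) * Y * (th / 2) =
          cK K * ((c.p.Q : ℝ) * (c1 K 2 2 * (R * Y) / (c.k1 / 2))) := by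
        field_simp
        ring
      rw [h10] at h9
      have h11 : c1 K 2 2 * (R * Y) / (c.k1 / 2 * c.VV H) ≤ c1 K 2 2 * (R * Y) / (c.k1 / 2) := by
        refine div_le_div_of_nonneg_left (by positivity) (by positivity) ?_
        nlinarith
      have h12 := mul_le_mul_of_nonneg_left (mul_le_mul_of_nonneg_left h11 hQ0.le) hcK.le
      linarith
    -- the last term
    have h11 : cK K * ((c.p.Q : ℝ) * (cK K * (Fintype.card S * (2 * c.VV H)))) ≤ th * H / 2 := by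
      have e4 : 4 * cK K ^ 2 * c.p.Q * Fintype.card S / th * (c.VV H : ℝ) ≤ H := by
        refine le_trans ?_ h1'
        refine mul_le_mul_of_nonneg_left ?_ (by positivity)
        nlinarith
      have e5 := mul_le_mul_of_nonneg_right e4 (by positivity : 0 ≤ th / 2)
      have e6 : 4 * cK K ^ 2 * c.p.Q * Fintype.card S / th * (c.VV H : ℝ) * (th / 2) =
          cK K * ((c.p.Q : ℝ) * (cK K * (Fintype.card S * (2 * c.VV H)))) := by
        field_simp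
        ring
      rw [e6] at e5
      linarith
    have hbound : ∀ w' : InfinitePlace K, ‖sg w' (c.p.Q * t m)‖ ≤
        8 * cS K S * cK K / c.k1 * th * H +
          (c.p.Q : ℝ) * (c1 K 2 2 * (R * Y) / (c.k1 / 2 * c.VV H)) +
          (c.p.Q : ℝ) * (cK K * (Fintype.card S * (2 * c.VV H))) := by
      intro w'
      have h5 : (c.p.Q : ℝ) * ‖sg w' s'‖ ≤ cK K * (th * c.HH H * (c.BB H : ℝ) ^ 2) := by
        have h := hsb' w'
        rw [map_mul, sg_natCast, norm_mul, Complex.norm_natCast] at h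
        exact h
      have h6 : (c.p.Q : ℝ) * (4 * ‖sg w' s'‖ / (c.BB H : ℝ) ^ 2 / (c.k1 / 2 * c.VV H)) ≤
          8 * cS K S * cK K / c.k1 * th * H := by
        have e1 : (c.p.Q : ℝ) * (4 * ‖sg w' s'‖ / (c.BB H : ℝ) ^ 2 / (c.k1 / 2 * c.VV H)) =
            4 * ((c.p.Q : ℝ) * ‖sg w' s'‖) / ((c.BB H : ℝ) ^ 2 * (c.k1 / 2 * c.VV H)) := by
          field_simp
        rw [e1, div_le_iff₀ (by positivity)]
        calc 4 * ((c.p.Q : ℝ) * ‖sg w' s'‖) ≤ 4 * (cK K * (th * c.HH H * (c.BB H : ℝ) ^ 2)) := by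
              linarith
          _ = 8 * cS K S * cK K / c.k1 * th * H * ((c.BB H : ℝ) ^ 2 * (c.k1 / 2 * c.VV H)) := by
              unfold CPar.HH
              field_simp
              ring
      rw [map_mul, sg_natCast, norm_mul, Complex.norm_natCast]
      calc (c.p.Q : ℝ) * ‖sg w' (t m)‖ ≤
          c.p.Q * ((4 * ‖sg w' s'‖ / (c.BB H : ℝ) ^ 2 + c1 K 2 2 * (R * Y)) /
            (c.k1 / 2 * c.VV H) + cK K * (Fintype.card S * (2 * c.VV H))) :=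
            mul_le_mul_of_nonneg_left (htb m w') hQ0.le
        _ = c.p.Q * (4 * ‖sg w' s'‖ / (c.BB H : ℝ) ^ 2 / (c.k1 / 2 * c.VV H)) +
            c.p.Q * (c1 K 2 2 * (R * Y) / (c.k1 / 2 * c.VV H)) +
            c.p.Q * (cK K * (Fintype.card S * (2 * c.VV H))) := by
            rw [add_div]
            ring
        _ ≤ _ := by linarith
    refine (crd_le_of_norm_sg hbound j).trans ?_
    rw [mul_add, mul_add]
    have e1 : cK K * (8 * cS K S * cK K / c.k1 * th * H) =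
        8 * cS K S * cK K ^ 2 / c.k1 * th * H := by
      ring
    have e2 : c.c4 * th * H = 8 * cS K S * cK K ^ 2 / c.k1 * th * H + th * H := by
      unfold CPar.c4
      ring
    rw [e1, e2]
    linarith

/-- the set of the levels -/
private def tr_lev (c : CPar K S) (th : ℝ) (q : Ideal (𝓞 K)) (H : ℝ) : Set (𝓞 K) :=
  {s : 𝓞 K | s ∈ q ∧ CIn (th * c.HH H * (c.BB H : ℝ) ^ 2) s}

private theorem tr_lev_finite (c : CPar K S) (th : ℝ) (q : Ideal (𝓞 K)) (H : ℝ) :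
    (tr_lev c th q H).Finite :=
  (CIn_finite _).subset fun _ hs => hs.2

omit [Fintype S] in
private theorem tr_QM (c : CPar K S) {s : ℕ} (hs : c.p.Q ∣ c.p.W ^ s) :
    (c.p.Q : 𝓞 K) ∣ (c.p.W : 𝓞 K) ^ s := by
  obtain ⟨d, hd⟩ := hs
  refine ⟨(d : 𝓞 K), ?_⟩
  rw [← Nat.cast_pow, hd, Nat.cast_mul]

theorem trans_lower (c : CPar K S) {eps k0 : ℝ} {w : ℕ} (hc : c.Valid eps k0 w)
    (R : ℝ) (hR : 1 ≤ R) (r th : ℝ) (hth : 0 < th) (s : ℕ) (hs : c.p.Q ∣ c.p.W ^ s) :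
    ∀ᶠ H : ℝ in atTop,
      ((c.LP (r - c.c4 * th) th s (c.GC R H) H).ncard : ℝ) ≤
        c.Lev th (Ideal.span {(c.p.W : 𝓞 K) ^ s}) H * ((c.Pairs r R H).ncard : ℝ) := by
  classical
  filter_upwards [tr_short_level c hc R hR th hth] with H hH
  have hQM := tr_QM c hs
  choose! t ht using hH
  let f : ((Idx 2 2 × S → 𝓞 K) × ℕ × (Fin (2 + 1) → 𝓞 K)) →
      𝓞 K × ((Idx 2 2 × S → 𝓞 K) × ℕ × (Fin (2 + 1) → 𝓞 K)) :=
    fun q => (F (ev q.1 (c.vv H q.2.1)) q.2.2,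
      (fun m => q.1 m + (-1) * t q.2.1 q.2.2 (F (ev q.1 (c.vv H q.2.1)) q.2.2) m, q.2))
  have hmaps : ∀ q ∈ c.LP (r - c.c4 * th) th s (c.GC R H) H,
      f q ∈ tr_lev c th (Ideal.span {(c.p.W : 𝓞 K) ^ s}) H ×ˢ c.Pairs r R H := by
    intro q hq
    obtain ⟨h1, hi, h2, h3, h4⟩ := hq
    have h5 := ht q.2.1 hi q.2.2 h2 (F (ev q.1 (c.vv H q.2.1)) q.2.2) (hQM.trans h3) h4
    refine ⟨⟨Ideal.mem_span_singleton.mpr h3, h4⟩,
      ⟨fun m j => ?_, fun m => ?_⟩, hi, h2, ?_⟩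
    · have h6 := h1.1 m j
      have h7 := h5.2.2 m j
      have h8 : (crd (q.1 m + (-1) * t q.2.1 q.2.2 (F (ev q.1 (c.vv H q.2.1)) q.2.2) m) j : ℝ) -
          H * c.AC m j = ((crd (q.1 m) j : ℝ) - H * c.AC m j) -
            (crd (t q.2.1 q.2.2 (F (ev q.1 (c.vv H q.2.1)) q.2.2) m) j : ℝ) := by
        have e : q.1 m + (-1) * t q.2.1 q.2.2 (F (ev q.1 (c.vv H q.2.1)) q.2.2) m =
            q.1 m - t q.2.1 q.2.2 (F (ev q.1 (c.vv H q.2.1)) q.2.2) m := by ring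
        rw [e, crd_sub]
        push_cast
        ring
      simp only [f]
      rw [h8]
      refine (abs_sub _ _).trans ?_
      have h9 : (r - c.c4 * th) * H + c.c4 * th * H = r * H := by ring
      linarith
    · have h8 : q.1 m + (-1) * t q.2.1 q.2.2 (F (ev q.1 (c.vv H q.2.1)) q.2.2) m - c.A0 m =
          (q.1 m - c.A0 m) - t q.2.1 q.2.2 (F (ev q.1 (c.vv H q.2.1)) q.2.2) m := by ring
      simp only [f]
      rw [h8]
      exact dvd_sub (h1.2 m) (h5.2.1 m)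
    · simp only [f]
      rw [ConicHP.F_ev_add q.1
        (fun m => (-1) * t q.2.1 q.2.2 (F (ev q.1 (c.vv H q.2.1)) q.2.2) m),
        ConicHP.F_ev_smul, h5.1]
      ring
  have hinj : Set.InjOn f (c.LP (r - c.c4 * th) th s (c.GC R H) H) := by
    intro q hq q' hq' hqq
    simp only [f, Prod.mk.injEq] at hqq
    obtain ⟨e4, e1, e2⟩ := hqq
    have e5 : q.1 = q'.1 := by
      funext m
      have h5 : q.1 m + (-1) * t q.2.1 q.2.2 (F (ev q.1 (c.vv H q.2.1)) q.2.2) m =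
          q'.1 m + (-1) * t q'.2.1 q'.2.2 (F (ev q'.1 (c.vv H q'.2.1)) q'.2.2) m := congrFun e1 m
      rw [e4, e2] at h5
      exact add_right_cancel h5
    exact Prod.ext e5 e2
  have hfin : (tr_lev c th (Ideal.span {(c.p.W : 𝓞 K) ^ s}) H ×ˢ c.Pairs r R H).Finite :=
    (tr_lev_finite c th _ H).prod (Pairs_finite c r R H)
  have hcard := Set.ncard_le_ncard_of_injOn f hmaps hinj hfin
  rw [Set.ncard_prod] at hcard
  have hlev : c.Lev th (Ideal.span {(c.p.W : 𝓞 K) ^ s}) H =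
      ((tr_lev c th (Ideal.span {(c.p.W : 𝓞 K) ^ s}) H).ncard : ℝ) := rfl
  rw [hlev]
  exact_mod_cast hcard

theorem trans_upper (c : CPar K S) {eps k0 : ℝ} {w : ℕ} (hc : c.Valid eps k0 w)
    (R : ℝ) (hR : 1 ≤ R) (r th : ℝ) (hth : 0 < th) (s : ℕ) (hs : c.p.Q ∣ c.p.W ^ s) :
    ∀ᶠ H : ℝ in atTop,
      c.Lev th (Ideal.span {(c.p.W : 𝓞 K) ^ s}) H * ((c.Pairs r R H).ncard : ℝ) ≤
        ((c.LP (r + c.c4 * th) th s (c.GC R H) H).ncard : ℝ) := by
  classical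
  filter_upwards [tr_short_level c hc R hR th hth] with H hH
  have hQM := tr_QM c hs
  choose! t ht using hH
  let f : 𝓞 K × ((Idx 2 2 × S → 𝓞 K) × ℕ × (Fin (2 + 1) → 𝓞 K)) →
      ((Idx 2 2 × S → 𝓞 K) × ℕ × (Fin (2 + 1) → 𝓞 K)) :=
    fun q => (fun m => q.2.1 m + t q.2.2.1 q.2.2.2 q.1 m, q.2.2)
  have hF : ∀ q ∈ tr_lev c th (Ideal.span {(c.p.W : 𝓞 K) ^ s}) H ×ˢ c.Pairs r R H,
      F (ev (f q).1 (c.vv H (f q).2.1)) (f q).2.2 = q.1 := by
    intro q hq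
    obtain ⟨h0, h1, hi, h2, h3⟩ := hq
    have h5 := ht q.2.2.1 hi q.2.2.2 h2 q.1 (hQM.trans (Ideal.mem_span_singleton.mp h0.1)) h0.2
    simp only [f]
    rw [ConicHP.F_ev_add q.2.1 (fun m => t q.2.2.1 q.2.2.2 q.1 m), h3, h5.1, zero_add]
  have hmaps : ∀ q ∈ tr_lev c th (Ideal.span {(c.p.W : 𝓞 K) ^ s}) H ×ˢ c.Pairs r R H,
      f q ∈ c.LP (r + c.c4 * th) th s (c.GC R H) H := by
    intro q hq
    have hFq := hF q hq
    obtain ⟨h0, h1, hi, h2, h3⟩ := hq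
    have h5 := ht q.2.2.1 hi q.2.2.2 h2 q.1 (hQM.trans (Ideal.mem_span_singleton.mp h0.1)) h0.2
    refine ⟨⟨fun m j => ?_, fun m => ?_⟩, hi, h2, ?_, ?_⟩
    · have h6 := h1.1 m j
      have h7 := h5.2.2 m j
      have h8 : (crd (q.2.1 m + t q.2.2.1 q.2.2.2 q.1 m) j : ℝ) - H * c.AC m j =
          ((crd (q.2.1 m) j : ℝ) - H * c.AC m j) + (crd (t q.2.2.1 q.2.2.2 q.1 m) j : ℝ) := by
        rw [crd_add]
        push_cast
        ring
      simp only [f]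
      rw [h8]
      refine (abs_add_le _ _).trans ?_
      have h9 : (r + c.c4 * th) * H = r * H + c.c4 * th * H := by ring
      linarith
    · have h8 : q.2.1 m + t q.2.2.1 q.2.2.2 q.1 m - c.A0 m =
          (q.2.1 m - c.A0 m) + t q.2.2.1 q.2.2.2 q.1 m := by ring
      simp only [f]
      rw [h8]
      exact dvd_add (h1.2 m) (h5.2.1 m)
    · rw [hFq]
      exact Ideal.mem_span_singleton.mp h0.1
    · rw [hFq]
      exact h0.2
  have hinj : Set.InjOn f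
      (tr_lev c th (Ideal.span {(c.p.W : 𝓞 K) ^ s}) H ×ˢ c.Pairs r R H) := by
    intro q hq q' hq' hqq
    have e3 : q.1 = q'.1 := by
      have e1 := hF q hq
      have e2 := hF q' hq'
      rw [hqq, e2] at e1
      exact e1.symm
    simp only [f, Prod.mk.injEq] at hqq
    have e4 : q.2.1 = q'.2.1 := by
      funext m
      have h5 : q.2.1 m + t q.2.2.1 q.2.2.2 q.1 m = q'.2.1 m + t q'.2.2.1 q'.2.2.2 q'.1 m :=
        congrFun hqq.1 m
      rw [e3, hqq.2] at h5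
      exact add_right_cancel h5
    exact Prod.ext e3 (Prod.ext e4 hqq.2)
  have hfin := LP_finite c (r + c.c4 * th) th s (c.GC R H) (GC_finite c R H) H
  have hcard := Set.ncard_le_ncard_of_injOn f hmaps hinj hfin
  rw [Set.ncard_prod] at hcard
  have hlev : c.Lev th (Ideal.span {(c.p.W : 𝓞 K) ^ s}) H =
      ((tr_lev c th (Ideal.span {(c.p.W : 𝓞 K) ^ s}) H).ncard : ℝ) := rfl
  rw [hlev]
  exact_mod_cast hcard

end NKCHP
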