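import Pool.Agent.Lib.MP_e426f4_ag.CK.NLoc
import Pool.Agent.Lib.MP_e426f4_ag.CK.CardCl
import Pool.Agent.Lib.MP_e426f4_ag.CK.Trans
import Pool.Agent.Lib.MP_e426f4_ag.CK.BadPoints
import Pool.Agent.Lib.MP_e426f4_ag.G.FirstAux

/-!
CK-FirstLower: lower bound for the first moment. Templates: C/FirstLower.lean, NK/FirstLower.lean. For A in Cl(rho - c4 th) (ev_near) and i < JJ: nloc with q = top for sy (ev A (vv H i)); card_Cl; minus bad_points; trans_lower; Lev_asymp (q = span W^s, norm (W^s)^m: NKHP.absNorm_span_W), TL_eq.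
-/

namespace NKCHP

open NumberField GenHP NFHP NKHP Finset Filter Topology
open ConicHP (ev JJ)

variable {K : Type} [Field K] [NumberField K] {S : Type} [Fintype S]

private theorem FirstLower_N (c : CPar K S) : 0 < mK K * MM S := by
  unfold MM
  rw [Fintype.card_prod]
  exact Nat.mul_pos mK_pos (Nat.mul_pos (NN_pos 2 2) (Fintype.card_pos_iff.mpr ⟨c.s0⟩))

private theorem FirstLower_c4 (c : CPar K S) {eps k0 : ℝ} {w : ℕ} (hc : c.Valid eps k0 w) :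
    1 ≤ c.c4 := by
  have hk := hc.fam.k1_pos
  unfold CPar.c4 cS
  have h1 : 0 ≤ 8 * ((Fintype.card S : ℝ) * cK K ^ 2) * cK K ^ 2 / c.k1 := by positivity
  linarith

private theorem FirstLower_span (c : CPar K S) {eps k0 : ℝ} {w : ℕ} (hc : c.Valid eps k0 w)
    (s : ℕ) : Ideal.span {(c.p.W : 𝓞 K) ^ s} ≠ ⊥ := by
  rw [Ne, Ideal.span_singleton_eq_bot]
  exact pow_ne_zero s (Nat.cast_ne_zero.mpr hc.pv.W_pos.ne')

private theorem FirstLower_h9 (eps v : ℝ) (he : 0 < eps) (he1 : eps ≤ 1 / 10) :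
    1 - 4 * eps - v ≤ (1 - eps) * (1 - eps) * (1 - eps) - (eps + v) := by
  have h1 : 0 ≤ eps ^ 2 * (3 - eps) := mul_nonneg (sq_nonneg _) (by linarith)
  have h2 : (1 - eps) * (1 - eps) * (1 - eps) - (eps + v) - (1 - 4 * eps - v) = eps ^ 2 * (3 - eps) := by
    ring
  linarith

private theorem FirstLower_h10 (eps v : ℝ) (he : 0 < eps) (hv : 0 ≤ v) :
    (1 + eps) * (1 - 8 * eps - v) ≤ 1 - 4 * eps - v := by
  have h1 : 0 ≤ eps * v := mul_nonneg he.le hv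
  have h2 : (1 - 4 * eps - v) - (1 + eps) * (1 - 8 * eps - v) = 3 * eps + 8 * eps ^ 2 + eps * v := by
    ring
  have h3 : 0 ≤ eps ^ 2 := sq_nonneg _
  linarith

private theorem FirstLower_h11 {a r9 rho : ℝ} (H : ℝ) (h : rho * a ≤ r9) (hH : 0 < H) :
    a * (2 * rho * H) ≤ 2 * r9 * H := by
  have h1 : rho * a * H ≤ r9 * H := mul_le_mul_of_nonneg_right h hH.le
  linarith

theorem S1_lower (c : CPar K S) {eps k0 : ℝ} {w : ℕ} (hc : c.Valid eps k0 w)
    (E : ℝ) (hE : TailE K w E) :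
    ∃ R0 : ℝ, 1 ≤ R0 ∧ ∀ R, R0 ≤ R → ∀ᶠ H : ℝ in atTop,
      (1 - 8 * eps - 2 * E) * c.TT H * c.XR c.p.rho H ≤ ((c.Pairs c.p.rho R H).ncard : ℝ) := by
  have hp := hc.pv
  have he := hp.eps_pos
  have he1 := hp.eps_le
  have hrho := hp.rho_pos
  have hQ := hp.Q_pos
  have hQr : (0 : ℝ) < c.p.Q := by exact_mod_cast hQ
  have hWr : (0 : ℝ) < c.p.W := by exact_mod_cast hp.W_pos
  have hE0 : 0 ≤ E := by
    have := hE ∅ (by simp)
    simpa using this
  obtain ⟨s, hs⟩ := hp.hens.2.1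
  have hnQ : c.p.Q ∣ c.p.W ^ s := by rw [hs]
  obtain ⟨N, hNdef⟩ : ∃ N : ℕ, N = mK K * MM S := ⟨_, rfl⟩
  have hN : 0 < N := by rw [hNdef]; exact FirstLower_N c
  have hNr : (1 : ℝ) ≤ N := by exact_mod_cast hN
  have hN0 : (0 : ℝ) < N := by linarith
  have hc4 := FirstLower_c4 c hc
  have hc2 : (0 : ℝ) < c.c4 := by linarith
  obtain ⟨th, hth, hth2, hth3⟩ : ∃ th : ℝ, 0 < th ∧ th ≤ c.p.th1 ∧
      th ≤ eps * c.p.rho / (c.c4 * N) :=
    ⟨min c.p.th1 (eps * c.p.rho / (c.c4 * N)),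
      lt_min hp.th1_pos (by positivity), min_le_left _ _, min_le_right _ _⟩
  have hct : c.c4 * th ≤ c.p.rho * (eps / N) := by
    rw [le_div_iff₀ (by positivity)] at hth3
    rw [mul_div_assoc', le_div_iff₀ hN0]
    linarith
  have heN : eps / N ≤ eps := div_le_self he.le hNr
  have heN0 : 0 < eps / N := by positivity
  obtain ⟨r9, hr9⟩ : ∃ r9 : ℝ, r9 = c.p.rho - c.c4 * th := ⟨_, rfl⟩
  have hr9a : c.p.rho * (1 - eps / N) ≤ r9 := by
    rw [hr9]
    linarith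
  have hr9p : 0 < r9 := lt_of_lt_of_le (mul_pos hrho (by linarith)) hr9a
  have hr9b : r9 ≤ c.p.rho := by
    have : 0 < c.c4 * th := mul_pos hc2 hth
    linarith
  obtain ⟨B0, hB0⟩ := nloc c.p hp th hth hth2 s hnQ ⊤ top_ne_bot
    (by rw [← Ideal.one_eq_top]; exact isCoprime_one_left)
  obtain ⟨R0, hR0, hbad⟩ := bad_points c hc E hE
  obtain ⟨CT, hCT, hT1⟩ := T1_bounds c hc
  refine ⟨R0, hR0, fun R hR => ?_⟩
  have hR1 : 1 ≤ R := hR0.trans hR
  have hBt := BB_atTop c hc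
  filter_upwards [hbad R hR th hth hth2 s hnQ,
    trans_lower c hc R hR1 c.p.rho th hth s hnQ,
    card_Cl c hQ r9 eps hr9p he, hBt.eventually_ge_atTop 1, hBt.eventually_ge_atTop B0,
    Lev_asymp c hc th hth _ (FirstLower_span c hc s) eps he, TL_eq c hc th hth s, HH_pos c hc,
    ev_near c hc r9 (by linarith), hT1,
    eventually_ge_atTop (1 : ℝ)] with H hBP hTR hCl hB1 hB0' hLev hmt hHHp hnear hT1H hH1
  have hH0 : (0 : ℝ) < H := by linarith
  have hHH0 : 0 < c.HH H := hHHp.1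
  have hB1' : (1 : ℝ) ≤ c.BB H := by exact_mod_cast hB1
  have hBpos : (0 : ℝ) < c.BB H := by linarith
  have hTT0 : 0 ≤ c.TT H := by
    unfold CPar.TT
    exact mul_nonneg (Nat.cast_nonneg _) (by linarith)
  have hX0 : 0 ≤ c.XR c.p.rho H := by
    unfold CPar.XR
    positivity
  have hP0 : (0 : ℝ) ≤ ((c.Pairs c.p.rho R H).ncard : ℝ) := Nat.cast_nonneg _
  obtain ⟨y, hydef⟩ : ∃ y : ℝ, y = (2 * (th * c.HH H * (c.BB H : ℝ) ^ 2) / (c.p.W : ℝ) ^ s) ^ mK K :=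
    ⟨_, rfl⟩
  have hy0 : 0 < y := by rw [hydef]; positivity
  have hyeq : (2 * (th * c.HH H * (c.BB H : ℝ) ^ 2)) ^ mK K /
      (Ideal.absNorm (Ideal.span {(c.p.W : 𝓞 K) ^ s}) : ℝ) = y := by
    rw [absNorm_span_W, hydef]
    push_cast
    rw [div_pow]
  rw [hyeq] at hLev
  have hlev := hLev.2
  have hlev0 : 0 < c.Lev th (Ideal.span {(c.p.W : 𝓞 K) ^ s}) H :=
    lt_of_lt_of_le (mul_pos (by linarith) hy0) hLev.1
  rw [← hydef] at hmt
  have hMT : c.MT th s H = ((JJ H : ℝ) * c.p.TL th s (c.BB H)) * c.XR c.p.rho H := rfl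
  rw [hMT] at hBP
  obtain ⟨T', hT'⟩ : ∃ T' : ℝ, T' = (JJ H : ℝ) * c.p.TL th s (c.BB H) := ⟨_, rfl⟩
  rw [← hT'] at hBP
  rw [← hr9] at hTR
  have hTy : T' = c.TT H * y := by
    rw [hT', hmt]
    unfold CPar.TT
    ring
  have hT'nn : 0 ≤ T' := by
    rw [hTy]
    exact mul_nonneg hTT0 hy0.le
  have hXXf := XX_finite (by norm_num) c.p (c.BB H)
  have hGCf : (c.GC R H).Finite := GG_finite (by norm_num) c.p R (c.BB H)
  have hJ : (Set.Iio (JJ H)).ncard = JJ H := by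
    rw [← Finset.coe_range, Set.ncard_coe_finset, Finset.card_range]
  -- all local pairs
  have hLP : ((c.Cl r9 H).ncard : ℝ) * ((1 - eps) * T') ≤
      ((c.LP r9 th s (c.p.XX (c.BB H)) H).ncard : ℝ) := by
    have hfin : (Set.Iio (JJ H) ×ˢ c.p.XX (c.BB H)).Finite :=
      (Set.finite_Iio _).prod hXXf
    have e1 : c.LP r9 th s (c.p.XX (c.BB H)) H =
        {q : (Idx 2 2 × S → 𝓞 K) × (ℕ × (Fin (2 + 1) → 𝓞 K)) | q.1 ∈ c.Cl r9 H ∧
          q.2 ∈ Set.Iio (JJ H) ×ˢ c.p.XX (c.BB H) ∧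
          ((c.p.W : 𝓞 K) ^ s ∣ F (ev q.1 (c.vv H q.2.1)) q.2.2 ∧
          CIn (th * c.HH H * (c.BB H : ℝ) ^ 2) (F (ev q.1 (c.vv H q.2.1)) q.2.2))} := by
      ext q
      simp only [CPar.LP, Set.mem_ofPred_eq, Set.mem_prod, Set.mem_Iio]
      tauto
    rw [e1]
    refine le_ncard_pairs (c.Cl r9 H) (Cl_finite c _ H) _ hfin
      (fun A q => (c.p.W : 𝓞 K) ^ s ∣ F (ev A (c.vv H q.1)) q.2 ∧
          CIn (th * c.HH H * (c.BB H : ℝ) ^ 2) (F (ev A (c.vv H q.1)) q.2)) _ ?_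
    intro A hA
    have e2 : {x : ℕ × (Fin (2 + 1) → 𝓞 K) | x ∈ Set.Iio (JJ H) ×ˢ c.p.XX (c.BB H) ∧
        ((c.p.W : 𝓞 K) ^ s ∣ F (ev A (c.vv H x.1)) x.2 ∧
          CIn (th * c.HH H * (c.BB H : ℝ) ^ 2) (F (ev A (c.vv H x.1)) x.2))} =
        {x | x.1 ∈ Set.Iio (JJ H) ∧ x.2 ∈ c.p.XX (c.BB H) ∧
          ((c.p.W : 𝓞 K) ^ s ∣ F (ev A (c.vv H x.1)) x.2 ∧
          CIn (th * c.HH H * (c.BB H : ℝ) ^ 2) (F (ev A (c.vv H x.1)) x.2))} := by
      ext q
      simp only [Set.mem_ofPred_eq, Set.mem_prod]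
      tauto
    rw [e2]
    have h0 := le_ncard_pairs (Set.Iio (JJ H)) (Set.finite_Iio _) (c.p.XX (c.BB H)) hXXf
      (fun i x => (c.p.W : 𝓞 K) ^ s ∣ F (ev A (c.vv H i)) x ∧
          CIn (th * c.HH H * (c.BB H : ℝ) ^ 2) (F (ev A (c.vv H i)) x))
      ((1 - eps) * c.p.TL th s (c.BB H)) ?_
    · rw [hJ] at h0
      refine le_trans (le_of_eq ?_) h0
      rw [hT']
      ring
    intro i hi
    obtain ⟨hn1, hn2⟩ := hnear i hi A hA
    have h1 := (hB0 (c.BB H) hB0' (c.HH H) hHH0 (sy (ev A (c.vv H i)))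
      (fun i' t j => by
        rw [Subsingleton.elim i' 0]
        exact hn1 t j)
      (fun i' t => by
        rw [Subsingleton.elim i' 0]
        exact hn2 t) (fun _ => 0)).1
    rw [Ideal.absNorm_top, Nat.cast_one, one_pow, div_one] at h1
    refine le_trans h1 ?_
    refine Nat.cast_le.mpr (Set.ncard_le_ncard ?_ (hXXf.subset fun _ hx => hx.1))
    intro x hx
    exact ⟨hx.1, hx.2.1 0⟩
  have hsplit : ((c.LP r9 th s (c.p.XX (c.BB H)) H).ncard : ℝ) ≤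
      ((c.LP r9 th s (c.GC R H) H).ncard : ℝ) +
      ((c.LP c.p.rho th s (c.p.XX (c.BB H) \ c.GC R H) H).ncard : ℝ) := by
    have h1 : c.LP r9 th s (c.p.XX (c.BB H)) H ⊆ c.LP r9 th s (c.GC R H) H ∪
        c.LP c.p.rho th s (c.p.XX (c.BB H) \ c.GC R H) H := by
      intro q hq
      by_cases hg : q.2.2 ∈ c.GC R H
      · exact Or.inl ⟨hq.1, hq.2.1, hg, hq.2.2.2⟩
      · refine Or.inr ⟨⟨fun m j => (hq.1.1 m j).trans ?_, hq.1.2⟩, hq.2.1, ⟨hq.2.2.1, hg⟩, hq.2.2.2⟩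
        exact mul_le_mul_of_nonneg_right hr9b hH0.le
    have h2 := Set.ncard_le_ncard h1 ((LP_finite c r9 th s _ hGCf H).union
      (LP_finite c c.p.rho th s _ (hXXf.subset fun _ h => h.1) H))
    have h3 := Set.ncard_union_le (c.LP r9 th s (c.GC R H) H)
      (c.LP c.p.rho th s (c.p.XX (c.BB H) \ c.GC R H) H)
    exact_mod_cast h2.trans h3
  have hX : (1 - eps) * c.XR c.p.rho H ≤ c.XR r9 H := by
    have h1 : (1 - eps / N) ^ N * c.XR c.p.rho H ≤ c.XR r9 H := by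
      unfold CPar.XR
      rw [← hNdef, ← mul_pow]
      refine pow_le_pow_left₀ (mul_nonneg (by linarith) (by positivity)) ?_ _
      rw [mul_div_assoc', div_le_div_iff_of_pos_right hQr]
      exact FirstLower_h11 _ hr9a hH0
    exact (mul_le_mul_of_nonneg_right (one_sub_le_pow _ hN eps (by linarith)) hX0).trans h1
  obtain ⟨v, hv⟩ : ∃ v : ℝ, v = 2 * E := ⟨_, rfl⟩
  rw [← hv] at hBP ⊢
  have hv0 : 0 ≤ v := by rw [hv]; positivity
  -- lower bound for the local pairs over good points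
  have h5 : (1 - 4 * eps - v) * (T' * c.XR c.p.rho H) ≤
      ((c.LP r9 th s (c.GC R H) H).ncard : ℝ) := by
    have h6 : (1 - eps) * ((1 - eps) * c.XR c.p.rho H) * ((1 - eps) * T') ≤
        ((c.Cl r9 H).ncard : ℝ) * ((1 - eps) * T') := by
      refine mul_le_mul_of_nonneg_right ?_ (mul_nonneg (by linarith) hT'nn)
      exact (mul_le_mul_of_nonneg_left hX (by linarith)).trans hCl.1
    have h7 : (1 - 4 * eps - v) * (T' * c.XR c.p.rho H) ≤
        (1 - eps) * ((1 - eps) * c.XR c.p.rho H) * ((1 - eps) * T') -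
          (eps + v) * (T' * c.XR c.p.rho H) := by
      have h8 : 0 ≤ T' * c.XR c.p.rho H := mul_nonneg hT'nn hX0
      have h9 : 1 - 4 * eps - v ≤ (1 - eps) * (1 - eps) * (1 - eps) - (eps + v) :=
        FirstLower_h9 eps v he he1
      calc (1 - 4 * eps - v) * (T' * c.XR c.p.rho H) ≤
          ((1 - eps) * (1 - eps) * (1 - eps) - (eps + v)) * (T' * c.XR c.p.rho H) :=
            mul_le_mul_of_nonneg_right h9 h8
        _ = _ := by ring
    linarith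
  by_cases hneg : 1 - 8 * eps - v ≤ 0
  · calc (1 - 8 * eps - v) * c.TT H * c.XR c.p.rho H =
        (1 - 8 * eps - v) * (c.TT H * c.XR c.p.rho H) := by ring
      _ ≤ 0 := mul_nonpos_of_nonpos_of_nonneg hneg (mul_nonneg hTT0 hX0)
      _ ≤ _ := hP0
  · have hpos : 0 < 1 - 8 * eps - v := not_le.1 hneg
    refine le_of_mul_le_mul_left ?_ hlev0
    calc c.Lev th (Ideal.span {(c.p.W : 𝓞 K) ^ s}) H *
          ((1 - 8 * eps - v) * c.TT H * c.XR c.p.rho H) ≤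
        ((1 + eps) * y) * ((1 - 8 * eps - v) * c.TT H * c.XR c.p.rho H) :=
          mul_le_mul_of_nonneg_right hlev
            (mul_nonneg (mul_nonneg hpos.le hTT0) hX0)
      _ = ((1 + eps) * (1 - 8 * eps - v)) * (y * c.TT H * c.XR c.p.rho H) := by ring
      _ ≤ (1 - 4 * eps - v) * (y * c.TT H * c.XR c.p.rho H) := by
          refine mul_le_mul_of_nonneg_right ?_ (mul_nonneg (mul_nonneg hy0.le hTT0) hX0)
          exact FirstLower_h10 eps v he hv0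
      _ = (1 - 4 * eps - v) * (T' * c.XR c.p.rho H) := by rw [hTy]; ring
      _ ≤ _ := h5
      _ ≤ _ := hTR

end NKCHP
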