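import Pool.Agent.Lib.MP_e426f4_ag.CK.NLoc
import Pool.Agent.Lib.MP_e426f4_ag.CK.CardCl
import Pool.Agent.Lib.MP_e426f4_ag.CK.Trans
import Pool.Agent.Lib.MP_e426f4_ag.G.FirstAux

/-!
CK-FirstUpper: upper bound for the first moment. Templates: C/FirstUpper.lean, NK/FirstUpper.lean. trans_upper with th small (r + c4 th <= 8/5 rho), ev_near, nloc (q = top), card_Cl, Lev_asymp, TL_eq.
-/

namespace NKCHP

open NumberField GenHP NFHP NKHP Finset Filter Topology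
open ConicHP (ev JJ)

variable {K : Type} [Field K] [NumberField K] {S : Type} [Fintype S]

private theorem s1u_num (N : ℕ) (hN : 0 < N) (e : ℝ) (he : 0 < e) (he1 : e ≤ 1 / 10) :
    (1 + e) * (1 + e / N) ^ N * (1 + e) ≤ (1 - e) * (1 + 8 * e) := by
  have h1 := pow_le_quad N hN e he (by linarith)
  have h2 : (1 + e) * (1 + e) ≤ 1 + 21 / 10 * e := by nlinarith
  have h3 : 1 + e + e ^ 2 ≤ 1 + 11 / 10 * e := by nlinarith
  calc (1 + e) * (1 + e / N) ^ N * (1 + e) = (1 + e) * (1 + e) * (1 + e / N) ^ N := by ring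
    _ ≤ (1 + 21 / 10 * e) * (1 + 11 / 10 * e) :=
        mul_le_mul h2 (h1.trans h3) (by positivity) (by positivity)
    _ ≤ (1 - e) * (1 + 8 * e) := by nlinarith

theorem S1_upper (c : CPar K S) {eps k0 : ℝ} {w : ℕ} (hc : c.Valid eps k0 w)
    (R : ℝ) (hR : 1 ≤ R) (r : ℝ) (hr : c.p.rho ≤ r) (hr2 : r ≤ 3 / 2 * c.p.rho) :
    ∀ᶠ H : ℝ in atTop,
      ((c.Pairs r R H).ncard : ℝ) ≤ (1 + 8 * eps) * c.TT H * c.XR r H := by
  have hp := hc.pv
  have he := hp.eps_pos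
  have he1 := hp.eps_le
  have hrho := hp.rho_pos
  have hW := hp.W_pos
  have hQ := hp.Q_pos
  have hWr : (0 : ℝ) < c.p.W := by exact_mod_cast hW
  have hQr : (0 : ℝ) < c.p.Q := by exact_mod_cast hQ
  have hr0 : 0 < r := hrho.trans_le hr
  obtain ⟨s, hs⟩ := hp.hens.2.1
  have hnQ : c.p.Q ∣ c.p.W ^ s := by rw [hs]
  have hMM : 0 < MM S := by
    unfold MM
    rw [Fintype.card_prod]
    exact Nat.mul_pos (NN_pos 2 2) (Fintype.card_pos_iff.mpr ⟨c.s0⟩)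
  obtain ⟨N, hNdef⟩ : ∃ N : ℕ, N = mK K * MM S := ⟨_, rfl⟩
  have hN : 0 < N := by rw [hNdef]; exact Nat.mul_pos mK_pos hMM
  have hNr : (1 : ℝ) ≤ N := by exact_mod_cast hN
  have hN0 : (0 : ℝ) < N := by linarith
  have hcS := cS_ge c hc
  have hk1 := hc.fam.k1_pos
  have hc2 : (0 : ℝ) < c.c4 := by
    unfold CPar.c4
    have : 0 ≤ 8 * cS K S * cK K ^ 2 / c.k1 := by positivity
    linarith
  obtain ⟨th, hth, hth2, hth3⟩ : ∃ th : ℝ, 0 < th ∧ th ≤ c.p.th1 ∧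
      th ≤ eps * c.p.rho / (c.c4 * N) :=
    ⟨min c.p.th1 (eps * c.p.rho / (c.c4 * N)),
      lt_min hp.th1_pos (by positivity), min_le_left _ _, min_le_right _ _⟩
  have hct : c.c4 * th ≤ c.p.rho * (eps / N) := by
    rw [le_div_iff₀ (by positivity)] at hth3
    rw [mul_div_assoc', le_div_iff₀ hN0]
    linarith
  have heN : eps / N ≤ eps := div_le_self he.le hNr
  have heN0 : 0 < eps / N := by positivity
  have hr9 : r + c.c4 * th ≤ r * (1 + eps / N) := by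
    have := mul_le_mul_of_nonneg_right hr heN0.le
    linarith
  have hr9b : r + c.c4 * th ≤ 8 / 5 * c.p.rho := by
    have h1 : c.p.rho * (eps / N) ≤ c.p.rho * (1 / 10) :=
      mul_le_mul_of_nonneg_left (heN.trans he1) hrho.le
    linarith
  have hIne : Ideal.span {(c.p.W : 𝓞 K) ^ s} ≠ ⊥ := by
    rw [Ne, Ideal.span_singleton_eq_bot]
    exact pow_ne_zero s (Nat.cast_ne_zero.mpr hW.ne')
  obtain ⟨B0, hB0⟩ := nloc c.p hp th hth hth2 s hnQ ⊤ top_ne_bot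
    (by rw [← Ideal.one_eq_top]; exact isCoprime_one_left)
  have hBt := BB_atTop c hc
  filter_upwards [trans_upper c hc R hR r th hth s hnQ,
    card_Cl c hQ (r + c.c4 * th) eps (by positivity) he, hBt.eventually_ge_atTop 1,
    hBt.eventually_ge_atTop B0, HH_pos c hc,
    Lev_asymp c hc th hth _ hIne eps he, TL_eq c hc th hth s,
    ev_near c hc (r + c.c4 * th) hr9b,
    eventually_ge_atTop (1 : ℝ)] with H hTR hCl hB1 hB0' hHH hLev hmt hnear hH1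
  have hH0 : (0 : ℝ) < H := by linarith
  have hHH0 : 0 < c.HH H := hHH.1
  have hB1' : (1 : ℝ) ≤ c.BB H := by exact_mod_cast hB1
  have hBpos : (0 : ℝ) < c.BB H := by linarith
  have hlev := hLev.1
  have hdens : 0 ≤ c.p.dens := (dens_pos c.p hp).le
  have hvg := hp.vg_pos
  have hTT1 : 0 ≤ c.T1 H := by
    simp only [CPar.T1]
    positivity
  have hTT0 : 0 ≤ c.TT H := by
    simp only [CPar.TT]
    positivity
  obtain ⟨T', hT'⟩ : ∃ T' : ℝ, T' = c.p.TL th s (c.BB H) := ⟨_, rfl⟩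
  obtain ⟨y, hydef⟩ : ∃ y : ℝ, y =
      (2 * (th * c.HH H * (c.BB H : ℝ) ^ 2) / (c.p.W : ℝ) ^ s) ^ mK K := ⟨_, rfl⟩
  have hy0 : 0 < y := by rw [hydef]; positivity
  have hy2 : (2 * (th * c.HH H * (c.BB H : ℝ) ^ 2)) ^ mK K /
      (Ideal.absNorm (Ideal.span {(c.p.W : 𝓞 K) ^ s}) : ℝ) = y := by
    rw [absNorm_span_W, hydef]
    push_cast
    rw [div_pow]
  rw [hy2] at hlev
  rw [← hT', ← hydef] at hmt
  have hT'nn : 0 ≤ T' := by rw [hmt]; positivity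
  have hJ : (Set.Iio (JJ H)).ncard = JJ H := by
    rw [← Finset.coe_range, Set.ncard_coe_finset, Finset.card_range]
  -- number of local triples
  have hLP : ((c.LP (r + c.c4 * th) th s (c.GC R H) H).ncard : ℝ) ≤
      ((c.Cl (r + c.c4 * th) H).ncard : ℝ) * ((1 + eps) * ((JJ H : ℝ) * T')) := by
    have hfin : (Set.Iio (JJ H) ×ˢ c.GC R H).Finite := (Set.finite_Iio _).prod (GC_finite c R H)
    have e1 : c.LP (r + c.c4 * th) th s (c.GC R H) H =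
        {q : (Idx 2 2 × S → 𝓞 K) × (ℕ × (Fin (2 + 1) → 𝓞 K)) | q.1 ∈ c.Cl (r + c.c4 * th) H ∧
          q.2 ∈ Set.Iio (JJ H) ×ˢ c.GC R H ∧
          ((c.p.W : 𝓞 K) ^ s ∣ F (ev q.1 (c.vv H q.2.1)) q.2.2 ∧
          CIn (th * c.HH H * (c.BB H : ℝ) ^ 2) (F (ev q.1 (c.vv H q.2.1)) q.2.2))} := by
      ext q
      simp only [CPar.LP, Set.mem_ofPred_eq, Set.mem_prod, Set.mem_Iio]
      tauto
    rw [e1]
    refine ncard_pairs_le (c.Cl (r + c.c4 * th) H) (Cl_finite c _ H) _ hfin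
      (fun A q => (c.p.W : 𝓞 K) ^ s ∣ F (ev A (c.vv H q.1)) q.2 ∧
          CIn (th * c.HH H * (c.BB H : ℝ) ^ 2) (F (ev A (c.vv H q.1)) q.2)) _ ?_
    intro A hA
    have e2 : {x : ℕ × (Fin (2 + 1) → 𝓞 K) | x ∈ Set.Iio (JJ H) ×ˢ c.GC R H ∧
        ((c.p.W : 𝓞 K) ^ s ∣ F (ev A (c.vv H x.1)) x.2 ∧
          CIn (th * c.HH H * (c.BB H : ℝ) ^ 2) (F (ev A (c.vv H x.1)) x.2))} =
        {x | x.1 ∈ Set.Iio (JJ H) ∧ x.2 ∈ c.GC R H ∧
          ((c.p.W : 𝓞 K) ^ s ∣ F (ev A (c.vv H x.1)) x.2 ∧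
          CIn (th * c.HH H * (c.BB H : ℝ) ^ 2) (F (ev A (c.vv H x.1)) x.2))} := by
      ext q
      simp only [Set.mem_ofPred_eq, Set.mem_prod]
      tauto
    rw [e2]
    have h0 := ncard_pairs_le (Set.Iio (JJ H)) (Set.finite_Iio _) (c.GC R H) (GC_finite c R H)
      (fun i x => (c.p.W : 𝓞 K) ^ s ∣ F (ev A (c.vv H i)) x ∧
          CIn (th * c.HH H * (c.BB H : ℝ) ^ 2) (F (ev A (c.vv H i)) x))
      ((1 + eps) * T') ?_
    · rw [hJ] at h0
      refine h0.trans (le_of_eq ?_)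
      ring
    intro i hi
    obtain ⟨hn1, hn2⟩ := hnear i hi A hA
    have h1 := (hB0 (c.BB H) hB0' (c.HH H) hHH0 (sy (ev A (c.vv H i)))
      (fun i' t j => by
        rw [Fin.eq_zero i']
        exact hn1 t j)
      (fun i' t => by
        rw [Fin.eq_zero i']
        exact hn2 t) (fun _ => 0)).2
    rw [Ideal.absNorm_top, Nat.cast_one, one_pow, div_one] at h1
    have h1' : (Set.ncard {x : Fin (2 + 1) → 𝓞 K | x ∈ c.p.XX (c.BB H) ∧
        (∀ i' : Fin 1, (c.p.W : 𝓞 K) ^ s ∣ F (sy (ev A (c.vv H i)) i') x ∧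
          CIn (th * c.HH H * (c.BB H : ℝ) ^ e22 i') (F (sy (ev A (c.vv H i)) i') x)) ∧
        ∀ i, x i - 0 ∈ (⊤ : Ideal (𝓞 K))} : ℝ) ≤ (1 + eps) * T' := by
      rw [hT']
      exact h1
    refine le_trans ?_ h1'
    have h3 : {x | x ∈ c.GC R H ∧ ((c.p.W : 𝓞 K) ^ s ∣ F (ev A (c.vv H i)) x ∧
          CIn (th * c.HH H * (c.BB H : ℝ) ^ 2) (F (ev A (c.vv H i)) x))} ⊆
        {x : Fin (2 + 1) → 𝓞 K | x ∈ c.p.XX (c.BB H) ∧
        (∀ i' : Fin 1, (c.p.W : 𝓞 K) ^ s ∣ F (sy (ev A (c.vv H i)) i') x ∧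
          CIn (th * c.HH H * (c.BB H : ℝ) ^ e22 i') (F (sy (ev A (c.vv H i)) i') x)) ∧
        ∀ i, x i - 0 ∈ (⊤ : Ideal (𝓞 K))} := by
      intro x hx
      exact ⟨hx.1.1, fun _ => hx.2, fun i => Submodule.mem_top⟩
    exact Nat.cast_le.mpr
      (Set.ncard_le_ncard h3 ((XX_finite (by norm_num) c.p (c.BB H)).subset fun _ hx => hx.1))
  have hX : c.XR (r + c.c4 * th) H ≤ (1 + eps / N) ^ N * c.XR r H := by
    unfold CPar.XR
    rw [← hNdef, ← mul_pow]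
    refine pow_le_pow_left₀ (by positivity) ?_ _
    rw [mul_div_assoc', div_le_div_iff_of_pos_right hQr]
    nlinarith [mul_le_mul_of_nonneg_right hr9 hH0.le]
  have hX0 : 0 ≤ c.XR r H := (XR_pos c hc hr0 hH0).le
  obtain ⟨X, hXdef⟩ : ∃ X : ℝ, X = c.XR r H := ⟨_, rfl⟩
  rw [← hXdef] at hX hX0 ⊢
  have hP0 : (0 : ℝ) ≤ ((c.Pairs r R H).ncard : ℝ) := Nat.cast_nonneg _
  have hJT : (JJ H : ℝ) * T' = y * c.TT H := by
    rw [hmt]
    simp only [CPar.TT]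
    ring
  have h5 : (1 - eps) * y * ((c.Pairs r R H).ncard : ℝ) ≤
      (1 - eps) * y * ((1 + 8 * eps) * c.TT H * X) := by
    calc (1 - eps) * y * ((c.Pairs r R H).ncard : ℝ) ≤
        c.Lev th (Ideal.span {(c.p.W : 𝓞 K) ^ s}) H * ((c.Pairs r R H).ncard : ℝ) :=
          mul_le_mul_of_nonneg_right hlev hP0
      _ ≤ _ := hTR
      _ ≤ _ := hLP
      _ ≤ ((1 + eps) * c.XR (r + c.c4 * th) H) * ((1 + eps) * ((JJ H : ℝ) * T')) :=
          mul_le_mul_of_nonneg_right hCl.2 (by positivity)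
      _ ≤ ((1 + eps) * ((1 + eps / N) ^ N * X)) * ((1 + eps) * ((JJ H : ℝ) * T')) := by gcongr
      _ = (1 + eps) * (1 + eps / N) ^ N * (1 + eps) * (y * c.TT H * X) := by
          rw [hJT]
          ring
      _ ≤ (1 - eps) * (1 + 8 * eps) * (y * c.TT H * X) :=
          mul_le_mul_of_nonneg_right (s1u_num _ hN eps he he1) (by positivity)
      _ = _ := by ring
  have h6 : 0 < (1 - eps) * y := mul_pos (by linarith) hy0
  exact le_of_mul_le_mul_left h5 h6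

end NKCHP
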