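import Pool.Agent.Lib.MP_e426f4_ag.CK.Basic
import Pool.Agent.Lib.MP_e426f4_ag.N.Ideals
import Pool.Agent.Lib.MP_e426f4_ag.C.Arith

/-!
CK-GcdSums: sums of norms of greatest common divisors. Template: C/Arith.lean (card_congr_le, sum_gcd_le). card_congr_leK: let cq be the positive generator of q intersected with Z; (cq) is contained in q, so N q <= cq^m, i.e. 1/cq <= 1/(N q)^(1/m); the number of i' < J, i' /= i, with cq | i - i' is <= J/cq (ConicHP.card_congr_le).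
gphi I = sum over the divisors d of I (I <= d) of N(d)^(1 - 1/m) (finitely many; the definition uses finsum). sum_gcd_leK: N(I + (D0 k)) <= D0^m N(I + (k)) (D0 (I + (k)) is contained in I + (D0 k)); for d = I + (i - i') we have I <= d and i - i' in d, so for fixed i the sum over i' is <= sum over d of N d * #{i' : i - i' in d} <= sum_d N(d) J/N(d)^(1/m).
gphi_sum / gphi_tail: sum over I of gphi I/N(I)^2 = sum over d of N(d)^(-1-1/m) sum over I' (I = d I') of N(I')^-2, both convergent (CK/IdealSums; for the tail N(I) > G implies N(d) > sqrt G or N(I') > sqrt G).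
-/

namespace NKCHP

open NumberField GenHP NFHP NKHP Finset Filter Topology
open ConicHP (ev JJ)

variable {K : Type} [Field K] [NumberField K]

/-- the weight of an ideal: the sum of `N(d)^(1-1/m)` over its divisors `d` -/
noncomputable def gphi (I : Ideal (𝓞 K)) : ℝ :=
  ∑ᶠ d ∈ {d : Ideal (𝓞 K) | I ≤ d}, (Ideal.absNorm d : ℝ) ^ (1 - 1 / (mK K : ℝ))

theorem divisors_finite {I : Ideal (𝓞 K)} (hI : I ≠ ⊥) : {d : Ideal (𝓞 K) | I ≤ d}.Finite := by
  have h1 : {d : Ideal (𝓞 K) | I ≤ d} = {d : Ideal (𝓞 K) | d ∣ I} := by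
    ext d
    exact Ideal.dvd_iff_le.symm
  rw [h1]
  have := UniqueFactorizationMonoid.fintypeSubtypeDvd I hI
  exact Set.finite_coe_iff.1 (Finite.of_fintype {d : Ideal (𝓞 K) // d ∣ I})

private theorem gs_norm_nat (n : ℕ) :
    Ideal.absNorm (Ideal.span {(n : 𝓞 K)}) = n ^ mK K := by
  rw [Ideal.absNorm_span_singleton, Algebra.norm_natCast, Int.natAbs_pow, Int.natAbs_natCast,
    RingOfIntegers.rank]
  rfl

private theorem gs_norm_pos {d : Ideal (𝓞 K)} (hd : d ≠ ⊥) : 0 < Ideal.absNorm d := by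
  apply Nat.pos_of_ne_zero
  rw [Ne, Ideal.absNorm_eq_zero_iff]
  exact hd

/-- the positive generator of `q ∩ ℤ` -/
private theorem gs_gen (q : Ideal (𝓞 K)) (hq : q ≠ ⊥) : ∃ c : ℕ, 0 < c ∧
    (∀ z : ℤ, (z : 𝓞 K) ∈ q → (c : ℤ) ∣ z) ∧ Ideal.absNorm q ≤ c ^ mK K := by
  classical
  have hex : ∃ c : ℕ, 0 < c ∧ (c : 𝓞 K) ∈ q := ⟨Ideal.absNorm q, gs_norm_pos hq, Ideal.absNorm_mem q⟩
  obtain ⟨h1, h2⟩ := Nat.find_spec hex
  refine ⟨Nat.find hex, h1, fun z hz => ?_, ?_⟩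
  · by_contra hcon
    have h3 : 0 < z % (Nat.find hex : ℤ) := by
      rcases (Int.emod_nonneg z (by exact_mod_cast h1.ne' : (Nat.find hex : ℤ) ≠ 0)).lt_or_eq with
        h | h
      · exact h
      · exact absurd (Int.dvd_of_emod_eq_zero h.symm) hcon
    have h4 : z % (Nat.find hex : ℤ) < Nat.find hex := Int.emod_lt_of_pos z (by exact_mod_cast h1)
    obtain ⟨t, ht⟩ := Int.eq_ofNat_of_zero_le h3.le
    have h5 : t < Nat.find hex := by
      have : (t : ℤ) < (Nat.find hex : ℤ) := by rw [← ht]; exact h4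
      exact_mod_cast this
    refine Nat.find_min hex h5 ⟨?_, ?_⟩
    · rw [ht] at h3
      exact_mod_cast h3
    · have h6 : (t : 𝓞 K) = (z : 𝓞 K) - (Nat.find hex : 𝓞 K) * ((z / (Nat.find hex : ℤ) : ℤ) : 𝓞 K) := by
        have h7 := Int.emod_add_mul_ediv z (Nat.find hex : ℤ)
        rw [ht] at h7
        have h8 := congrArg (fun x : ℤ => (x : 𝓞 K)) h7
        push_cast at h8
        linear_combination h8
      rw [h6]
      exact Ideal.sub_mem _ hz (Ideal.mul_mem_right _ _ h2)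
  · rw [← gs_norm_nat (K := K)]
    refine Nat.le_of_dvd ?_ (Ideal.absNorm_dvd_absNorm_of_le ?_)
    · rw [gs_norm_nat]
      positivity
    · rw [Ideal.span_singleton_le_iff_mem]
      exact h2

private theorem gs_mK_pos : 0 < mK K := by
  unfold mK
  exact Module.finrank_pos

theorem gphi_nonneg (I : Ideal (𝓞 K)) : 0 ≤ gphi I := by
  unfold gphi
  refine finsum_nonneg fun d => finsum_nonneg fun _ => ?_
  positivity

/-- the number of `i' < J`, `i' ≠ i` congruent to `i` modulo `q` -/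
theorem card_congr_leK (J i : ℕ) (hi : i < J) (q : Ideal (𝓞 K)) (hq : q ≠ ⊥) :
    (Set.ncard {i' : ℕ | i' < J ∧ i' ≠ i ∧ ((i : 𝓞 K) - (i' : 𝓞 K)) ∈ q} : ℝ) ≤
      (J : ℝ) / (Ideal.absNorm q : ℝ) ^ (1 / (mK K : ℝ)) := by
  classical
  obtain ⟨c, hc0, hc1, hc2⟩ := gs_gen q hq
  have hcr : (0 : ℝ) < c := by exact_mod_cast hc0
  have hm : (0 : ℝ) < mK K := by exact_mod_cast gs_mK_pos (K := K)
  have hN : (0 : ℝ) < Ideal.absNorm q := by exact_mod_cast gs_norm_pos hq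
  have h1 := ConicHP.card_congr_le J i c hi hc0
  have h2 : Set.ncard {i' : ℕ | i' < J ∧ i' ≠ i ∧ ((i : 𝓞 K) - (i' : 𝓞 K)) ∈ q} ≤
      ((range J).filter fun i' => i' ≠ i ∧ (c : ℤ) ∣ (i : ℤ) - i').card := by
    rw [← Set.ncard_coe_finset]
    refine Set.ncard_le_ncard ?_ (Finset.finite_toSet _)
    intro i' hi'
    simp only [Finset.coe_filter, Finset.mem_range, Set.mem_setOf_eq] at hi' ⊢
    refine ⟨hi'.1, hi'.2.1, hc1 _ ?_⟩
    push_cast
    exact hi'.2.2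
  have h3 : (Ideal.absNorm q : ℝ) ^ (1 / (mK K : ℝ)) ≤ c := by
    have h4 : (Ideal.absNorm q : ℝ) ≤ (c : ℝ) ^ mK K := by exact_mod_cast hc2
    calc (Ideal.absNorm q : ℝ) ^ (1 / (mK K : ℝ)) ≤ ((c : ℝ) ^ mK K) ^ (1 / (mK K : ℝ)) :=
          Real.rpow_le_rpow hN.le h4 (by positivity)
      _ = c := by
          rw [one_div]
          exact Real.pow_rpow_inv_natCast hcr.le (gs_mK_pos (K := K)).ne'
  calc (Set.ncard {i' : ℕ | i' < J ∧ i' ≠ i ∧ ((i : 𝓞 K) - (i' : 𝓞 K)) ∈ q} : ℝ)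
      ≤ (((range J).filter fun i' => i' ≠ i ∧ (c : ℤ) ∣ (i : ℤ) - i').card : ℝ) := by
        exact_mod_cast h2
    _ ≤ (J : ℝ) / c := h1
    _ ≤ (J : ℝ) / (Ideal.absNorm q : ℝ) ^ (1 / (mK K : ℝ)) :=
        div_le_div_of_nonneg_left (by positivity) (Real.rpow_pos_of_pos hN _) h3

theorem sum_gcd_leK (D0 J : ℕ) (hD : 0 < D0) (I : Ideal (𝓞 K)) (hI : I ≠ ⊥) :
    ∑ i ∈ range J, ∑ i' ∈ (range J).filter (fun i' => i' ≠ i),
      (Ideal.absNorm (I ⊔ Ideal.span {((D0 * ((i : ℤ) - i').natAbs : ℕ) : 𝓞 K)}) : ℝ) ≤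
        (D0 : ℝ) ^ mK K * (J : ℝ) ^ 2 * gphi I := by
  classical
  have hfin := divisors_finite hI
  obtain ⟨T, hT⟩ : ∃ T : Finset (Ideal (𝓞 K)), T = hfin.toFinset := ⟨_, rfl⟩
  have hTm : ∀ d, d ∈ T ↔ I ≤ d := fun d => by
    rw [hT, Set.Finite.mem_toFinset, Set.mem_setOf_eq]
  have hTbot : ∀ d ∈ T, d ≠ ⊥ := by
    rintro d hd rfl
    exact hI (le_bot_iff.1 ((hTm _).1 hd))
  have hg : gphi I = ∑ d ∈ T, (Ideal.absNorm d : ℝ) ^ (1 - 1 / (mK K : ℝ)) := by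
    unfold gphi
    rw [hT, ← finsum_mem_eq_finite_toFinset_sum _ hfin]
  -- one term
  have hone : ∀ i i' : ℕ,
      (Ideal.absNorm (I ⊔ Ideal.span {((D0 * ((i : ℤ) - i').natAbs : ℕ) : 𝓞 K)}) : ℝ) ≤
        (D0 : ℝ) ^ mK K *
          ∑ d ∈ T, (if ((i : 𝓞 K) - (i' : 𝓞 K)) ∈ d then (Ideal.absNorm d : ℝ) else 0) := by
    intro i i'
    obtain ⟨k, hk⟩ : ∃ k : ℕ, k = ((i : ℤ) - i').natAbs := ⟨_, rfl⟩
    rw [← hk]
    have hkspan : ((i : 𝓞 K) - (i' : 𝓞 K)) ∈ I ⊔ Ideal.span {(k : 𝓞 K)} := by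
      refine Ideal.mem_sup_right ?_
      rw [Ideal.mem_span_singleton]
      have h1 : (k : ℤ) ∣ (i : ℤ) - i' := by rw [hk]; exact Int.natAbs_dvd.2 dvd_rfl
      obtain ⟨c, hc⟩ := h1
      refine ⟨(c : 𝓞 K), ?_⟩
      have := congrArg (fun x : ℤ => (x : 𝓞 K)) hc
      push_cast at this
      exact this
    have hle : Ideal.span {(D0 : 𝓞 K)} * (I ⊔ Ideal.span {(k : 𝓞 K)}) ≤
        I ⊔ Ideal.span {((D0 * k : ℕ) : 𝓞 K)} := by
      rw [Ideal.mul_sup, Ideal.span_singleton_mul_span_singleton, ← Nat.cast_mul]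
      exact sup_le_sup_right Ideal.mul_le_right _
    have hbot : I ⊔ Ideal.span {(k : 𝓞 K)} ≠ ⊥ := by
      intro h
      exact hI (le_bot_iff.1 (h ▸ le_sup_left))
    have h2 : Ideal.absNorm (I ⊔ Ideal.span {((D0 * k : ℕ) : 𝓞 K)}) ≤
        D0 ^ mK K * Ideal.absNorm (I ⊔ Ideal.span {(k : 𝓞 K)}) := by
      rw [← gs_norm_nat (K := K), ← map_mul]
      refine Nat.le_of_dvd ?_ (Ideal.absNorm_dvd_absNorm_of_le hle)
      rw [map_mul, gs_norm_nat]
      exact Nat.mul_pos (by positivity) (gs_norm_pos hbot)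
    have h3 : (Ideal.absNorm (I ⊔ Ideal.span {(k : 𝓞 K)}) : ℝ) ≤
        ∑ d ∈ T, (if ((i : 𝓞 K) - (i' : 𝓞 K)) ∈ d then (Ideal.absNorm d : ℝ) else 0) := by
      have hmem : I ⊔ Ideal.span {(k : 𝓞 K)} ∈ T := (hTm _).2 le_sup_left
      calc (Ideal.absNorm (I ⊔ Ideal.span {(k : 𝓞 K)}) : ℝ)
          = (if ((i : 𝓞 K) - (i' : 𝓞 K)) ∈ I ⊔ Ideal.span {(k : 𝓞 K)} then
              (Ideal.absNorm (I ⊔ Ideal.span {(k : 𝓞 K)}) : ℝ) else 0) := by rw [if_pos hkspan]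
        _ ≤ _ := Finset.single_le_sum
            (f := fun d : Ideal (𝓞 K) =>
              (if ((i : 𝓞 K) - (i' : 𝓞 K)) ∈ d then (Ideal.absNorm d : ℝ) else 0))
            (fun d _ => by split_ifs <;> positivity) hmem
    calc (Ideal.absNorm (I ⊔ Ideal.span {((D0 * k : ℕ) : 𝓞 K)}) : ℝ)
        ≤ ((D0 ^ mK K * Ideal.absNorm (I ⊔ Ideal.span {(k : 𝓞 K)}) : ℕ) : ℝ) := by
          exact_mod_cast h2
      _ = (D0 : ℝ) ^ mK K * (Ideal.absNorm (I ⊔ Ideal.span {(k : 𝓞 K)}) : ℝ) := by push_cast; rfl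
      _ ≤ _ := mul_le_mul_of_nonneg_left h3 (by positivity)
  have hrow : ∀ i ∈ range J, ∑ i' ∈ (range J).filter (fun i' => i' ≠ i),
      (Ideal.absNorm (I ⊔ Ideal.span {((D0 * ((i : ℤ) - i').natAbs : ℕ) : 𝓞 K)}) : ℝ) ≤
        (D0 : ℝ) ^ mK K * (J * gphi I) := by
    intro i hi
    rw [Finset.mem_range] at hi
    calc ∑ i' ∈ (range J).filter (fun i' => i' ≠ i),
          (Ideal.absNorm (I ⊔ Ideal.span {((D0 * ((i : ℤ) - i').natAbs : ℕ) : 𝓞 K)}) : ℝ)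
        ≤ ∑ i' ∈ (range J).filter (fun i' => i' ≠ i), (D0 : ℝ) ^ mK K *
          ∑ d ∈ T, (if ((i : 𝓞 K) - (i' : 𝓞 K)) ∈ d then (Ideal.absNorm d : ℝ) else 0) :=
          Finset.sum_le_sum fun i' _ => hone i i'
      _ = (D0 : ℝ) ^ mK K * ∑ d ∈ T, (Ideal.absNorm d : ℝ) *
          (Set.ncard {i' : ℕ | i' < J ∧ i' ≠ i ∧ ((i : 𝓞 K) - (i' : 𝓞 K)) ∈ d} : ℝ) := by
          rw [← Finset.mul_sum, Finset.sum_comm]
          congr 1
          refine Finset.sum_congr rfl fun d _ => ?_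
          rw [← Finset.sum_filter, Finset.filter_filter, Finset.sum_const, nsmul_eq_mul, mul_comm]
          congr 2
          rw [← Set.ncard_coe_finset]
          congr 1
          ext i'
          simp [Finset.coe_filter]
      _ ≤ (D0 : ℝ) ^ mK K * ∑ d ∈ T, J * (Ideal.absNorm d : ℝ) ^ (1 - 1 / (mK K : ℝ)) := by
          refine mul_le_mul_of_nonneg_left (Finset.sum_le_sum fun d hd => ?_) (by positivity)
          have h0 : (0 : ℝ) < Ideal.absNorm d := by exact_mod_cast gs_norm_pos (hTbot d hd)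
          calc (Ideal.absNorm d : ℝ) *
              (Set.ncard {i' : ℕ | i' < J ∧ i' ≠ i ∧ ((i : 𝓞 K) - (i' : 𝓞 K)) ∈ d} : ℝ)
              ≤ (Ideal.absNorm d : ℝ) * ((J : ℝ) / (Ideal.absNorm d : ℝ) ^ (1 / (mK K : ℝ))) :=
                mul_le_mul_of_nonneg_left (card_congr_leK J i hi d (hTbot d hd)) h0.le
            _ = J * (Ideal.absNorm d : ℝ) ^ (1 - 1 / (mK K : ℝ)) := by
                rw [Real.rpow_sub h0, Real.rpow_one]
                ring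
      _ = (D0 : ℝ) ^ mK K * (J * gphi I) := by rw [hg, ← Finset.mul_sum]
  calc _ ≤ ∑ _i ∈ range J, (D0 : ℝ) ^ mK K * (J * gphi I) := Finset.sum_le_sum hrow
    _ = (D0 : ℝ) ^ mK K * (J : ℝ) ^ 2 * gphi I := by
        rw [Finset.sum_const, Finset.card_range, nsmul_eq_mul]
        ring

end NKCHP
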