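import Pool.Agent.Lib.MP_e426f4_ag.CK.GcdSums
import Pool.Agent.Lib.MP_e426f4_ag.CK.IdealSums

/-!
CK-GphiSums: convergence of the sum of gphi I/N(I)^2 (see the header of CK/GcdSums): for a finite set T of nonzero ideals the sum over I in T of gphi I/N(I)^2 is <= sum over pairs (d, I') with d I' in T (I <= d iff d | I: Ideal.dvd_iff_le, I = d I') of N(d)^(-1-1/m) N(I')^(-2) <= Z_{1+1/m} Z_2 (ideal_sum_rpow).
Tail: N(I) > G implies N(d) > sqrt G or N(I') > sqrt G: <= (tail_{1+1/m}(sqrt G)) Z_2 + Z_{1+1/m} tail_2(sqrt G) (ideal_tail_rpow).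
-/

namespace NKCHP

open NumberField GenHP NFHP NKHP Finset Filter Topology
open ConicHP (ev JJ)

variable {K : Type} [Field K] [NumberField K]

private theorem gs_prod_le (S : Finset (Ideal (𝓞 K) × Ideal (𝓞 K))) (g h : Ideal (𝓞 K) → ℝ)
    (hg : ∀ I, 0 ≤ g I) (hh : ∀ I, 0 ≤ h I) (D E : Finset (Ideal (𝓞 K)))
    (hD : ∀ p ∈ S, p.1 ∈ D) (hE : ∀ p ∈ S, p.2 ∈ E) :
    ∑ p ∈ S, g p.1 * h p.2 ≤ (∑ d ∈ D, g d) * ∑ J ∈ E, h J := by
  classical
  rw [Finset.sum_mul_sum, ← Finset.sum_product']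
  refine Finset.sum_le_sum_of_subset_of_nonneg ?_ fun p _ _ => mul_nonneg (hg _) (hh _)
  intro p hp
  exact Finset.mem_product.2 ⟨hD p hp, hE p hp⟩

open Classical in
private theorem gs_half (a b : ℝ) (S : Finset (Ideal (𝓞 K) × Ideal (𝓞 K))) (u v : ℝ)
    (hu0 : 0 ≤ u) (hu : ∑ I ∈ S.image Prod.fst, 1 / (Ideal.absNorm I : ℝ) ^ a ≤ u)
    (hv : ∑ I ∈ S.image Prod.snd, 1 / (Ideal.absNorm I : ℝ) ^ b ≤ v) :
    ∑ p ∈ S, (1 / (Ideal.absNorm p.1 : ℝ) ^ a) * (1 / (Ideal.absNorm p.2 : ℝ) ^ b) ≤ u * v := by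
  have h := gs_prod_le S (fun I => 1 / (Ideal.absNorm I : ℝ) ^ a)
    (fun I => 1 / (Ideal.absNorm I : ℝ) ^ b) (fun I => by positivity) (fun I => by positivity)
    (S.image Prod.fst) (S.image Prod.snd) (fun p hp => Finset.mem_image_of_mem _ hp)
    (fun p hp => Finset.mem_image_of_mem _ hp)
  exact h.trans (mul_le_mul hu hv (Finset.sum_nonneg fun I _ => by positivity) hu0)

private theorem gs_real (m x y : ℝ) (hx : 0 < x) (hy : 0 < y) :
    x ^ (1 - 1 / m) / (x * y) ^ 2 = (1 / x ^ (1 + 1 / m)) * (1 / y ^ (2 : ℝ)) := by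
  have h1 : x ^ (1 - 1 / m) = x ^ (2 : ℕ) / x ^ (1 + 1 / m) := by
    rw [← Real.rpow_natCast, ← Real.rpow_sub hx]
    congr 1
    push_cast
    ring
  have h2 : y ^ (2 : ℝ) = y ^ (2 : ℕ) := by
    rw [← Real.rpow_natCast]
    norm_num
  rw [h1, h2]
  have h3 : 0 < x ^ (1 + 1 / m) := Real.rpow_pos_of_pos hx _
  field_simp

/-- the pairs (divisor, cofactor) -/
private theorem gs_pairs (T : Finset (Ideal (𝓞 K))) (hT : ∀ I ∈ T, I ≠ ⊥) :
    ∃ S : Finset (Ideal (𝓞 K) × Ideal (𝓞 K)),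
      (∀ p ∈ S, p.1 ≠ ⊥ ∧ p.2 ≠ ⊥ ∧ p.1 * p.2 ∈ T) ∧
      ∑ I ∈ T, gphi I / (Ideal.absNorm I : ℝ) ^ 2 =
        ∑ p ∈ S, (1 / (Ideal.absNorm p.1 : ℝ) ^ (1 + 1 / (mK K : ℝ))) *
          (1 / (Ideal.absNorm p.2 : ℝ) ^ (2 : ℝ)) := by
  classical
  obtain ⟨Dv, hDv⟩ : ∃ Dv : Ideal (𝓞 K) → Finset (Ideal (𝓞 K)), ∀ I, I ≠ ⊥ →
      (∀ d, d ∈ Dv I ↔ I ≤ d) ∧
      gphi I = ∑ d ∈ Dv I, (Ideal.absNorm d : ℝ) ^ (1 - 1 / (mK K : ℝ)) := by
    refine ⟨fun I => if h : I = ⊥ then ∅ else (divisors_finite h).toFinset, fun I hI => ?_⟩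
    dsimp only
    rw [dif_neg hI]
    refine ⟨fun d => ?_, ?_⟩
    · rw [Set.Finite.mem_toFinset, Set.mem_setOf_eq]
    · unfold gphi
      exact finsum_mem_eq_finite_toFinset_sum _ (divisors_finite hI)
  obtain ⟨cof, hcof⟩ : ∃ cof : Ideal (𝓞 K) → Ideal (𝓞 K) → Ideal (𝓞 K),
      ∀ I d, I ≤ d → I = d * cof I d := by
    refine ⟨fun I d => if h : I ≤ d then (Ideal.dvd_iff_le.2 h).choose else ⊥, fun I d h => ?_⟩
    dsimp only
    rw [dif_pos h]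
    exact (Ideal.dvd_iff_le.2 h).choose_spec
  refine ⟨(T.sigma Dv).image fun p => (p.2, cof p.1 p.2), ?_, ?_⟩
  · intro p hp
    rw [Finset.mem_image] at hp
    obtain ⟨⟨I, d⟩, hq, rfl⟩ := hp
    rw [Finset.mem_sigma] at hq
    obtain ⟨hI, hd⟩ := hq
    have hI0 := hT I hI
    have hId : I ≤ d := ((hDv I hI0).1 d).1 hd
    have h1 := hcof I d hId
    refine ⟨?_, ?_, ?_⟩
    · rintro h2
      apply hI0
      have h2' : d = ⊥ := h2
      rw [h1, h2', Ideal.bot_mul]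
    · rintro h2
      apply hI0
      have h2' : cof I d = ⊥ := h2
      rw [h1, h2', Ideal.mul_bot]
    · show d * cof I d ∈ T
      rw [← h1]
      exact hI
  · rw [Finset.sum_image]
    · rw [Finset.sum_sigma]
      refine Finset.sum_congr rfl fun I hI => ?_
      have hI0 := hT I hI
      rw [(hDv I hI0).2, Finset.sum_div]
      refine Finset.sum_congr rfl fun d hd => ?_
      have hId : I ≤ d := ((hDv I hI0).1 d).1 hd
      have h1 := hcof I d hId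
      have hd0 : d ≠ ⊥ := by
        rintro h2
        exact hI0 (by rw [h1, h2, Ideal.bot_mul])
      have hc0 : cof I d ≠ ⊥ := by
        intro h2
        exact hI0 (by rw [h1, h2, Ideal.mul_bot])
      have hx : (0 : ℝ) < (Ideal.absNorm d : ℝ) := by exact_mod_cast absNorm_pos hd0
      have hy : (0 : ℝ) < (Ideal.absNorm (cof I d) : ℝ) := by exact_mod_cast absNorm_pos hc0
      have h2 : (Ideal.absNorm I : ℝ) = (Ideal.absNorm d : ℝ) * (Ideal.absNorm (cof I d) : ℝ) := by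
        conv_lhs => rw [h1]
        rw [map_mul]
        push_cast
        rfl
      rw [h2]
      exact gs_real _ _ _ hx hy
    · rintro ⟨I, d⟩ hp ⟨I₂, d₂⟩ hp₂ heq
      rw [Finset.mem_coe, Finset.mem_sigma] at hp hp₂
      simp only [Prod.mk.injEq] at heq
      obtain ⟨e1, e2⟩ := heq
      subst e1
      have h1 := hcof I d (((hDv I (hT I hp.1)).1 d).1 hp.2)
      have h2 := hcof I₂ d (((hDv I₂ (hT I₂ hp₂.1)).1 d).1 hp₂.2)
      have h3 : I = I₂ := by rw [h1, e2, ← h2]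
      subst h3
      rfl

private theorem gs_exp (K : Type) [Field K] [NumberField K] : 1 < 1 + 1 / (mK K : ℝ) := by
  have h : 0 < mK K := Module.finrank_pos
  have h1 : (0 : ℝ) < 1 / (mK K : ℝ) := by positivity
  linarith

theorem gphi_sum (K : Type) [Field K] [NumberField K] : ∃ Z : ℝ, 1 ≤ Z ∧
    ∀ T : Finset (Ideal (𝓞 K)), (∀ I ∈ T, I ≠ ⊥) →
      ∑ I ∈ T, gphi I / (Ideal.absNorm I : ℝ) ^ 2 ≤ Z := by
  classical
  obtain ⟨Z₁, hZ₁, h1⟩ := ideal_sum_rpow K (1 + 1 / (mK K : ℝ)) (gs_exp K)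
  obtain ⟨Z₂, hZ₂, h2⟩ := ideal_sum_rpow K 2 (by norm_num)
  refine ⟨Z₁ * Z₂, one_le_mul_of_one_le_of_one_le hZ₁ hZ₂, fun T hT => ?_⟩
  obtain ⟨S, hS, hsum⟩ := gs_pairs T hT
  rw [hsum]
  have h3 := gs_prod_le S (fun I => 1 / (Ideal.absNorm I : ℝ) ^ (1 + 1 / (mK K : ℝ)))
    (fun I => 1 / (Ideal.absNorm I : ℝ) ^ (2 : ℝ)) (fun I => by positivity) (fun I => by positivity)
    (S.image Prod.fst) (S.image Prod.snd) (fun p hp => Finset.mem_image_of_mem _ hp)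
    (fun p hp => Finset.mem_image_of_mem _ hp)
  refine h3.trans (mul_le_mul (h1 _ ?_) (h2 _ ?_) (Finset.sum_nonneg fun I _ => by positivity)
    (by linarith))
  · intro I hI
    obtain ⟨p, hp, rfl⟩ := Finset.mem_image.1 hI
    exact (hS p hp).1
  · intro I hI
    obtain ⟨p, hp, rfl⟩ := Finset.mem_image.1 hI
    exact (hS p hp).2.1

theorem gphi_tail (K : Type) [Field K] [NumberField K] (e : ℝ) (he : 0 < e) :
    ∃ G : ℕ, 1 ≤ G ∧ ∀ T : Finset (Ideal (𝓞 K)), (∀ I ∈ T, G < Ideal.absNorm I) →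
      ∑ I ∈ T, gphi I / (Ideal.absNorm I : ℝ) ^ 2 ≤ e := by
  classical
  obtain ⟨Z₁, hZ₁, h1⟩ := ideal_sum_rpow K (1 + 1 / (mK K : ℝ)) (gs_exp K)
  obtain ⟨Z₂, hZ₂, h2⟩ := ideal_sum_rpow K 2 (by norm_num)
  have hZ₁0 : 0 < Z₁ := by linarith
  have hZ₂0 : 0 < Z₂ := by linarith
  obtain ⟨G₁, hG₁, h3⟩ := ideal_tail_rpow K (1 + 1 / (mK K : ℝ)) (gs_exp K) (e / (2 * Z₂))
    (by positivity)
  obtain ⟨G₂, hG₂, h4⟩ := ideal_tail_rpow K 2 (by norm_num) (e / (2 * Z₁)) (by positivity)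
  have hG : 1 ≤ G₁ * G₂ := Nat.succ_le_of_lt (Nat.mul_pos hG₁ hG₂)
  refine ⟨G₁ * G₂, hG, fun T hT => ?_⟩
  have hT0 : ∀ I ∈ T, I ≠ ⊥ := by
    intro I hI h0
    have h5 := hT I hI
    rw [h0, Ideal.absNorm_bot] at h5
    exact Nat.not_lt_zero _ h5
  obtain ⟨S, hS, hsum⟩ := gs_pairs T hT0
  rw [hsum]
  have hcov : ∀ p ∈ S, G₁ < Ideal.absNorm p.1 ∨ G₂ < Ideal.absNorm p.2 := by
    intro p hp
    by_contra hcon
    rw [not_or, not_lt, not_lt] at hcon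
    have k1 := hT _ (hS p hp).2.2
    rw [map_mul] at k1
    exact absurd (Nat.mul_le_mul hcon.1 hcon.2) (Nat.not_le_of_lt k1)
  have hA := gs_half (1 + 1 / (mK K : ℝ)) 2 (S.filter fun p => G₁ < Ideal.absNorm p.1)
    (e / (2 * Z₂)) Z₂ (by positivity)
    (h3 _ fun I hI => by
      obtain ⟨p, hp, rfl⟩ := Finset.mem_image.1 hI
      exact (Finset.mem_filter.1 hp).2)
    (h2 _ fun I hI => by
      obtain ⟨p, hp, rfl⟩ := Finset.mem_image.1 hI
      exact (hS p (Finset.mem_filter.1 hp).1).2.1)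
  have hB := gs_half (1 + 1 / (mK K : ℝ)) 2 (S.filter fun p => ¬ G₁ < Ideal.absNorm p.1)
    Z₁ (e / (2 * Z₁)) hZ₁0.le
    (h1 _ fun I hI => by
      obtain ⟨p, hp, rfl⟩ := Finset.mem_image.1 hI
      exact (hS p (Finset.mem_filter.1 hp).1).1)
    (h4 _ fun I hI => by
      obtain ⟨p, hp, rfl⟩ := Finset.mem_image.1 hI
      obtain ⟨hp1, hp2⟩ := Finset.mem_filter.1 hp
      exact (hcov p hp1).resolve_left hp2)
  have h13 : e / (2 * Z₂) * Z₂ = e / 2 := by field_simp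
  have h14 : Z₁ * (e / (2 * Z₁)) = e / 2 := by field_simp
  rw [h13] at hA
  rw [h14] at hB
  have hsplit := Finset.sum_filter_add_sum_filter_not S (fun p => G₁ < Ideal.absNorm p.1)
    (fun p => (1 / (Ideal.absNorm p.1 : ℝ) ^ (1 + 1 / (mK K : ℝ))) *
          (1 / (Ideal.absNorm p.2 : ℝ) ^ (2 : ℝ)))
  rw [← hsplit]
  have hfin := add_le_add hA hB
  rw [add_halves] at hfin
  exact hfin

end NKCHP
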