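import Pool.Agent.Lib.MP_e426f4_ag.CK.Basic

/-!
CK-Lin: short solutions of one linear equation, lifting of a form of the fibre. Templates: C/Lin.lean, C/ShortA.lean (exists_lift). short_lin: a0 = b c with sum c v = 1; for s /= s0 replace a0_s by a0_s - q_s v_{s0} with q_s in O approximating a0_s/v_{s0} at all places with error <= cK (NFHP.exists_round, RV of the quotient: NFHP.RV_div, RV_sg),
so |a_s|_w <= cK |v_{s0}|_w <= cK Mv; a_{s0} = a0_{s0} + sum_{s /= s0} q_s v_s = (b - sum_{s /= s0} a_s v_s)/v_{s0}: |a_{s0}|_w <= |b|_w/|v_{s0}|_w + sum_s cK |v_s|_w. (v s0 /= 0 since 0 < U <= |v s0|_w at some place.) exists_lift: short_lin for each coefficient.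
-/

namespace NKCHP

open NumberField GenHP NFHP NKHP Finset Filter Topology
open ConicHP (ev JJ)

variable {K : Type} [Field K] [NumberField K] {S : Type} [Fintype S]

theorem short_lin (v : S → 𝓞 K) (hv : PrimS v) (s0 : S) (U : ℝ) (hU : 0 < U)
    (hs0 : ∀ w, U ≤ ‖sg w (v s0)‖) (Mv : ℝ) (hMv : ∀ s w, ‖sg w (v s)‖ ≤ Mv) (b : 𝓞 K) :
    ∃ a : S → 𝓞 K, ∑ s, a s * v s = b ∧
      ∀ s w, ‖sg w (a s)‖ ≤ ‖sg w b‖ / U + cK K * (Fintype.card S * Mv) := by
  classical
  have hcK : 0 < cK K := cK_pos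
  have hcard1 : (1 : ℝ) ≤ Fintype.card S := by
    have : 0 < Fintype.card S := Fintype.card_pos_iff.mpr ⟨s0⟩
    exact_mod_cast this
  have hv0 : ∀ w : InfinitePlace K, 0 < ‖sg w (v s0)‖ := fun w => hU.trans_le (hs0 w)
  have hv0' : ∀ w : InfinitePlace K, sg w (v s0) ≠ 0 := fun w => norm_pos_iff.mp (hv0 w)
  obtain ⟨c, hc⟩ := hv
  obtain ⟨a0, ha0⟩ : ∃ a0 : S → 𝓞 K, a0 = fun s => b * c s := ⟨_, rfl⟩
  have ha0s : ∑ s, a0 s * v s = b := by
    calc ∑ s, a0 s * v s = b * ∑ s, c s * v s := by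
          rw [Finset.mul_sum]
          exact Finset.sum_congr rfl fun s _ => by rw [ha0]; ring
      _ = b := by rw [hc, mul_one]
  -- the approximate quotients
  have hq : ∀ s, ∃ q : 𝓞 K, ∀ w, ‖sg w q - sg w (a0 s) / sg w (v s0)‖ ≤ cK K := fun s =>
    exists_round (RV_div (RV_sg (a0 s)) (RV_sg (v s0)))
  choose q hq using hq
  -- the reduced vector
  obtain ⟨a, ha⟩ : ∃ a : S → 𝓞 K, a = fun s =>
    if s = s0 then a0 s0 + ∑ s ∈ univ.erase s0, q s * v s else a0 s - q s * v s0 := ⟨_, rfl⟩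
  have has0 : a s0 = a0 s0 + ∑ s ∈ univ.erase s0, q s * v s := by
    rw [ha]
    simp
  have hane : ∀ s, s ≠ s0 → a s = a0 s - q s * v s0 := by
    intro s hs
    rw [ha]
    simp [hs]
  have hsum : ∑ s, a s * v s = b := by
    rw [← ha0s, ← Finset.add_sum_erase _ _ (mem_univ s0), ← Finset.add_sum_erase univ _ (mem_univ s0),
      has0, add_mul, Finset.sum_mul, add_assoc, ← Finset.sum_add_distrib]
    congr 1
    refine Finset.sum_congr rfl fun s hs => ?_
    rw [hane s (Finset.ne_of_mem_erase hs)]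
    ring
  refine ⟨a, hsum, ?_⟩
  have hne : ∀ s, s ≠ s0 → ∀ w, ‖sg w (a s)‖ ≤ cK K * ‖sg w (v s0)‖ := by
    intro s hs w
    rw [hane s hs, map_sub, map_mul]
    have h1 : sg w (a0 s) - sg w (q s) * sg w (v s0) =
        -((sg w (q s) - sg w (a0 s) / sg w (v s0)) * sg w (v s0)) := by
      rw [sub_mul, div_mul_cancel₀ _ (hv0' w)]
      ring
    rw [h1, norm_neg, norm_mul]
    exact mul_le_mul_of_nonneg_right (hq s w) (norm_nonneg _)
  intro s w
  have hMv0 : 0 ≤ Mv := (norm_nonneg _).trans (hMv s0 w)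
  by_cases hs : s = s0
  · subst hs
    have h1 : sg w (a s) * sg w (v s) =
        sg w b - ∑ s' ∈ univ.erase s, sg w (a s') * sg w (v s') := by
      have h2 : sg w (∑ s, a s * v s) = sg w b := by rw [hsum]
      rw [map_sum, ← Finset.add_sum_erase _ _ (mem_univ s), map_mul] at h2
      rw [← h2, add_sub_assoc]
      simp only [map_mul, sub_self, add_zero]
    have h3 : ‖∑ s' ∈ univ.erase s, sg w (a s') * sg w (v s')‖ ≤
        (cK K * (Fintype.card S * Mv)) * ‖sg w (v s)‖ := by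
      refine (norm_sum_le _ _).trans ?_
      have h4 : ∑ s' ∈ univ.erase s, ‖sg w (a s') * sg w (v s')‖ ≤
          ∑ s' ∈ univ.erase s, cK K * ‖sg w (v s)‖ * Mv := by
        refine Finset.sum_le_sum fun s' hs' => ?_
        rw [norm_mul]
        exact mul_le_mul (hne s' (Finset.ne_of_mem_erase hs') w) (hMv s' w) (norm_nonneg _)
          (by positivity)
      refine h4.trans ?_
      rw [Finset.sum_const, nsmul_eq_mul]
      have h5 : ((univ.erase s).card : ℝ) ≤ Fintype.card S := by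
        have : (univ.erase s).card ≤ Fintype.card S :=
          Finset.card_le_card (Finset.erase_subset _ _)
        exact_mod_cast this
      calc ((univ.erase s).card : ℝ) * (cK K * ‖sg w (v s)‖ * Mv)
          ≤ Fintype.card S * (cK K * ‖sg w (v s)‖ * Mv) :=
            mul_le_mul_of_nonneg_right h5 (by positivity)
        _ = _ := by ring
    have h6 : ‖sg w (a s)‖ * ‖sg w (v s)‖ ≤
        ‖sg w b‖ + (cK K * (Fintype.card S * Mv)) * ‖sg w (v s)‖ := by
      rw [← norm_mul, h1]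
      exact (norm_sub_le _ _).trans (add_le_add le_rfl h3)
    have h7 : ‖sg w b‖ ≤ ‖sg w b‖ / U * ‖sg w (v s)‖ := by
      rw [div_mul_eq_mul_div, le_div_iff₀ hU]
      exact mul_le_mul_of_nonneg_left (hs0 w) (norm_nonneg _)
    refine le_of_mul_le_mul_right ?_ (hv0 w)
    rw [add_mul]
    linarith
  · have h1 := hne s hs w
    have h2 : 0 ≤ ‖sg w b‖ / U := by positivity
    have h3 : cK K * ‖sg w (v s0)‖ ≤ cK K * (Fintype.card S * Mv) := by
      refine mul_le_mul_of_nonneg_left ?_ hcK.le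
      have h4 := hMv s0 w
      nlinarith
    linarith

/-- lifting a form of the fibre to a vector of forms -/
theorem exists_lift (v : S → 𝓞 K) (hv : PrimS v) (s0 : S) (U : ℝ) (hU : 0 < U)
    (hs0 : ∀ w, U ≤ ‖sg w (v s0)‖) (Mv : ℝ) (hMv : ∀ s w, ‖sg w (v s)‖ ≤ Mv)
    (b : Idx 2 2 → 𝓞 K) :
    ∃ t : Idx 2 2 × S → 𝓞 K, ev t v = b ∧
      ∀ m w, ‖sg w (t m)‖ ≤ ‖sg w (b m.1)‖ / U + cK K * (Fintype.card S * Mv) := by
  have h := fun m => short_lin v hv s0 U hU hs0 Mv hMv (b m)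
  choose a ha1 ha2 using h
  refine ⟨fun m => a m.1 m.2, ?_, fun m w => ha2 m.1 m.2 w⟩
  funext m
  exact ha1 m

end NKCHP
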