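import Pool.Agent.Lib.MP_e426f4_ag.CK.Basic
import Pool.Agent.Lib.MP_e426f4_ag.N.OmegaLoc

/-!
CK-OmegaLin: upper bound for the local count on one linear condition. Templates: C/OmegaLin.lean, N/OmegaLoc.lean (ol_coord, ol_fiber, ol_lin, omega_loc_le; there the functional is A -> F A x and the direction is T(u,..,u); here an arbitrary functional with coefficients L and an integer direction tau with tau m0 = 1).
N = W^s, M = N/Q. Classes: A mod N with A = A0 mod Q and N | sum A L: at most (N/Q)^(m (card I - 1)) classes (ol_lin, unimodular modulo W). In one class write A = A' + a tau, A'_{m0} = 0 (a = A_{m0}): for A' (card I - 1 free entries, coordinates in cubes of side r (1 + T0), class mod N): (C (r/N + 1))^(m (card I - 1));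
for given A' the element a satisfies |a sum tau L + const|_w <= eta, so |a - c_w|_w <= eta/U at all places, a in a class mod N (a class modulo N O_K): <= C (eta/(U N) + 1)^m (NFHP.lat_upper for the ideal N O_K, translate).
-/

namespace NKCHP

open NumberField GenHP NFHP NKHP Finset Filter Topology
open ConicHP (ev JJ)

variable {K : Type} [Field K] [NumberField K]

/-- vectors in one residue class modulo `M` -/
private theorem oli_fiber {I : Type} [Fintype I] (Cl : ℝ) (hCl : 1 ≤ Cl)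
    (hlat : ∀ I : Ideal (𝓞 K), I ≠ ⊥ → ∀ X : InfinitePlace K → ℝ, (∀ w, 0 < X w) →
    ∀ v : InfinitePlace K → ℂ,
      {a : 𝓞 K | a ∈ I ∧ ∀ w, ‖sg w a - v w‖ ≤ X w}.Finite ∧
      (Set.ncard {a : 𝓞 K | a ∈ I ∧ ∀ w, ‖sg w a - v w‖ ≤ X w} : ℝ) ≤
        Cl * (np X / Ideal.absNorm I + 1))
    (M : ℕ) (hM : 1 ≤ M) (L : I → 𝓞 K)
    (tu : I → ℤ) (m0 : I) (htm0 : tu m0 = 1) (τ : ℝ) (hτ0 : 0 ≤ τ) (htau : ∀ t, |(tu t : ℝ)| ≤ τ)
    (U0 : ℝ) (hU0 : 0 < U0) (hux : ∀ w, U0 ≤ ‖sg w (∑ m, (tu m : 𝓞 K) * L m)‖)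
    (c : I → IK K → ℝ) (r eta : ℝ) (hr : 0 ≤ r)
    (heta : 0 ≤ eta) (R : I → 𝓞 K) (s : Finset (I → 𝓞 K))
    (hs : ∀ A ∈ s, (∀ m j, |(crd (A m) j : ℝ) - c m j| ≤ r) ∧ (∀ m, (M : 𝓞 K) ∣ A m - R m) ∧
      ∀ w, ‖sg w (∑ m, A m * L m)‖ ≤ eta) :
    (s.card : ℝ) ≤ (((2 * (1 + τ)) * (r / (M : ℝ) + 1)) ^
        (Fintype.card I - 1)) ^ mK K *
      (2 * Cl * (2 * (eta / (U0 * M) + 1)) ^ mK K) := by
  classical
  have hMR : (0 : ℝ) < M := by exact_mod_cast hM
  obtain ⟨U, hU⟩ : ∃ U : 𝓞 K, U = ∑ m, (tu m : 𝓞 K) * L m := ⟨_, rfl⟩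
  have hFsub : ∀ (A A' : I → 𝓞 K) (a : 𝓞 K), (∀ m, A m - A' m = a * tu m) →
      ∑ m, A m * L m - ∑ m, A' m * L m = a * U := by
    intro A A' a h
    rw [hU, ← Finset.sum_sub_distrib, Finset.mul_sum]
    refine Finset.sum_congr rfl fun m _ => ?_
    rw [← sub_mul, h m, mul_assoc]
  set a1 : ℝ := (2 * ((1 + τ) * r) / M + 1) ^ mK K with ha1
  set X0 : ℝ := 2 * eta / U0 + M with hX0
  have hX0p : 0 < X0 := by rw [hX0]; positivity
  let g : (I → 𝓞 K) → (I → 𝓞 K) := fun A m => A m - tu m * A m0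
  have hg0 : ∀ A, g A m0 = 0 := by
    intro A
    simp only [g]
    rw [htm0]
    simp
  let c' : I → IK K → ℝ := fun m j => c m j - tu m * c m0 j
  have hcoord : ∀ m, {a : 𝓞 K | (M : 𝓞 K) ∣ a - (R m - tu m * R m0) ∧
      ∀ j, |(crd a j : ℝ) - c' m j| ≤ (1 + τ) * r}.Finite ∧
      (Set.ncard {a : 𝓞 K | (M : 𝓞 K) ∣ a - (R m - tu m * R m0) ∧
      ∀ j, |(crd a j : ℝ) - c' m j| ≤ (1 + τ) * r} : ℝ) ≤ (2 * ((1 + τ) * r) / M + 1) ^ mK K :=
    fun m => ol_coord (c' m) ((1 + τ) * r) (by positivity) M hM (R m - tu m * R m0)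
  let X : I → Finset (𝓞 K) := fun m => (hcoord m).1.toFinset
  have hX : ∀ m, ((X m).card : ℝ) ≤ a1 := by
    intro m
    have := (hcoord m).2
    rw [Set.ncard_eq_toFinset_card _ (hcoord m).1] at this
    exact this
  have himg : s.image g ⊆ Fintype.piFinset (fun m => if m = m0 then {0} else X m) := by
    intro A' hA'
    rw [Finset.mem_image] at hA'
    obtain ⟨A, hA, rfl⟩ := hA'
    rw [Fintype.mem_piFinset]
    intro m
    by_cases hm : m = m0
    · rw [if_pos hm, hm, hg0]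
      exact Finset.mem_singleton_self _
    · rw [if_neg hm]
      change g A m ∈ (hcoord m).1.toFinset
      rw [Set.Finite.mem_toFinset]
      refine ⟨?_, fun j => ?_⟩
      · have e : g A m - (R m - tu m * R m0) = (A m - R m) - tu m * (A m0 - R m0) := by
          simp only [g]; ring
        rw [e]
        exact dvd_sub ((hs A hA).2.1 m) (Dvd.dvd.mul_left ((hs A hA).2.1 m0) _)
      · have e : (crd (g A m) j : ℝ) - c' m j = ((crd (A m) j : ℝ) - c m j) -
            tu m * ((crd (A m0) j : ℝ) - c m0 j) := by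
          simp only [g, c']
          rw [crd_sub, crd_intCast_mul]
          push_cast
          ring
        rw [e]
        refine (abs_sub _ _).trans ?_
        rw [abs_mul]
        have h1 := (hs A hA).1 m j
        have h2 := mul_le_mul (htau m) ((hs A hA).1 m0 j) (abs_nonneg _) hτ0
        nlinarith
  have ha10 : 0 ≤ a1 := by rw [ha1]; positivity
  have himgc : ((s.image g).card : ℝ) ≤ a1 ^ (Fintype.card I - 1) := by
    have h1 : ((s.image g).card : ℝ) ≤
        ((Fintype.piFinset (fun m => if m = m0 then {0} else X m)).card : ℝ) := by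
      exact_mod_cast Finset.card_le_card himg
    refine h1.trans ?_
    rw [Fintype.card_piFinset]
    rw [← Finset.mul_prod_erase univ _ (Finset.mem_univ m0)]
    simp only [if_true, Finset.card_singleton, one_mul]
    push_cast
    have h2 : a1 ^ (Fintype.card I - 1) = ∏ _m ∈ univ.erase m0, a1 := by
      rw [Finset.prod_const, Finset.card_erase_of_mem (Finset.mem_univ m0), Finset.card_univ]
    rw [h2]
    refine Finset.prod_le_prod (fun _ _ => by positivity) fun m hm => ?_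
    rw [Finset.mem_erase] at hm
    rw [if_neg hm.1]
    exact hX m
  -- the fibres
  have hspan : Ideal.span {(M : 𝓞 K)} ≠ ⊥ := by
    rw [Ne, Ideal.span_singleton_eq_bot]
    exact_mod_cast (show M ≠ 0 by omega)
  set a2 : ℝ := Cl * ((X0 / M) ^ mK K + 1) with ha2
  have ha20 : 0 ≤ a2 := by rw [ha2]; positivity
  have hfib : ∀ a ∈ s.image g, (((s.filter fun A => g A = a).card : ℕ) : ℝ) ≤ a2 := by
    intro a _
    rcases (s.filter fun A => g A = a).eq_empty_or_nonempty with he | ⟨A1, hA1⟩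
    · rw [he]; simpa using ha20
    · obtain ⟨hfin, hcard⟩ := hlat (Ideal.span {(M : 𝓞 K)}) hspan (fun _ => X0) (fun _ => hX0p)
        (fun _ => 0)
      rw [np_const, cu_absNorm] at hcard
      push_cast at hcard
      rw [← div_pow] at hcard
      refine le_trans ?_ hcard
      rw [Set.ncard_eq_toFinset_card _ hfin]
      norm_cast
      refine Finset.card_le_card_of_injOn (fun A => A m0 - A1 m0) ?_ ?_
      · intro A hA
        have hA2 := Finset.mem_filter.mp (show A ∈ s.filter (fun A => g A = a) from hA)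
        have hA3 := Finset.mem_filter.mp hA1
        rw [Finset.mem_coe, Set.Finite.mem_toFinset]
        have h1 := hs A hA2.1
        have h2 := hs A1 hA3.1
        refine ⟨?_, fun w => ?_⟩
        · rw [Ideal.mem_span_singleton]
          change (M : 𝓞 K) ∣ A m0 - A1 m0
          have e : A m0 - A1 m0 = (A m0 - R m0) - (A1 m0 - R m0) := by ring
          rw [e]
          exact dvd_sub (h1.2.1 m0) (h2.2.1 m0)
        · have hgg : g A = g A1 := hA2.2.trans hA3.2.symm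
          have h3 : ∑ m, A m * L m - ∑ m, A1 m * L m = (A m0 - A1 m0) * U := by
            refine hFsub A A1 _ fun m => ?_
            have := congrFun hgg m
            simp only [g] at this
            linear_combination this
          have h4 : ‖sg w (A m0 - A1 m0)‖ * ‖sg w U‖ ≤ 2 * eta := by
            rw [← norm_mul, ← map_mul, ← h3, map_sub]
            refine (norm_sub_le _ _).trans ?_
            linarith [h1.2.2 w, h2.2.2 w]
          have h5 : U0 ≤ ‖sg w U‖ := by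
            rw [hU]
            exact hux w
          have h7 : ‖sg w (A m0 - A1 m0)‖ ≤ 2 * eta / U0 := by
            rw [le_div_iff₀ hU0]
            exact (mul_le_mul_of_nonneg_left h5 (norm_nonneg _)).trans h4
          rw [sub_zero]
          linarith
      · intro A hA A' hA' hAA
        have hA2 := Finset.mem_filter.mp (show A ∈ s.filter (fun A => g A = a) from hA)
        have hA3 := Finset.mem_filter.mp (show A' ∈ s.filter (fun A => g A = a) from hA')
        have hgg : g A = g A' := hA2.2.trans hA3.2.symm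
        have h0 : A m0 = A' m0 := sub_left_injective hAA
        funext t
        have := congrFun hgg t
        simp only [g, h0] at this
        exact sub_left_injective this
  have hmain : (s.card : ℝ) ≤ a2 * (s.image g).card := by
    have h1 : s.card = ∑ b ∈ s.image g, (s.filter fun A => g A = b).card :=
      Finset.card_eq_sum_card_image g s
    rw [h1]
    push_cast
    refine (Finset.sum_le_card_nsmul _ _ _ hfib).trans (le_of_eq ?_)
    rw [nsmul_eq_mul, mul_comm]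
  refine hmain.trans ?_
  rw [mul_comm]
  refine mul_le_mul (himgc.trans ?_) ?_ ha20 (by positivity)
  · rw [ha1, ← pow_mul, ← pow_mul, mul_comm (Fintype.card I - 1)]
    refine pow_le_pow_left₀ (by positivity) ?_ _
    have h1 : 2 * ((1 + τ) * r) / (M : ℝ) = 2 * (1 + τ) * (r / M) := by ring
    rw [h1]
    nlinarith
  · rw [ha2]
    have h1 : X0 / M = 2 * (eta / (U0 * M)) + 1 := by
      rw [hX0]
      field_simp
    have h0 : 0 ≤ eta / (U0 * M) := by positivity
    have h2 : X0 / M ≤ 2 * (eta / (U0 * M) + 1) := by rw [h1]; linarith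
    have h3 : (X0 / M) ^ mK K ≤ (2 * (eta / (U0 * M) + 1)) ^ mK K :=
      pow_le_pow_left₀ (by positivity) h2 _
    have h4 : 1 ≤ (2 * (eta / (U0 * M) + 1)) ^ mK K := one_le_pow₀ (by linarith)
    calc Cl * ((X0 / M) ^ mK K + 1) ≤ Cl * ((2 * (eta / (U0 * M) + 1)) ^ mK K +
          (2 * (eta / (U0 * M) + 1)) ^ mK K) :=
          mul_le_mul_of_nonneg_left (add_le_add h3 h4) (by linarith)
      _ = _ := by ring

theorem omega_linK (K : Type) [Field K] [NumberField K] (I : Type) [Fintype I] (T0 : ℕ) :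
    ∃ C : ℝ, 0 < C ∧ ∀ (W Q s : ℕ), 0 < W → Q ∣ W ^ s → ∀ (A0 L : I → 𝓞 K),
    (∃ c : I → 𝓞 K, IsCoprime (∑ m, c m * L m) (W : 𝓞 K)) →
    ∀ (tau : I → ℤ) (m0 : I), tau m0 = 1 → (∀ m, |tau m| ≤ T0) → ∀ U : ℝ, 0 < U →
    (∀ w, U ≤ ‖sg w (∑ m, (tau m : 𝓞 K) * L m)‖) →
    ∀ (c : I → IK K → ℝ) (r eta : ℝ), 0 ≤ r → 0 ≤ eta →
    (Set.ncard {A : I → 𝓞 K | (∀ m j, |(crd (A m) j : ℝ) - c m j| ≤ r) ∧
      (∀ m, (Q : 𝓞 K) ∣ A m - A0 m) ∧ (W : 𝓞 K) ^ s ∣ ∑ m, A m * L m ∧
      ∀ w, ‖sg w (∑ m, A m * L m)‖ ≤ eta} : ℝ) ≤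
      C * (((W ^ s / Q : ℕ) : ℝ) ^ (Fintype.card I - 1) *
        (r / (W : ℝ) ^ s + 1) ^ (Fintype.card I - 1) *
        (eta / (U * (W : ℝ) ^ s) + 1)) ^ mK K := by
  classical
  obtain ⟨Cl, hCl, hlat⟩ := lat_upper K
  obtain ⟨τ, hτ⟩ : ∃ τ : ℝ, τ = (T0 : ℝ) := ⟨_, rfl⟩
  have hτ0 : 0 ≤ τ := by rw [hτ]; positivity
  refine ⟨((2 * (1 + τ)) ^ (Fintype.card I - 1)) ^ mK K * (2 * Cl * 2 ^ mK K), by positivity, ?_⟩
  intro W Q s hW hQ A0 L hx tau m0 htm0 htau U0 hU0 hux c r eta hr heta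
  obtain ⟨S, hS⟩ : ∃ S : Set (I → 𝓞 K), S = {A : I → 𝓞 K |
      (∀ m j, |(crd (A m) j : ℝ) - c m j| ≤ r) ∧
      (∀ m, (Q : 𝓞 K) ∣ A m - A0 m) ∧ (W : 𝓞 K) ^ s ∣ ∑ m, A m * L m ∧
      ∀ w, ‖sg w (∑ m, A m * L m)‖ ≤ eta} :=
    ⟨_, rfl⟩
  rw [← hS]
  have hM0 : 0 < W ^ s := pow_pos hW s
  obtain ⟨N, hN⟩ := hQ
  have hQ0 : 0 < Q := Nat.pos_of_ne_zero (by rintro rfl; rw [zero_mul] at hN; omega)
  have hN0 : 0 < N := Nat.pos_of_ne_zero (by rintro rfl; rw [mul_zero] at hN; omega)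
  have hdiv : W ^ s / Q = N := by rw [hN]; exact Nat.mul_div_cancel_left _ hQ0
  rw [hdiv]
  have hWn : (W : 𝓞 K) ^ s = (Q : 𝓞 K) * N := by exact_mod_cast congrArg (Nat.cast (R := 𝓞 K)) hN
  have hWnR : (W : ℝ) ^ s = ((W ^ s : ℕ) : ℝ) := by push_cast; rfl
  have hfin : S.Finite := by
    rw [hS]
    refine (Set.Finite.pi fun t => cube_finite (c t) r).subset ?_
    intro A hA
    rw [Set.mem_pi]
    exact fun t _ => hA.1 t
  rcases S.eq_empty_or_nonempty with he | ⟨A1, hA1⟩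
  · rw [he]
    simp only [Set.ncard_empty, Nat.cast_zero]
    positivity
  set sF : Finset (I → 𝓞 K) := hfin.toFinset with hs
  have hmem : ∀ A, A ∈ sF ↔ A ∈ S := fun A => by rw [hs, Set.Finite.mem_toFinset]
  rw [Set.ncard_eq_toFinset_card _ hfin, ← hs]
  -- division by Q
  have hdv : ∃ dv : 𝓞 K → 𝓞 K, ∀ z, (Q : 𝓞 K) ∣ z → z = Q * dv z := by
    refine ⟨fun z => if h : (Q : 𝓞 K) ∣ z then h.choose else 0, fun z hz => ?_⟩
    simp only [dif_pos hz]
    exact hz.choose_spec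
  obtain ⟨dv, hdv⟩ := hdv
  have hNs : Ideal.span {(N : 𝓞 K)} ≠ ⊥ := by
    rw [Ne, Ideal.span_singleton_eq_bot]
    exact_mod_cast hN0.ne'
  have hcardq : Nat.card (𝓞 K ⧸ Ideal.span {(N : 𝓞 K)}) = N ^ mK K := by
    rw [← cu_absNorm, Ideal.absNorm_apply, Submodule.cardQuot_apply]
  haveI hfq : Finite (𝓞 K ⧸ Ideal.span {(N : 𝓞 K)}) := by
    refine Nat.finite_of_card_ne_zero ?_
    rw [hcardq]
    positivity
  obtain ⟨π, hπ⟩ : ∃ π : 𝓞 K →+* 𝓞 K ⧸ Ideal.span {(N : 𝓞 K)},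
    π = Ideal.Quotient.mk (Ideal.span {(N : 𝓞 K)}) := ⟨_, rfl⟩
  have hπ0 : ∀ a b, π a = π b ↔ (N : 𝓞 K) ∣ a - b := by
    intro a b
    rw [hπ, Ideal.Quotient.eq, Ideal.mem_span_singleton]
  let ρ : (I → 𝓞 K) → (I → 𝓞 K ⧸ Ideal.span {(N : 𝓞 K)}) :=
    fun A m => π (dv (A m - A0 m))
  obtain ⟨b, hb⟩ : ∃ b, b = ∑ m : I, ρ A1 m * π (L m) := ⟨_, rfl⟩
  obtain ⟨TS, hT⟩ : ∃ TS : Set (I → 𝓞 K ⧸ Ideal.span {(N : 𝓞 K)}),
    TS = {R | ∑ i : I, R i * π (L i) = b} := ⟨_, rfl⟩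
  have hTfin : TS.Finite := Set.toFinite _
  have hTcard : TS.ncard ≤ (N ^ mK K) ^ (Fintype.card I - 1) := by
    obtain ⟨c', hc'⟩ := hx
    have h2 : IsCoprime (∑ i, c' i * L i) ((W : 𝓞 K) ^ s) := hc'.pow_right
    rw [hWn] at h2
    have h3 := h2.of_mul_right_right
    obtain ⟨α, β, hαβ⟩ := h3
    have h4 : ∑ i : I, π (α * c' i) * π (L i) = 1 := by
      have : ∑ i : I, π (α * c' i) * π (L i) = π (α * (∑ i, c' i * L i)) := by
        rw [Finset.mul_sum, map_sum]
        refine Finset.sum_congr rfl fun i _ => ?_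
        rw [← map_mul, mul_assoc]
      rw [this, ← map_one π, hπ0]
      refine ⟨-β, ?_⟩
      linear_combination hαβ
    have hcI : 0 < Fintype.card I := Fintype.card_pos_iff.2 ⟨m0⟩
    have hc : Fintype.card I = (Fintype.card I - 1) + 1 := by omega
    have h5 := ol_lin (fun i : I => π (L i)) (fun i => π (α * c' i)) h4 b (Fintype.card I - 1) hc
    rw [hcardq] at h5
    rw [hT]
    exact h5
  have himg : sF.image ρ ⊆ hTfin.toFinset := by
    intro R hR
    rw [Finset.mem_image] at hR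
    obtain ⟨A, hA, rfl⟩ := hR
    rw [Set.Finite.mem_toFinset, hT]
    rw [hmem, hS] at hA
    rw [hS] at hA1
    change ∑ i : I, ρ A i * π (L i) = b
    rw [hb]
    have e : ∀ A', ∑ i : I, ρ A' i * π (L i) =
        π (∑ i : I, dv (A' i - A0 i) * L i) := by
      intro A'
      rw [map_sum]
      refine Finset.sum_congr rfl fun i _ => ?_
      rw [map_mul]
    rw [e, e, hπ0]
    have hQZ : (Q : 𝓞 K) ≠ 0 := by exact_mod_cast hQ0.ne'
    have hsub : ∑ m, A m * L m - ∑ m, A1 m * L m = Q * (∑ i : I, dv (A i - A0 i) * L i -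
        ∑ i : I, dv (A1 i - A0 i) * L i) := by
      rw [← Finset.sum_sub_distrib, ← Finset.sum_sub_distrib, Finset.mul_sum]
      refine Finset.sum_congr rfl fun m _ => ?_
      have e1 := hdv _ (hA.2.1 m)
      have e2 := hdv _ (hA1.2.1 m)
      calc A m * L m - A1 m * L m
          = ((A m - A0 m) - (A1 m - A0 m)) * L m := by ring
        _ = (Q * dv (A m - A0 m) - Q * dv (A1 m - A0 m)) * L m := by rw [← e1, ← e2]
        _ = _ := by ring
    have hdvd : (Q : 𝓞 K) * N ∣ Q * (∑ i : I, dv (A i - A0 i) * L i -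
        ∑ i : I, dv (A1 i - A0 i) * L i) := by
      rw [← hsub, ← hWn]
      exact dvd_sub hA.2.2.1 hA1.2.2.1
    exact (mul_dvd_mul_iff_left hQZ).mp hdvd
  have himgc : (sF.image ρ).card ≤ (N ^ mK K) ^ (Fintype.card I - 1) := by
    refine (Finset.card_le_card himg).trans ?_
    rw [← Set.ncard_eq_toFinset_card _ hTfin]
    exact hTcard
  obtain ⟨a3, ha3⟩ : ∃ a3 : ℝ, a3 = (((2 * (1 + τ)) * (r / ((W ^ s : ℕ) : ℝ) + 1)) ^
        (Fintype.card I - 1)) ^ mK K *
      (2 * Cl * (2 * (eta / (U0 * ((W ^ s : ℕ) : ℝ)) + 1)) ^ mK K) := ⟨_, rfl⟩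
  have ha30 : 0 ≤ a3 := by rw [ha3]; positivity
  have hfib : ∀ R ∈ sF.image ρ, (((sF.filter fun A => ρ A = R).card : ℕ) : ℝ) ≤ a3 := by
    intro R _
    rcases (sF.filter fun A => ρ A = R).eq_empty_or_nonempty with he | ⟨A2, hA2⟩
    · rw [he]; simpa using ha30
    · rw [ha3]
      refine oli_fiber Cl hCl hlat (W ^ s) hM0 L tau m0 htm0 τ hτ0 (fun t => ?_) U0 hU0 hux c r eta hr
        heta A2 (sF.filter fun A => ρ A = R) ?_
      · rw [hτ, ← Int.cast_abs]
        exact_mod_cast htau t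
      intro A hA
      rw [Finset.mem_filter, hmem] at hA hA2
      have hA' := hA.1
      have hA2' := hA2.1
      rw [hS] at hA' hA2'
      refine ⟨hA'.1, fun m => ?_, hA'.2.2.2⟩
      have e1 := hdv _ (hA'.2.1 m)
      have e2 := hdv _ (hA2'.2.1 m)
      have e3 : ρ A m = ρ A2 m := congrFun (hA.2.trans hA2.2.symm) m
      have e4 : (N : 𝓞 K) ∣ dv (A m - A0 m) - dv (A2 m - A0 m) := (hπ0 _ _).mp e3
      obtain ⟨t, ht⟩ := e4
      have e5 : ((W ^ s : ℕ) : 𝓞 K) = Q * N := by rw [← hWn]; push_cast; rfl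
      rw [e5]
      refine ⟨t, ?_⟩
      linear_combination e1 - e2 + Q * ht
  have hmain : (sF.card : ℝ) ≤ (sF.image ρ).card * a3 := by
    have h1 : sF.card = ∑ b ∈ sF.image ρ, (sF.filter fun A => ρ A = b).card :=
      Finset.card_eq_sum_card_image ρ sF
    rw [h1]
    push_cast
    refine (Finset.sum_le_card_nsmul _ _ _ hfib).trans (le_of_eq ?_)
    rw [nsmul_eq_mul]
  refine hmain.trans ?_
  have himgc' : ((sF.image ρ).card : ℝ) ≤ ((N : ℝ) ^ mK K) ^ (Fintype.card I - 1) := by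
    exact_mod_cast himgc
  refine (mul_le_mul_of_nonneg_right himgc' ha30).trans (le_of_eq ?_)
  rw [ha3, hWnR]
  simp only [mul_pow, ← pow_mul]
  rw [mul_comm (mK K) (Fintype.card I - 1)]
  ring

end NKCHP
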