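import Pool.Agent.Lib.MP_e426f4_ag.CK.Heights
import Pool.Agent.Lib.MP_e426f4_ag.CK.OmegaLin

/-!
CK-LocPairs: local triples over few points are few. Templates: C/LocPairs.lean, NK/LocPairs.lean. omega_linK with I = Idx 2 2 x S, L (t,s) = mon x t * v_s (ConicHP.F_ev), direction tau (t,s) = T(u,u)_t at s = s0, 0 otherwise (u = p.u; sum tau L = (sum u_i x_i)^2 v_{s0}, of size >= (k0/2 B)^2 (k1/2) VV; T(u,u) at the index of x_0^2 is u_0^2 = 1: NFHP.ol_first;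
bounded by T0: NFHP.ol_T_le), unimodular mod W: x_unimod and prim, c = H AC, r = rho H, eta = cK th HH BB^2 (CIn_norm). For H large rho H/W^s >= 1 and eta/(U W^s) >= 1; HH = cS VV H, so eta/(U W^s) <= C th H/W^s; total C (rho H/Q)^(m(MM-1)) (C th H/W^s)^m <= C (th/W^s)^m XR rho H. C must not depend on th, s.
-/

namespace NKCHP

open NumberField GenHP NFHP NKHP Finset Filter Topology
open ConicHP (ev JJ)

variable {K : Type} [Field K] [NumberField K] {S : Type} [Fintype S]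

/-- one factor of the local count -/
private theorem lp_fac (M rho th Q : ℝ) (hM : 0 < M) (hrho : 0 < rho) (hth : 0 < th) (hQ : 0 < Q)
    (c : ℝ) (hc : 0 ≤ c) (N : ℕ) (hN : 0 < N) (H : ℝ) (hH : 0 < H)
    (hH1 : M / rho ≤ H) (hH2 : M / th ≤ H) :
    (M / Q) ^ (N - 1) * (rho * H / M + 1) ^ (N - 1) * (c * (th * H / M) + 1) ≤
      ((c + 1) * Q / (2 * rho)) * (th / M) * (2 * rho * H / Q) ^ N := by
  obtain ⟨N1, rfl⟩ : ∃ N1, N = N1 + 1 := ⟨N - 1, by omega⟩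
  rw [div_le_iff₀ (by positivity)] at hH1 hH2
  have e1 : rho * H / M + 1 ≤ 2 * rho * H / M := by
    have : 1 ≤ rho * H / M := by
      rw [le_div_iff₀ hM]
      linarith
    have h3 : 2 * rho * H / M = rho * H / M + rho * H / M := by ring
    rw [h3]
    linarith
  have e2 : c * (th * H / M) + 1 ≤ (c + 1) * (th * H / M) := by
    have h3 : 1 ≤ th * H / M := by
      rw [le_div_iff₀ hM]
      linarith
    rw [add_mul, one_mul]
    linarith
  rw [Nat.add_sub_cancel]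
  calc _ ≤ (M / Q) ^ N1 * (2 * rho * H / M) ^ N1 * ((c + 1) * (th * H / M)) := by
        gcongr
    _ = _ := by
        rw [pow_succ, ← mul_pow]
        have h6 : M / Q * (2 * rho * H / M) = 2 * rho * H / Q := by
          field_simp
        rw [h6]
        field_simp

/-- the direction of the linear condition -/
private theorem lp_dir (u : Fin (2 + 1) → ℤ) (s0 : S) (x : Fin (2 + 1) → 𝓞 K) (v : S → 𝓞 K) :
    ∃ tau : Idx 2 2 × S → ℤ, (∀ m, tau m = 0 ∨ tau m = T (fun _ : Fin 2 => u) m.1) ∧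
      (∀ t, tau (t, s0) = T (fun _ : Fin 2 => u) t) ∧
      ∑ m, (tau m : 𝓞 K) * (mon x m.1.1 * v m.2) = (∑ i, (u i : 𝓞 K) * x i) ^ 2 * v s0 := by
  classical
  refine ⟨fun m => if m.2 = s0 then T (fun _ : Fin 2 => u) m.1 else 0, fun m => ?_, fun t => ?_, ?_⟩
  · by_cases h : m.2 = s0
    · right
      simp only [if_pos h]
    · left
      simp only [if_neg h]
  · simp
  · rw [Fintype.sum_prod_type]
    have h1 : ∀ t : Idx 2 2, ∑ s, (((if s = s0 then T (fun _ : Fin 2 => u) t else 0 : ℤ)) : 𝓞 K) *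
        (mon x t.1 * v s) = ((T (fun _ : Fin 2 => u) t : ℤ) : 𝓞 K) * mon x t.1 * v s0 := by
      intro t
      rw [Finset.sum_eq_single s0]
      · rw [if_pos rfl]
        ring
      · intro s _ hs
        rw [if_neg hs]
        simp
      · intro h
        exact absurd (Finset.mem_univ _) h
    rw [Finset.sum_congr rfl fun t _ => h1 t, ← Finset.sum_mul]
    congr 1
    have h2 := ol_F_T (K := K) (n := 2) (d := 2) u x
    unfold F at h2
    exact h2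

theorem loc_one_le (c : CPar K S) {eps k0 : ℝ} {w : ℕ} (hc : c.Valid eps k0 w) :
    ∃ C : ℝ, 0 < C ∧ ∀ th : ℝ, 0 < th → ∀ s : ℕ, c.p.Q ∣ c.p.W ^ s →
    ∀ᶠ H : ℝ in atTop, ∀ i, i < JJ H → ∀ x ∈ c.p.XX (c.BB H),
      (Set.ncard {A : Idx 2 2 × S → 𝓞 K | A ∈ c.Cl c.p.rho H ∧
          (c.p.W : 𝓞 K) ^ s ∣ F (ev A (c.vv H i)) x ∧
          CIn (th * c.HH H * (c.BB H : ℝ) ^ 2) (F (ev A (c.vv H i)) x)} : ℝ) ≤
        C * (th / (c.p.W : ℝ) ^ s) ^ mK K * c.XR c.p.rho H := by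
  classical
  have hp := hc.pv
  obtain ⟨C, hC0, hC⟩ := omega_linK K (Idx 2 2 × S) ((3 * hb 2 (mK K)) ^ 2)
  have hrho : 0 < c.p.rho := hp.rho_pos
  have hQ : (0 : ℝ) < c.p.Q := by exact_mod_cast hp.Q_pos
  have hcK : 0 < cK K := cK_pos (K := K)
  have hk0 := hp.k0_pos
  have hk1 := hc.fam.k1_pos
  have hcS : 0 < cS K S := lt_of_lt_of_le one_pos (cS_ge c hc)
  obtain ⟨c1, hc1⟩ : ∃ c1 : ℝ, c1 = cK K * cS K S / ((k0 / 2) ^ 2 * (c.k1 / 2)) := ⟨_, rfl⟩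
  have hc10 : 0 < c1 := by rw [hc1]; positivity
  have hMM : 0 < Fintype.card (Idx 2 2 × S) := Fintype.card_pos_iff.2 ⟨(mk fun _ => 0, c.s0)⟩
  refine ⟨C * ((c1 + 1) * c.p.Q / (2 * c.p.rho)) ^ mK K, by positivity, ?_⟩
  intro th hth s hs
  obtain ⟨M, hM⟩ : ∃ M : ℝ, M = (c.p.W : ℝ) ^ s := ⟨_, rfl⟩
  have hW : 0 < c.p.W := hp.W_pos
  have hWR : (0 : ℝ) < c.p.W := by exact_mod_cast hW
  have hMpos : 0 < M := by rw [hM]; positivity
  filter_upwards [(BB_atTop c hc).eventually_ge_atTop 1, VV_pos c hc, vv_ge c hc,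
    eventually_ge_atTop (max (M / c.p.rho) (M / th)),
    eventually_gt_atTop (0 : ℝ)] with H hB1 hV hvge hH hHpos
  intro i hi x hx
  have hBpos : (0 : ℝ) < c.BB H := by exact_mod_cast hB1
  have hVpos : (0 : ℝ) < c.VV H := by exact_mod_cast hV
  have hHH : c.HH H = cS K S * c.VV H * H := rfl
  obtain ⟨v, hv⟩ : ∃ v, v = c.vv H i := ⟨_, rfl⟩
  have hvp : PrimS v := by rw [hv]; exact hc.fam.prim _ _
  have hvs : ∀ w', c.k1 / 2 * c.VV H ≤ ‖sg w' (v c.s0)‖ := by rw [hv]; exact hvge i hi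
  rw [← hv]
  have huA : ∀ A : Idx 2 2 × S → 𝓞 K, F (ev A v) x = ∑ m, A m * (mon x m.1.1 * v m.2) :=
    fun A => ConicHP.F_ev A v x
  have hucop : ∃ b : Idx 2 2 × S → 𝓞 K,
      IsCoprime (∑ m, b m * (mon x m.1.1 * v m.2)) (c.p.W : 𝓞 K) := by
    obtain ⟨b, hb⟩ := x_unimod c.p hp _ x hx
    obtain ⟨a, ha⟩ := hvp
    refine ⟨fun m => T (fun _ : Fin 2 => b) m.1 * a m.2, ?_⟩
    rw [← huA, ConicHP.F_ev_tensor, ha, one_mul, F_T, Finset.prod_const]
    exact hb.pow_left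
  obtain ⟨tau, ht1, ht2, ht3⟩ := lp_dir c.p.u c.s0 x v
  have htau0 : tau (mk fun _ => 0, c.s0) = 1 := by
    rw [ht2]
    exact ol_first (d := 2) c.p.u hp.u0
  have htau1 : ∀ m, |tau m| ≤ (((3 * hb 2 (mK K)) ^ 2 : ℕ) : ℤ) := by
    intro m
    rcases ht1 m with h | h
    · rw [h, abs_zero]
      positivity
    · have h2 := ol_T_le (d := 2) c.p.u (hb 2 (mK K)) hp.u_le m.1
      rw [h]
      have h3 : ((|T (fun _ : Fin 2 => c.p.u) m.1| : ℤ) : ℝ) ≤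
          ((((3 * hb 2 (mK K)) ^ 2 : ℕ) : ℤ) : ℝ) := by
        push_cast
        refine h2.trans (le_of_eq ?_)
        push_cast
        ring
      exact_mod_cast h3
  have hbig : ∀ w', (k0 / 2 * c.BB H) ^ 2 * (c.k1 / 2 * c.VV H) ≤
      ‖sg w' (∑ m, (tau m : 𝓞 K) * (mon x m.1.1 * v m.2))‖ := by
    intro w'
    rw [ht3, map_mul, map_pow, norm_mul, norm_pow]
    exact mul_le_mul (pow_le_pow_left₀ (by positivity) (u_large c.p hp _ x hx w') 2) (hvs w')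
      (by positivity) (by positivity)
  have h1 := hC c.p.W c.p.Q s hW hs c.A0 (fun m => mon x m.1.1 * v m.2) hucop tau
    (mk fun _ => 0, c.s0) htau0 htau1 ((k0 / 2 * c.BB H) ^ 2 * (c.k1 / 2 * c.VV H))
    (by positivity) hbig (fun m j => H * c.AC m j) (c.p.rho * H)
    (cK K * (th * c.HH H * (c.BB H : ℝ) ^ 2)) (by positivity) (by rw [hHH]; positivity)
  have hsub : {A : Idx 2 2 × S → 𝓞 K | A ∈ c.Cl c.p.rho H ∧ (c.p.W : 𝓞 K) ^ s ∣ F (ev A v) x ∧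
          CIn (th * c.HH H * (c.BB H : ℝ) ^ 2) (F (ev A v) x)} ⊆
      {A : Idx 2 2 × S → 𝓞 K | (∀ m j, |(crd (A m) j : ℝ) - H * c.AC m j| ≤ c.p.rho * H) ∧
      (∀ m, (c.p.Q : 𝓞 K) ∣ A m - c.A0 m) ∧
      (c.p.W : 𝓞 K) ^ s ∣ ∑ m, A m * (mon x m.1.1 * v m.2) ∧
      ∀ w', ‖sg w' (∑ m, A m * (mon x m.1.1 * v m.2))‖ ≤
        cK K * (th * c.HH H * (c.BB H : ℝ) ^ 2)} := by
    rintro A ⟨hA1, hA2, hA3⟩
    refine ⟨hA1.1, hA1.2, ?_, fun w' => ?_⟩
    · rw [← huA]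
      exact hA2
    · rw [← huA]
      exact CIn_norm hA3 w'
  have hfin : {A : Idx 2 2 × S → 𝓞 K |
      (∀ m j, |(crd (A m) j : ℝ) - H * c.AC m j| ≤ c.p.rho * H) ∧
      (∀ m, (c.p.Q : 𝓞 K) ∣ A m - c.A0 m) ∧
      (c.p.W : 𝓞 K) ^ s ∣ ∑ m, A m * (mon x m.1.1 * v m.2) ∧
      ∀ w', ‖sg w' (∑ m, A m * (mon x m.1.1 * v m.2))‖ ≤
        cK K * (th * c.HH H * (c.BB H : ℝ) ^ 2)}.Finite :=
    (Cl_finite c c.p.rho H).subset fun A hA => ⟨hA.1, hA.2.1⟩
  have h2 := Nat.cast_le (α := ℝ).mpr (Set.ncard_le_ncard hsub hfin)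
  refine (h2.trans h1).trans ?_
  have hdiv : (((c.p.W ^ s / c.p.Q : ℕ) : ℝ)) = M / c.p.Q := by
    rw [Nat.cast_div hs hQ.ne', hM]
    push_cast
    rfl
  have heta : cK K * (th * c.HH H * (c.BB H : ℝ) ^ 2) /
      ((k0 / 2 * c.BB H) ^ 2 * (c.k1 / 2 * c.VV H) * M) = c1 * (th * H / M) := by
    rw [hc1, hHH]
    field_simp
  rw [hdiv, ← hM, heta]
  have h3 := lp_fac M c.p.rho th c.p.Q hMpos hrho hth hQ c1 hc10.le
    (Fintype.card (Idx 2 2 × S)) hMM H hHpos ((le_max_left _ _).trans hH)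
    ((le_max_right _ _).trans hH)
  have h40 : 0 ≤ (M / c.p.Q) ^ (Fintype.card (Idx 2 2 × S) - 1) *
      (c.p.rho * H / M + 1) ^ (Fintype.card (Idx 2 2 × S) - 1) * (c1 * (th * H / M) + 1) := by
    positivity
  calc C * ((M / c.p.Q) ^ (Fintype.card (Idx 2 2 × S) - 1) *
      (c.p.rho * H / M + 1) ^ (Fintype.card (Idx 2 2 × S) - 1) * (c1 * (th * H / M) + 1)) ^ mK K ≤
      C * (((c1 + 1) * c.p.Q / (2 * c.p.rho)) * (th / M) *
        (2 * c.p.rho * H / c.p.Q) ^ (Fintype.card (Idx 2 2 × S))) ^ mK K := by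
        gcongr
    _ = C * ((c1 + 1) * c.p.Q / (2 * c.p.rho)) ^ mK K * (th / M) ^ mK K *
        c.XR c.p.rho H := by
        unfold CPar.XR MM
        rw [mul_pow, mul_pow, ← pow_mul (2 * c.p.rho * H / c.p.Q),
          mul_comm (Fintype.card (Idx 2 2 × S)) (mK K)]
        ring

theorem loc_pairs_le (c : CPar K S) {eps k0 : ℝ} {w : ℕ} (hc : c.Valid eps k0 w) :
    ∃ C : ℝ, 0 < C ∧ ∀ th : ℝ, 0 < th → ∀ s : ℕ, c.p.Q ∣ c.p.W ^ s →
    ∀ᶠ H : ℝ in atTop, ∀ St : Set (Fin (2 + 1) → 𝓞 K), St ⊆ c.p.XX (c.BB H) →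
      ((c.LP c.p.rho th s St H).ncard : ℝ) ≤
        (JJ H : ℝ) * (St.ncard : ℝ) * (C * (th / (c.p.W : ℝ) ^ s) ^ mK K) * c.XR c.p.rho H := by
  classical
  obtain ⟨C, hC0, hC⟩ := loc_one_le c hc
  refine ⟨C, hC0, ?_⟩
  intro th hth s hs
  filter_upwards [hC th hth s hs] with H hone
  intro St hSt
  have hSfin : St.Finite := (XX_finite (by norm_num) c.p (c.BB H)).subset hSt
  have hLfin : (c.LP c.p.rho th s St H).Finite := LP_finite c c.p.rho th s St hSfin H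
  rw [Set.ncard_eq_toFinset_card _ hLfin, Set.ncard_eq_toFinset_card _ hSfin]
  have hmap : ∀ q ∈ hLfin.toFinset, q.2 ∈ (range (JJ H)) ×ˢ hSfin.toFinset := by
    intro q hq
    rw [Set.Finite.mem_toFinset] at hq
    rw [Finset.mem_product, Finset.mem_range, Set.Finite.mem_toFinset]
    exact ⟨hq.2.1, hq.2.2.1⟩
  rw [Finset.card_eq_sum_card_fiberwise hmap]
  push_cast
  have hfib : ∀ z ∈ (range (JJ H)) ×ˢ hSfin.toFinset,
      ((hLfin.toFinset.filter (fun q => q.2 = z)).card : ℝ) ≤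
      C * (th / (c.p.W : ℝ) ^ s) ^ mK K * c.XR c.p.rho H := by
    rintro ⟨i, x⟩ hz
    rw [Finset.mem_product, Finset.mem_range, Set.Finite.mem_toFinset] at hz
    refine le_trans ?_ (hone i hz.1 x (hSt hz.2))
    have hfin : {A : Idx 2 2 × S → 𝓞 K | A ∈ c.Cl c.p.rho H ∧
        (c.p.W : 𝓞 K) ^ s ∣ F (ev A (c.vv H i)) x ∧
          CIn (th * c.HH H * (c.BB H : ℝ) ^ 2) (F (ev A (c.vv H i)) x)}.Finite :=
      (Cl_finite c c.p.rho H).subset fun A hA => hA.1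
    rw [Set.ncard_eq_toFinset_card _ hfin]
    refine Nat.cast_le.2 ?_
    refine Finset.card_le_card_of_injOn (fun q => q.1) ?_ ?_
    · intro q hq
      rw [Finset.mem_coe, Finset.mem_filter, Set.Finite.mem_toFinset] at hq
      rw [Finset.mem_coe, Set.Finite.mem_toFinset]
      obtain ⟨⟨h1, h2, h3, h4, h5⟩, h6⟩ := hq
      have e1 : q.2.1 = i := by rw [h6]
      have e2 : q.2.2 = x := by rw [h6]
      rw [e1, e2] at h4 h5
      exact ⟨h1, h4, h5⟩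
    · intro q hq q' hq' h
      rw [Finset.mem_coe, Finset.mem_filter] at hq hq'
      exact Prod.ext h (hq.2.trans hq'.2.symm)
  refine (Finset.sum_le_sum hfib).trans ?_
  rw [Finset.sum_const, nsmul_eq_mul, Finset.card_product, Finset.card_range]
  push_cast
  exact le_of_eq (by ring)

end NKCHP
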