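import Pool.Agent.Lib.MP_e426f4_ag.CK.Basic
import Pool.Agent.Lib.MP_e426f4_ag.NK.Points
import Pool.Agent.Lib.MP_e426f4_ag.NK.Heights
import Pool.Agent.Lib.MP_e426f4_ag.N.Lat

/-!
CK-Points: the facts of NK/Points.lean for the weaker validity PV (n >= r + 1 instead of n >= r + 2). The proofs of NK/Points.lean apply word for word (they use only r <= n, kap_le, xi_le, xi_eq, h_id, h_le, u_le, u_ge, hens, W_pos); also dens_pos from NK/Heights.lean (NKHP.nadm_pos).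
Cl_norm_le: |crd (A m) j| <= H |AC| + rho H <= 3 H (|AC| <= |AI| + rho <= 2).
-/

namespace NKCHP

open NumberField GenHP NFHP NKHP Finset Filter Topology
open ConicHP (ev JJ)

variable {K : Type} [Field K] [NumberField K] {n r : ℕ} {e : Fin r → ℕ}

private theorem ckp_near (p : Par K n e) {eps k0 : ℝ} {w : ℕ} (hp : PV p eps k0 w)
    (B : ℕ) (x : Fin (n + 1) → 𝓞 K) (hx : x ∈ p.XX B) (i : Fin (n + 1)) (w' : InfinitePlace K) :
    ‖sg w' (x i) - B * lam (p.xi i) w'‖ *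
      (10 * ((r : ℝ) * (hb n (mK K) : ℝ) + 1) * ((n : ℝ) + 1)) ≤ k0 * B := by
  have hB : (0 : ℝ) ≤ B := by positivity
  have hc := cK_pos (K := K)
  have hrn : r ≤ n + 1 := by have := hp.n_ge; omega
  obtain ⟨M, hM⟩ : ∃ M : ℝ, M = (r : ℝ) * (hb n (mK K) : ℝ) := ⟨_, rfl⟩
  have hM0 : 0 ≤ M := by rw [hM]; positivity
  have hkap : p.kap * (10 * cK K * (M + 1) ^ 2 * ((n : ℝ) + 1)) ≤ k0 := by
    have h1 := hp.kap_le
    unfold NKHP.kmax at h1
    rw [← hM, le_div_iff₀ (by positivity)] at h1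
    exact h1
  have hkap1 : p.kap ≤ 1 := by
    have h1 := one_le_cK (K := K)
    have h2 : 1 ≤ 10 * cK K * (M + 1) ^ 2 * ((n : ℝ) + 1) := by
      have h3 : 1 ≤ (M + 1) ^ 2 := by nlinarith
      have h4 : (1 : ℝ) ≤ (n : ℝ) + 1 := by
        have : (0 : ℝ) ≤ n := by positivity
        linarith
      have h5 : 1 ≤ 10 * cK K := by linarith
      exact one_le_mul_of_one_le_of_one_le (one_le_mul_of_one_le_of_one_le h5 h3) h4
    have h3 := hp.kap_pos
    have h4 := hp.k0_le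
    nlinarith
  have hkap0 := hp.kap_pos
  have h2 : ∀ j, |(crd (x i) j : ℝ) - B * p.xi i j| ≤ (M + 1) * p.kap * B := by
    intro j
    by_cases hi : (i : ℕ) < r
    · have h0 := hx.1.1 ⟨i, hi⟩ j
      rw [fr_of_lt hrn i hi] at h0
      have h3 : 0 ≤ M * p.kap * B := by positivity
      nlinarith
    · have h3 := hx.1.2 i (not_lt.mp hi) j
      have h4 : |(crd (x i) j : ℝ) - B * p.xi i j| ≤
          |((crd (x i) j : ℝ) - B * p.xi i j) -
            ∑ l, (p.h l i : ℝ) * ((crd (x (fr n l)) j : ℝ) - B * p.xi (fr n l) j)| +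
          |∑ l, (p.h l i : ℝ) * ((crd (x (fr n l)) j : ℝ) - B * p.xi (fr n l) j)| := by
        have := abs_add_le (((crd (x i) j : ℝ) - B * p.xi i j) -
          ∑ l, (p.h l i : ℝ) * ((crd (x (fr n l)) j : ℝ) - B * p.xi (fr n l) j))
          (∑ l, (p.h l i : ℝ) * ((crd (x (fr n l)) j : ℝ) - B * p.xi (fr n l) j))
        rwa [sub_add_cancel] at this
      have h5 : |∑ l, (p.h l i : ℝ) * ((crd (x (fr n l)) j : ℝ) - B * p.xi (fr n l) j)| ≤
          M * (p.kap * B) := by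
        refine (Finset.abs_sum_le_sum_abs _ _).trans ?_
        have h6 : ∀ l ∈ (univ : Finset (Fin r)),
            |(p.h l i : ℝ) * ((crd (x (fr n l)) j : ℝ) - B * p.xi (fr n l) j)| ≤
              (hb n (mK K) : ℝ) * (p.kap * B) := by
          intro l _
          rw [abs_mul]
          refine mul_le_mul ?_ (hx.1.1 l j) (abs_nonneg _) (by positivity)
          have := hp.h_le l i
          rw [← Int.cast_abs]
          exact_mod_cast this
        refine (Finset.sum_le_card_nsmul _ _ _ h6).trans (le_of_eq ?_)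
        rw [Finset.card_univ, Fintype.card_fin, nsmul_eq_mul, hM]
        ring
      have h7 : p.kap ^ 2 * B ≤ p.kap * B := by
        refine mul_le_mul_of_nonneg_right ?_ hB
        nlinarith
      nlinarith
  have h3 : ‖sg w' (x i) - B * lam (p.xi i) w'‖ ≤ cK K * ((M + 1) * p.kap * B) := by
    have h4 := norm_lam_le (fun j => (crd (x i) j : ℝ) - B * p.xi i j) _ h2 w'
    rw [lam_sub (fun j => (crd (x i) j : ℝ)) (fun j => (B : ℝ) * p.xi i j) w', lam_crd,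
      lam_smul] at h4
    simpa using h4
  rw [← hM]
  calc ‖sg w' (x i) - B * lam (p.xi i) w'‖ * (10 * (M + 1) * ((n : ℝ) + 1))
      ≤ cK K * ((M + 1) * p.kap * B) * (10 * (M + 1) * ((n : ℝ) + 1)) :=
        mul_le_mul_of_nonneg_right h3 (by positivity)
    _ = p.kap * (10 * cK K * (M + 1) ^ 2 * ((n : ℝ) + 1)) * B := by ring
    _ ≤ k0 * B := mul_le_mul_of_nonneg_right hkap hB

theorem mem_XX_near (p : Par K n e) {eps k0 : ℝ} {w : ℕ} (hp : PV p eps k0 w)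
    (B : ℕ) (x : Fin (n + 1) → 𝓞 K) (hx : x ∈ p.XX B) (i : Fin (n + 1)) (w' : InfinitePlace K) :
    ‖sg w' (x i) - B * lam (p.xi i) w'‖ ≤ B / 10 := by
  have h1 := ckp_near p hp B x hx i w'
  have h2 := hp.k0_le
  have hB : (0 : ℝ) ≤ B := by positivity
  have h3 : (1 : ℝ) ≤ ((r : ℝ) * (hb n (mK K) : ℝ) + 1) * ((n : ℝ) + 1) := by
    have h4 : (0 : ℝ) ≤ (r : ℝ) * (hb n (mK K) : ℝ) := by positivity
    have h5 : (0 : ℝ) ≤ n := by positivity
    nlinarith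
  have h4 := norm_nonneg (sg w' (x i) - B * lam (p.xi i) w')
  nlinarith

theorem mem_XX_bounds (p : Par K n e) {eps k0 : ℝ} {w : ℕ} (hp : PV p eps k0 w)
    (B : ℕ) : (∀ x ∈ p.XX B, x ∈ Bx n (2 * (B : ℝ))) ∧
      ∀ w', ∃ i, ∀ x ∈ p.XX B, (B : ℝ) / 2 ≤ ‖sg w' (x i)‖ := by
  have hB : (0 : ℝ) ≤ B := by positivity
  constructor
  · intro x hx i w'
    have h1 := mem_XX_near p hp B x hx i w'
    have h2 : ‖sg w' (x i)‖ ≤ ‖sg w' (x i) - B * lam (p.xi i) w'‖ + ‖(B : ℂ) * lam (p.xi i) w'‖ := by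
      have := norm_add_le (sg w' (x i) - B * lam (p.xi i) w') (B * lam (p.xi i) w')
      rwa [sub_add_cancel] at this
    rw [norm_mul, Complex.norm_natCast] at h2
    have h3 := mul_le_mul_of_nonneg_left (hp.xi_le i w') hB
    linarith
  · intro w'
    obtain ⟨i, hi⟩ := hp.xi_eq w'
    refine ⟨i, fun x hx => ?_⟩
    have h1 := mem_XX_near p hp B x hx i w'
    have h2 : ‖(B : ℂ) * lam (p.xi i) w'‖ ≤ ‖sg w' (x i) - B * lam (p.xi i) w'‖ +
        ‖sg w' (x i)‖ := by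
      have := norm_sub_le (sg w' (x i)) (sg w' (x i) - B * lam (p.xi i) w')
      rw [sub_sub_cancel] at this
      linarith
    rw [norm_mul, Complex.norm_natCast, hi] at h2
    linarith

theorem u_large (p : Par K n e) {eps k0 : ℝ} {w : ℕ} (hp : PV p eps k0 w)
    (B : ℕ) (x : Fin (n + 1) → 𝓞 K) (hx : x ∈ p.XX B) (w' : InfinitePlace K) :
    k0 / 2 * B ≤ ‖sg w' (∑ i, (p.u i : 𝓞 K) * x i)‖ := by
  have hB : (0 : ℝ) ≤ B := by positivity
  have hk0 := hp.k0_pos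
  have hM0 : (0 : ℝ) ≤ (hb n (mK K) : ℝ) := by positivity
  have hr1 : (hb n (mK K) : ℝ) ≤ (r : ℝ) * (hb n (mK K) : ℝ) := by
    have h1 : (1 : ℝ) ≤ r := by exact_mod_cast hp.r_pos
    nlinarith
  have e1 : sg w' (∑ i, (p.u i : 𝓞 K) * x i) = ∑ i, (p.u i : ℂ) * sg w' (x i) := by
    rw [map_sum]
    refine Finset.sum_congr rfl fun i _ => ?_
    rw [map_mul, sg_intCast]
  have e2 : ∑ i, (p.u i : ℂ) * ((B : ℂ) * lam (p.xi i) w') =
      B * ∑ i, (p.u i : ℂ) * lam (p.xi i) w' := by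
    rw [Finset.mul_sum]
    refine Finset.sum_congr rfl fun i _ => ?_
    ring
  have h1 : k0 * B ≤ ‖∑ i, (p.u i : ℂ) * ((B : ℂ) * lam (p.xi i) w')‖ := by
    rw [e2, norm_mul, Complex.norm_natCast, mul_comm]
    exact mul_le_mul_of_nonneg_left (hp.u_ge w') hB
  have h2 : ‖∑ i, (p.u i : ℂ) * (sg w' (x i) - B * lam (p.xi i) w')‖ ≤ k0 / 10 * B := by
    refine (norm_sum_le _ _).trans ?_
    have h3 : ∀ i ∈ (univ : Finset (Fin (n + 1))),
        ‖(p.u i : ℂ) * (sg w' (x i) - B * lam (p.xi i) w')‖ ≤ k0 * B / (10 * ((n : ℝ) + 1)) := by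
      intro i _
      have h4 := ckp_near p hp B x hx i w'
      have h6 : ‖(p.u i : ℂ)‖ ≤ (hb n (mK K) : ℝ) := by
        rw [Complex.norm_intCast]
        have := hp.u_le i
        rw [← Int.cast_abs]
        exact_mod_cast this
      rw [norm_mul, le_div_iff₀ (by positivity)]
      have h7 := norm_nonneg (sg w' (x i) - B * lam (p.xi i) w')
      calc ‖(p.u i : ℂ)‖ * ‖sg w' (x i) - B * lam (p.xi i) w'‖ * (10 * ((n : ℝ) + 1))
          ≤ ((r : ℝ) * (hb n (mK K) : ℝ) + 1) * ‖sg w' (x i) - B * lam (p.xi i) w'‖ *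
            (10 * ((n : ℝ) + 1)) := by
            refine mul_le_mul_of_nonneg_right ?_ (by positivity)
            exact mul_le_mul_of_nonneg_right (by linarith) h7
        _ = ‖sg w' (x i) - B * lam (p.xi i) w'‖ *
            (10 * ((r : ℝ) * (hb n (mK K) : ℝ) + 1) * ((n : ℝ) + 1)) := by ring
        _ ≤ k0 * B := h4
    refine (Finset.sum_le_card_nsmul _ _ _ h3).trans (le_of_eq ?_)
    rw [Finset.card_univ, Fintype.card_fin, nsmul_eq_mul]
    push_cast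
    field_simp
  have h3 : ∑ i, (p.u i : ℂ) * ((B : ℂ) * lam (p.xi i) w') = ∑ i, (p.u i : ℂ) * sg w' (x i) -
      ∑ i, (p.u i : ℂ) * (sg w' (x i) - B * lam (p.xi i) w') := by
    rw [← Finset.sum_sub_distrib]
    refine Finset.sum_congr rfl fun i _ => ?_
    ring
  rw [h3] at h1
  have h4 := norm_sub_le (∑ i, (p.u i : ℂ) * sg w' (x i))
    (∑ i, (p.u i : ℂ) * (sg w' (x i) - B * lam (p.xi i) w'))
  rw [e1]
  nlinarith

theorem mgI_ne_bot_of_mem_GG (p : Par K n e) {eps k0 : ℝ} {w : ℕ}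
    (hp : PV p eps k0 w) (R : ℝ) (B : ℕ) (hB : 1 ≤ B) (x y : Fin (n + 1) → 𝓞 K)
    (hx : x ∈ p.GG R B) (hy : y ∈ p.GG R B) (h : x ≠ y) : mgI x y ≠ ⊥ := by
  intro hbot
  obtain ⟨u, hu⟩ := eq_mul_of_mgI_bot x y hx.2.1 hbot
  have hB' : (1 : ℝ) ≤ B := by exact_mod_cast hB
  have hu1 : u - 1 ≠ 0 := by
    intro h0
    apply h
    funext i
    rw [hu i, sub_eq_zero.mp h0, one_mul]
  have h1 : ∀ w', ‖sg w' (u - 1)‖ ≤ 1 / 2 := by
    intro w'
    obtain ⟨i, hi⟩ := hp.xi_eq w'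
    have h2 := mem_XX_near p hp B x hx.1 i w'
    have h3 := mem_XX_near p hp B y hy.1 i w'
    have h4 : ‖(B : ℂ) * lam (p.xi i) w'‖ ≤ ‖sg w' (x i) - B * lam (p.xi i) w'‖ +
        ‖sg w' (x i)‖ := by
      have := norm_sub_le (sg w' (x i)) (sg w' (x i) - B * lam (p.xi i) w')
      rw [sub_sub_cancel] at this
      linarith
    rw [norm_mul, Complex.norm_natCast, hi] at h4
    have h5 : sg w' (u - 1) * sg w' (x i) = (sg w' (y i) - B * lam (p.xi i) w') -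
        (sg w' (x i) - B * lam (p.xi i) w') := by
      rw [hu i, map_sub, map_one, map_mul]
      ring
    have h6 : ‖sg w' (u - 1)‖ * ‖sg w' (x i)‖ ≤ B / 10 + B / 10 := by
      rw [← norm_mul, h5]
      refine (norm_sub_le _ _).trans (add_le_add h3 h2)
    have h7 := norm_nonneg (sg w' (u - 1))
    by_contra hcon
    push Not at hcon
    nlinarith
  have h2 := one_le_np_sg hu1
  have h3 : np (fun w => ‖sg w (u - 1)‖) ≤ np (fun _ : InfinitePlace K => (1 / 2 : ℝ)) :=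
    np_mono (fun _ => norm_nonneg _) h1
  rw [np_const] at h3
  have h4 : (1 / 2 : ℝ) ^ mK K < 1 := pow_lt_one₀ (by norm_num) (by norm_num) mK_pos.ne'
  linarith

theorem x_unimod (p : Par K n e) {eps k0 : ℝ} {w : ℕ} (hp : PV p eps k0 w) (B : ℕ)
    (x : Fin (n + 1) → 𝓞 K) (hx : x ∈ p.XX B) :
    ∃ c : Fin (n + 1) → 𝓞 K, IsCoprime (∑ i, c i * x i) (p.W : 𝓞 K) := by
  exact hp.hens.2.2.2.1 x hx.2.1

theorem dens_pos (p : Par K n e) {eps k0 : ℝ} {w : ℕ} (hp : PV p eps k0 w) : 0 < p.dens := by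
  have h1 : (0 : ℝ) < nadm p.P p.Q p.A0 p.x0 := by
    exact_mod_cast nadm_pos p.P p.Q p.W hp.Q_pos p.A0 p.x0 hp.hens
  have h2 : (0 : ℝ) < p.Q := by exact_mod_cast hp.Q_pos
  unfold Par.dens
  positivity

theorem Cl_norm_le {S : Type} [Fintype S] (c : CPar K S) {eps k0 : ℝ} {w : ℕ}
    (hc : c.Valid eps k0 w) (H : ℝ) (hH : 0 ≤ H) (A : Idx 2 2 × S → 𝓞 K)
    (hA : A ∈ c.Cl c.p.rho H) (m : Idx 2 2 × S) (w' : InfinitePlace K) :
    ‖sg w' (A m)‖ ≤ cK K * (3 * H) := by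
  refine norm_sg_le_of_crd (fun j => ?_) w'
  have h1 := hA.1 m j
  have h2 := hc.AI_le m j
  have h3 := hc.AC_near m j
  have h4 := hc.pv.rho_le
  have h5 : |c.AC m j| ≤ 2 := by
    have := abs_add_le (c.AC m j - c.AI m j) (c.AI m j)
    rw [sub_add_cancel] at this
    linarith
  have h6 : |(crd (A m) j : ℝ)| ≤ |(crd (A m) j : ℝ) - H * c.AC m j| + |H * c.AC m j| := by
    have := abs_add_le ((crd (A m) j : ℝ) - H * c.AC m j) (H * c.AC m j)
    rwa [sub_add_cancel] at this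
  have h7 : |H * c.AC m j| ≤ H * 2 := by
    rw [abs_mul, abs_of_nonneg hH]
    exact mul_le_mul_of_nonneg_left h5 hH
  have h8 : c.p.rho * H ≤ 1 * H := mul_le_mul_of_nonneg_right h4 hH
  linarith

/-- number of points in the box -/
theorem card_Bx (K : Type) [Field K] [NumberField K] (n : ℕ) : ∃ C : ℝ, 0 < C ∧
    ∀ B : ℕ, 1 ≤ B → ((Bx n (2 * (B : ℝ)) : Set (Fin (n + 1) → 𝓞 K)).Finite ∧
      ((Bx n (2 * (B : ℝ)) : Set (Fin (n + 1) → 𝓞 K)).ncard : ℝ) ≤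
      C * (B : ℝ) ^ (mK K * (n + 1))) := by
  obtain ⟨C, hC, h⟩ := lat_upper_vec K
  refine ⟨(C * (2 ^ mK K + 1)) ^ (n + 1), by positivity, fun B hB => ⟨Bx_finite _, ?_⟩⟩
  have hB1 : (1 : ℝ) ≤ B := by exact_mod_cast hB
  have h1 := (h (Fin (n + 1)) ⊤ top_ne_bot (fun _ => 2 * (B : ℝ)) (fun _ => by positivity)
    fun _ _ => 0).2
  have e : {a : Fin (n + 1) → 𝓞 K | (∀ i, a i ∈ (⊤ : Ideal (𝓞 K))) ∧
      ∀ i w, ‖sg w (a i) - (0 : ℂ)‖ ≤ 2 * (B : ℝ)} = Bx n (2 * (B : ℝ)) := by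
    ext x
    simp only [Set.mem_ofPred_eq, Submodule.mem_top, implies_true, true_and, sub_zero, Bx]
  rw [e, np_const, Ideal.absNorm_top, Nat.cast_one, div_one, Fintype.card_fin] at h1
  refine h1.trans ?_
  have h2 : (1 : ℝ) ≤ (B : ℝ) ^ mK K := one_le_pow₀ hB1
  have h3 : C * ((2 * (B : ℝ)) ^ mK K + 1) ≤ C * (2 ^ mK K + 1) * (B : ℝ) ^ mK K := by
    rw [mul_pow, mul_assoc]
    refine mul_le_mul_of_nonneg_left ?_ (by linarith)
    nlinarith
  calc (C * ((2 * (B : ℝ)) ^ mK K + 1)) ^ (n + 1)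
      ≤ (C * (2 ^ mK K + 1) * (B : ℝ) ^ mK K) ^ (n + 1) :=
        pow_le_pow_left₀ (by positivity) h3 _
    _ = _ := by rw [mul_pow, ← pow_mul]

end NKCHP
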