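import Pool.Agent.Lib.MP_e426f4_ag.CK.Basic
import Pool.Agent.Lib.MP_e426f4_ag.N.SumBad
import Pool.Agent.Lib.MP_e426f4_ag.N.SumNorm
import Pool.Agent.Lib.MP_e426f4_ag.N.Lat

/-!
CK-SumPhi: the sum over the second point, n = 2, with a weight phi(mgI x y). Templates: N/SumBad.lean (sumBad_key and its lemmas: sumBad_diff, sumBad_ne_zero, sumBad_form_le, sumBad_form_le', sumBad_mem hold for every n; the weight there is mgN), C/SumPhi.lean. Good R B x gives l_1, l_2 with |l| <= mu = R B^(1/2); z_k = l_k . y in g = mgI x y, z /= 0,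
|z_k|_w <= 6 mu dl_w/B <= 432 mu tau_w B =: Y_w; y -> (z_k) has fibres of at most C elements (sumBad_diff: y - y' = a x, |a|_w <= 8, NFHP.lat_upper); phi(g)/np(dl) <= (C mu/B)^m phi(g)/np(vn z) ; for each ideal g: NFHP.sum_inv (n = 2, I = g): <= C np Y/N(g)^2 phi(g). Sum over g <= E. (mu/B)^m (mu B)^m = mu^(2m) = R^(2m) B^m.
-/

namespace NKCHP

open NumberField GenHP NFHP NKHP Finset Filter Topology
open ConicHP (ev JJ)

variable {K : Type} [Field K] [NumberField K]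

/-- the general estimate -/
private theorem sumPhi_key (K : Type) [Field K] [NumberField K] :
    ∃ C : ℝ, 0 < C ∧ ∀ (mu B : ℝ), 0 < mu → 0 < B → ∀ x : Fin (2 + 1) → 𝓞 K, Prim x →
    (∀ w, ∃ i, B / 2 ≤ ‖sg w (x i)‖) → ∀ l : Fin 2 → Fin (2 + 1) → 𝓞 K,
    LinearIndependent K (fun k : Fin 2 => fun i : Fin (2 + 1) => ((l k i : 𝓞 K) : K)) →
    (∀ k, ∑ i, l k i * x i = 0) → (∀ k i w, ‖sg w (l k i)‖ ≤ mu) →
    ∀ phi : Ideal (𝓞 K) → ℝ, (∀ I, 0 ≤ phi I) →
    ∀ tau : InfinitePlace K → ℝ, (∀ w, 0 < tau w) →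
    ∀ S : Finset (Fin (2 + 1) → 𝓞 K), (∀ y ∈ S, y ∈ Bx 2 (2 * B) ∧ mgI x y ≠ ⊥ ∧
      ∀ w, dl w x y ≤ tau w * (72 * B ^ 2)) → ∀ E : ℝ,
    (∀ J : Finset (Ideal (𝓞 K)), (∀ I ∈ J, ∃ y ∈ S, I = mgI x y) →
      ∑ I ∈ J, phi I / (Ideal.absNorm I : ℝ) ^ 2 ≤ E) →
    ∑ y ∈ S, phi (mgI x y) / np (fun w => dl w x y) ≤
      C * (mu ^ 2) ^ mK K * np tau * E := by
  classical
  obtain ⟨C, hC, hsum⟩ := sum_inv K 2 le_rfl
  set N8 : ℕ := (sumBad_finite (K := K) 8).toFinset.card with hN8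
  refine ⟨(12 * 432) ^ mK K * (N8 + 1) * C, by positivity, ?_⟩
  intro mu B hmu hB x hx hxB l hl hlx hlmu phi hphi tau htau S hS E hE
  have hx0 : x ≠ 0 := by
    rintro rfl
    obtain ⟨c, hc⟩ := hx
    simp at hc
  set z : (Fin (2 + 1) → 𝓞 K) → (Fin 2 → 𝓞 K) := fun y => fun k => ∑ i, l k i * y i with hz
  have hzne : ∀ y ∈ S, z y ≠ 0 := fun y hy => sumBad_ne_zero hl hlx hx0 (hS y hy).2.1
  have hform : ∀ y k w, ‖sg w (∑ i, l k i * y i)‖ ≤ 6 * mu / B * dl w x y := by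
    intro y k w
    have h1 := sumBad_form_le (x := x) (y := y) (l k) (hlx k) mu B hB hmu.le w
      (fun i => hlmu k i w) (hxB w)
    have h2 : 2 * (((2 : ℕ) : ℝ) + 1) * mu / B * dl w x y = 6 * mu / B * dl w x y := by
      norm_num
    rw [h2] at h1
    exact h1
  have hvn : ∀ y, ∀ w, vn w (z y) ≤ 12 * (mu / B) * dl w x y := by
    intro y w
    unfold vn
    calc ∑ k, ‖sg w (z y k)‖ ≤ ∑ _k : Fin 2, 6 * mu / B * dl w x y :=
          Finset.sum_le_sum fun k _ => hform y k w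
      _ = 12 * (mu / B) * dl w x y := by
          rw [Finset.sum_const, Finset.card_univ, Fintype.card_fin, nsmul_eq_mul]
          push_cast
          ring
  set Y : InfinitePlace K → ℝ := fun w => 432 * (mu * B) * tau w with hYdef
  have hY : ∀ w, 0 < Y w := fun w => by
    have := htau w
    rw [hYdef]
    positivity
  have hSY : ∀ y ∈ S, ∀ k w, ‖sg w (∑ i, l k i * y i)‖ ≤ Y w := by
    intro y hy k w
    refine (hform y k w).trans ?_
    have h1 := (hS y hy).2.2 w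
    calc 6 * mu / B * dl w x y ≤ 6 * mu / B * (tau w * (72 * B ^ 2)) :=
          mul_le_mul_of_nonneg_left h1 (by positivity)
      _ = Y w := by
          rw [hYdef]
          field_simp
          ring
  have hvn0 : ∀ y ∈ S, ∀ w, 0 < vn w (z y) := fun y hy w => vn_pos w (z y) (hzne y hy)
  have hdl0 : ∀ y ∈ S, ∀ w, 0 < dl w x y := by
    intro y hy w
    have h1 := (hvn0 y hy w).trans_le (hvn y w)
    by_contra h
    have h2 : dl w x y = 0 := le_antisymm (not_lt.1 h) (sumBad_dl_nonneg x y w)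
    rw [h2, mul_zero] at h1
    exact lt_irrefl _ h1
  have hc0 : 0 < 12 * (mu / B) := by positivity
  -- one term
  have hterm : ∀ y ∈ S, phi (mgI x y) / np (fun w => dl w x y) ≤
      (12 * (mu / B)) ^ mK K * (phi (mgI x y) * (1 / np (fun w => vn w (z y)))) := by
    intro y hy
    have h1 : np (fun w => vn w (z y)) ≤ (12 * (mu / B)) ^ mK K * np (fun w => dl w x y) := by
      rw [← np_const, ← np_mul]
      exact np_mono (fun w => (hvn0 y hy w).le) (hvn y)
    have h2 : 0 < np (fun w => vn w (z y)) := np_pos (hvn0 y hy)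
    have h3 : 0 < np (fun w => dl w x y) := np_pos (hdl0 y hy)
    have h4 : (12 * (mu / B)) ^ mK K * (phi (mgI x y) *
        (1 / np (fun w => vn w (z y)))) = ((12 * (mu / B)) ^ mK K * phi (mgI x y)) /
        np (fun w => vn w (z y)) := by
      ring
    rw [h4, div_le_div_iff₀ h3 h2]
    calc phi (mgI x y) * np (fun w => vn w (z y)) ≤
        phi (mgI x y) * ((12 * (mu / B)) ^ mK K * np (fun w => dl w x y)) :=
          mul_le_mul_of_nonneg_left h1 (hphi _)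
      _ = _ := by ring
  -- fibres of `z`
  have hfib : ∀ (S' : Finset (Fin (2 + 1) → 𝓞 K)), S' ⊆ S →
      ∀ b ∈ S'.image z, (S'.filter fun y => z y = b).card ≤ N8 := by
    intro S' hS' b hb
    obtain ⟨y0, hy0, hyb⟩ := Finset.mem_image.1 hb
    have hsub : (S'.filter fun y => z y = b) ⊆
        ((sumBad_finite (K := K) 8).toFinset).image (fun a => fun i => y0 i + a * x i) := by
      intro y hy
      rw [Finset.mem_filter] at hy
      have h1 : ∀ k, ∑ i, l k i * y i = ∑ i, l k i * y0 i := fun k =>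
        congrFun (hy.2.trans hyb.symm) k
      obtain ⟨a, ha⟩ := sumBad_diff hx hl hlx hx0 y0 h1
      rw [Finset.mem_image]
      refine ⟨a, ?_, by ext i; rw [ha i]⟩
      rw [Set.Finite.mem_toFinset]
      intro w
      obtain ⟨i, hi⟩ := hxB w
      have h2 : ‖sg w (a * x i)‖ ≤ 4 * B := by
        have h3 : a * x i = y i - y0 i := by rw [ha i]; ring
        rw [h3, map_sub]
        calc ‖sg w (y i) - sg w (y0 i)‖ ≤ ‖sg w (y i)‖ + ‖sg w (y0 i)‖ := norm_sub_le _ _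
          _ ≤ 2 * B + 2 * B := add_le_add ((hS y (hS' hy.1)).1 i w) ((hS y0 (hS' hy0)).1 i w)
          _ = 4 * B := by ring
      rw [map_mul, norm_mul] at h2
      have h4 : ‖sg w a‖ * (B / 2) ≤ 4 * B :=
        (mul_le_mul_of_nonneg_left hi (norm_nonneg _)).trans h2
      by_contra hcon
      push Not at hcon
      nlinarith
    calc (S'.filter fun y => z y = b).card ≤ _ := Finset.card_le_card hsub
      _ ≤ N8 := Finset.card_image_le
  -- one ideal
  have hnpY : 0 < np Y := np_pos hY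
  have hideal : ∀ I ∈ S.image (mgI x), ∑ y ∈ S.filter (fun y => mgI x y = I),
      (phi (mgI x y) * (1 / np (fun w => vn w (z y)))) ≤
        (N8 + 1) * C * np Y * (phi I / (Ideal.absNorm I : ℝ) ^ 2) := by
    intro I hI
    obtain ⟨y1, hy1, hI1⟩ := Finset.mem_image.1 hI
    have hI0 : I ≠ ⊥ := by rw [← hI1]; exact (hS y1 hy1).2.1
    have hNI : (1 : ℝ) ≤ (Ideal.absNorm I : ℝ) := by
      exact_mod_cast absNorm_pos hI0
    set SI := S.filter (fun y => mgI x y = I) with hSI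
    have h1 : ∑ y ∈ SI, (phi (mgI x y) * (1 / np (fun w => vn w (z y)))) =
        phi I * ∑ y ∈ SI, (1 / np (fun w => vn w (z y))) := by
      rw [Finset.mul_sum]
      refine Finset.sum_congr rfl fun y hy => ?_
      rw [(Finset.mem_filter.1 hy).2]
    have h2 : ∑ y ∈ SI, (1 / np (fun w => vn w (z y))) ≤
        N8 * ∑ b ∈ SI.image z, 1 / np (fun w => vn w b) := by
      refine sumBad_fibre SI z (fun b => 1 / np (fun w => vn w b)) ?_ N8
        (hfib SI (Finset.filter_subset _ _))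
      intro b _
      exact div_nonneg zero_le_one (np_nonneg fun w => Finset.sum_nonneg fun _ _ => norm_nonneg _)
    have h3 : ∑ b ∈ SI.image z, 1 / np (fun w => vn w b) ≤
        C * np Y ^ (2 - 1) / (Ideal.absNorm I : ℝ) ^ 2 := by
      apply hsum I hI0 Y hY
      intro b hb
      obtain ⟨y, hy, rfl⟩ := Finset.mem_image.1 hb
      rw [hSI, Finset.mem_filter] at hy
      refine ⟨hzne y hy.1, ?_, fun k w => hSY y hy.1 k w⟩
      intro k
      rw [← hy.2]
      exact sumBad_mem x y (l k) hx (hlx k)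
    rw [h1]
    have h5 : np Y ^ (2 - 1) = np Y := by norm_num
    rw [h5] at h3
    have h4 : 0 ≤ C * np Y / (Ideal.absNorm I : ℝ) ^ 2 := by positivity
    calc phi I * ∑ y ∈ SI, (1 / np (fun w => vn w (z y))) ≤
        phi I * (N8 * (C * np Y / (Ideal.absNorm I : ℝ) ^ 2)) := by
          apply mul_le_mul_of_nonneg_left _ (hphi I)
          exact h2.trans (mul_le_mul_of_nonneg_left h3 (Nat.cast_nonneg _))
      _ ≤ phi I * ((N8 + 1) * (C * np Y / (Ideal.absNorm I : ℝ) ^ 2)) := by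
          apply mul_le_mul_of_nonneg_left _ (hphi I)
          exact mul_le_mul_of_nonneg_right (by linarith) h4
      _ = (N8 + 1) * C * np Y * (phi I / (Ideal.absNorm I : ℝ) ^ 2) := by
          ring
  have hnpYe : np Y = (432 * (mu * B)) ^ mK K * np tau := by
    rw [hYdef, np_mul, np_const]
  calc ∑ y ∈ S, phi (mgI x y) / np (fun w => dl w x y) ≤
      ∑ y ∈ S, (12 * (mu / B)) ^ mK K * (phi (mgI x y) *
        (1 / np (fun w => vn w (z y)))) := Finset.sum_le_sum hterm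
    _ = (12 * (mu / B)) ^ mK K * ∑ I ∈ S.image (mgI x), ∑ y ∈ S.filter (fun y => mgI x y = I),
        (phi (mgI x y) * (1 / np (fun w => vn w (z y)))) := by
        rw [← Finset.mul_sum, Finset.sum_fiberwise_of_maps_to fun y hy =>
          Finset.mem_image_of_mem _ hy]
    _ ≤ (12 * (mu / B)) ^ mK K * ∑ I ∈ S.image (mgI x),
        (N8 + 1) * C * np Y * (phi I / (Ideal.absNorm I : ℝ) ^ 2) :=
        mul_le_mul_of_nonneg_left (Finset.sum_le_sum hideal) (by positivity)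
    _ = (12 * (mu / B)) ^ mK K * ((N8 + 1) * C * np Y) *
        ∑ I ∈ S.image (mgI x), phi I / (Ideal.absNorm I : ℝ) ^ 2 := by
        rw [← Finset.mul_sum]
        ring
    _ ≤ (12 * (mu / B)) ^ mK K * ((N8 + 1) * C * np Y) * E := by
        apply mul_le_mul_of_nonneg_left _ (by positivity)
        apply hE
        intro I hI
        obtain ⟨y, hy, h⟩ := Finset.mem_image.1 hI
        exact ⟨y, hy, h.symm⟩
    _ = (12 * 432) ^ mK K * (N8 + 1) * C * (mu ^ 2) ^ mK K * np tau * E := by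
        have h6 : (12 * (mu / B)) ^ mK K * (432 * (mu * B)) ^ mK K =
            (12 * 432) ^ mK K * (mu ^ 2) ^ mK K := by
          rw [← mul_pow, ← mul_pow]
          congr 1
          field_simp
        rw [hnpYe]
        calc (12 * (mu / B)) ^ mK K * ((N8 + 1) * C * ((432 * (mu * B)) ^ mK K * np tau)) * E =
            ((12 * (mu / B)) ^ mK K * (432 * (mu * B)) ^ mK K) * ((N8 + 1) * C * np tau * E) := by
              ring
          _ = _ := by
              rw [h6]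
              ring

theorem sum_phiK (K : Type) [Field K] [NumberField K] :
    ∃ C : ℝ, 0 < C ∧ ∀ (R : ℝ), 1 ≤ R → ∀ B : ℕ, 1 ≤ B → ∀ x : Fin (2 + 1) → 𝓞 K, Prim x →
    x ∈ Bx 2 (2 * (B : ℝ)) → (∀ w, ∃ i, (B : ℝ) / 2 ≤ ‖sg w (x i)‖) → Good R B x →
    ∀ phi : Ideal (𝓞 K) → ℝ, (∀ I, 0 ≤ phi I) →
    ∀ tau : InfinitePlace K → ℝ, (∀ w, 0 < tau w) → (∀ w, tau w ≤ 1) →
    ∀ T : Finset (Fin (2 + 1) → 𝓞 K),
    (∀ y ∈ T, y ∈ Bx 2 (2 * (B : ℝ)) ∧ mgI x y ≠ ⊥ ∧
      ∀ w, dl w x y ≤ tau w * (72 * (B : ℝ) ^ 2)) → ∀ E : ℝ,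
    (∀ J : Finset (Ideal (𝓞 K)), (∀ I ∈ J, ∃ y ∈ T, I = mgI x y) →
      ∑ I ∈ J, phi I / (Ideal.absNorm I : ℝ) ^ 2 ≤ E) →
    ∑ y ∈ T, phi (mgI x y) / np (fun w => dl w x y) ≤
      C * R ^ (2 * mK K) * (B : ℝ) ^ mK K * np tau * E := by
  obtain ⟨C, hC, key⟩ := sumPhi_key K
  refine ⟨C, hC, ?_⟩
  intro R hR B hB x hx _ hxB hg phi hphi tau ht _ T hT E hE
  obtain ⟨l, hl, hlx, hlmu⟩ := hg
  have hB0 : (0 : ℝ) < B := by exact_mod_cast hB
  have hR0 : 0 < R := by linarith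
  have hmu2 : (R * (B : ℝ) ^ (1 / ((2 : ℕ) : ℝ))) ^ 2 = R ^ 2 * B := by
    rw [mul_pow, ← Real.rpow_natCast ((B : ℝ) ^ (1 / ((2 : ℕ) : ℝ))) 2,
      ← Real.rpow_mul hB0.le]
    norm_num
  have h1 := key (R * (B : ℝ) ^ (1 / ((2 : ℕ) : ℝ))) B (by positivity) hB0 x hx hxB l hl hlx hlmu
    phi hphi tau ht T hT E hE
  rw [hmu2, mul_pow, ← pow_mul] at h1
  calc _ ≤ _ := h1
    _ = _ := by ring

theorem dl_le_box (x y : Fin (2 + 1) → 𝓞 K) (B : ℝ) (hB : 0 ≤ B) (hx : x ∈ Bx 2 (2 * B))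
    (hy : y ∈ Bx 2 (2 * B)) (w : InfinitePlace K) : dl w x y ≤ 72 * B ^ 2 := by
  have h0 : ∀ a b : Fin (2 + 1), ‖sg w (minor x y a b)‖ ≤ 8 * B ^ 2 := by
    intro a b
    unfold NFHP.minor
    rw [map_sub, map_mul, map_mul]
    refine (norm_sub_le _ _).trans ?_
    rw [norm_mul, norm_mul]
    have h1 : ‖sg w (x a)‖ * ‖sg w (y b)‖ ≤ (2 * B) * (2 * B) :=
      mul_le_mul (hx a w) (hy b w) (norm_nonneg _) (by positivity)
    have h2 : ‖sg w (x b)‖ * ‖sg w (y a)‖ ≤ (2 * B) * (2 * B) :=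
      mul_le_mul (hx b w) (hy a w) (norm_nonneg _) (by positivity)
    calc _ ≤ (2 * B) * (2 * B) + (2 * B) * (2 * B) := add_le_add h1 h2
      _ = 8 * B ^ 2 := by ring
  unfold NFHP.dl
  calc ∑ p : Fin (2 + 1) × Fin (2 + 1), ‖sg w (minor x y p.1 p.2)‖ ≤
      ∑ _p : Fin (2 + 1) × Fin (2 + 1), 8 * B ^ 2 := Finset.sum_le_sum fun p _ => h0 p.1 p.2
    _ = 72 * B ^ 2 := by
        rw [Finset.sum_const, Finset.card_univ, Fintype.card_prod, Fintype.card_fin, nsmul_eq_mul]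
        push_cast
        ring

end NKCHP
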