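import Pool.Agent.Lib.MP_e426f4_ag.CK.CrudeB
import Pool.Agent.Lib.MP_e426f4_ag.CK.Heights
import Pool.Agent.Lib.MP_e426f4_ag.CK.SumPhi
import Pool.Agent.Lib.MP_e426f4_ag.CK.GphiSums
import Pool.Agent.Lib.MP_e426f4_ag.N.Minors

/-!
CK-SecondBad: bad pairs of points in different fibres contribute little. Templates: C/SecondBad.lean, NK/SecondBad.lean. crude_cross (mu = R BB^(1/2), U = k1/2 VV, Vm = 2 VV, radius 3 cK H, Dd = D0 |i - i'|; conditions by small_le, small_le'), then for fixed x, y the sum over i /= i' of N(mgI + (Dd)) is <= D0^m JJ^2 gphi(mgI) (sum_gcd_leK);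
sum over y by sum_phiK with phi = gphi: (a) y with G < mgN x y: tau = 1, E = tail (gphi_tail); (b) y with dl_w0 < tau B^2 for a place w0 (one sum for each of the finitely many places): tau_w0 = tau (tau <= 1), the other tau_w = 1, np tau <= tau (mult >= 1), E = Z (gphi_sum). Sum over x: card_Bx.
Total C JJ^2 (B^4/(H^2 VV^2 B^2))^m (e + tau) XR <= C (e + tau) JJ^2 XR <= eps TT^2 XR (T1_bounds): choose G, then tau.
-/

namespace NKCHP

open NumberField GenHP NFHP NKHP Finset Filter Topology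
open ConicHP (ev JJ)

variable {K : Type} [Field K] [NumberField K] {S : Type} [Fintype S]

/-- counting pairs by fibres -/
private theorem s2c_card_fib {α β : Type*} (T0 : Set (α × β)) (hT0 : T0.Finite) (T : Finset β)
    (hT : ∀ q ∈ T0, q.2 ∈ T) (N : β → Set α) (hN : ∀ b ∈ T, (N b).Finite)
    (hSN : ∀ q ∈ T0, q.1 ∈ N q.2) : (T0.ncard : ℝ) ≤ ∑ b ∈ T, ((N b).ncard : ℝ) := by
  classical
  rw [Set.ncard_eq_toFinset_card _ hT0, Finset.card_eq_sum_card_fiberwise (f := fun q => q.2)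
    (t := T) (fun q hq => hT q (by simpa using hq))]
  push_cast
  refine Finset.sum_le_sum fun b hb => ?_
  rw [Set.ncard_eq_toFinset_card _ (hN b hb)]
  refine Nat.cast_le.mpr (Finset.card_le_card_of_injOn (fun q => q.1) (fun q hq => ?_)
    (fun q hq q' hq' h => ?_))
  · simp only [Finset.coe_filter, Set.Finite.mem_toFinset, Set.mem_ofPred_eq] at hq
    simp only [Set.Finite.coe_toFinset]
    rw [← hq.2]
    exact hSN q hq.1
  · simp only [Finset.coe_filter, Set.Finite.mem_toFinset, Set.mem_ofPred_eq] at hq hq'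
    exact Prod.ext h (hq.2.trans hq'.2.symm)

/-- rearrangement of a sum over pairs of pairs -/
private theorem s2c_swap {V : Type*} (J : ℕ) (GF Bx : Finset V) (P : V → V → Prop)
    [∀ x y, Decidable (P x y)] (f : ℕ → V → ℕ → V → ℝ) :
    ∑ b ∈ ((range J ×ˢ GF) ×ˢ (range J ×ˢ Bx)).filter
      (fun b => b.2.1 ≠ b.1.1 ∧ P b.1.2 b.2.2), f b.1.1 b.1.2 b.2.1 b.2.2 =
    ∑ x ∈ GF, ∑ y ∈ Bx.filter (fun y => P x y),
      ∑ i ∈ range J, ∑ i' ∈ (range J).filter (fun i' => i' ≠ i), f i x i' y := by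
  rw [Finset.sum_filter, Finset.sum_product, Finset.sum_product, Finset.sum_comm]
  refine Finset.sum_congr rfl fun x _ => ?_
  rw [Finset.sum_filter]
  have h1 : ∀ i ∈ range J, ∑ q ∈ range J ×ˢ Bx,
      (if q.1 ≠ i ∧ P x q.2 then f i x q.1 q.2 else 0) =
      ∑ y ∈ Bx, ∑ i' ∈ range J, (if i' ≠ i ∧ P x y then f i x i' y else 0) := by
    intro i _
    rw [Finset.sum_product, Finset.sum_comm]
  refine (Finset.sum_congr rfl h1).trans ?_
  rw [Finset.sum_comm]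
  refine Finset.sum_congr rfl fun y _ => ?_
  by_cases hP : P x y
  · rw [if_pos hP]
    refine Finset.sum_congr rfl fun i _ => ?_
    rw [Finset.sum_filter]
    refine Finset.sum_congr rfl fun i' _ => ?_
    by_cases h2 : i' ≠ i
    · rw [if_pos ⟨h2, hP⟩, if_pos h2]
    · rw [if_neg (fun h => h2 h.1), if_neg h2]
  · rw [if_neg hP]
    refine Finset.sum_eq_zero fun i _ => Finset.sum_eq_zero fun i' _ => ?_
    rw [if_neg (fun h => hP h.2)]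

/-- one small factor -/
private theorem s2c_np (w0 : InfinitePlace K) (tau : ℝ) (h0 : 0 < tau) (h1 : tau ≤ 1)
    [DecidableEq (InfinitePlace K)] :
    np (fun w : InfinitePlace K => if w = w0 then tau else 1) ≤ tau := by
  unfold np
  rw [← Finset.mul_prod_erase _ _ (Finset.mem_univ w0)]
  beta_reduce
  rw [if_pos rfl]
  have h2 : ∏ w ∈ Finset.univ.erase w0, (if w = w0 then tau else (1 : ℝ)) ^ w.mult = 1 := by
    refine Finset.prod_eq_one fun w hw => ?_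
    rw [if_neg (Finset.ne_of_mem_erase hw), one_pow]
  rw [h2, mul_one]
  have h3 : w0.mult ≠ 0 := InfinitePlace.mult_ne_zero
  exact pow_le_of_le_one h0.le h1 h3

/-- the resultant is a positive multiple of `D0` -/
private theorem s2c_sep (c : CPar K S) {eps k0 : ℝ} {w : ℕ} (hc : c.Valid eps k0 w) (J i i' : ℕ)
    (h : i ≠ i') : 0 < c.D0 * ((i : ℤ) - i').natAbs ∧
      ∃ a : S → 𝓞 K, ∑ s, a s * c.v J i s = 0 ∧
        ∑ s, a s * c.v J i' s = ((c.D0 * ((i : ℤ) - i').natAbs : ℕ) : 𝓞 K) := by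
  refine ⟨Nat.mul_pos hc.fam.D0_pos (Int.natAbs_pos.2 (by omega)), ?_⟩
  obtain ⟨a, ha1, ha2⟩ := hc.fam.sep J i i' h
  rcases le_total (0 : ℤ) ((i : ℤ) - i') with h0 | h0
  · refine ⟨a, ha1, ?_⟩
    rw [ha2]
    have e : ((c.D0 * ((i : ℤ) - i').natAbs : ℕ) : ℤ) = c.D0 * ((i : ℤ) - i') := by
      push_cast
      rw [abs_of_nonneg h0]
    rw [← e, Int.cast_natCast]
  · refine ⟨fun s => - a s, ?_, ?_⟩
    · simp only [neg_mul, Finset.sum_neg_distrib, ha1, neg_zero]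
    · simp only [neg_mul, Finset.sum_neg_distrib, ha2]
      have e : ((c.D0 * ((i : ℤ) - i').natAbs : ℕ) : ℤ) = - (c.D0 * ((i : ℤ) - i')) := by
        push_cast
        rw [abs_of_nonpos h0]
        ring
      have e2 := congrArg (fun z : ℤ => (z : 𝓞 K)) e
      simp only [Int.cast_neg, Int.cast_natCast] at e2
      rw [e2]

private theorem s2c_ineq1 {s V H : ℝ} (hs : 0 ≤ s) (hV : 1 ≤ V) (h : 192 * s * V ^ 2 ≤ H) :
    s * (2 * V) ≤ H := by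
  have h1 : V ≤ V ^ 2 := by nlinarith
  have h2 : s * V ≤ s * V ^ 2 := mul_le_mul_of_nonneg_left h1 hs
  have h3 : 0 ≤ s * V ^ 2 := mul_nonneg hs (sq_nonneg V)
  linarith

private theorem s2c_ineq2 {s V H mu : ℝ} (h1 : 96 * mu * V ≤ H) (h2 : 192 * s * V ^ 2 ≤ H) :
    36 * (mu * (2 * V) + s * (2 * V) ^ 2) ≤ 3 * H / 2 := by
  calc 36 * (mu * (2 * V) + s * (2 * V) ^ 2)
      = 3 / 4 * (96 * mu * V) + 3 / 4 * (192 * s * V ^ 2) := by ring
    _ ≤ 3 * H / 2 := by linarith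

private theorem s2c_ineq3 {t nI Z d : ℝ} (ht : 0 < t) (h : t * (2 * (nI * Z + 1)) ≤ d) :
    nI * (t * Z) ≤ d / 2 := by
  have h1 : t * (2 * (nI * Z + 1)) = 2 * (nI * (t * Z)) + 2 * t := by ring
  linarith

/-- the sum over the second point -/
private theorem s2c_sumy (Cs : ℝ)
    (hsum : ∀ (R : ℝ), 1 ≤ R → ∀ B : ℕ, 1 ≤ B → ∀ x : Fin (2 + 1) → 𝓞 K, Prim x →
      x ∈ Bx 2 (2 * (B : ℝ)) → (∀ w, ∃ i, (B : ℝ) / 2 ≤ ‖sg w (x i)‖) → Good R B x →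
      ∀ phi : Ideal (𝓞 K) → ℝ, (∀ I, 0 ≤ phi I) →
      ∀ tau : InfinitePlace K → ℝ, (∀ w, 0 < tau w) → (∀ w, tau w ≤ 1) →
      ∀ T : Finset (Fin (2 + 1) → 𝓞 K),
      (∀ y ∈ T, y ∈ Bx 2 (2 * (B : ℝ)) ∧ mgI x y ≠ ⊥ ∧
        ∀ w, dl w x y ≤ tau w * (72 * (B : ℝ) ^ 2)) → ∀ E : ℝ,
      (∀ J : Finset (Ideal (𝓞 K)), (∀ I ∈ J, ∃ y ∈ T, I = mgI x y) →
        ∑ I ∈ J, phi I / (Ideal.absNorm I : ℝ) ^ 2 ≤ E) →
      ∑ y ∈ T, phi (mgI x y) / np (fun w => dl w x y) ≤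
        Cs * R ^ (2 * mK K) * (B : ℝ) ^ mK K * np tau * E) (hCs : 0 < Cs)
    (e Z : ℝ) (hZ : 1 ≤ Z) (G : ℕ)
    (hZs : ∀ T : Finset (Ideal (𝓞 K)), (∀ I ∈ T, I ≠ ⊥) →
      ∑ I ∈ T, gphi I / (Ideal.absNorm I : ℝ) ^ 2 ≤ Z)
    (hG : ∀ T : Finset (Ideal (𝓞 K)), (∀ I ∈ T, G < Ideal.absNorm I) →
      ∑ I ∈ T, gphi I / (Ideal.absNorm I : ℝ) ^ 2 ≤ e)
    (R : ℝ) (hR : 1 ≤ R) (tau : ℝ) (ht0 : 0 < tau) (ht1 : tau ≤ 1) (B : ℕ) (hB : 1 ≤ B)
    (x : Fin (2 + 1) → 𝓞 K) (hx1 : Prim x) (hx2 : x ∈ Bx 2 (2 * (B : ℝ)))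
    (hx3 : ∀ w, ∃ i, (B : ℝ) / 2 ≤ ‖sg w (x i)‖) (hx4 : Good R B x)
    (T : Finset (Fin (2 + 1) → 𝓞 K))
    (hT : ∀ y ∈ T, y ∈ Bx 2 (2 * (B : ℝ)) ∧ mgI x y ≠ ⊥ ∧ BadPr G tau B x y) :
    ∑ y ∈ T, gphi (mgI x y) / np (fun w => dl w x y) ≤
      Cs * R ^ (2 * mK K) * (B : ℝ) ^ mK K *
        (e + Fintype.card (InfinitePlace K) * (tau * Z)) := by
  classical
  have hB0 : (0 : ℝ) ≤ B := Nat.cast_nonneg _
  have hf0 : ∀ y ∈ T, 0 ≤ gphi (mgI x y) / np (fun w => dl w x y) := fun y hy =>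
    div_nonneg (gphi_nonneg _) (np_nonneg fun w => (dl_pos x y (hT y hy).2.1 w).le)
  -- the pairs with a large ideal
  have ha := hsum R hR B hB x hx1 hx2 hx3 hx4 gphi gphi_nonneg (fun _ => 1)
    (fun _ => one_pos) (fun _ => le_rfl) (T.filter fun y => G < mgN x y) (by
      intro y hy
      rw [Finset.mem_filter] at hy
      refine ⟨(hT y hy.1).1, (hT y hy.1).2.1, fun w => ?_⟩
      rw [one_mul]
      exact dl_le_box x y B hB0 hx2 (hT y hy.1).1 w) e (by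
      intro J hJ
      refine hG J fun I hI => ?_
      obtain ⟨y, hy, rfl⟩ := hJ I hI
      exact (Finset.mem_filter.1 hy).2)
  rw [np_const, one_pow, mul_one] at ha
  -- the pairs which are close at the place `w0`
  have hb : ∀ w0 : InfinitePlace K, ∑ y ∈ T.filter (fun y => dl w0 x y < tau * (B : ℝ) ^ 2),
      gphi (mgI x y) / np (fun w => dl w x y) ≤
      Cs * R ^ (2 * mK K) * (B : ℝ) ^ mK K * (tau * Z) := by
    intro w0
    have h1 := hsum R hR B hB x hx1 hx2 hx3 hx4 gphi gphi_nonneg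
      (fun w => if w = w0 then tau else 1)
      (fun w => by split_ifs <;> [exact ht0; exact one_pos])
      (fun w => by split_ifs <;> [exact ht1; exact le_rfl])
      (T.filter fun y => dl w0 x y < tau * (B : ℝ) ^ 2) (by
        intro y hy
        rw [Finset.mem_filter] at hy
        refine ⟨(hT y hy.1).1, (hT y hy.1).2.1, fun w => ?_⟩
        by_cases hw : w = w0
        · rw [if_pos hw, hw]
          have h2 : (0 : ℝ) ≤ tau * (B : ℝ) ^ 2 := by positivity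
          nlinarith [hy.2]
        · rw [if_neg hw, one_mul]
          exact dl_le_box x y B hB0 hx2 (hT y hy.1).1 w) Z (by
        intro J hJ
        refine hZs J fun I hI => ?_
        obtain ⟨y, hy, rfl⟩ := hJ I hI
        exact (hT y (Finset.mem_filter.1 hy).1).2.1)
    refine h1.trans ?_
    rw [mul_assoc (Cs * R ^ (2 * mK K) * (B : ℝ) ^ mK K)]
    refine mul_le_mul_of_nonneg_left ?_ (by positivity)
    exact mul_le_mul_of_nonneg_right (s2c_np w0 tau ht0 ht1) (by linarith)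
  have hsplit : ∑ y ∈ T, gphi (mgI x y) / np (fun w => dl w x y) ≤
      ∑ y ∈ T.filter (fun y => G < mgN x y), gphi (mgI x y) / np (fun w => dl w x y) +
      ∑ w0 : InfinitePlace K, ∑ y ∈ T.filter (fun y => dl w0 x y < tau * (B : ℝ) ^ 2),
        gphi (mgI x y) / np (fun w => dl w x y) := by
    simp only [Finset.sum_filter]
    rw [Finset.sum_comm, ← Finset.sum_add_distrib]
    refine Finset.sum_le_sum fun y hy => ?_
    have h0 := hf0 y hy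
    have hn : 0 ≤ ∑ w0 : InfinitePlace K, (if dl w0 x y < tau * (B : ℝ) ^ 2 then
        gphi (mgI x y) / np (fun w => dl w x y) else 0) :=
      Finset.sum_nonneg fun w0 _ => by split_ifs <;> [exact h0; exact le_rfl]
    rcases (hT y hy).2.2 with h1 | ⟨w0, h1⟩
    · rw [if_pos h1]
      linarith
    · have h2 : gphi (mgI x y) / np (fun w => dl w x y) ≤
          ∑ w0 : InfinitePlace K, (if dl w0 x y < tau * (B : ℝ) ^ 2 then
            gphi (mgI x y) / np (fun w => dl w x y) else 0) := by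
        refine le_trans (le_of_eq ?_) (Finset.single_le_sum
          (f := fun w0 : InfinitePlace K => (if dl w0 x y < tau * (B : ℝ) ^ 2 then
            gphi (mgI x y) / np (fun w => dl w x y) else 0))
          (fun w0 _ => by
            split_ifs <;> [exact h0; exact le_rfl]) (Finset.mem_univ w0))
        rw [if_pos h1]
      have h3 : 0 ≤ (if G < mgN x y then gphi (mgI x y) / np (fun w => dl w x y) else 0) := by
        split_ifs <;> [exact h0; exact le_rfl]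
      linarith
  refine hsplit.trans ?_
  refine (add_le_add ha (Finset.sum_le_sum fun w0 _ => hb w0)).trans (le_of_eq ?_)
  rw [Finset.sum_const, Finset.card_univ, nsmul_eq_mul]
  ring

theorem S2_bad (c : CPar K S) {eps k0 : ℝ} {w : ℕ} (hc : c.Valid eps k0 w)
    (R : ℝ) (hR : 1 ≤ R) :
    ∃ (G : ℕ) (tau : ℝ), 1 ≤ G ∧ 0 < tau ∧ tau ≤ 1 ∧ ∀ᶠ H : ℝ in atTop,
      ((c.TBad R G tau H).ncard : ℝ) ≤ eps * c.TT H ^ 2 * c.XR c.p.rho H := by
  classical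
  have hrho := hc.pv.rho_pos
  have heps := hc.pv.eps_pos
  have hQ : (0 : ℝ) < c.p.Q := by exact_mod_cast hc.pv.Q_pos
  have hk1 := hc.fam.k1_pos
  have hcK : 1 ≤ cK K := one_le_cK
  have hcK0 : 0 < cK K := cK_pos
  have hc1 : 0 ≤ c1 K 2 2 := by
    unfold NFHP.c1
    positivity
  have hD0 : (0 : ℝ) < c.D0 := by exact_mod_cast hc.fam.D0_pos
  obtain ⟨Cc, hCc, hcr⟩ := crude_cross K S
  obtain ⟨Cs, hCs, hsum⟩ := sum_phiK K
  obtain ⟨T, hT, hbx⟩ := card_Bx K 2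
  obtain ⟨Z, hZ, hZs⟩ := gphi_sum K
  obtain ⟨c0, hc0, hT1⟩ := T1_bounds c hc
  obtain ⟨m, hm⟩ : ∃ m : ℕ, m = mK K := ⟨_, rfl⟩
  obtain ⟨nI, hnI⟩ : ∃ nI : ℝ, nI = Fintype.card (InfinitePlace K) := ⟨_, rfl⟩
  have hnI0 : 0 ≤ nI := by rw [hnI]; positivity
  obtain ⟨q, hq⟩ : ∃ q : ℝ, q = (2 * c.p.rho / c.p.Q) ^ (m * MM S) := ⟨_, rfl⟩
  have hq0 : 0 < q := by rw [hq]; positivity
  obtain ⟨al, hal⟩ : ∃ al : ℝ, al = (3 * cK K) ^ 2 * (c.k1 / 2) ^ 2 := ⟨_, rfl⟩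
  have hal0 : 0 < al := by rw [hal]; positivity
  obtain ⟨cst, hcst⟩ : ∃ cst : ℝ, cst = T * (Cs * R ^ (2 * m)) * (c.D0 : ℝ) ^ m *
    (Cc * (3 * cK K) ^ (m * MM S)) * (1 / al) ^ m := ⟨_, rfl⟩
  have hcst0 : 0 < cst := by rw [hcst]; positivity
  obtain ⟨d, hd⟩ : ∃ d : ℝ, d = eps * c0 ^ 2 * q / cst := ⟨_, rfl⟩
  have hd0 : 0 < d := by rw [hd]; positivity
  obtain ⟨G, hG1, hG⟩ := gphi_tail K (d / 2) (by positivity)
  obtain ⟨tau, htau⟩ : ∃ tau : ℝ, tau = min 1 (d / (2 * (nI * Z + 1))) := ⟨_, rfl⟩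
  have hZ0 : 0 < Z := by linarith
  have hnZ : 0 ≤ nI * Z := by positivity
  have ht0 : 0 < tau := by rw [htau]; exact lt_min one_pos (by positivity)
  have ht1 : tau ≤ 1 := by rw [htau]; exact min_le_left _ _
  have htd : nI * (tau * Z) ≤ d / 2 := by
    have h1 : tau ≤ d / (2 * (nI * Z + 1)) := by rw [htau]; exact min_le_right _ _
    rw [le_div_iff₀ (by positivity)] at h1
    exact s2c_ineq3 ht0 h1
  refine ⟨G, tau, hG1, ht0, ht1, ?_⟩
  filter_upwards [hT1, (ConicHP.JJ_atTop).eventually_ge_atTop 1, VV_pos c hc,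
    (BB_atTop c hc).eventually_ge_atTop 1, vv_le c hc, vv_ge c hc, BB_bounds c hc,
    small_le c hc (96 * R) 1, small_le c hc (4 * c1 K 2 2 * R / c.k1) 0,
    small_le' c hc (192 * Fintype.card S) 2, eventually_ge_atTop (1 : ℝ)] with
    H h1 hJ hV hB hv hvg hBB h2 h3 h4 hH
  have hB1 : (1 : ℝ) ≤ c.BB H := by exact_mod_cast hB
  have hV1 : (1 : ℝ) ≤ c.VV H := by exact_mod_cast hV
  have hJ1 : (1 : ℝ) ≤ JJ H := by exact_mod_cast hJ
  have hH0 : 0 < H := by linarith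
  obtain ⟨mu, hmu⟩ : ∃ mu : ℝ, mu = R * (c.BB H : ℝ) ^ (1 / ((2 : ℕ) : ℝ)) := ⟨_, rfl⟩
  have e2 : (1 / ((2 : ℕ) : ℝ)) = (1 / 2 : ℝ) := by norm_num
  have hrB : (1 : ℝ) ≤ (c.BB H : ℝ) ^ (1 / 2 : ℝ) := Real.one_le_rpow hB1 (by positivity)
  rw [e2] at hmu
  have hmu1 : 1 ≤ mu := by
    rw [hmu]
    exact one_le_mul_of_one_le_of_one_le hR hrB
  -- the two conditions
  have hS0 : (0 : ℝ) ≤ Fintype.card S := Nat.cast_nonneg _
  have hcS : 192 * Fintype.card S * (c.VV H : ℝ) ^ 2 ≤ H := by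
    refine le_trans ?_ h4
    refine mul_le_mul_of_nonneg_left ?_ (by positivity)
    exact le_mul_of_one_le_right (sq_nonneg _) (one_le_pow₀ hJ1)
  have hcA : 96 * mu * c.VV H ≤ H := by
    refine le_trans ?_ h2
    rw [pow_one, pow_one, hmu]
    have h5 : (c.VV H : ℝ) ≤ (c.VV H : ℝ) * (JJ H : ℝ) :=
      le_mul_of_one_le_right (by linarith) hJ1
    calc 96 * (R * (c.BB H : ℝ) ^ (1 / 2 : ℝ)) * c.VV H
        = 96 * R * c.VV H * (c.BB H : ℝ) ^ (1 / 2 : ℝ) := by ring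
      _ ≤ 96 * R * ((c.VV H : ℝ) * (JJ H : ℝ)) * (c.BB H : ℝ) ^ (1 / 2 : ℝ) := by gcongr
  have hcC : c1 K 2 2 * mu / (c.k1 / 2 * c.VV H) ≤ H / 2 := by
    rw [pow_zero, pow_zero, mul_one, mul_one] at h3
    have h5 : c1 K 2 2 * mu / (c.k1 / 2 * c.VV H) ≤ c1 K 2 2 * mu / (c.k1 / 2 * 1) := by
      gcongr
    refine h5.trans ?_
    rw [hmu]
    calc c1 K 2 2 * (R * (c.BB H : ℝ) ^ (1 / 2 : ℝ)) / (c.k1 / 2 * 1)
        = (4 * c1 K 2 2 * R / c.k1 * (c.BB H : ℝ) ^ (1 / 2 : ℝ)) / 2 := by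
          field_simp
          ring
      _ ≤ H / 2 := by linarith
  have hcond1 : cK K * (36 * (mu * (2 * (c.VV H : ℝ)) +
      Fintype.card S * (2 * (c.VV H : ℝ)) ^ 2)) ≤ (3 * cK K * H) / 2 := by
    have h5 : 36 * (mu * (2 * (c.VV H : ℝ)) + Fintype.card S * (2 * (c.VV H : ℝ)) ^ 2) ≤
        3 * H / 2 := s2c_ineq2 hcA hcS
    calc _ ≤ cK K * (3 * H / 2) := mul_le_mul_of_nonneg_left h5 hcK0.le
      _ = _ := by ring
  have hcond2 : c1 K 2 2 * mu / (c.k1 / 2 * c.VV H) + cK K * (Fintype.card S *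
      (2 * (c.VV H : ℝ))) ≤ (3 * cK K * H) / 2 := by
    have h5 : Fintype.card S * (2 * (c.VV H : ℝ)) ≤ H := s2c_ineq1 hS0 hV1 hcS
    have h6 : cK K * (Fintype.card S * (2 * (c.VV H : ℝ))) ≤ cK K * H :=
      mul_le_mul_of_nonneg_left h5 hcK0.le
    have h7 : 1 * H ≤ cK K * H := mul_le_mul_of_nonneg_right hcK hH0.le
    linarith
  obtain ⟨B, hBd⟩ : ∃ B : ℕ, B = c.BB H := ⟨_, rfl⟩
  obtain ⟨U, hU⟩ : ∃ U : ℝ, U = c.k1 / 2 * c.VV H := ⟨_, rfl⟩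
  have hU0 : 0 < U := by rw [hU]; positivity
  obtain ⟨Rr, hRr⟩ : ∃ Rr : ℝ, Rr = 3 * cK K * H := ⟨_, rfl⟩
  have hRr1 : 1 ≤ Rr := by
    rw [hRr]
    exact one_le_mul_of_one_le_of_one_le (by linarith) hH
  have hRr0 : 0 < Rr := by linarith
  rw [← hBd] at hB hB1 hBB
  have hB0 : (0 : ℝ) < B := by linarith
  obtain ⟨hb1, hb2⟩ := mem_XX_bounds c.p hc.pv B
  obtain ⟨bd, hbd⟩ : ∃ bd : ℝ, bd = Cc * Rr ^ (m * MM S) / (Rr ^ 2 * U ^ 2 * (B : ℝ) ^ 2) ^ m :=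
    ⟨_, rfl⟩
  have hbd0 : 0 ≤ bd := by rw [hbd]; positivity
  obtain ⟨GF, hGF⟩ : ∃ GF, GF = (GC_finite c R H).toFinset := ⟨_, rfl⟩
  have hmem : ∀ x, x ∈ GF ↔ x ∈ c.p.GG R B := fun x => by
    rw [hGF, Set.Finite.mem_toFinset, CPar.GC, ← hBd]
  have hGc : (GF.card : ℝ) ≤ T * (B : ℝ) ^ (m * 3) := by
    rw [hm]
    refine le_trans ?_ (hbx B hB).2
    rw [← Set.ncard_coe_finset]
    refine Nat.cast_le.mpr (Set.ncard_le_ncard (fun x hx => ?_) (hbx B hB).1)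
    exact hb1 _ ((hmem x).1 hx).1
  obtain ⟨P, hP⟩ : ∃ P : (Fin (2 + 1) → 𝓞 K) → (Fin (2 + 1) → 𝓞 K) → Prop,
    P = fun x y => mgI x y ≠ ⊥ ∧ BadPr G tau B x y := ⟨_, rfl⟩
  have hcf := s2c_card_fib (c.TBad R G tau H) (TBad_finite c R G tau H)
    (((range (JJ H) ×ˢ GF) ×ˢ (range (JJ H) ×ˢ GF)).filter
      (fun b => b.2.1 ≠ b.1.1 ∧ P b.1.2 b.2.2))
    (by
      rintro ⟨A, ⟨i, x⟩, ⟨i', y⟩⟩ ⟨_, hi, hi', hii, hx, hy, _, _, hne, hbad⟩
      simp only [CPar.GC, ← hBd] at hi hi' hii hx hy hne hbad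
      simp only [Finset.mem_filter, Finset.mem_product, Finset.mem_range]
      rw [hP]
      exact ⟨⟨⟨hi, (hmem x).2 hx⟩, hi', (hmem y).2 hy⟩, fun h => hii h.symm,
        mgI_ne_bot_of_mem_GG c.p hc.pv R B hB x y hx hy hne, hbad⟩)
    (fun b => {A : Idx 2 2 × S → 𝓞 K | (∀ m w, ‖sg w (A m)‖ ≤ Rr) ∧
      F (ev A (c.vv H b.1.1)) b.1.2 = 0 ∧ F (ev A (c.vv H b.2.1)) b.2.2 = 0})
    (fun b _ => finite_of_norm_le _ Rr fun A hA m w => hA.1 m w)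
    (by
      rintro ⟨A, ⟨i, x⟩, ⟨i', y⟩⟩ ⟨hA, hi, hi', hii, hx, hy, hF1, hF2, hne, hbad⟩
      refine ⟨fun m w' => ?_, hF1, hF2⟩
      rw [hRr]
      refine (Cl_norm_le c hc H hH0.le A hA m w').trans (le_of_eq ?_)
      ring)
  refine hcf.trans ?_
  have hb : ∀ b ∈ ((range (JJ H) ×ˢ GF) ×ˢ (range (JJ H) ×ˢ GF)).filter
      (fun b => b.2.1 ≠ b.1.1 ∧ P b.1.2 b.2.2),
      (Set.ncard {A : Idx 2 2 × S → 𝓞 K | (∀ m w, ‖sg w (A m)‖ ≤ Rr) ∧
      F (ev A (c.vv H b.1.1)) b.1.2 = 0 ∧ F (ev A (c.vv H b.2.1)) b.2.2 = 0} : ℝ) ≤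
      bd / np (fun w => dl w b.1.2 b.2.2) *
        (Ideal.absNorm (mgI b.1.2 b.2.2 ⊔
          Ideal.span {((c.D0 * ((b.1.1 : ℤ) - b.2.1).natAbs : ℕ) : 𝓞 K)}) : ℝ) := by
    rintro ⟨⟨i, x⟩, ⟨i', y⟩⟩ hb
    simp only [Finset.mem_filter, Finset.mem_product, Finset.mem_range] at hb
    rw [hP] at hb
    obtain ⟨⟨⟨hi, hx⟩, hi', hy⟩, hii, hmg, _⟩ := hb
    have hx' := (hmem x).1 hx
    have hy' := (hmem y).1 hy
    have hgx : Ortho mu x := by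
      have := hx'.2.2
      unfold NFHP.Good at this
      rw [e2, hBd, ← hmu] at this
      exact this
    have hgy : Ortho mu y := by
      have := hy'.2.2
      unfold NFHP.Good at this
      rw [e2, hBd, ← hmu] at this
      exact this
    obtain ⟨hs1, hs2⟩ := s2c_sep c hc (JJ H) i i' (fun h => hii h.symm)
    have h5 := hcr B hB x y hx'.2.1 hy'.2.1 mu hmu1 hgx hgy
      (fun w' => by
        obtain ⟨j, hj⟩ := hb2 w'
        exact ⟨j, hj x hx'.1, hj y hy'.1⟩) (hb1 x hx'.1) (hb1 y hy'.1) hmg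
      (c.vv H i) (c.vv H i') (hc.fam.prim _ _) (hc.fam.prim _ _) c.s0 U hU0
      (fun w' => by rw [hU]; exact hvg i hi w') (fun w' => by rw [hU]; exact hvg i' hi' w')
      (2 * (c.VV H : ℝ)) (by linarith) (hv i hi) (hv i' hi')
      (c.D0 * ((i : ℤ) - i').natAbs) hs1 hs2 Rr hRr1 (by rw [hRr]; exact hcond1)
      (by rw [hRr, hU]; exact hcond2)
    refine h5.trans (le_of_eq ?_)
    have h6 : np (fun w => Rr ^ 2 * U ^ 2 * (B : ℝ) ^ 2 * dl w x y) =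
        (Rr ^ 2 * U ^ 2 * (B : ℝ) ^ 2) ^ m * np (fun w => dl w x y) := by
      rw [np_mul (fun _ => Rr ^ 2 * U ^ 2 * (B : ℝ) ^ 2) (fun w => dl w x y), np_const, hm]
    rw [h6, hbd, hm]
    have h7 : np (fun w => dl w x y) ≠ 0 := (np_pos fun w => dl_pos x y hmg w).ne'
    have h8 : (Rr ^ 2 * U ^ 2 * (B : ℝ) ^ 2) ^ mK K ≠ 0 := by positivity
    field_simp
  refine (Finset.sum_le_sum hb).trans ?_
  refine (le_of_eq (s2c_swap (JJ H) GF GF P (fun i x i' y => bd / np (fun w => dl w x y) *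
    (Ideal.absNorm (mgI x y ⊔
      Ideal.span {((c.D0 * ((i : ℤ) - i').natAbs : ℕ) : 𝓞 K)}) : ℝ)))).trans ?_
  have hx0 : ∀ x ∈ GF, ∑ y ∈ GF.filter (fun y => P x y),
      ∑ i ∈ range (JJ H), ∑ i' ∈ (range (JJ H)).filter (fun i' => i' ≠ i),
        bd / np (fun w => dl w x y) * (Ideal.absNorm (mgI x y ⊔
          Ideal.span {((c.D0 * ((i : ℤ) - i').natAbs : ℕ) : 𝓞 K)}) : ℝ) ≤
      bd * ((c.D0 : ℝ) ^ m * (JJ H : ℝ) ^ 2) *
        (Cs * R ^ (2 * m) * (B : ℝ) ^ m * (d / 2 + nI * (tau * Z))) := by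
    intro x hx
    have hx' := (hmem x).1 hx
    have hy0 : ∀ y ∈ GF.filter (fun y => P x y),
        ∑ i ∈ range (JJ H), ∑ i' ∈ (range (JJ H)).filter (fun i' => i' ≠ i),
          bd / np (fun w => dl w x y) * (Ideal.absNorm (mgI x y ⊔
          Ideal.span {((c.D0 * ((i : ℤ) - i').natAbs : ℕ) : 𝓞 K)}) : ℝ) ≤
        bd * ((c.D0 : ℝ) ^ m * (JJ H : ℝ) ^ 2) *
          (gphi (mgI x y) / np (fun w => dl w x y)) := by
      intro y hy
      rw [Finset.mem_filter, hP] at hy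
      have hg := sum_gcd_leK (K := K) c.D0 (JJ H) hc.fam.D0_pos (mgI x y) hy.2.1
      have hn : 0 < np (fun w => dl w x y) := np_pos fun w => dl_pos x y hy.2.1 w
      simp_rw [← Finset.mul_sum]
      refine (mul_le_mul_of_nonneg_left hg (by positivity)).trans (le_of_eq ?_)
      rw [hm]
      ring
    refine (Finset.sum_le_sum hy0).trans ?_
    rw [← Finset.mul_sum]
    refine mul_le_mul_of_nonneg_left ?_ (by positivity)
    rw [hm, hnI]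
    refine s2c_sumy Cs hsum hCs (d / 2) Z hZ G hZs hG R hR tau ht0 ht1 B hB x hx'.2.1
      (hb1 x hx'.1) (fun w' => ?_) hx'.2.2 _ ?_
    · obtain ⟨j, hj⟩ := hb2 w'
      exact ⟨j, hj x hx'.1⟩
    · intro y hy
      rw [Finset.mem_filter, hP] at hy
      exact ⟨hb1 y ((hmem y).1 hy.1).1, hy.2.1, hy.2.2⟩
  refine (Finset.sum_le_card_nsmul _ _ _ hx0).trans ?_
  rw [nsmul_eq_mul]
  have hz : cst * (d / 2 + nI * (tau * Z)) ≤ eps * c0 ^ 2 * q := by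
    have h5 : cst * d = eps * c0 ^ 2 * q := by
      rw [hd]
      field_simp
    rw [← h5]
    exact mul_le_mul_of_nonneg_left (by linarith) hcst0.le
  obtain ⟨z, hzd⟩ : ∃ z : ℝ, z = d / 2 + nI * (tau * Z) := ⟨_, rfl⟩
  have hz0 : 0 ≤ z := by rw [hzd]; positivity
  rw [← hzd] at hz ⊢
  have hX : c.XR c.p.rho H = q * H ^ (m * MM S) := by
    rw [CPar.XR, hq, ← mul_pow, hm]
    congr 1
    ring
  have hTT : c.TT H = JJ H * c.T1 H := rfl
  have hT1' : c0 ^ 2 ≤ c.T1 H ^ 2 := pow_le_pow_left₀ hc0.le h1 2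
  obtain ⟨be, hbe⟩ : ∃ be : ℝ, be = (B : ℝ) ^ 2 / (H ^ 2 * (c.VV H : ℝ) ^ 2) := ⟨_, rfl⟩
  have hbe0 : 0 ≤ be := by rw [hbe]; positivity
  have hbe1 : be ^ m ≤ 1 := by
    refine pow_le_one₀ hbe0 ?_
    rw [hbe, div_le_one (by positivity), ← mul_pow]
    exact pow_le_pow_left₀ (by positivity) hBB.2.1 2
  have hkey : (B : ℝ) ^ (m * 3) * bd * (B : ℝ) ^ m =
      (Cc * (3 * cK K) ^ (m * MM S)) * (1 / al) ^ m * H ^ (m * MM S) * be ^ m := by
    have h5 : (B : ℝ) ^ (m * 3) * (B : ℝ) ^ m = ((B : ℝ) ^ 4) ^ m := by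
      rw [← pow_add, ← pow_mul]
      congr 1
      ring
    have h6 : (1 / al) ^ m * be ^ m * (Rr ^ 2 * U ^ 2 * (B : ℝ) ^ 2) ^ m = ((B : ℝ) ^ 4) ^ m := by
      rw [← mul_pow, ← mul_pow]
      congr 1
      rw [hal, hbe, hRr, hU]
      have hVp : (c.VV H : ℝ) ≠ 0 := by linarith
      field_simp
    have h7 : (Rr ^ 2 * U ^ 2 * (B : ℝ) ^ 2) ^ m ≠ 0 := by positivity
    have h8 : Rr ^ (m * MM S) = (3 * cK K) ^ (m * MM S) * H ^ (m * MM S) := by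
      rw [← mul_pow, hRr]
    calc (B : ℝ) ^ (m * 3) * bd * (B : ℝ) ^ m
        = bd * ((B : ℝ) ^ (m * 3) * (B : ℝ) ^ m) := by ring
      _ = bd * ((1 / al) ^ m * be ^ m * (Rr ^ 2 * U ^ 2 * (B : ℝ) ^ 2) ^ m) := by
          rw [h5, h6]
      _ = Cc * Rr ^ (m * MM S) * ((1 / al) ^ m * be ^ m) := by
          rw [hbd]
          field_simp
      _ = _ := by
          rw [h8]
          ring
  have hJ0 : (0 : ℝ) ≤ JJ H := by linarith
  calc (GF.card : ℝ) * (bd * ((c.D0 : ℝ) ^ m * (JJ H : ℝ) ^ 2) *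
        (Cs * R ^ (2 * m) * (B : ℝ) ^ m * z))
      ≤ (T * (B : ℝ) ^ (m * 3)) * (bd * ((c.D0 : ℝ) ^ m * (JJ H : ℝ) ^ 2) *
        (Cs * R ^ (2 * m) * (B : ℝ) ^ m * z)) := by
        refine mul_le_mul_of_nonneg_right hGc ?_
        positivity
    _ = T * (Cs * R ^ (2 * m)) * (c.D0 : ℝ) ^ m * z * (JJ H : ℝ) ^ 2 *
        ((B : ℝ) ^ (m * 3) * bd * (B : ℝ) ^ m) := by ring
    _ = (JJ H : ℝ) ^ 2 * H ^ (m * MM S) * (cst * z) * be ^ m := by
        rw [hkey, hcst]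
        ring
    _ ≤ (JJ H : ℝ) ^ 2 * H ^ (m * MM S) * (cst * z) * 1 := by gcongr
    _ ≤ (JJ H : ℝ) ^ 2 * H ^ (m * MM S) * (eps * c0 ^ 2 * q) * 1 := by gcongr
    _ = eps * ((JJ H : ℝ) ^ 2 * c0 ^ 2) * (q * H ^ (m * MM S)) := by ring
    _ ≤ eps * ((JJ H : ℝ) ^ 2 * c.T1 H ^ 2) * (q * H ^ (m * MM S)) := by gcongr
    _ = eps * c.TT H ^ 2 * c.XR c.p.rho H := by
        rw [hX, hTT]
        ring

end NKCHP
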