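import Pool.Agent.Lib.MP_e426f4_ag.CK.Heights
import Pool.Agent.Lib.MP_e426f4_ag.CK.ShortC

/-!
CK-TransPair: translation inequality for pairs of points in different fibres. Templates: C/TransPair.lean, NK/TransPair.lean, N/TransPair.lean. Let Dd = D0 |i - i'|, g = mgI x y + (Dd) (g divides mgI, N g <= G), g = gW q with q coprime to W and all primes of gW containing W (as for mgI in N/TransPair.lean), W^G in gW. Since the primes of D0 divide W and q is coprime to W, i - i' in q.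
Levels s in (W^s) q with CIn (th HH BB^2): s in Q g (Q W^G | W^s); t = Q t', t' from short_cross with s/Q (mu = R BB^(1/2), U = k1/2 VV, Vm = 2 VV): |t|_w <= c3 cK th HH BB^2/(tau BB^2 U) + o(H) = 2 c3 cK cS th H/(k1 tau) + o(H) (dl_w >= tau BB^2 since not BadPr), coordinates <= cK times that <= c5 th/tau H eventually (tau <= 1).
Note H VV^2, VV BB^(1/2) = o(H): small_le, small_le'. The translates of the vectors of forms through (i,x), (i',y) by all levels are distinct.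
-/

namespace NKCHP

open NumberField GenHP NFHP NKHP Finset Filter Topology
open ConicHP (ev JJ)

variable {K : Type} [Field K] [NumberField K] {S : Type} [Fintype S]

/-- the part of an ideal which is coprime to `W` -/
private theorem cofactorI (W G : ℕ) (hW : 0 < W) (I : Ideal (𝓞 K)) (hI : I ≠ ⊥)
    (hIG : Ideal.absNorm I ≤ G) :
    ∃ q : Ideal (𝓞 K), q ≠ ⊥ ∧ I ≤ q ∧ Ideal.absNorm q ≤ G ∧
      IsCoprime q (Ideal.span {(W : 𝓞 K)}) ∧ ∀ a ∈ q, (W : 𝓞 K) ^ G * a ∈ I := by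
  have hW0 : (W : 𝓞 K) ≠ 0 := by exact_mod_cast hW.ne'
  set g : Ideal (𝓞 K) := I ⊔ Ideal.span {(W : 𝓞 K) ^ G} with hg
  have hgI : g ∣ I := Ideal.dvd_iff_le.mpr le_sup_left
  have hgW : g ∣ Ideal.span {(W : 𝓞 K) ^ G} := Ideal.dvd_iff_le.mpr le_sup_right
  obtain ⟨q, hq⟩ := hgI
  have hg0 : g ≠ ⊥ := fun h => hI (by rw [hq, h, Ideal.bot_mul])
  have hq0 : q ≠ ⊥ := fun h => hI (by rw [hq, h, Ideal.mul_bot])
  have hIq : I ≤ q := by
    rw [hq]
    exact Ideal.mul_le_right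
  have hqn : Ideal.absNorm q ≤ G :=
    (Nat.le_of_dvd (absNorm_pos hI) (Ideal.absNorm_dvd_absNorm_of_le hIq)).trans hIG
  refine ⟨q, hq0, hIq, hqn, ?_, ?_⟩
  · by_contra hne
    rw [Ideal.isCoprime_iff_sup_eq] at hne
    obtain ⟨P, hP, hPle⟩ := Ideal.exists_le_maximal _ hne
    have hPq : P ∣ q := Ideal.dvd_iff_le.mpr (le_sup_left.trans hPle)
    have hPW : P ∣ Ideal.span {(W : 𝓞 K)} := Ideal.dvd_iff_le.mpr (le_sup_right.trans hPle)
    have hP0 : P ≠ ⊥ := by
      rintro rfl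
      have := Ideal.dvd_iff_le.mp hPW
      rw [le_bot_iff, Ideal.span_singleton_eq_bot] at this
      exact hW0 this
    have hPp : Prime P := Ideal.prime_of_isPrime hP0 hP.isPrime
    have hfin : FiniteMultiplicity P I := FiniteMultiplicity.of_prime_left hPp hI
    obtain ⟨J, hJ, hPJ⟩ := hfin.exists_eq_pow_mul_and_not_dvd
    set e := multiplicity P I with he
    -- e < G
    have hN2 : 2 ≤ Ideal.absNorm P := by
      have h1 : Ideal.absNorm P ≠ 1 := fun h => hP.ne_top (Ideal.absNorm_eq_one_iff.mp h)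
      have h2 : 0 < Ideal.absNorm P := absNorm_pos hP0
      omega
    have he1 : e < G := by
      have h1 : e < 2 ^ e := Nat.lt_two_pow_self
      have h2 : 2 ^ e ≤ Ideal.absNorm P ^ e := Nat.pow_le_pow_left hN2 e
      have h3 : Ideal.absNorm P ^ e ≤ Ideal.absNorm I := by
        refine Nat.le_of_dvd (absNorm_pos hI) ?_
        rw [← map_pow]
        exact Ideal.absNorm_dvd_absNorm_of_le (by rw [hJ]; exact Ideal.mul_le_left)
      omega
    have h1 : P ^ e ∣ g := by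
      rw [hg]
      rw [Ideal.dvd_iff_le]
      refine sup_le ?_ ?_
      · rw [hJ]; exact Ideal.mul_le_left
      · rw [← Ideal.dvd_iff_le, ← Ideal.span_singleton_pow]
        exact (pow_dvd_pow P he1.le).trans (pow_dvd_pow_of_dvd hPW G)
    have h2 : P ^ e * P ∣ P ^ e * J := by
      rw [← hJ, hq]
      exact mul_dvd_mul h1 hPq
    have h3 : P ∣ J := (mul_dvd_mul_iff_left (pow_ne_zero e hP0)).mp h2
    exact hPJ h3
  · intro a ha
    rw [hq]
    exact Ideal.mul_mem_mul (by rw [hg]; exact Ideal.mem_sup_right (Ideal.mem_span_singleton_self _)) ha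

/-- a prime ideal over `n` contains `W` if all prime factors of `n` divide `W` -/
private theorem mem_of_primes (P : Ideal (𝓞 K)) (hP : P.IsPrime) (W : ℕ) : ∀ n : ℕ, 0 < n →
    (∀ l : ℕ, l.Prime → l ∣ n → l ∣ W) → (n : 𝓞 K) ∈ P → (W : 𝓞 K) ∈ P := by
  intro n
  induction n using Nat.strong_induction_on with
  | _ n ih =>
    intro hn hpr hmem
    by_cases h1 : n = 1
    · exfalso
      apply hP.ne_top
      rw [Ideal.eq_top_iff_one]
      rw [h1, Nat.cast_one] at hmem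
      exact hmem
    · obtain ⟨l, hl, m, hm⟩ := Nat.exists_prime_and_dvd h1
      have hm0 : 0 < m := by
        rcases Nat.eq_zero_or_pos m with h | h
        · rw [h, Nat.mul_zero] at hm
          omega
        · exact h
      rw [hm, Nat.cast_mul] at hmem
      rcases hP.mem_or_mem hmem with h | h
      · obtain ⟨k, hk⟩ := hpr l hl (by rw [hm]; exact Nat.dvd_mul_right _ _)
        rw [hk, Nat.cast_mul]
        exact Ideal.mul_mem_right _ _ h
      · refine ih m ?_ hm0 (fun l' hl' hd => hpr l' hl' (by rw [hm]; exact hd.mul_left l)) h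
        rw [hm]
        have := hl.two_le
        nlinarith

/-- an ideal coprime to `W` is coprime to `n` if all prime factors of `n` divide `W` -/
private theorem coprime_of_primes (q : Ideal (𝓞 K)) (W : ℕ)
    (hq : IsCoprime q (Ideal.span {(W : 𝓞 K)})) (n : ℕ) (hn : 0 < n)
    (hpr : ∀ l : ℕ, l.Prime → l ∣ n → l ∣ W) : IsCoprime q (Ideal.span {(n : 𝓞 K)}) := by
  by_contra hne
  rw [Ideal.isCoprime_iff_sup_eq] at hne
  obtain ⟨P, hP, hPle⟩ := Ideal.exists_le_maximal _ hne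
  have hqP : q ≤ P := le_sup_left.trans hPle
  have hnP : (n : 𝓞 K) ∈ P :=
    (le_sup_right.trans hPle) (Ideal.mem_span_singleton_self (n : 𝓞 K))
  have hWP : (W : 𝓞 K) ∈ P := mem_of_primes P hP.isPrime W n hn hpr hnP
  rw [Ideal.isCoprime_iff_sup_eq] at hq
  apply hP.ne_top
  rw [← top_le_iff, ← hq]
  refine sup_le hqP ?_
  rw [Ideal.span_singleton_le_iff_mem]
  exact hWP

theorem trans_pair (c : CPar K S) {eps k0 : ℝ} {w : ℕ} (hc : c.Valid eps k0 w)
    (R : ℝ) (hR : 1 ≤ R) (G : ℕ) (hG : 1 ≤ G) (tau : ℝ) (ht : 0 < tau)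
    (ht1 : tau ≤ 1) (th : ℝ) (hth : 0 < th) (s : ℕ) (hs : c.p.Q * c.p.W ^ G ∣ c.p.W ^ s) :
    ∀ᶠ H : ℝ in atTop, ∀ i i' : ℕ, i < JJ H → i' < JJ H → i ≠ i' →
      ∀ x y : Fin (2 + 1) → 𝓞 K, x ∈ c.GC R H → y ∈ c.GC R H → x ≠ y →
      ¬ BadPr G tau (c.BB H) x y →
      ∃ q : Ideal (𝓞 K), q ≠ ⊥ ∧ mgI x y ≤ q ∧ Ideal.absNorm q ≤ G ∧
        ((i : 𝓞 K) - (i' : 𝓞 K)) ∈ q ∧ IsCoprime q (Ideal.span {(c.p.W : 𝓞 K)}) ∧
        c.Lev th (Ideal.span {(c.p.W : 𝓞 K) ^ s} * q) H *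
          (Set.ncard {A | A ∈ c.Cl c.p.rho H ∧ F (ev A (c.vv H i)) x = 0 ∧
            F (ev A (c.vv H i')) y = 0} : ℝ) ≤
          (Set.ncard {A | A ∈ c.Cl (c.p.rho + c.c5 * (th / tau)) H ∧
            F (ev A (c.vv H i)) x = 0 ∧ (c.p.W : 𝓞 K) ^ s ∣ F (ev A (c.vv H i')) y ∧
            CIn (th * c.HH H * (c.BB H : ℝ) ^ 2) (F (ev A (c.vv H i')) y)} : ℝ) := by
  have hp := hc.pv
  have hQpos : (0 : ℝ) < c.p.Q := by exact_mod_cast hp.Q_pos
  have hWpos : 0 < c.p.W := hp.W_pos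
  have hcK := cK_pos (K := K)
  have hcS : 1 ≤ cS K S := cS_ge c hc
  have hcSpos : 0 < cS K S := by linarith
  have hk1 := hc.fam.k1_pos
  have hc3 : 0 ≤ c3 2 2 := by
    unfold c3
    positivity
  have hR0 : 0 < R := by linarith
  have hSn : (0 : ℝ) ≤ Fintype.card S := Nat.cast_nonneg _
  have hsmall := small_le c hc
    (cK K ^ 2 * c.p.Q * 36 * (2 * R + 4 * Fintype.card S) * tau / th) 2
  filter_upwards [hsmall, (BB_atTop c hc).eventually_ge_atTop 1, VV_pos c hc,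
    ConicHP.JJ_atTop.eventually_ge_atTop 1, vv_le c hc, vv_ge c hc,
    Filter.eventually_gt_atTop 0] with H h1 hBpos hV hJ hvle hvge hHpos
  intro i i' hi hi' hii x y hx hy hxy hbad
  set B := c.BB H with hB
  have hBpos' : (0 : ℝ) < B := by
    have : 0 < B := by omega
    exact_mod_cast this
  have hB1 : (1 : ℝ) ≤ B := by exact_mod_cast hBpos
  have hV1 : (1 : ℝ) ≤ c.VV H := by exact_mod_cast hV
  have hVpos : (0 : ℝ) < c.VV H := by linarith
  have hJ1 : (1 : ℝ) ≤ JJ H := by exact_mod_cast hJ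
  have hHH : c.HH H = cS K S * c.VV H * H := rfl
  have hHHpos : 0 < c.HH H := by rw [hHH]; positivity
  have hmg : mgI x y ≠ ⊥ := mgI_ne_bot_of_mem_GG c.p hp R B hBpos x y hx hy hxy
  unfold BadPr at hbad
  push Not at hbad
  obtain ⟨hmG, hdl⟩ := hbad
  have hD0 := hc.fam.D0_pos
  set Dd : ℕ := c.D0 * ((i : ℤ) - i').natAbs with hDd
  have hDdpos : 0 < Dd := by
    refine Nat.mul_pos hD0 ?_
    omega
  set I : Ideal (𝓞 K) := mgI x y ⊔ Ideal.span {(Dd : 𝓞 K)} with hI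
  have hIge : mgI x y ≤ I := le_sup_left
  have hI0 : I ≠ ⊥ := fun h => hmg (by rw [h] at hIge; exact le_bot_iff.mp hIge)
  have hIG : Ideal.absNorm I ≤ G :=
    (Nat.le_of_dvd (absNorm_pos hmg) (Ideal.absNorm_dvd_absNorm_of_le hIge)).trans hmG
  obtain ⟨q, hq0, hqm, hqG, hqW, hqmem⟩ := cofactorI c.p.W G hWpos I hI0 hIG
  have hDdq : (Dd : 𝓞 K) ∈ q :=
    hqm (Ideal.mem_sup_right (Ideal.mem_span_singleton_self (Dd : 𝓞 K)))
  have hDz : (Dd : ℤ) = c.D0 * |(i : ℤ) - i'| := by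
    rw [hDd, Nat.cast_mul, Int.natCast_natAbs]
  have hDz' : (Dd : 𝓞 K) = ((c.D0 * |(i : ℤ) - i'| : ℤ) : 𝓞 K) := by
    rw [← hDz, Int.cast_natCast]
  have hDi : (c.D0 : 𝓞 K) * ((i : 𝓞 K) - (i' : 𝓞 K)) ∈ q := by
    rcases le_total 0 ((i : ℤ) - i') with h0 | h0
    · rw [hDz', abs_of_nonneg h0] at hDdq
      push_cast at hDdq
      exact hDdq
    · rw [hDz', abs_of_nonpos h0] at hDdq
      push_cast at hDdq
      have h2 := q.neg_mem hDdq
      have h3 : -((c.D0 : 𝓞 K) * -((i : 𝓞 K) - (i' : 𝓞 K))) =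
          (c.D0 : 𝓞 K) * ((i : 𝓞 K) - (i' : 𝓞 K)) := by ring
      rw [h3] at h2
      exact h2
  have hqi : ((i : 𝓞 K) - (i' : 𝓞 K)) ∈ q := by
    have h2 := coprime_of_primes q c.p.W hqW c.D0 hD0 hc.fam.D0_primes
    rw [Ideal.isCoprime_iff_exists] at h2
    obtain ⟨a, ha, b, hb, hab⟩ := h2
    obtain ⟨k, hk⟩ := Ideal.mem_span_singleton'.1 hb
    have h3 : ((i : 𝓞 K) - (i' : 𝓞 K)) = a * ((i : 𝓞 K) - (i' : 𝓞 K)) +
        k * ((c.D0 : 𝓞 K) * ((i : 𝓞 K) - (i' : 𝓞 K))) := by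
      calc ((i : 𝓞 K) - (i' : 𝓞 K)) = (a + b) * ((i : 𝓞 K) - (i' : 𝓞 K)) := by
            rw [hab, one_mul]
        _ = _ := by rw [← hk]; ring
    rw [h3]
    exact q.add_mem (Ideal.mul_mem_right _ _ ha) (Ideal.mul_mem_left _ _ hDi)
  refine ⟨q, hq0, hIge.trans hqm, hqG, hqi, hqW, ?_⟩
  obtain ⟨hbx1, hbx2⟩ := mem_XX_bounds c.p hp B
  set v := c.vv H i with hv
  set v' := c.vv H i' with hv'
  have hvp : PrimS v := hc.fam.prim _ _
  have hvp' : PrimS v' := hc.fam.prim _ _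
  have hsep : ∃ a : S → 𝓞 K, ∑ s, a s * v s = 0 ∧ ∑ s, a s * v' s = (Dd : 𝓞 K) := by
    obtain ⟨a, ha1, ha2⟩ := hc.fam.sep (JJ H) i i' hii
    rcases le_total 0 ((i : ℤ) - i') with h0 | h0
    · refine ⟨a, ha1, ?_⟩
      rw [hDz', abs_of_nonneg h0]
      exact ha2
    · refine ⟨fun s => -a s, ?_, ?_⟩
      · have : ∑ s, -a s * v s = -∑ s, a s * v s := by
          rw [← Finset.sum_neg_distrib]
          exact Finset.sum_congr rfl fun s _ => by ring
        rw [this]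
        change -∑ s, a s * c.v (JJ H) i s = 0
        rw [ha1, neg_zero]
      · have : ∑ s, -a s * v' s = -∑ s, a s * v' s := by
          rw [← Finset.sum_neg_distrib]
          exact Finset.sum_congr rfl fun s _ => by ring
        rw [this, hDz', abs_of_nonpos h0]
        change -∑ s, a s * c.v (JJ H) i' s = _
        rw [ha2]
        push_cast
        ring
  have hmu1 : 1 ≤ R * (B : ℝ) ^ (1 / ((2 : ℕ) : ℝ)) := by
    have : 1 ≤ (B : ℝ) ^ (1 / ((2 : ℕ) : ℝ)) := Real.one_le_rpow hB1 (by positivity)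
    nlinarith
  obtain ⟨u, hu⟩ := hs
  have hUpos : 0 < c.k1 / 2 * c.VV H := by positivity
  -- translation vectors
  have hex : ∀ l : 𝓞 K, l ∈ Ideal.span {(c.p.W : 𝓞 K) ^ s} * q →
      CIn (th * c.HH H * (B : ℝ) ^ 2) l → ∃ t : Idx 2 2 × S → 𝓞 K, F (ev t v) x = 0 ∧
      F (ev t v') y = l ∧ (∀ m, (c.p.Q : 𝓞 K) ∣ t m) ∧
      ∀ m j, |(crd (t m) j : ℝ)| ≤ c.c5 * (th / tau) * H := by
    intro l hl hlV
    obtain ⟨a, haq, hal⟩ := Ideal.mem_span_singleton_mul.mp hl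
    have hWs : (c.p.W : 𝓞 K) ^ s = (c.p.Q : 𝓞 K) * ((c.p.W : 𝓞 K) ^ G * u) := by
      have : ((c.p.W ^ s : ℕ) : 𝓞 K) = ((c.p.Q * c.p.W ^ G * u : ℕ) : 𝓞 K) := by rw [hu]
      push_cast at this
      rw [this]
      ring
    have hlQ : l = (c.p.Q : 𝓞 K) * ((u : 𝓞 K) * ((c.p.W : 𝓞 K) ^ G * a)) := by
      rw [← hal, hWs]
      ring
    have hmem : (u : 𝓞 K) * ((c.p.W : 𝓞 K) ^ G * a) ∈ I :=
      Ideal.mul_mem_left _ _ (hqmem a haq)
    obtain ⟨t, ht0, hts, htb⟩ := short_cross B hBpos x y hx.2.1 hy.2.1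
      (R * (B : ℝ) ^ (1 / ((2 : ℕ) : ℝ))) hmu1 hx.2.2 hy.2.2
      (fun w' => by
        obtain ⟨i, hi⟩ := hbx2 w'
        exact ⟨i, hi x hx.1, hi y hy.1⟩) (hbx1 x hx.1) hmg v v' hvp hvp' c.s0
      (c.k1 / 2 * c.VV H) hUpos (fun w' => hvge i' hi' w') (2 * c.VV H) (by linarith)
      (hvle i hi) (hvle i' hi') Dd hDdpos hsep _ hmem
    refine ⟨fun m => (c.p.Q : 𝓞 K) * t m, ?_, ?_, fun m => Dvd.intro _ rfl, ?_⟩
    · rw [ConicHP.F_ev_smul, ht0, mul_zero]
    · rw [ConicHP.F_ev_smul, hts, hlQ]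
    · intro m j
      have hkey : ∀ w', ‖sg w' ((c.p.Q : 𝓞 K) * t m)‖ ≤
          2 * c3 2 2 * cS K S * cK K / c.k1 * (th / tau) * H + th / tau * H / cK K := by
        intro w'
        have h5 := htb m w'
        have hdlw : tau * (B : ℝ) ^ 2 ≤ dl w' x y := hdl w'
        have hdlpos : 0 < dl w' x y := lt_of_lt_of_le (by positivity) hdlw
        have hlw := CIn_norm hlV w'
        rw [map_mul, norm_mul, sg_natCast, Complex.norm_natCast]
        set z : 𝓞 K := (u : 𝓞 K) * ((c.p.W : 𝓞 K) ^ G * a) with hz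
        have hlz : ‖sg w' l‖ = c.p.Q * ‖sg w' z‖ := by
          rw [hlQ, map_mul, norm_mul, sg_natCast, Complex.norm_natCast]
        have h6 : (c.p.Q : ℝ) * ‖sg w' (t m)‖ ≤ c.p.Q * (c3 2 2 * ‖sg w' z‖ /
            (dl w' x y * (c.k1 / 2 * c.VV H)) + cK K * (36 * (R *
              (B : ℝ) ^ (1 / ((2 : ℕ) : ℝ)) * (2 * c.VV H) +
              Fintype.card S * (2 * c.VV H) ^ 2))) :=
          mul_le_mul_of_nonneg_left h5 hQpos.le
        refine h6.trans ?_
        have h8 : (c.p.Q : ℝ) * (c3 2 2 * ‖sg w' z‖ / (dl w' x y * (c.k1 / 2 * c.VV H))) ≤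
            2 * c3 2 2 * cS K S * cK K / c.k1 * (th / tau) * H := by
          have : (c.p.Q : ℝ) * (c3 2 2 * ‖sg w' z‖ / (dl w' x y * (c.k1 / 2 * c.VV H))) =
              c3 2 2 * ‖sg w' l‖ / (dl w' x y * (c.k1 / 2 * c.VV H)) := by
            rw [hlz]; ring
          rw [this]
          rw [div_le_iff₀ (by positivity)]
          calc c3 2 2 * ‖sg w' l‖ ≤
              c3 2 2 * (cK K * (th * c.HH H * (B : ℝ) ^ 2)) :=
                mul_le_mul_of_nonneg_left hlw hc3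
            _ = 2 * c3 2 2 * cS K S * cK K / c.k1 * (th / tau) * H *
                ((tau * (B : ℝ) ^ 2) * (c.k1 / 2 * c.VV H)) := by
                rw [hHH]
                field_simp
            _ ≤ 2 * c3 2 2 * cS K S * cK K / c.k1 * (th / tau) * H *
                (dl w' x y * (c.k1 / 2 * c.VV H)) := by
                apply mul_le_mul_of_nonneg_left _ (by positivity)
                exact mul_le_mul_of_nonneg_right hdlw hUpos.le
        have h9 : (c.p.Q : ℝ) * (cK K * (36 * (R *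
              (B : ℝ) ^ (1 / ((2 : ℕ) : ℝ)) * (2 * c.VV H) +
              Fintype.card S * (2 * c.VV H) ^ 2))) ≤ th / tau * H / cK K := by
          have hB2 : (B : ℝ) ^ (1 / ((2 : ℕ) : ℝ)) = (B : ℝ) ^ (1 / 2 : ℝ) := by norm_num
          rw [hB2]
          have hBr : 1 ≤ (B : ℝ) ^ (1 / 2 : ℝ) := Real.one_le_rpow hB1 (by positivity)
          have hJ2 : (1 : ℝ) ≤ (JJ H : ℝ) ^ 2 := one_le_pow₀ hJ1
          have hVV2 : (c.VV H : ℝ) ^ 2 ≤ (c.VV H : ℝ) ^ 2 * (JJ H : ℝ) ^ 2 :=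
            le_mul_of_one_le_right (by positivity) hJ2
          have hVV : (c.VV H : ℝ) ≤ (c.VV H : ℝ) ^ 2 * (JJ H : ℝ) ^ 2 := by
            have : (c.VV H : ℝ) ≤ (c.VV H : ℝ) ^ 2 := by nlinarith
            exact this.trans hVV2
          have e1 : R * (B : ℝ) ^ (1 / 2 : ℝ) * (2 * c.VV H) ≤
              2 * R * (((c.VV H : ℝ) ^ 2 * (JJ H : ℝ) ^ 2) * (B : ℝ) ^ (1 / 2 : ℝ)) := by
            calc R * (B : ℝ) ^ (1 / 2 : ℝ) * (2 * c.VV H) =
                2 * R * (c.VV H * (B : ℝ) ^ (1 / 2 : ℝ)) := by ring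
              _ ≤ _ := by
                apply mul_le_mul_of_nonneg_left _ (by positivity)
                exact mul_le_mul_of_nonneg_right hVV (by positivity)
          have e2 : (Fintype.card S : ℝ) * (2 * c.VV H) ^ 2 ≤
              4 * Fintype.card S *
                (((c.VV H : ℝ) ^ 2 * (JJ H : ℝ) ^ 2) * (B : ℝ) ^ (1 / 2 : ℝ)) := by
            calc (Fintype.card S : ℝ) * (2 * c.VV H) ^ 2 =
                4 * Fintype.card S * ((c.VV H : ℝ) ^ 2 * 1) := by ring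
              _ ≤ _ := by
                apply mul_le_mul_of_nonneg_left _ (by positivity)
                exact mul_le_mul hVV2 hBr (by norm_num) (by positivity)
          have h10 := mul_le_mul_of_nonneg_right h1
            (by positivity : (0 : ℝ) ≤ th / tau / cK K)
          have h11 : cK K ^ 2 * c.p.Q * 36 * (2 * R + 4 * Fintype.card S) * tau / th *
              ((c.VV H : ℝ) ^ 2 * (JJ H : ℝ) ^ 2) * (B : ℝ) ^ (1 / 2 : ℝ) *
              (th / tau / cK K) = c.p.Q * (cK K * (36 * ((2 * R + 4 * Fintype.card S) *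
              (((c.VV H : ℝ) ^ 2 * (JJ H : ℝ) ^ 2) * (B : ℝ) ^ (1 / 2 : ℝ))))) := by
            field_simp
          rw [h11] at h10
          calc _ ≤ (c.p.Q : ℝ) * (cK K * (36 * (2 * R * (((c.VV H : ℝ) ^ 2 * (JJ H : ℝ) ^ 2) *
              (B : ℝ) ^ (1 / 2 : ℝ)) + 4 * Fintype.card S *
              (((c.VV H : ℝ) ^ 2 * (JJ H : ℝ) ^ 2) * (B : ℝ) ^ (1 / 2 : ℝ))))) := by
                gcongr
            _ = c.p.Q * (cK K * (36 * ((2 * R + 4 * Fintype.card S) *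
              (((c.VV H : ℝ) ^ 2 * (JJ H : ℝ) ^ 2) * (B : ℝ) ^ (1 / 2 : ℝ))))) := by ring
            _ ≤ H * (th / tau / cK K) := h10
            _ = _ := by ring
        rw [mul_add]
        exact add_le_add h8 h9
      refine (crd_le_of_norm_sg hkey j).trans (le_of_eq ?_)
      unfold CPar.c5
      field_simp
  choose! T hT using hex
  set Lv : Set (𝓞 K) := {l : 𝓞 K | l ∈ Ideal.span {(c.p.W : 𝓞 K) ^ s} * q ∧
    CIn (th * c.HH H * (B : ℝ) ^ 2) l} with hLv
  set S1 : Set (Idx 2 2 × S → 𝓞 K) := {A | A ∈ c.Cl c.p.rho H ∧ F (ev A v) x = 0 ∧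
    F (ev A v') y = 0} with hS1
  set S2 : Set (Idx 2 2 × S → 𝓞 K) := {A | A ∈ c.Cl (c.p.rho + c.c5 * (th / tau)) H ∧
    F (ev A v) x = 0 ∧ (c.p.W : 𝓞 K) ^ s ∣ F (ev A v') y ∧
    CIn (th * c.HH H * (B : ℝ) ^ 2) (F (ev A v') y)} with hS2
  have hS2fin : S2.Finite := (Cl_finite c _ H).subset fun A hA => hA.1
  have hcard : (Lv ×ˢ S1).ncard ≤ S2.ncard := by
    refine Set.ncard_le_ncard_of_injOn (fun a => fun m => a.2 m + T a.1 m) ?_ ?_ hS2fin
    · rintro ⟨l, A⟩ ⟨hl, hA⟩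
      obtain ⟨hT1, hT2, hT3, hT4⟩ := hT l hl.1 hl.2
      have hFy : F (ev (fun m => A m + T l m) v') y = l := by
        rw [ConicHP.F_ev_add, hA.2.2, hT2, zero_add]
      refine ⟨⟨?_, ?_⟩, ?_, ?_, ?_⟩
      · intro m j
        have ha := hA.1.1 m j
        have hb := hT4 m j
        show |(crd (A m + T l m) j : ℝ) - H * c.AC m j| ≤ _
        rw [crd_add]
        push_cast
        have : (crd (A m) j : ℝ) + crd (T l m) j - H * c.AC m j =
            ((crd (A m) j : ℝ) - H * c.AC m j) + crd (T l m) j := by ring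
        rw [this]
        calc |((crd (A m) j : ℝ) - H * c.AC m j) + crd (T l m) j|
            ≤ |(crd (A m) j : ℝ) - H * c.AC m j| + |(crd (T l m) j : ℝ)| := abs_add_le _ _
          _ ≤ c.p.rho * H + c.c5 * (th / tau) * H := add_le_add ha hb
          _ = (c.p.rho + c.c5 * (th / tau)) * H := by ring
      · intro m
        have ha := hA.1.2 m
        show (c.p.Q : 𝓞 K) ∣ A m + T l m - c.A0 m
        have : A m + T l m - c.A0 m = (A m - c.A0 m) + T l m := by ring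
        rw [this]
        exact dvd_add ha (hT3 m)
      · show F (ev (fun m => A m + T l m) v) x = 0
        rw [ConicHP.F_ev_add, hA.2.1, hT1, add_zero]
      · show (c.p.W : 𝓞 K) ^ s ∣ F (ev (fun m => A m + T l m) v') y
        rw [hFy]
        obtain ⟨a, -, hal⟩ := Ideal.mem_span_singleton_mul.mp hl.1
        exact ⟨a, hal.symm⟩
      · show CIn (th * c.HH H * (B : ℝ) ^ 2) (F (ev (fun m => A m + T l m) v') y)
        rw [hFy]
        exact hl.2
    · rintro ⟨l, A⟩ ⟨hl, hA⟩ ⟨l', A'⟩ ⟨hl', hA'⟩ heq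
      simp only at heq hA hA' hl hl'
      have h5 : F (ev (fun m => A m + T l m) v') y = F (ev (fun m => A' m + T l' m) v') y := by
        rw [heq]
      rw [ConicHP.F_ev_add, ConicHP.F_ev_add, hA.2.2, hA'.2.2, (hT l hl.1 hl.2).2.1,
        (hT l' hl'.1 hl'.2).2.1, zero_add, zero_add] at h5
      subst h5
      have : A = A' := by
        funext m
        have := congrFun heq m
        exact add_right_cancel this
      rw [this]
  rw [Set.ncard_prod] at hcard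
  have hLev : c.Lev th (Ideal.span {(c.p.W : 𝓞 K) ^ s} * q) H = ((Lv.ncard : ℕ) : ℝ) := rfl
  rw [hLev]
  exact_mod_cast hcard

end NKCHP
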