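import Pool.Agent.Lib.MP_e426f4_ag.CK.NLoc
import Pool.Agent.Lib.MP_e426f4_ag.CK.FirstUpper
import Pool.Agent.Lib.MP_e426f4_ag.CK.TransPair
import Pool.Agent.Lib.MP_e426f4_ag.CK.GcdSums
import Pool.Agent.Lib.MP_e426f4_ag.N.Ideals
import Pool.Agent.Lib.MP_e426f4_ag.N.Minors

/-!
CK-SecondMain: main pairs. Templates: C/SecondMain.lean (double counting with q and the congruence i = i' mod q), NK/SecondMain.lean (ideals). Given R, G, tau choose th (rho + c5 th/tau <= 3/2 rho and (1 + c5 th/(tau rho))^(m MM) <= 1 + eps, th <= th1), s with Q W^G | W^s. For each (A, i, x) in Pairs(rho + c5 th/tau) and each q (norm <= G, coprime to W): the i' <= JJ with i' /= i,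
i - i' in q: at most JJ/N(q)^(1/m) (card_congr_leK); for each such i' the y in GC with mgI x y <= q lie in N q classes y = l x mod q (NFHP.exists_mod), so nloc (system sy (ev A (vv H i')), ev_near with r = 3/2 rho) gives <= N q (1 + eps) TL/N q^3 points with W^s | F and CIn. Weight 1/Lev(W^s q) ~ N q/Lev(W^s) (Lev_asymp, finitely many q: NFHP.finite_ideals).
Sum over q of N q * JJ/N(q)^(1/m) * TL (1+eps)/N q^2 = JJ TL (1+eps) sum_q N(q)^(-1-1/m) <= JJ TL (1+eps)(1 + E) (q = top, or norm > w by W_primes: TailE). TL/Lev(W^s) = T1 (TL_eq), S1_upper: total (1 + 40 eps + 5 E) TT^2 XR.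
-/

namespace NKCHP

open NumberField GenHP NFHP NKHP Finset Filter Topology
open ConicHP (ev JJ)

variable {K : Type} [Field K] [NumberField K] {S : Type} [Fintype S]

private theorem ckm_count {α β ι : Type*} (C0 C1 : Finset α) (GF : Finset β) (e l : α → β → Prop)
    (dv : ι → β → β → Prop) (good : β → β → Prop) [∀ A x, Decidable (e A x)]
    [∀ A x, Decidable (l A x)] [∀ q x y, Decidable (dv q x y)]
    [∀ x y, Decidable (good x y)] (QQ : Finset ι) (N : ι → ℝ) (hN : ∀ q, 0 ≤ N q)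
    (c : ℝ) (hc : 0 ≤ c) (b : ι → ℝ)
    (h1 : ∀ x ∈ GF, ∀ y ∈ GF, good x y → ∃ q ∈ QQ, dv q x y ∧
      ((C0.filter (fun A => e A x ∧ e A y)).card : ℝ) ≤
        c * N q * ((C1.filter (fun A => e A x ∧ l A y)).card : ℝ))
    (h2 : ∀ A ∈ C1, ∀ x ∈ GF, e A x → ∀ q ∈ QQ,
      ((GF.filter (fun y => dv q x y ∧ l A y)).card : ℝ) ≤ b q) :
    (((C0 ×ˢ (GF ×ˢ GF)).filter
      (fun t => e t.1 t.2.1 ∧ e t.1 t.2.2 ∧ good t.2.1 t.2.2)).card : ℝ) ≤
      c * (∑ q ∈ QQ, N q * b q) * (((C1 ×ˢ GF).filter (fun p => e p.1 p.2)).card : ℝ) := by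
  have e1 : (((C0 ×ˢ (GF ×ˢ GF)).filter
      (fun t => e t.1 t.2.1 ∧ e t.1 t.2.2 ∧ good t.2.1 t.2.2)).card : ℝ) =
      ∑ x ∈ GF, ∑ y ∈ GF, if good x y then
        ((C0.filter (fun A => e A x ∧ e A y)).card : ℝ) else 0 := by
    rw [Finset.card_filter]
    push_cast
    rw [Finset.sum_product, Finset.sum_comm, Finset.sum_product]
    refine Finset.sum_congr rfl fun x _ => Finset.sum_congr rfl fun y _ => ?_
    by_cases hg : good x y
    · rw [if_pos hg, Finset.card_filter]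
      push_cast
      refine Finset.sum_congr rfl fun A _ => ?_
      simp only [hg, and_true]
    · rw [if_neg hg]
      refine Finset.sum_eq_zero fun A _ => ?_
      simp only [hg, and_false, if_false]
  have e2 : ∀ x ∈ GF, ∀ y ∈ GF, (if good x y then
        ((C0.filter (fun A => e A x ∧ e A y)).card : ℝ) else 0) ≤
      ∑ q ∈ QQ, ∑ A ∈ C1, c * N q * (if (e A x) then (if (dv q x y ∧ l A y) then 1 else 0) else 0) := by
    intro x hx y hy
    have hnn : ∀ q ∈ QQ, 0 ≤ ∑ A ∈ C1, c * N q *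
        (if (e A x) then (if (dv q x y ∧ l A y) then 1 else 0) else 0) := by
      intro q _
      refine Finset.sum_nonneg fun A _ => ?_
      refine mul_nonneg (mul_nonneg hc (hN q)) ?_
      split_ifs <;> norm_num
    by_cases hg : good x y
    · rw [if_pos hg]
      obtain ⟨q, hq, hqm, hle⟩ := h1 x hx y hy hg
      refine hle.trans ?_
      refine le_trans (le_of_eq ?_) (Finset.single_le_sum hnn hq)
      rw [Finset.card_filter, ← Finset.mul_sum]
      push_cast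
      congr 1
      refine Finset.sum_congr rfl fun A _ => ?_
      by_cases h3 : e A x <;> by_cases h4 : l A y <;> simp [h3, h4, hqm]
    · rw [if_neg hg]
      exact Finset.sum_nonneg hnn
  rw [e1]
  refine (Finset.sum_le_sum fun x hx => Finset.sum_le_sum fun y hy => e2 x hx y hy).trans ?_
  have e3 : ∑ x ∈ GF, ∑ y ∈ GF, ∑ q ∈ QQ, ∑ A ∈ C1, c * N q *
        (if (e A x) then (if (dv q x y ∧ l A y) then (1 : ℝ) else 0) else 0) =
      ∑ q ∈ QQ, ∑ A ∈ C1, ∑ x ∈ GF, c * N q * (if (e A x) then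
        ((GF.filter (fun y => dv q x y ∧ l A y)).card : ℝ) else 0) := by
    have e4 : ∀ x ∈ GF, (∑ y ∈ GF, ∑ q ∈ QQ, ∑ A ∈ C1, c * N q *
        (if (e A x) then (if (dv q x y ∧ l A y) then (1 : ℝ) else 0) else 0)) =
        ∑ q ∈ QQ, ∑ A ∈ C1, c * N q * (if (e A x) then
        ((GF.filter (fun y => dv q x y ∧ l A y)).card : ℝ) else 0) := by
      intro x _
      rw [Finset.sum_comm]
      refine Finset.sum_congr rfl fun q _ => ?_
      rw [Finset.sum_comm]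
      refine Finset.sum_congr rfl fun A _ => ?_
      rw [← Finset.mul_sum]
      congr 1
      by_cases h3 : e A x
      · simp only [h3, if_true]
        rw [Finset.card_filter]
        push_cast
        rfl
      · simp only [h3, if_false, Finset.sum_const_zero]
    rw [Finset.sum_congr rfl e4, Finset.sum_comm]
    refine Finset.sum_congr rfl fun q _ => ?_
    rw [Finset.sum_comm]
  rw [e3]
  have e5 : ∀ q ∈ QQ, ∑ A ∈ C1, ∑ x ∈ GF, c * N q * (if (e A x) then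
        ((GF.filter (fun y => dv q x y ∧ l A y)).card : ℝ) else 0) ≤
      c * (N q * b q) * (((C1 ×ˢ GF).filter (fun p => e p.1 p.2)).card : ℝ) := by
    intro q hq
    rw [Finset.card_filter]
    push_cast
    rw [Finset.sum_product, Finset.mul_sum]
    refine Finset.sum_le_sum fun A hA => ?_
    rw [Finset.mul_sum]
    refine Finset.sum_le_sum fun x hx => ?_
    by_cases h3 : e A x
    · rw [if_pos h3, if_pos h3, mul_one, ← mul_assoc]
      exact mul_le_mul_of_nonneg_left (h2 A hA x hx h3 q hq) (mul_nonneg hc (hN q))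
    · rw [if_neg h3, if_neg h3, mul_zero, mul_zero]
  refine (Finset.sum_le_sum e5).trans (le_of_eq ?_)
  rw [← Finset.sum_mul, ← Finset.mul_sum]

private theorem ckm_norm (p : Par K 2 e22) {eps k0 : ℝ} {w : ℕ} (hp : PV p eps k0 w)
    (q : Ideal (𝓞 K)) (hq0 : q ≠ ⊥) (hq1 : q ≠ ⊤)
    (hqW : IsCoprime q (Ideal.span {(p.W : 𝓞 K)})) : w < Ideal.absNorm q := by
  obtain ⟨P, hP, hqP⟩ := Ideal.exists_le_maximal q hq1
  have hP0 : P ≠ ⊥ := fun h => hq0 (le_bot_iff.1 (h ▸ hqP))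
  have hmem : ((Ideal.absNorm q : ℕ) : 𝓞 K) ∈ P := hqP (Ideal.absNorm_mem q)
  have hNq : Ideal.absNorm q ≠ 0 := (absNorm_pos hq0).ne'
  have hNq1 : Ideal.absNorm q ≠ 1 := fun h => hq1 (Ideal.absNorm_eq_one_iff.1 h)
  -- a prime factor of the norm lies in P
  have hex : ∃ l : ℕ, l.Prime ∧ l ∣ Ideal.absNorm q ∧ ((l : ℕ) : 𝓞 K) ∈ P := by
    by_contra hcon
    push Not at hcon
    have h1 : ∀ m : ℕ, m ∣ Ideal.absNorm q → ((m : ℕ) : 𝓞 K) ∉ P := by
      intro m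
      induction m using Nat.recOnMul with
      | zero => intro h _; exact hNq (zero_dvd_iff.1 h)
      | one => intro _ h; exact hP.ne_top ((Ideal.eq_top_iff_one P).2 (by simpa using h))
      | prime l hl => intro h; exact hcon l hl h
      | mul a b ha hb =>
        intro h hab
        rw [Nat.cast_mul] at hab
        rcases hP.isPrime.mem_or_mem hab with h2 | h2
        · exact ha ((Dvd.intro _ rfl).trans h) h2
        · exact hb ((Dvd.intro_left _ rfl).trans h) h2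
    exact h1 _ dvd_rfl hmem
  obtain ⟨l, hl, hlq, hlP⟩ := hex
  have hlw : w < l := by
    by_contra hcon
    have h1 : l ∣ p.W := (hp.W_primes l hl).2 (by omega)
    have h2 : ((p.W : ℕ) : 𝓞 K) ∈ P := by
      obtain ⟨m, hm⟩ := h1
      rw [hm, Nat.cast_mul]
      exact Ideal.mul_mem_right _ _ hlP
    have h3 : q ⊔ Ideal.span {(p.W : 𝓞 K)} ≤ P :=
      sup_le hqP ((Ideal.span_singleton_le_iff_mem P).2 h2)
    rw [Ideal.isCoprime_iff_sup_eq.1 hqW] at h3
    exact hP.ne_top (top_le_iff.1 h3)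
  exact hlw.trans_le (Nat.le_of_dvd (Nat.pos_of_ne_zero hNq) hlq)

private theorem ckm_sum (p : Par K 2 e22) {eps k0 : ℝ} {w : ℕ} (hp : PV p eps k0 w)
    (E : ℝ) (hE : TailE K w E)
    (QQ : Finset (Ideal (𝓞 K)))
    (hQQ : ∀ q ∈ QQ, q ≠ ⊥ ∧ IsCoprime q (Ideal.span {(p.W : 𝓞 K)})) :
    ∑ q ∈ QQ, (1 : ℝ) / (Ideal.absNorm q : ℝ) ^ (1 + 1 / (mK K : ℝ)) ≤ 1 + E := by
  classical
  have h1 : QQ ⊆ insert ⊤ (QQ.erase ⊤) := by
    intro q hq
    rw [Finset.mem_insert, Finset.mem_erase]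
    tauto
  refine (Finset.sum_le_sum_of_subset_of_nonneg h1 fun q _ _ => by positivity).trans ?_
  rw [Finset.sum_insert (Finset.notMem_erase _ _)]
  refine add_le_add ?_ (hE _ fun q hq => ?_)
  · simp [Ideal.absNorm_top]
  · rw [Finset.mem_erase] at hq
    exact ckm_norm p hp q (hQQ q hq.2).1 hq.1 (hQQ q hq.2).2

private theorem ckm_num (e v : ℝ) (N : ℕ) (hN : 0 < N) (he : 0 < e) (he1 : e ≤ 1 / 10)
    (hv : 0 ≤ v) :
    (1 + 2 * e) * (1 + e) * (1 + v) * ((1 + 8 * e) * (1 + e / N) ^ N) ≤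
      1 + 40 * e + 5 * v := by
  have hNr : (0 : ℝ) < N := by exact_mod_cast hN
  have h1 : (1 + e / N) ^ N ≤ 1 + e + e ^ 2 := by
    have h2 : 1 + e / N ≤ Real.exp (e / N) := by
      have := Real.add_one_le_exp (e / N)
      linarith
    have h3 : (1 + e / N) ^ N ≤ Real.exp (e / N) ^ N := pow_le_pow_left₀ (by positivity) h2 N
    rw [← Real.exp_nat_mul] at h3
    have h4 : (N : ℝ) * (e / N) = e := by field_simp
    rw [h4] at h3
    have h5 := Real.abs_exp_sub_one_sub_id_le (x := e) (by rw [abs_of_pos he]; linarith)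
    rw [abs_le] at h5
    linarith
  have h2 : (1 + 8 * e) * (1 + e / N) ^ N ≤ 1 + 10 * e := by
    calc (1 + 8 * e) * (1 + e / N) ^ N ≤ (1 + 8 * e) * (1 + e + e ^ 2) :=
          mul_le_mul_of_nonneg_left h1 (by positivity)
      _ ≤ 1 + 10 * e := by nlinarith [mul_pos he he, mul_nonneg (mul_nonneg he.le he.le) he.le]
  have h3 : (1 + 2 * e) * (1 + e) ≤ 1 + 32 / 10 * e := by nlinarith
  have h4 : (1 + 2 * e) * (1 + e) * (1 + v) ≤ (1 + 32 / 10 * e) * (1 + v) :=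
    mul_le_mul_of_nonneg_right h3 (by positivity)
  have h5 : (1 + 32 / 10 * e) * (1 + 10 * e) ≤ 1 + 165 / 10 * e := by nlinarith
  have h6 : 1 + 165 / 10 * e ≤ 5 := by linarith
  calc _ ≤ (1 + 32 / 10 * e) * (1 + v) * (1 + 10 * e) :=
        mul_le_mul h4 h2 (by positivity) (by positivity)
    _ = (1 + 32 / 10 * e) * (1 + 10 * e) * (1 + v) := by ring
    _ ≤ (1 + 165 / 10 * e) * (1 + v) := mul_le_mul_of_nonneg_right h5 (by positivity)
    _ = 1 + 165 / 10 * e + (1 + 165 / 10 * e) * v := by ring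
    _ ≤ 1 + 165 / 10 * e + 5 * v := by
        have := mul_le_mul_of_nonneg_right h6 hv
        linarith
    _ ≤ 1 + 40 * e + 5 * v := by linarith

/-- representatives of the classes modulo an ideal -/
private theorem ckm_reps (q : Ideal (𝓞 K)) (hq : q ≠ ⊥) :
    ∃ L : Finset (𝓞 K), L.card ≤ Ideal.absNorm q ∧ ∀ a : 𝓞 K, ∃ l ∈ L, a - l ∈ q := by
  classical
  have : Finite (𝓞 K ⧸ q) := Ideal.finiteQuotientOfFreeOfNeBot q hq
  have : Fintype (𝓞 K ⧸ q) := Fintype.ofFinite _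
  refine ⟨Finset.univ.image (fun c : 𝓞 K ⧸ q => Quotient.out c), ?_, fun a => ?_⟩
  · refine Finset.card_image_le.trans (le_of_eq ?_)
    rw [Finset.card_univ, ← Nat.card_eq_fintype_card]
    rfl
  · refine ⟨Quotient.out (Ideal.Quotient.mk q a), Finset.mem_image_of_mem _ (Finset.mem_univ _), ?_⟩
    rw [← Ideal.Quotient.eq]
    exact (Quotient.out_eq (Ideal.Quotient.mk q a)).symm

private theorem ckm_alg (v u J T : ℝ) (hv : 0 < v) (hu : 0 < u) :
    v * (J / u * (v * (T / v ^ (2 + 1)))) = J * T * (1 / (v * u)) := by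
  field_simp
  ring

private theorem ckm_T1 (c : CPar K S) {eps k0 : ℝ} {w : ℕ} (hc : c.Valid eps k0 w) :
    ∀ᶠ H : ℝ in atTop, 0 ≤ c.T1 H := by
  obtain ⟨C, hC, h⟩ := T1_bounds c hc
  exact h.mono fun H hH => hC.le.trans hH

theorem S2_main (c : CPar K S) {eps k0 : ℝ} {w : ℕ} (hc : c.Valid eps k0 w)
    (E : ℝ) (hE : TailE K w E)
    (R : ℝ) (hR : 1 ≤ R) (G : ℕ) (hG : 1 ≤ G) (tau : ℝ) (ht : 0 < tau) (ht1 : tau ≤ 1) :
    ∀ᶠ H : ℝ in atTop,
      ((c.TMain R G tau H).ncard : ℝ) ≤ (1 + 40 * eps + 5 * E) * c.TT H ^ 2 * c.XR c.p.rho H := by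
  classical
  have hp := hc.pv
  have hE0 : 0 ≤ E := by simpa using hE ∅ (by simp)
  have he := hp.eps_pos
  have he1 := hp.eps_le
  have hrho := hp.rho_pos
  have hW := hp.W_pos
  have hQ := hp.Q_pos
  have hWr : (0 : ℝ) < c.p.W := by exact_mod_cast hW
  have hQr : (0 : ℝ) < c.p.Q := by exact_mod_cast hQ
  have hm0 : 0 < mK K := mK_pos
  have hmr : (0 : ℝ) < mK K := by exact_mod_cast hm0
  have : Nonempty S := ⟨c.s0⟩
  have hMM : 0 < MM S := by
    have h1 : 0 < Fintype.card (Idx 2 2) := NN_pos 2 2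
    have h2 : 0 < Fintype.card S := Fintype.card_pos
    unfold MM
    rw [Fintype.card_prod]
    exact Nat.mul_pos h1 h2
  obtain ⟨N, hNdef⟩ : ∃ N : ℕ, N = mK K * MM S := ⟨_, rfl⟩
  have hN0 : 0 < N := by rw [hNdef]; exact Nat.mul_pos hm0 hMM
  have hNr : (0 : ℝ) < N := by exact_mod_cast hN0
  have hN1 : (1 : ℝ) ≤ N := by exact_mod_cast hN0
  have hcK : 1 ≤ cK K := one_le_cK
  have hcS : 1 ≤ cS K S := cS_ge c hc
  have hk1 := hc.fam.k1_pos
  have hc50 : 0 < c.c5 := by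
    unfold CPar.c5
    have h3 : (0 : ℝ) ≤ c3 2 2 := by
      unfold c3
      positivity
    have h0 : (0 : ℝ) ≤ 2 * c3 2 2 * cS K S * cK K ^ 2 / c.k1 := by
      refine div_nonneg (mul_nonneg (mul_nonneg (mul_nonneg (by norm_num) h3) (by linarith))
        (by positivity)) hk1.le
    linarith
  obtain ⟨s0, hs0⟩ := hp.hens.2.1
  obtain ⟨th, hth, hth2, hth3⟩ : ∃ th : ℝ, 0 < th ∧ th ≤ c.p.th1 ∧
      th ≤ eps * c.p.rho * tau / (c.c5 * N) :=
    ⟨min c.p.th1 (eps * c.p.rho * tau / (c.c5 * N)), lt_min hp.th1_pos (by positivity),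
      min_le_left _ _, min_le_right _ _⟩
  set s : ℕ := s0 + G with hs
  have hsG : c.p.Q * c.p.W ^ G ∣ c.p.W ^ s := by
    rw [hs, pow_add, ← hs0]
  have hsQ : c.p.Q ∣ c.p.W ^ s := (Dvd.intro _ rfl).trans hsG
  set r1 : ℝ := c.p.rho + c.c5 * (th / tau) with hr1
  have hr1a : c.p.rho ≤ r1 := by
    have : 0 ≤ c.c5 * (th / tau) := by positivity
    linarith only [this, hr1]
  have hr1b : r1 ≤ c.p.rho * (1 + eps / N) := by
    have h1 : c.c5 * (th / tau) ≤ eps * c.p.rho / N := by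
      rw [mul_div_assoc', div_le_div_iff₀ ht hNr]
      rw [le_div_iff₀ (by positivity)] at hth3
      linarith
    have h2 : c.p.rho * (1 + eps / N) = c.p.rho + eps * c.p.rho / N := by ring
    rw [hr1, h2]
    linarith only [h1]
  have hr1c : r1 ≤ 3 / 2 * c.p.rho := by
    have h1 : eps / N ≤ 1 / 2 := by
      rw [div_le_iff₀ hNr]
      linarith only [hN1, he, he1]
    have h2 : c.p.rho * (1 + eps / N) ≤ 3 / 2 * c.p.rho := by
      have := mul_le_mul_of_nonneg_left h1 hrho.le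
      linarith
    linarith only [h2, hr1b]
  have hr1d : r1 ≤ 8 / 5 * c.p.rho := by linarith only [hr1c, hrho]
  set QQ : Finset (Ideal (𝓞 K)) := (finite_ideals (K := K) G).toFinset.filter
    (fun q => IsCoprime q (Ideal.span {(c.p.W : 𝓞 K)})) with hQQ
  have hmemQQ : ∀ q, q ∈ QQ ↔ (q ≠ ⊥ ∧ Ideal.absNorm q ≤ G) ∧
      IsCoprime q (Ideal.span {(c.p.W : 𝓞 K)}) := by
    intro q
    rw [hQQ, Finset.mem_filter, Set.Finite.mem_toFinset]
    rfl
  set T' : ℕ → ℝ := fun B => c.p.TL th s B with hT'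
  -- uniform version of the local count
  obtain ⟨B0, hB0⟩ : ∃ B0 : ℕ, ∀ q ∈ QQ, ∀ B : ℕ, B0 ≤ B → ∀ H : ℝ, 0 < H →
      ∀ A : CIHP.Sys 2 e22 (𝓞 K),
      (∀ i t j, |(crd (A i t) j : ℝ) - H * c.p.Ainf i t j| ≤ 3 * c.p.rho * H) →
      (∀ i t, (c.p.Q : 𝓞 K) ∣ A i t - c.p.A0 i t) → ∀ z : Fin (2 + 1) → 𝓞 K,
      (Set.ncard {x : Fin (2 + 1) → 𝓞 K | x ∈ c.p.XX B ∧ (∀ i, (c.p.W : 𝓞 K) ^ s ∣ F (A i) x ∧
          CIn (th * H * (B : ℝ) ^ e22 i) (F (A i) x)) ∧ ∀ i, x i - z i ∈ q} : ℝ) ≤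
        (1 + eps) * T' B / (Ideal.absNorm q : ℝ) ^ (2 + 1) := by
    have h1 : ∀ q : Ideal (𝓞 K), ∃ B0 : ℕ, q ∈ QQ → ∀ B : ℕ, B0 ≤ B → ∀ H : ℝ, 0 < H →
      ∀ A : CIHP.Sys 2 e22 (𝓞 K),
      (∀ i t j, |(crd (A i t) j : ℝ) - H * c.p.Ainf i t j| ≤ 3 * c.p.rho * H) →
      (∀ i t, (c.p.Q : 𝓞 K) ∣ A i t - c.p.A0 i t) → ∀ z : Fin (2 + 1) → 𝓞 K,
      (Set.ncard {x : Fin (2 + 1) → 𝓞 K | x ∈ c.p.XX B ∧ (∀ i, (c.p.W : 𝓞 K) ^ s ∣ F (A i) x ∧
          CIn (th * H * (B : ℝ) ^ e22 i) (F (A i) x)) ∧ ∀ i, x i - z i ∈ q} : ℝ) ≤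
        (1 + eps) * T' B / (Ideal.absNorm q : ℝ) ^ (2 + 1) := by
      intro q
      by_cases hq : q ∈ QQ
      · have hq' := (hmemQQ q).1 hq
        obtain ⟨B0, h⟩ := nloc c.p hp th hth hth2 s hsQ q hq'.1.1 hq'.2
        exact ⟨B0, fun _ B hB H hH A h1 h2 z => (h B hB H hH A h1 h2 z).2⟩
      · exact ⟨0, fun h => absurd h hq⟩
    choose f hf using h1
    refine ⟨QQ.sup f, fun q hq B hB => hf q hq B ((Finset.le_sup hq).trans hB)⟩
  have hWs : (0 : ℝ) < (c.p.W : ℝ) ^ s := by positivity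
  have hWK : (c.p.W : 𝓞 K) ≠ 0 := by exact_mod_cast hW.ne'
  have hWsI : Ideal.span {(c.p.W : 𝓞 K) ^ s} ≠ ⊥ := by
    rw [Ne, Ideal.span_singleton_eq_bot]
    exact pow_ne_zero s hWK
  have hWsN : (Ideal.absNorm (Ideal.span {(c.p.W : 𝓞 K) ^ s}) : ℝ) =
      ((c.p.W : ℝ) ^ s) ^ mK K := by
    rw [absNorm_span_W]
    push_cast
    rfl
  have hev1 : ∀ᶠ H : ℝ in atTop, max B0 1 ≤ c.BB H :=
    (BB_atTop c hc).eventually_ge_atTop _
  have hlevs : ∀ᶠ H : ℝ in atTop, ∀ q ∈ QQ,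
      (1 - eps) * ((2 * (th * c.HH H * (c.BB H : ℝ) ^ 2)) ^ mK K /
        (Ideal.absNorm (Ideal.span {(c.p.W : 𝓞 K) ^ s} * q) : ℝ)) ≤
        c.Lev th (Ideal.span {(c.p.W : 𝓞 K) ^ s} * q) H := by
    rw [Filter.eventually_all_finset]
    intro q hq
    have hq' := (hmemQQ q).1 hq
    exact (Lev_asymp c hc th hth (Ideal.span {(c.p.W : 𝓞 K) ^ s} * q)
      (mul_ne_zero hWsI hq'.1.1) eps he).mono fun H h => h.1
  filter_upwards [trans_pair c hc R hR G hG tau ht ht1 th hth s hsG,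
    S1_upper c hc R hR r1 hr1a hr1c, hev1, hlevs, ev_near c hc r1 hr1d,
    TL_eq c hc th hth s, HH_pos c hc, ckm_T1 c hc,
    eventually_ge_atTop (1 : ℝ)] with H hTP hS1 hB1 hlev0 hnear hTL hHH hT10 hHr
  have hH0 : (0 : ℝ) < H := by linarith only [hHr]
  have hHH0 : 0 < c.HH H := hHH.1
  have hBB0 : B0 ≤ c.BB H := (le_max_left _ _).trans hB1
  have hB1' : (1 : ℝ) ≤ c.BB H := by exact_mod_cast (le_max_right _ _).trans hB1
  set B := c.BB H with hB
  have hBpos : (0 : ℝ) < B := by linarith only [hB1']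
  obtain ⟨LV, hLV⟩ : ∃ LV : ℝ, LV =
      (2 * (th * c.HH H * (B : ℝ) ^ 2) / (c.p.W : ℝ) ^ s) ^ mK K := ⟨_, rfl⟩
  have hLV0 : 0 < LV := by
    rw [hLV]
    positivity
  set cc : ℝ := (1 + 2 * eps) / LV with hcc
  have hc0 : 0 < cc := by positivity
  -- finsets
  set C0 := (Cl_finite c c.p.rho H).toFinset with hC0
  set C1 := (Cl_finite c r1 H).toFinset with hC1
  set GF : Finset (ℕ × (Fin (2 + 1) → 𝓞 K)) :=
    (Finset.range (JJ H)) ×ˢ (GC_finite c R H).toFinset with hGF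
  have hGFm : ∀ z, z ∈ GF ↔ z.1 < JJ H ∧ z.2 ∈ c.GC R H := by
    intro z
    rw [hGF, Finset.mem_product, Finset.mem_range, Set.Finite.mem_toFinset]
  have hC0m : ∀ A, A ∈ C0 ↔ A ∈ c.Cl c.p.rho H := by
    intro A
    rw [hC0, Set.Finite.mem_toFinset]
  have hC1m : ∀ A, A ∈ C1 ↔ A ∈ c.Cl r1 H := by
    intro A
    rw [hC1, Set.Finite.mem_toFinset]
  set LL : (Idx 2 2 × S → 𝓞 K) → (ℕ × (Fin (2 + 1) → 𝓞 K)) → Prop := fun A z =>
    (c.p.W : 𝓞 K) ^ s ∣ F (ev A (c.vv H z.1)) z.2 ∧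
      CIn (th * c.HH H * (B : ℝ) ^ 2) (F (ev A (c.vv H z.1)) z.2) with hLL
  set EE : (Idx 2 2 × S → 𝓞 K) → (ℕ × (Fin (2 + 1) → 𝓞 K)) → Prop := fun A z =>
    F (ev A (c.vv H z.1)) z.2 = 0 with hEE
  set DD : Ideal (𝓞 K) → (ℕ × (Fin (2 + 1) → 𝓞 K)) → (ℕ × (Fin (2 + 1) → 𝓞 K)) → Prop :=
    fun q z z' => z'.1 ≠ z.1 ∧ ((z.1 : 𝓞 K) - (z'.1 : 𝓞 K)) ∈ q ∧ mgI z.2 z'.2 ≤ q with hDD
  set GOOD : (ℕ × (Fin (2 + 1) → 𝓞 K)) → (ℕ × (Fin (2 + 1) → 𝓞 K)) → Prop := fun z z' =>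
    z.1 ≠ z'.1 ∧ z.2 ≠ z'.2 ∧ ¬ BadPr G tau B z.2 z'.2 with hGOOD
  have key := ckm_count C0 C1 GF EE LL DD GOOD QQ
    (fun q => (Ideal.absNorm q : ℝ)) (fun q => by positivity) cc hc0.le
    (fun q => (JJ H : ℝ) / (Ideal.absNorm q : ℝ) ^ (1 / (mK K : ℝ)) *
      ((Ideal.absNorm q : ℝ) * ((1 + eps) * T' B / (Ideal.absNorm q : ℝ) ^ (2 + 1)))) ?_ ?_
  rotate_left
  · -- transference
    intro z hz z' hz' hg
    rw [hGFm] at hz hz'
    obtain ⟨i, x⟩ := z
    obtain ⟨i', y⟩ := z'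
    simp only [hGOOD] at hg
    simp only at hz hz'
    obtain ⟨q, hq0, hqm, hqG, hqi, hqW, hle⟩ :=
      hTP i i' hz.1 hz'.1 hg.1 x y hz.2 hz'.2 hg.2.1 hg.2.2
    have hqQ : q ∈ QQ := (hmemQQ q).2 ⟨⟨hq0, hqG⟩, hqW⟩
    refine ⟨q, hqQ, ⟨hg.1.symm, hqi, hqm⟩, ?_⟩
    have e1 : (Set.ncard {A | A ∈ c.Cl c.p.rho H ∧ F (ev A (c.vv H i)) x = 0 ∧
            F (ev A (c.vv H i')) y = 0} : ℝ) =
        ((C0.filter (fun A => EE A (i, x) ∧ EE A (i', y))).card : ℝ) := by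
      rw [← Set.ncard_coe_finset]
      congr 2
      ext A
      rw [Finset.mem_coe, Finset.mem_filter, hC0m]
      rfl
    have e2 : (Set.ncard {A | A ∈ c.Cl (c.p.rho + c.c5 * (th / tau)) H ∧
            F (ev A (c.vv H i)) x = 0 ∧ (c.p.W : 𝓞 K) ^ s ∣ F (ev A (c.vv H i')) y ∧
            CIn (th * c.HH H * (B : ℝ) ^ 2) (F (ev A (c.vv H i')) y)} : ℝ) =
        ((C1.filter (fun A => EE A (i, x) ∧ LL A (i', y))).card : ℝ) := by
      rw [← Set.ncard_coe_finset]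
      congr 2
      ext A
      rw [Finset.mem_coe, Finset.mem_filter, hC1m]
      rfl
    rw [e1, e2] at hle
    have hqr : (0 : ℝ) < (Ideal.absNorm q : ℝ) := by exact_mod_cast absNorm_pos hq0
    have hR0 : (0 : ℝ) ≤ ((C0.filter (fun A => EE A (i, x) ∧ EE A (i', y))).card : ℝ) :=
      Nat.cast_nonneg _
    have hR1 : (0 : ℝ) ≤ ((C1.filter (fun A => EE A (i, x) ∧ LL A (i', y))).card : ℝ) :=
      Nat.cast_nonneg _
    have hlev := hlev0 q hqQ
    have h3 : (2 * (th * c.HH H * (B : ℝ) ^ 2)) ^ mK K /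
        (Ideal.absNorm (Ideal.span {(c.p.W : 𝓞 K) ^ s} * q) : ℝ) =
        LV / (Ideal.absNorm q : ℝ) := by
      rw [hLV, map_mul, Nat.cast_mul, hWsN, div_pow, div_div]
    rw [h3] at hlev
    have h4 : LV / (Ideal.absNorm q : ℝ) *
        ((C0.filter (fun A => EE A (i, x) ∧ EE A (i', y))).card : ℝ) ≤
        (1 + 2 * eps) * ((C1.filter (fun A => EE A (i, x) ∧ LL A (i', y))).card : ℝ) := by
      have h5 : (1 - eps) * (LV / (Ideal.absNorm q : ℝ)) *
          ((C0.filter (fun A => EE A (i, x) ∧ EE A (i', y))).card : ℝ) ≤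
          ((C1.filter (fun A => EE A (i, x) ∧ LL A (i', y))).card : ℝ) :=
        (mul_le_mul_of_nonneg_right hlev hR0).trans hle
      have h6 : 1 ≤ (1 + 2 * eps) * (1 - eps) := by nlinarith only [he, he1]
      have h7 : 0 ≤ LV / (Ideal.absNorm q : ℝ) *
          ((C0.filter (fun A => EE A (i, x) ∧ EE A (i', y))).card : ℝ) :=
        mul_nonneg (by positivity) hR0
      calc LV / (Ideal.absNorm q : ℝ) *
            ((C0.filter (fun A => EE A (i, x) ∧ EE A (i', y))).card : ℝ) ≤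
          ((1 + 2 * eps) * (1 - eps)) *
            (LV / (Ideal.absNorm q : ℝ) *
              ((C0.filter (fun A => EE A (i, x) ∧ EE A (i', y))).card : ℝ)) :=
            le_mul_of_one_le_left h7 h6
        _ = (1 + 2 * eps) * ((1 - eps) * (LV / (Ideal.absNorm q : ℝ)) *
            ((C0.filter (fun A => EE A (i, x) ∧ EE A (i', y))).card : ℝ)) := by ring
        _ ≤ _ := mul_le_mul_of_nonneg_left h5 (by positivity)
    rw [div_mul_eq_mul_div, div_le_iff₀ (by positivity)] at h4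
    show _ ≤ cc * (Ideal.absNorm q : ℝ) * _
    rw [hcc, div_mul_eq_mul_div, div_mul_eq_mul_div, le_div_iff₀ hLV0]
    linarith only [h4]
  · -- local count
    intro A hA z hz hAx q hq
    rw [hGFm] at hz
    rw [hC1m] at hA
    obtain ⟨i, x⟩ := z
    simp only at hz
    have hq' := (hmemQQ q).1 hq
    obtain ⟨L, hLc, hLr⟩ := ckm_reps q hq'.1.1
    have hXXf : (c.p.XX B).Finite := XX_finite (by norm_num) c.p B
    set Sl : ℕ × 𝓞 K → Finset (Fin (2 + 1) → 𝓞 K) := fun t => hXXf.toFinset.filter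
      (fun y => LL A (t.1, y) ∧ ∀ a, y a - t.2 * x a ∈ q) with hSl
    set II : Finset ℕ := (Finset.range (JJ H)).filter fun i' =>
      i' ≠ i ∧ ((i : 𝓞 K) - (i' : 𝓞 K)) ∈ q with hII
    have hcov : GF.filter (fun z' => DD q (i, x) z' ∧ LL A z') ⊆
        (II ×ˢ L).biUnion (fun t => (Sl t).image (fun y => (t.1, y))) := by
      rintro ⟨i', y⟩ hy
      rw [Finset.mem_filter, hGFm] at hy
      obtain ⟨⟨hi', hyG⟩, ⟨hne, hqi, hqm⟩, hl⟩ := hy
      simp only at hi' hyG hne hqi hqm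
      obtain ⟨l, hl1⟩ := exists_mod x y hz.2.2.1 q hqm
      obtain ⟨l', hl', hll⟩ := hLr l
      rw [Finset.mem_biUnion]
      refine ⟨(i', l'), ?_, ?_⟩
      · rw [Finset.mem_product, hII, Finset.mem_filter, Finset.mem_range]
        exact ⟨⟨hi', hne, hqi⟩, hl'⟩
      · rw [Finset.mem_image]
        refine ⟨y, ?_, rfl⟩
        rw [hSl]
        simp only [Finset.mem_filter, Set.Finite.mem_toFinset]
        refine ⟨hyG.1, hl, fun a => ?_⟩
        have h4 : y a - l' * x a = (y a - l * x a) + (l - l') * x a := by ring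
        rw [h4]
        exact q.add_mem (hl1 a) (q.mul_mem_right _ hll)
    have hcard : ∀ t ∈ II ×ˢ L, ((((Sl t).image (fun y => (t.1, y))).card : ℕ) : ℝ) ≤
        (1 + eps) * T' B / (Ideal.absNorm q : ℝ) ^ (2 + 1) := by
      rintro ⟨i', l⟩ ht'
      rw [Finset.mem_product, hII, Finset.mem_filter, Finset.mem_range] at ht'
      simp only at ht'
      obtain ⟨hn1, hn2⟩ := hnear i' ht'.1.1 A hA
      have h1 := hB0 q hq B hBB0 (c.HH H) hHH0 (sy (ev A (c.vv H i')))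
        (fun a t j => by
          have ha : a = 0 := Subsingleton.elim _ _
          subst ha
          exact hn1 t j)
        (fun a t => by
          have ha : a = 0 := Subsingleton.elim _ _
          subst ha
          exact hn2 t)
        (fun a => l * x a)
      have h2 : ((((Sl (i', l)).image (fun y => ((i', l).1, y))).card : ℕ) : ℝ) ≤
          ((Sl (i', l)).card : ℝ) := by exact_mod_cast Finset.card_image_le
      refine h2.trans (le_trans (le_of_eq ?_) h1)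
      rw [← Set.ncard_coe_finset]
      congr 2
      ext y
      simp only [hSl, Finset.coe_filter, Set.mem_ofPred_eq, Set.Finite.mem_toFinset, hLL, sy]
      constructor
      · rintro ⟨h5, h6, h7⟩
        exact ⟨h5, fun _ => h6, h7⟩
      · rintro ⟨h5, h6, h7⟩
        exact ⟨h5, h6 0, h7⟩
    have hIIc : ((II.card : ℕ) : ℝ) ≤
        (JJ H : ℝ) / (Ideal.absNorm q : ℝ) ^ (1 / (mK K : ℝ)) := by
      refine le_trans (le_of_eq ?_) (card_congr_leK (JJ H) i hz.1 q hq'.1.1)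
      rw [← Set.ncard_coe_finset]
      congr 2
      ext a
      simp only [hII, Finset.coe_filter, Finset.mem_range, Set.mem_ofPred_eq]
    have hT'0 : 0 ≤ (1 + eps) * T' B / (Ideal.absNorm q : ℝ) ^ (2 + 1) := by
      have h5 : 0 ≤ T' B := by
        rw [hT']
        simp only
        rw [hTL]
        exact mul_nonneg hT10 (by positivity)
      positivity
    calc ((GF.filter (fun z' => DD q (i, x) z' ∧ LL A z')).card : ℝ) ≤
        (((II ×ˢ L).biUnion (fun t => (Sl t).image (fun y => (t.1, y)))).card : ℝ) := by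
          exact_mod_cast Finset.card_le_card hcov
      _ ≤ ∑ t ∈ II ×ˢ L, ((((Sl t).image (fun y => (t.1, y))).card : ℕ) : ℝ) := by
        have := Finset.card_biUnion_le (s := II ×ˢ L)
          (t := fun t => (Sl t).image (fun y => (t.1, y)))
        exact_mod_cast this
      _ ≤ ∑ t ∈ II ×ˢ L, (1 + eps) * T' B / (Ideal.absNorm q : ℝ) ^ (2 + 1) :=
        Finset.sum_le_sum hcard
      _ = (II.card : ℝ) * (L.card * ((1 + eps) * T' B / (Ideal.absNorm q : ℝ) ^ (2 + 1))) := by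
        rw [Finset.sum_const, Finset.card_product, nsmul_eq_mul]
        push_cast
        ring
      _ ≤ (JJ H : ℝ) / (Ideal.absNorm q : ℝ) ^ (1 / (mK K : ℝ)) *
          ((Ideal.absNorm q : ℝ) * ((1 + eps) * T' B / (Ideal.absNorm q : ℝ) ^ (2 + 1))) := by
        refine mul_le_mul hIIc ?_ (by positivity) (by positivity)
        refine mul_le_mul_of_nonneg_right ?_ hT'0
        exact_mod_cast hLc
  -- final computation
  have eL : ((c.TMain R G tau H).ncard : ℝ) = (((C0 ×ˢ (GF ×ˢ GF)).filter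
      (fun t => EE t.1 t.2.1 ∧ EE t.1 t.2.2 ∧ GOOD t.2.1 t.2.2)).card : ℝ) := by
    rw [← Set.ncard_coe_finset]
    congr 2
    ext t
    rw [Finset.mem_coe, Finset.mem_filter, Finset.mem_product, Finset.mem_product, hC0m, hGFm, hGFm]
    simp only [CPar.TMain, Set.mem_ofPred_eq, hEE, hGOOD]
    tauto
  have eR : ((c.Pairs r1 R H).ncard : ℝ) =
      (((C1 ×ˢ GF).filter (fun t => EE t.1 t.2)).card : ℝ) := by
    rw [← Set.ncard_coe_finset]
    congr 2
    ext t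
    rw [Finset.mem_coe, Finset.mem_filter, Finset.mem_product, hC1m, hGFm]
    simp only [CPar.Pairs, Set.mem_ofPred_eq, hEE]
    tauto
  rw [eL]
  refine key.trans ?_
  rw [← eR]
  have hJ0 : (0 : ℝ) ≤ JJ H := Nat.cast_nonneg _
  have hTT0 : 0 ≤ c.TT H := by
    unfold CPar.TT
    exact mul_nonneg hJ0 hT10
  have hTL' : T' B = c.T1 H * LV := by
    rw [hT', hLV]
    exact hTL
  have hT'nn : 0 ≤ T' B := by
    rw [hTL']
    positivity
  have hsum : ∑ q ∈ QQ, (Ideal.absNorm q : ℝ) *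
      ((JJ H : ℝ) / (Ideal.absNorm q : ℝ) ^ (1 / (mK K : ℝ)) *
      ((Ideal.absNorm q : ℝ) * ((1 + eps) * T' B / (Ideal.absNorm q : ℝ) ^ (2 + 1)))) ≤
      (JJ H : ℝ) * ((1 + eps) * T' B * (1 + E)) := by
    have h1 : ∀ q ∈ QQ, (Ideal.absNorm q : ℝ) *
        ((JJ H : ℝ) / (Ideal.absNorm q : ℝ) ^ (1 / (mK K : ℝ)) *
        ((Ideal.absNorm q : ℝ) * ((1 + eps) * T' B / (Ideal.absNorm q : ℝ) ^ (2 + 1)))) =
        (JJ H : ℝ) * ((1 + eps) * T' B) *
          (1 / (Ideal.absNorm q : ℝ) ^ (1 + 1 / (mK K : ℝ))) := by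
      intro q hq
      have hq' := (hmemQQ q).1 hq
      have hq0 : (0 : ℝ) < (Ideal.absNorm q : ℝ) := by exact_mod_cast absNorm_pos hq'.1.1
      rw [Real.rpow_add hq0, Real.rpow_one]
      exact ckm_alg _ _ _ _ hq0 (Real.rpow_pos_of_pos hq0 _)
    rw [Finset.sum_congr rfl h1, ← Finset.mul_sum]
    calc (JJ H : ℝ) * ((1 + eps) * T' B) *
          ∑ q ∈ QQ, 1 / (Ideal.absNorm q : ℝ) ^ (1 + 1 / (mK K : ℝ)) ≤
        (JJ H : ℝ) * ((1 + eps) * T' B) * (1 + E) := by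
          refine mul_le_mul_of_nonneg_left (ckm_sum c.p hp E hE QQ fun q hq => ?_) (by positivity)
          exact ⟨((hmemQQ q).1 hq).1.1, ((hmemQQ q).1 hq).2⟩
      _ = _ := by ring
  have hcT : cc * ((JJ H : ℝ) * T' B) = (1 + 2 * eps) * c.TT H := by
    rw [hTL', hcc]
    unfold CPar.TT
    field_simp
  have hX : c.XR r1 H ≤ (1 + eps / N) ^ N * c.XR c.p.rho H := by
    simp only [CPar.XR]
    rw [← hNdef, ← mul_pow]
    refine pow_le_pow_left₀ (by positivity) ?_ N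
    rw [mul_div_assoc', div_le_div_iff_of_pos_right hQr]
    nlinarith only [hHr, he, he1, hr1b]
  have hXn0 : 0 ≤ c.XR c.p.rho H := (XR_pos c hc hrho hH0).le
  have hPb : ((c.Pairs r1 R H).ncard : ℝ) ≤
      (1 + 8 * eps) * (1 + eps / N) ^ N * (c.TT H * c.XR c.p.rho H) := by
    refine hS1.trans ?_
    calc (1 + 8 * eps) * c.TT H * c.XR r1 H ≤
        (1 + 8 * eps) * c.TT H * ((1 + eps / N) ^ N * c.XR c.p.rho H) :=
          mul_le_mul_of_nonneg_left hX (by positivity)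
      _ = _ := by ring
  have hP0 : (0 : ℝ) ≤ ((c.Pairs r1 R H).ncard : ℝ) := Nat.cast_nonneg _
  calc cc * (∑ q ∈ QQ, (Ideal.absNorm q : ℝ) *
        ((JJ H : ℝ) / (Ideal.absNorm q : ℝ) ^ (1 / (mK K : ℝ)) *
        ((Ideal.absNorm q : ℝ) * ((1 + eps) * T' B / (Ideal.absNorm q : ℝ) ^ (2 + 1))))) *
        ((c.Pairs r1 R H).ncard : ℝ) ≤
      cc * ((JJ H : ℝ) * ((1 + eps) * T' B * (1 + E))) * ((c.Pairs r1 R H).ncard : ℝ) :=
        mul_le_mul_of_nonneg_right (mul_le_mul_of_nonneg_left hsum hc0.le) hP0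
    _ = (cc * ((JJ H : ℝ) * T' B)) * ((1 + eps) * (1 + E)) *
        ((c.Pairs r1 R H).ncard : ℝ) := by ring
    _ = (1 + 2 * eps) * c.TT H * ((1 + eps) * (1 + E)) * ((c.Pairs r1 R H).ncard : ℝ) := by
        rw [hcT]
    _ ≤ (1 + 2 * eps) * c.TT H * ((1 + eps) * (1 + E)) *
        ((1 + 8 * eps) * (1 + eps / N) ^ N * (c.TT H * c.XR c.p.rho H)) :=
        mul_le_mul_of_nonneg_left hPb (by positivity)
    _ = ((1 + 2 * eps) * (1 + eps) * (1 + E) * ((1 + 8 * eps) * (1 + eps / N) ^ N)) *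
        (c.TT H ^ 2 * c.XR c.p.rho H) := by ring
    _ ≤ (1 + 40 * eps + 5 * E) * (c.TT H ^ 2 * c.XR c.p.rho H) :=
        mul_le_mul_of_nonneg_right (ckm_num eps E N hN0 he he1 hE0) (by positivity)
    _ = (1 + 40 * eps + 5 * E) * c.TT H ^ 2 * c.XR c.p.rho H := by ring

end NKCHP
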