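import Pool.Agent.Lib.MP_e426f4_ag.CK.CrudeA
import Pool.Agent.Lib.MP_e426f4_ag.CK.Heights
import Pool.Agent.Lib.MP_e426f4_ag.CK.SumPhi
import Pool.Agent.Lib.MP_e426f4_ag.CK.IdealSums
import Pool.Agent.Lib.MP_e426f4_ag.N.Minors

/-!
CK-SecondSame: pairs of distinct points in the same fibre contribute little. Template: C/SecondSame.lean. For i < JJ, x, y in GC, x /= y (mgI /= bot): crude_same with mu = R BB^(1/2), U = k1/2 VV, Mv = 2 VV, radius R' = CK H with CK = 3 cK + C(R, k1) (mu^2/U = 2 R^2 BB/(k1 VV) <= 2 R^2 H/k1): sum over y by sum_phiK with phi = N, tau = 1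
(dl_le_box), E = C (1 + log (C B^(2m))) (ideal_sum_log; N(mgI) <= np(dl): NFHP.mgN_le_np_dl), sum over x: card_Bx (C B^(3m)), sum over i: JJ. Total C JJ (1 + log) (B^3 B/(H^2 V^2 B^2))^m XR <= C JJ (1 + log (C BB^(2m))) XR <= eps T1^2 JJ^2 XR eventually (log_le with a large constant, T1_bounds, BB <= H VV).
-/

namespace NKCHP

open NumberField GenHP NFHP NKHP Finset Filter Topology
open ConicHP (ev JJ)

variable {K : Type} [Field K] [NumberField K] {S : Type} [Fintype S]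

/-- counting pairs by fibres -/
private theorem ss_card_fib {α β : Type*} (T0 : Set (α × β)) (hT0 : T0.Finite) (T : Finset β)
    (hT : ∀ q ∈ T0, q.2 ∈ T) (N : β → Set α) (hN : ∀ b ∈ T, (N b).Finite)
    (hSN : ∀ q ∈ T0, q.1 ∈ N q.2) : (T0.ncard : ℝ) ≤ ∑ b ∈ T, ((N b).ncard : ℝ) := by
  classical
  rw [Set.ncard_eq_toFinset_card _ hT0, Finset.card_eq_sum_card_fiberwise (f := fun q => q.2)
    (t := T) (fun q hq => hT q (by simpa using hq))]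
  push_cast
  refine Finset.sum_le_sum fun b hb => ?_
  rw [Set.ncard_eq_toFinset_card _ (hN b hb)]
  refine Nat.cast_le.mpr (Finset.card_le_card_of_injOn (fun q => q.1) (fun q hq => ?_)
    (fun q hq q' hq' h => ?_))
  · simp only [Finset.coe_filter, Set.Finite.mem_toFinset, Set.mem_ofPred_eq] at hq
    simp only [Set.Finite.coe_toFinset]
    rw [← hq.2]
    exact hSN q hq.1
  · simp only [Finset.coe_filter, Set.Finite.mem_toFinset, Set.mem_ofPred_eq] at hq hq'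
    exact Prod.ext h (hq.2.trans hq'.2.symm)

/-- two points in one fibre -/
private theorem ss_fibre (c : CPar K S) {eps k0 : ℝ} {w : ℕ} (hc : c.Valid eps k0 w)
    (R : ℝ) (hR : 1 ≤ R) (C1 : ℝ)
    (hcr : ∀ B : ℕ, 1 ≤ B → ∀ x y : Fin (2 + 1) → 𝓞 K, Prim x → Prim y →
    ∀ mu : ℝ, 1 ≤ mu → Ortho mu x → Ortho mu y →
    (∀ w, ∃ i, (B : ℝ) / 2 ≤ ‖sg w (x i)‖ ∧ (B : ℝ) / 2 ≤ ‖sg w (y i)‖) →
    x ∈ Bx 2 (2 * (B : ℝ)) → y ∈ Bx 2 (2 * (B : ℝ)) → mgI x y ≠ ⊥ →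
    ∀ v : S → 𝓞 K, PrimS v → ∀ (s0 : S) (U : ℝ), 0 < U → (∀ w, U ≤ ‖sg w (v s0)‖) →
    ∀ Mv : ℝ, (∀ s w, ‖sg w (v s)‖ ≤ Mv) →
    ∀ R : ℝ, 1 ≤ R → c2 K 2 2 * mu ^ 2 / U + cK K * (Fintype.card S * Mv) ≤ R / 2 →
    c1 K 2 2 * mu / U + cK K * (Fintype.card S * Mv) ≤ R / 2 →
      (Set.ncard {A : Idx 2 2 × S → 𝓞 K | (∀ m w, ‖sg w (A m)‖ ≤ R) ∧ F (ev A v) x = 0 ∧
        F (ev A v) y = 0} : ℝ) ≤
        C1 * R ^ (mK K * MM S) * mgN x y /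
          np (fun w => R ^ 2 * U ^ 2 * (B : ℝ) ^ 2 * dl w x y))
    (H : ℝ) (hH : 1 ≤ H) (hB : 1 ≤ c.BB H) (hV : 1 ≤ c.VV H)
    (hv : ∀ i, i < JJ H → ∀ s w', ‖sg w' (c.vv H i s)‖ ≤ 2 * c.VV H)
    (hvg : ∀ i, i < JJ H → ∀ w', c.k1 / 2 * c.VV H ≤ ‖sg w' (c.vv H i c.s0)‖)
    (Ck : ℝ) (hCk : Ck = 3 * cK K + 4 * c2 K 2 2 * R ^ 2 / c.k1 + 4)
    (hBV : (c.BB H : ℝ) ≤ H * c.VV H)
    (h1 : 2 * c1 K 2 2 * R / c.k1 * (c.BB H : ℝ) ^ (1 / 2 : ℝ) ≤ H)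
    (h3 : 2 * cK K * Fintype.card S * (c.VV H : ℝ) ≤ H)
    (i : ℕ) (hi : i < JJ H) (x y : Fin (2 + 1) → 𝓞 K) (hx : x ∈ c.GC R H) (hy : y ∈ c.GC R H)
    (hne : mgI x y ≠ ⊥) :
    (Set.ncard {A : Idx 2 2 × S → 𝓞 K | (∀ m w', ‖sg w' (A m)‖ ≤ Ck * H) ∧
      F (ev A (c.vv H i)) x = 0 ∧ F (ev A (c.vv H i)) y = 0} : ℝ) ≤
      C1 * (Ck * H) ^ (mK K * MM S) /
        ((Ck * H) ^ 2 * (c.k1 / 2 * c.VV H) ^ 2 * (c.BB H : ℝ) ^ 2) ^ mK K *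
        ((mgN x y : ℝ) / np (fun w' => dl w' x y)) := by
  have hB1 : (1 : ℝ) ≤ c.BB H := by exact_mod_cast hB
  have hV1 : (1 : ℝ) ≤ c.VV H := by exact_mod_cast hV
  have hk1 : 0 < c.k1 := hc.fam.k1_pos
  have hcK : 0 < cK K := cK_pos
  have hc1 : 0 ≤ c1 K 2 2 := by unfold NFHP.c1; positivity
  have hc2 : 0 ≤ c2 K 2 2 := by unfold NFHP.c2; positivity
  have hbox := mem_XX_bounds c.p hc.pv (c.BB H)
  have e2 : (1 / ((2 : ℕ) : ℝ)) = (1 / 2 : ℝ) := by norm_num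
  obtain ⟨mu, hmu⟩ : ∃ mu : ℝ, mu = R * (c.BB H : ℝ) ^ (1 / ((2 : ℕ) : ℝ)) := ⟨_, rfl⟩
  have hmu1 : 1 ≤ mu := by
    have : (1 : ℝ) ≤ (c.BB H : ℝ) ^ (1 / ((2 : ℕ) : ℝ)) := Real.one_le_rpow hB1 (by positivity)
    rw [hmu]
    nlinarith
  have hmu2 : mu ^ 2 = R ^ 2 * c.BB H := by
    rw [hmu, mul_pow, e2, ← Real.sqrt_eq_rpow, Real.sq_sqrt (by positivity)]
  have hU : 0 < c.k1 / 2 * (c.VV H : ℝ) := by positivity
  have hCk4 : 4 ≤ Ck := by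
    have : 0 ≤ 4 * c2 K 2 2 * R ^ 2 / c.k1 := by positivity
    rw [hCk]
    linarith
  have key := hcr (c.BB H) hB x y hx.2.1 hy.2.1 mu hmu1 (hmu ▸ hx.2.2) (hmu ▸ hy.2.2)
    (fun w' => by
      obtain ⟨j, hj⟩ := hbox.2 w'
      exact ⟨j, hj x hx.1, hj y hy.1⟩)
    (hbox.1 x hx.1) (hbox.1 y hy.1) hne (c.vv H i) (hc.fam.prim _ _) c.s0
    (c.k1 / 2 * c.VV H) hU (hvg i hi) (2 * c.VV H) (hv i hi) (Ck * H) (by nlinarith)
    (by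
      have e3 : c2 K 2 2 * mu ^ 2 / (c.k1 / 2 * (c.VV H : ℝ)) ≤ 2 * c2 K 2 2 * R ^ 2 / c.k1 * H := by
        rw [hmu2, div_le_iff₀ hU]
        calc c2 K 2 2 * (R ^ 2 * (c.BB H : ℝ)) ≤ c2 K 2 2 * (R ^ 2 * (H * c.VV H)) := by gcongr
          _ = 2 * c2 K 2 2 * R ^ 2 / c.k1 * H * (c.k1 / 2 * c.VV H) := by
              field_simp
      have e4 : Ck * H / 2 = 3 / 2 * cK K * H + 2 * c2 K 2 2 * R ^ 2 / c.k1 * H + 2 * H := by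
        rw [hCk]
        ring
      have e5 : 0 ≤ 3 / 2 * cK K * H := by positivity
      have e6 : cK K * (Fintype.card S * (2 * (c.VV H : ℝ))) =
        2 * cK K * Fintype.card S * (c.VV H : ℝ) := by ring
      rw [e4, e6]
      linarith)
    (by
      have e3 : c1 K 2 2 * mu / (c.k1 / 2 * (c.VV H : ℝ)) ≤ H := by
        refine le_trans ?_ h1
        rw [hmu, e2, div_le_iff₀ hU]
        have e7 : 0 ≤ 2 * c1 K 2 2 * R / c.k1 * (c.BB H : ℝ) ^ (1 / 2 : ℝ) := by positivity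
        calc c1 K 2 2 * (R * (c.BB H : ℝ) ^ (1 / 2 : ℝ))
            = 2 * c1 K 2 2 * R / c.k1 * (c.BB H : ℝ) ^ (1 / 2 : ℝ) * (c.k1 / 2 * 1) := by
              field_simp
          _ ≤ 2 * c1 K 2 2 * R / c.k1 * (c.BB H : ℝ) ^ (1 / 2 : ℝ) * (c.k1 / 2 * c.VV H) := by
              gcongr
      have e6 : cK K * (Fintype.card S * (2 * (c.VV H : ℝ))) =
        2 * cK K * Fintype.card S * (c.VV H : ℝ) := by ring
      rw [e6]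
      have e8 : 4 * H ≤ Ck * H := mul_le_mul_of_nonneg_right hCk4 (by linarith)
      linarith)
  refine key.trans (le_of_eq ?_)
  have e9 : np (fun w' : InfinitePlace K => (Ck * H) ^ 2 * (c.k1 / 2 * (c.VV H : ℝ)) ^ 2 *
      (c.BB H : ℝ) ^ 2 * dl w' x y) =
      ((Ck * H) ^ 2 * (c.k1 / 2 * c.VV H) ^ 2 * (c.BB H : ℝ) ^ 2) ^ mK K *
        np (fun w' => dl w' x y) := by
    rw [← np_const (K := K), ← np_mul]
  rw [e9]
  have hnp : 0 < np (fun w' => dl w' x y) := np_pos fun w' => dl_pos x y hne w'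
  have ha : 0 < ((Ck * H) ^ 2 * (c.k1 / 2 * (c.VV H : ℝ)) ^ 2 * (c.BB H : ℝ) ^ 2) ^ mK K := by
    have : 0 < Ck * H := by nlinarith
    positivity
  rw [div_mul_div_comm]

/-- the sum over the second point -/
private theorem ss_sum_y (c : CPar K S) {eps k0 : ℝ} {w : ℕ} (hc : c.Valid eps k0 w)
    (R : ℝ) (hR : 1 ≤ R) (C2 C3 : ℝ)
    (hphi : ∀ (R : ℝ), 1 ≤ R → ∀ B : ℕ, 1 ≤ B → ∀ x : Fin (2 + 1) → 𝓞 K, Prim x →
    x ∈ Bx 2 (2 * (B : ℝ)) → (∀ w, ∃ i, (B : ℝ) / 2 ≤ ‖sg w (x i)‖) → Good R B x →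
    ∀ phi : Ideal (𝓞 K) → ℝ, (∀ I, 0 ≤ phi I) →
    ∀ tau : InfinitePlace K → ℝ, (∀ w, 0 < tau w) → (∀ w, tau w ≤ 1) →
    ∀ T : Finset (Fin (2 + 1) → 𝓞 K),
    (∀ y ∈ T, y ∈ Bx 2 (2 * (B : ℝ)) ∧ mgI x y ≠ ⊥ ∧
      ∀ w, dl w x y ≤ tau w * (72 * (B : ℝ) ^ 2)) → ∀ E : ℝ,
    (∀ J : Finset (Ideal (𝓞 K)), (∀ I ∈ J, ∃ y ∈ T, I = mgI x y) →
      ∑ I ∈ J, phi I / (Ideal.absNorm I : ℝ) ^ 2 ≤ E) →
    ∑ y ∈ T, phi (mgI x y) / np (fun w => dl w x y) ≤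
      C2 * R ^ (2 * mK K) * (B : ℝ) ^ mK K * np tau * E)
    (hlog : ∀ X : ℝ, 1 ≤ X → ∀ T : Finset (Ideal (𝓞 K)),
      (∀ I ∈ T, I ≠ ⊥ ∧ (Ideal.absNorm I : ℝ) ≤ X) →
      ∑ I ∈ T, 1 / (Ideal.absNorm I : ℝ) ≤ C3 * (1 + Real.log X))
    (H : ℝ) (hB : 1 ≤ c.BB H) (x : Fin (2 + 1) → 𝓞 K) (hx : x ∈ c.GC R H)
    (T : Finset (Fin (2 + 1) → 𝓞 K)) (hT : ∀ y ∈ T, y ∈ c.GC R H ∧ mgI x y ≠ ⊥) :
    ∑ y ∈ T, (mgN x y : ℝ) / np (fun w' => dl w' x y) ≤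
      C2 * R ^ (2 * mK K) * (c.BB H : ℝ) ^ mK K *
        (C3 * (1 + Real.log ((72 * (c.BB H : ℝ) ^ 2) ^ mK K))) := by
  have hB1 : (1 : ℝ) ≤ c.BB H := by exact_mod_cast hB
  have hbox := mem_XX_bounds c.p hc.pv (c.BB H)
  have hdl : ∀ y ∈ T, ∀ w', dl w' x y ≤ 72 * (c.BB H : ℝ) ^ 2 := fun y hy w' =>
    dl_le_box x y (c.BB H) (by linarith) (hbox.1 x hx.1) (hbox.1 y (hT y hy).1.1) w'
  have h1 := hphi R hR (c.BB H) hB x hx.2.1 (hbox.1 x hx.1)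
    (fun w' => by
      obtain ⟨j, hj⟩ := hbox.2 w'
      exact ⟨j, hj x hx.1⟩)
    hx.2.2 (fun I => (Ideal.absNorm I : ℝ)) (fun I => Nat.cast_nonneg _) (fun _ => 1)
    (fun _ => one_pos) (fun _ => le_rfl) T
    (fun y hy => ⟨hbox.1 y (hT y hy).1.1, (hT y hy).2, fun w' => by
      rw [one_mul]
      exact hdl y hy w'⟩)
    (C3 * (1 + Real.log ((72 * (c.BB H : ℝ) ^ 2) ^ mK K)))
    (fun J hJ => by
      have hJ' : ∀ I ∈ J, I ≠ ⊥ ∧ (Ideal.absNorm I : ℝ) ≤ (72 * (c.BB H : ℝ) ^ 2) ^ mK K := by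
        intro I hI
        obtain ⟨y, hy, rfl⟩ := hJ I hI
        refine ⟨(hT y hy).2, ?_⟩
        have h2 := mgN_le_np_dl x y (hT y hy).2
        refine h2.trans ?_
        rw [← np_const (K := K)]
        exact np_mono (fun w' => (dl_pos x y (hT y hy).2 w').le) (fun w' => hdl y hy w')
      have h3 := hlog ((72 * (c.BB H : ℝ) ^ 2) ^ mK K)
        (one_le_pow₀ (by nlinarith)) J hJ'
      refine le_trans (le_of_eq ?_) h3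
      refine Finset.sum_congr rfl fun I hI => ?_
      have h4 : (0 : ℝ) < Ideal.absNorm I := by exact_mod_cast absNorm_pos (hJ' I hI).1
      field_simp)
  rw [np_const, one_pow, mul_one] at h1
  exact h1

theorem S2_same (c : CPar K S) {eps k0 : ℝ} {w : ℕ} (hc : c.Valid eps k0 w)
    (R : ℝ) (hR : 1 ≤ R) : ∀ᶠ H : ℝ in atTop,
    ((c.TSame R H).ncard : ℝ) ≤ eps * c.TT H ^ 2 * c.XR c.p.rho H := by
  classical
  obtain ⟨C1, hC1, hcr⟩ := crude_same K S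
  obtain ⟨C2, hC2, hphi⟩ := sum_phiK K
  obtain ⟨C3, hC3, hlog⟩ := ideal_sum_log K
  obtain ⟨C4, hC4, hBx⟩ := card_Bx K 2
  obtain ⟨c0, hc0, hT1⟩ := T1_bounds c hc
  have heps := hc.pv.eps_pos
  have hrho := hc.pv.rho_pos
  have hQ : (0 : ℝ) < c.p.Q := by exact_mod_cast hc.pv.Q_pos
  have hk1 : 0 < c.k1 := hc.fam.k1_pos
  have hcK : 0 < cK K := cK_pos
  have hc1 : 0 ≤ c1 K 2 2 := by unfold NFHP.c1; positivity
  have hc2 : 0 ≤ c2 K 2 2 := by unfold NFHP.c2; positivity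
  obtain ⟨q, hq⟩ : ∃ q : ℝ, q = (2 * c.p.rho / c.p.Q) ^ (mK K * MM S) := ⟨_, rfl⟩
  have hq0 : 0 < q := by rw [hq]; positivity
  obtain ⟨Ck, hCk⟩ : ∃ Ck : ℝ, Ck = 3 * cK K + 4 * c2 K 2 2 * R ^ 2 / c.k1 + 4 := ⟨_, rfl⟩
  have hCk4 : 4 ≤ Ck := by
    have : 0 ≤ 4 * c2 K 2 2 * R ^ 2 / c.k1 := by positivity
    rw [hCk]
    linarith
  have hCk3 : 3 * cK K ≤ Ck := by
    have : 0 ≤ 4 * c2 K 2 2 * R ^ 2 / c.k1 := by positivity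
    rw [hCk]
    linarith
  have hCk0 : 0 < Ck := by linarith
  obtain ⟨aa, haa⟩ : ∃ aa : ℝ, aa = (Ck ^ 2 * (c.k1 / 2) ^ 2) ^ mK K := ⟨_, rfl⟩
  have haa0 : 0 < aa := by rw [haa]; positivity
  obtain ⟨cst, hcst⟩ : ∃ cst : ℝ, cst = C4 * (C1 * Ck ^ (mK K * MM S) / aa) *
    (C2 * R ^ (2 * mK K)) * C3 := ⟨_, rfl⟩
  have hR0 : 0 < R := by linarith
  have hcst0 : 0 < cst := by rw [hcst]; positivity
  obtain ⟨D, hD⟩ : ∃ D : ℝ, D = max (cst / (eps * c0 ^ 2 * q)) (72 ^ mK K) := ⟨_, rfl⟩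
  have hD1 : cst / (eps * c0 ^ 2 * q) ≤ D := by rw [hD]; exact le_max_left _ _
  have hD2 : (72 : ℝ) ^ mK K ≤ D := by rw [hD]; exact le_max_right _ _
  have hD0 : 0 < D := lt_of_lt_of_le (by positivity) hD2
  filter_upwards [hT1, (ConicHP.JJ_atTop).eventually_ge_atTop 1, VV_pos c hc,
    (BB_atTop c hc).eventually_ge_atTop 1, vv_le c hc, vv_ge c hc, BB_bounds c hc,
    small_le c hc (2 * c1 K 2 2 * R / c.k1) 0, small_le' c hc (2 * cK K * Fintype.card S) 1,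
    log_le c hc D (2 * mK K), eventually_ge_atTop (1 : ℝ)] with
    H h1 hJ hV hB hv hvg hBB h2 h3 h4 hH
  have hB1 : (1 : ℝ) ≤ c.BB H := by exact_mod_cast hB
  have hV1 : (1 : ℝ) ≤ c.VV H := by exact_mod_cast hV
  have hJ1 : (1 : ℝ) ≤ JJ H := by exact_mod_cast hJ
  have hH0 : 0 < H := by linarith
  have hVJ : (c.VV H : ℝ) ≤ (c.VV H : ℝ) ^ 1 * (JJ H : ℝ) ^ 1 := by
    rw [pow_one, pow_one]
    nlinarith
  have h2' : 2 * c1 K 2 2 * R / c.k1 * (c.BB H : ℝ) ^ (1 / 2 : ℝ) ≤ H := by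
    rw [pow_zero, pow_zero, mul_one, mul_one] at h2
    exact h2
  have h3' : 2 * cK K * Fintype.card S * (c.VV H : ℝ) ≤ H :=
    le_trans (mul_le_mul_of_nonneg_left hVJ (by positivity)) h3
  obtain ⟨L, hL⟩ : ∃ L : ℝ, L = 1 + Real.log ((72 * (c.BB H : ℝ) ^ 2) ^ mK K) := ⟨_, rfl⟩
  have hB72 : 1 ≤ (72 * (c.BB H : ℝ) ^ 2) ^ mK K := one_le_pow₀ (by nlinarith)
  have hL0 : 0 ≤ L := by
    have := Real.log_nonneg hB72
    rw [hL]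
    linarith
  have hLD : L ≤ 1 + Real.log (D * (c.BB H : ℝ) ^ (2 * mK K)) := by
    rw [hL]
    have e1 : (72 * (c.BB H : ℝ) ^ 2) ^ mK K = 72 ^ mK K * (c.BB H : ℝ) ^ (2 * mK K) := by
      rw [mul_pow, pow_mul]
    rw [e1]
    have := Real.log_le_log (show 0 < (72 : ℝ) ^ mK K * (c.BB H : ℝ) ^ (2 * mK K) by positivity)
      (mul_le_mul_of_nonneg_right hD2 (by positivity : 0 ≤ (c.BB H : ℝ) ^ (2 * mK K)))
    linarith
  obtain ⟨bd, hbd⟩ : ∃ bd : ℝ, bd = C1 * (Ck * H) ^ (mK K * MM S) /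
    ((Ck * H) ^ 2 * (c.k1 / 2 * c.VV H) ^ 2 * (c.BB H : ℝ) ^ 2) ^ mK K := ⟨_, rfl⟩
  have hbd0 : 0 ≤ bd := by rw [hbd]; positivity
  -- the points
  obtain ⟨GF, hGF⟩ : ∃ GF, GF = (GC_finite c R H).toFinset := ⟨_, rfl⟩
  have hmem : ∀ x, x ∈ GF ↔ x ∈ c.GC R H := fun x => by rw [hGF, Set.Finite.mem_toFinset]
  have hbox := mem_XX_bounds c.p hc.pv (c.BB H)
  have hGc : (GF.card : ℝ) ≤ C4 * (c.BB H : ℝ) ^ (mK K * 3) := by
    obtain ⟨hf, hcd⟩ := hBx (c.BB H) hB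
    refine le_trans ?_ hcd
    rw [hGF, ← Set.ncard_eq_toFinset_card _ (GC_finite c R H)]
    have hsub : c.GC R H ⊆ Bx 2 (2 * (c.BB H : ℝ)) := fun x hx => hbox.1 x hx.1
    exact Nat.cast_le.mpr (Set.ncard_le_ncard hsub hf)
  -- counting by fibres
  have hcf := ss_card_fib (c.TSame R H) (TSame_finite c R H)
    ((range (JJ H) ×ˢ (GF ×ˢ GF)).filter (fun b => mgI b.2.1 b.2.2 ≠ ⊥))
    (by
      rintro ⟨A, i, x, y⟩ ⟨_, hi, hx, hy, _, _, hne⟩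
      simp only [Finset.mem_filter, Finset.mem_product, Finset.mem_range]
      exact ⟨⟨hi, (hmem x).2 hx, (hmem y).2 hy⟩,
        mgI_ne_bot_of_mem_GG c.p hc.pv R (c.BB H) hB x y hx hy hne⟩)
    (fun b => {A : Idx 2 2 × S → 𝓞 K | (∀ m w', ‖sg w' (A m)‖ ≤ Ck * H) ∧
      F (ev A (c.vv H b.1)) b.2.1 = 0 ∧ F (ev A (c.vv H b.1)) b.2.2 = 0})
    (fun b _ => finite_of_norm_le _ (Ck * H) fun A hA m w' => hA.1 m w')
    (by
      rintro ⟨A, i, x, y⟩ ⟨hA, hi, hx, hy, hF1, hF2, hne⟩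
      refine ⟨fun m w' => (Cl_norm_le c hc H (by linarith) A hA m w').trans ?_, hF1, hF2⟩
      calc cK K * (3 * H) = 3 * cK K * H := by ring
        _ ≤ Ck * H := mul_le_mul_of_nonneg_right hCk3 (by linarith))
  refine hcf.trans ?_
  have hb : ∀ b ∈ (range (JJ H) ×ˢ (GF ×ˢ GF)).filter (fun b => mgI b.2.1 b.2.2 ≠ ⊥),
      (Set.ncard {A : Idx 2 2 × S → 𝓞 K | (∀ m w', ‖sg w' (A m)‖ ≤ Ck * H) ∧
      F (ev A (c.vv H b.1)) b.2.1 = 0 ∧ F (ev A (c.vv H b.1)) b.2.2 = 0} : ℝ) ≤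
      bd * ((mgN b.2.1 b.2.2 : ℝ) / np (fun w' => dl w' b.2.1 b.2.2)) := by
    rintro ⟨i, x, y⟩ hb
    simp only [Finset.mem_filter, Finset.mem_product, Finset.mem_range] at hb
    obtain ⟨⟨hi, hx, hy⟩, hne⟩ := hb
    rw [hbd]
    exact ss_fibre c hc R hR C1 hcr H hH hB hV hv hvg Ck hCk hBB.2.1 h2' h3' i hi x y
      ((hmem x).1 hx) ((hmem y).1 hy) hne
  refine (Finset.sum_le_sum hb).trans ?_
  rw [Finset.sum_filter, Finset.sum_product]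
  have h6 : ∀ i ∈ range (JJ H), ∑ p ∈ GF ×ˢ GF,
      (if mgI p.1 p.2 ≠ ⊥ then
        bd * ((mgN p.1 p.2 : ℝ) / np (fun w' => dl w' p.1 p.2)) else 0) ≤
      GF.card * (bd * (C2 * R ^ (2 * mK K) * (c.BB H : ℝ) ^ mK K * (C3 * L))) := by
    intro i _
    rw [Finset.sum_product, ← nsmul_eq_mul]
    refine Finset.sum_le_card_nsmul _ _ _ fun x hx => ?_
    rw [← Finset.sum_filter, ← Finset.mul_sum]
    refine mul_le_mul_of_nonneg_left ?_ hbd0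
    rw [hL]
    exact ss_sum_y c hc R hR C2 C3 hphi hlog H hB x ((hmem x).1 hx) _ (fun y hy => by
      rw [Finset.mem_filter] at hy
      exact ⟨(hmem y).1 hy.1, hy.2⟩)
  refine (Finset.sum_le_sum h6).trans ?_
  rw [Finset.sum_const, Finset.card_range, nsmul_eq_mul]
  have hX : c.XR c.p.rho H = q * H ^ (mK K * MM S) := by
    rw [CPar.XR, hq, ← mul_pow]
    congr 1
    ring
  have hT : c.TT H = JJ H * c.T1 H := rfl
  have hT1' : c0 ^ 2 ≤ c.T1 H ^ 2 := pow_le_pow_left₀ hc0.le h1 2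
  -- `cst L ≤ eps c0^2 q J`
  have hkey : cst * L ≤ eps * c0 ^ 2 * q * JJ H := by
    have h5 : cst = eps * c0 ^ 2 * q * (cst / (eps * c0 ^ 2 * q)) := by
      field_simp
    calc cst * L = eps * c0 ^ 2 * q * (cst / (eps * c0 ^ 2 * q)) * L := by rw [← h5]
      _ ≤ eps * c0 ^ 2 * q * D * (1 + Real.log (D * (c.BB H : ℝ) ^ (2 * mK K))) := by gcongr
      _ = eps * c0 ^ 2 * q * (D * (1 + Real.log (D * (c.BB H : ℝ) ^ (2 * mK K)))) := by ring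
      _ ≤ eps * c0 ^ 2 * q * JJ H := by gcongr
  -- the powers
  obtain ⟨b2, hb2⟩ : ∃ b2 : ℝ, b2 = ((c.BB H : ℝ) ^ 2) ^ mK K := ⟨_, rfl⟩
  obtain ⟨h22, hh22⟩ : ∃ h22 : ℝ, h22 = (H ^ 2 * (c.VV H : ℝ) ^ 2) ^ mK K := ⟨_, rfl⟩
  have hb20 : 0 < b2 := by rw [hb2]; positivity
  have hh220 : 0 < h22 := by rw [hh22]; positivity
  have hBH : b2 / h22 ≤ 1 := by
    rw [div_le_one hh220, hb2, hh22]
    refine pow_le_pow_left₀ (by positivity) ?_ _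
    rw [← mul_pow]
    exact pow_le_pow_left₀ (by positivity) hBB.2.1 2
  have e1 : (c.BB H : ℝ) ^ (mK K * 3) * (c.BB H : ℝ) ^ mK K = b2 * b2 := by
    rw [hb2, ← pow_add, ← pow_mul, ← pow_add]
    congr 1
    ring
  have e2 : ((Ck * H) ^ 2 * (c.k1 / 2 * (c.VV H : ℝ)) ^ 2 * (c.BB H : ℝ) ^ 2) ^ mK K =
      aa * h22 * b2 := by
    rw [haa, hh22, hb2, ← mul_pow, ← mul_pow]
    ring
  have e3 : (Ck * H) ^ (mK K * MM S) = Ck ^ (mK K * MM S) * H ^ (mK K * MM S) := mul_pow _ _ _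
  calc (JJ H : ℝ) * (GF.card * (bd * (C2 * R ^ (2 * mK K) * (c.BB H : ℝ) ^ mK K * (C3 * L))))
      ≤ (JJ H : ℝ) * ((C4 * (c.BB H : ℝ) ^ (mK K * 3)) *
        (bd * (C2 * R ^ (2 * mK K) * (c.BB H : ℝ) ^ mK K * (C3 * L)))) := by gcongr
    _ = (JJ H : ℝ) * C4 * bd * C2 * R ^ (2 * mK K) * C3 * L *
        ((c.BB H : ℝ) ^ (mK K * 3) * (c.BB H : ℝ) ^ mK K) := by ring
    _ = (JJ H : ℝ) * H ^ (mK K * MM S) * (cst * L) * (b2 / h22) := by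
        rw [e1, hbd, e2, e3, hcst]
        field_simp
    _ ≤ (JJ H : ℝ) * H ^ (mK K * MM S) * (cst * L) * 1 := by gcongr
    _ ≤ (JJ H : ℝ) * H ^ (mK K * MM S) * (eps * c0 ^ 2 * q * JJ H) * 1 := by gcongr
    _ = eps * ((JJ H : ℝ) ^ 2 * c0 ^ 2) * (q * H ^ (mK K * MM S)) := by ring
    _ ≤ eps * ((JJ H : ℝ) ^ 2 * c.T1 H ^ 2) * (q * H ^ (mK K * MM S)) := by gcongr
    _ = eps * c.TT H ^ 2 * c.XR c.p.rho H := by
        rw [hX, hT]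
        ring

end NKCHP
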