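import Pool.Agent.Lib.MP_e426f4_ag.CK.CrudeB
import Pool.Agent.Lib.MP_e426f4_ag.CK.Heights

/-!
CK-SecondSx: the same point in two different fibres contributes little. Template: C/SecondSx.lean. crude_samex with mu = R BB^(1/2), U = k1/2 VV, Vm = 2 VV, radius 3 cK H (conditions by small_le), Dd = D0 |i - i'| (fam.sep, replace a by -a if i < i'): total JJ^2 C B^(3m) (VV/(H^2 VV B^4))^m XR = C JJ^2 (H^2 B)^(-m) XR <= eps TT^2 XR eventually.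
-/

namespace NKCHP

open NumberField GenHP NFHP NKHP Finset Filter Topology
open ConicHP (ev JJ)

variable {K : Type} [Field K] [NumberField K] {S : Type} [Fintype S]

/-- counting pairs by fibres -/
private theorem ssx_card_fib {α β : Type*} (T0 : Set (α × β)) (hT0 : T0.Finite) (T : Finset β)
    (hT : ∀ q ∈ T0, q.2 ∈ T) (N : β → Set α) (hN : ∀ b ∈ T, (N b).Finite)
    (hSN : ∀ q ∈ T0, q.1 ∈ N q.2) : (T0.ncard : ℝ) ≤ ∑ b ∈ T, ((N b).ncard : ℝ) := by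
  classical
  rw [Set.ncard_eq_toFinset_card _ hT0, Finset.card_eq_sum_card_fiberwise (f := fun q => q.2)
    (t := T) (fun q hq => hT q (by simpa using hq))]
  push_cast
  refine Finset.sum_le_sum fun b hb => ?_
  rw [Set.ncard_eq_toFinset_card _ (hN b hb)]
  refine Nat.cast_le.mpr (Finset.card_le_card_of_injOn (fun q => q.1) (fun q hq => ?_)
    (fun q hq q' hq' h => ?_))
  · simp only [Finset.coe_filter, Set.Finite.mem_toFinset, Set.mem_ofPred_eq] at hq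
    simp only [Set.Finite.coe_toFinset]
    rw [← hq.2]
    exact hSN q hq.1
  · simp only [Finset.coe_filter, Set.Finite.mem_toFinset, Set.mem_ofPred_eq] at hq hq'
    exact Prod.ext h (hq.2.trans hq'.2.symm)

private theorem ssx_sep (c : CPar K S) {eps k0 : ℝ} {w : ℕ} (hc : c.Valid eps k0 w) (J i i' : ℕ)
    (h : i ≠ i') : ∃ a : S → 𝓞 K, ∑ s, a s * c.v J i s = 0 ∧
      ∑ s, a s * c.v J i' s = ((c.D0 * ((i : ℤ) - i').natAbs : ℕ) : 𝓞 K) := by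
  obtain ⟨a, h1, h2⟩ := hc.fam.sep J i i' h
  have h4 : ((c.D0 * ((i : ℤ) - i').natAbs : ℕ) : 𝓞 K) =
      (((c.D0 : ℤ) * |(i : ℤ) - i'| : ℤ) : 𝓞 K) := by
    rw [← Int.natCast_natAbs, ← Nat.cast_mul, Int.cast_natCast]
  rcases le_total 0 ((i : ℤ) - i') with h3 | h3
  · refine ⟨a, h1, ?_⟩
    rw [h2, h4, abs_of_nonneg h3]
  · refine ⟨fun s => -a s, ?_, ?_⟩
    · simp only [neg_mul, Finset.sum_neg_distrib]
      rw [h1, neg_zero]
    · simp only [neg_mul, Finset.sum_neg_distrib]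
      rw [h2, h4, abs_of_nonpos h3]
      push_cast
      ring

private theorem ssx_sep_pos (c : CPar K S) {eps k0 : ℝ} {w : ℕ} (hc : c.Valid eps k0 w) (i i' : ℕ)
    (h : i ≠ i') : 0 < c.D0 * ((i : ℤ) - i').natAbs := by
  refine Nat.mul_pos hc.fam.D0_pos ?_
  rw [Int.natAbs_pos]
  omega

theorem S2_samex (c : CPar K S) {eps k0 : ℝ} {w : ℕ} (hc : c.Valid eps k0 w)
    (R : ℝ) (hR : 1 ≤ R) : ∀ᶠ H : ℝ in atTop,
    ((c.TSx R H).ncard : ℝ) ≤ eps * c.TT H ^ 2 * c.XR c.p.rho H := by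
  classical
  have heps := hc.pv.eps_pos
  have hrho := hc.pv.rho_pos
  have hQ : (0 : ℝ) < c.p.Q := by exact_mod_cast hc.pv.Q_pos
  have hk1 := hc.fam.k1_pos
  have hm : 0 < mK K := mK_pos
  have hcK1 := one_le_cK (K := K)
  have hcK : 0 < cK K := by linarith
  obtain ⟨c0, hc0, hT1⟩ := T1_bounds c hc
  obtain ⟨C1, hC1, hcard⟩ := card_Bx K 2
  obtain ⟨C2, hC2, hcr⟩ := crude_samex K S
  obtain ⟨q, hq⟩ : ∃ q : ℝ, q = (2 * c.p.rho / c.p.Q) ^ (mK K * MM S) := ⟨_, rfl⟩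
  have hq0 : 0 < q := by rw [hq]; positivity
  obtain ⟨cst, hcst⟩ : ∃ cst : ℝ, cst = C1 * C2 * (3 * cK K) ^ (mK K * MM S) *
    (4 / (9 * cK K ^ 2 * c.k1)) ^ mK K := ⟨_, rfl⟩
  have hcst0 : 0 < cst := by rw [hcst]; positivity
  obtain ⟨D, hD⟩ : ∃ D : ℝ, D = cst / (eps * c0 ^ 2 * q) := ⟨_, rfl⟩
  have hD0 : 0 < D := by rw [hD]; positivity
  have hc1 : 0 ≤ c1 K 2 2 := by unfold NFHP.c1; positivity
  filter_upwards [hT1, (ConicHP.JJ_atTop).eventually_ge_atTop 1, VV_pos c hc,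
    (BB_atTop c hc).eventually_ge_atTop 1, vv_le c hc, vv_ge c hc,
    small_le c hc (8 * c1 K 2 2 * R * (1 + 1 / c.k1)) 1,
    small_le' c hc (2 * Fintype.card S) 1, eventually_ge_atTop (1 : ℝ),
    eventually_ge_atTop D] with H h1 hJ hV hB hv hvg h2 h3 hH hHD
  have hB1 : (1 : ℝ) ≤ c.BB H := by exact_mod_cast hB
  have hV1 : (1 : ℝ) ≤ c.VV H := by exact_mod_cast hV
  have hJ1 : (1 : ℝ) ≤ JJ H := by exact_mod_cast hJ
  rw [pow_one, pow_one] at h2 h3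
  obtain ⟨sB, hsB⟩ : ∃ sB : ℝ, sB = (c.BB H : ℝ) ^ (1 / ((2 : ℕ) : ℝ)) := ⟨_, rfl⟩
  have e2 : (1 / ((2 : ℕ) : ℝ)) = (1 / 2 : ℝ) := by norm_num
  have hsB1 : 1 ≤ sB := by rw [hsB]; exact Real.one_le_rpow hB1 (by positivity)
  rw [← e2, ← hsB] at h2
  obtain ⟨mu, hmu⟩ : ∃ mu : ℝ, mu = R * sB := ⟨_, rfl⟩
  have hmu1 : 1 ≤ mu := by rw [hmu]; exact one_le_mul_of_one_le_of_one_le hR hsB1
  have hVJ : (c.VV H : ℝ) ≤ (c.VV H : ℝ) * (JJ H : ℝ) :=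
    le_mul_of_one_le_right (zero_le_one.trans hV1) hJ1
  -- the two conditions of the crude count
  have hcm0 : 0 ≤ c1 K 2 2 * mu := mul_nonneg hc1 (by linarith)
  have hk1i : 0 ≤ 1 / c.k1 := by positivity
  have hA1 : 8 * ((c.VV H : ℝ) * (c1 K 2 2 * mu)) ≤ H := by
    refine le_trans ?_ h2
    have e3 : 8 * ((c.VV H : ℝ) * (c1 K 2 2 * mu)) = 8 * c1 K 2 2 * R * 1 * (c.VV H : ℝ) * sB := by
      rw [hmu]; ring
    rw [e3]
    gcongr
    linarith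
  have hA2 : 8 * (c1 K 2 2 * mu / c.k1) ≤ H := by
    refine le_trans ?_ h2
    have e3 : 8 * (c1 K 2 2 * mu / c.k1) = 8 * c1 K 2 2 * R * (1 / c.k1) * 1 * sB := by
      rw [hmu]; ring
    rw [e3]
    gcongr
    · linarith
    · linarith
  have hA3 : 2 * (Fintype.card S * (c.VV H : ℝ)) ≤ H := by
    refine le_trans ?_ h3
    rw [← mul_assoc]
    exact mul_le_mul_of_nonneg_left hVJ (by positivity)
  have hcH : H ≤ cK K * H := le_mul_of_one_le_left (zero_le_one.trans hH) hcK1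
  obtain ⟨bd, hbd⟩ : ∃ bd : ℝ, bd = C2 * (cK K * (3 * H)) ^ (mK K * MM S) *
    (2 * c.VV H / ((cK K * (3 * H)) ^ 2 * (c.k1 / 2 * c.VV H) * (c.BB H : ℝ) ^ 4)) ^ mK K :=
    ⟨_, rfl⟩
  have hbd0 : 0 ≤ bd := by rw [hbd]; positivity
  obtain ⟨GF, hGF⟩ : ∃ GF, GF = (GC_finite c R H).toFinset := ⟨_, rfl⟩
  have hmem : ∀ x, x ∈ GF ↔ x ∈ c.GC R H := fun x => by rw [hGF, Set.Finite.mem_toFinset]
  obtain ⟨hb1, hb2⟩ := mem_XX_bounds c.p hc.pv (c.BB H)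
  have hGc : (GF.card : ℝ) ≤ C1 * (c.BB H : ℝ) ^ (mK K * (2 + 1)) := by
    obtain ⟨hf, hn⟩ := hcard (c.BB H) hB
    refine le_trans ?_ hn
    rw [hGF, ← Set.ncard_eq_toFinset_card _ (GC_finite c R H)]
    exact Nat.cast_le.2 (Set.ncard_le_ncard (fun x hx => hb1 x hx.1) hf)
  have hcf := ssx_card_fib (c.TSx R H) (TSx_finite c R H)
    ((range (JJ H) ×ˢ (range (JJ H) ×ˢ GF)).filter (fun b => b.1 ≠ b.2.1))
    (by
      rintro ⟨A, i, i', x⟩ ⟨_, hi, hi', hne, hx, _, _⟩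
      simp only [Finset.mem_filter, Finset.mem_product, Finset.mem_range]
      exact ⟨⟨hi, hi', (hmem x).2 hx⟩, hne⟩)
    (fun b => {A : Idx 2 2 × S → 𝓞 K | (∀ m w, ‖sg w (A m)‖ ≤ cK K * (3 * H)) ∧
      F (ev A (c.vv H b.1)) b.2.2 = 0 ∧ F (ev A (c.vv H b.2.1)) b.2.2 = 0})
    (fun b _ => finite_of_norm_le _ (cK K * (3 * H)) fun A hA i => hA.1 i)
    (by
      rintro ⟨A, i, i', x⟩ ⟨hA, hi, hi', hne, hx, hF1, hF2⟩
      exact ⟨fun m w' => Cl_norm_le c hc H (by linarith) A hA m w', hF1, hF2⟩)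
  have hb : ∀ b ∈ (range (JJ H) ×ˢ (range (JJ H) ×ˢ GF)).filter (fun b => b.1 ≠ b.2.1),
      (Set.ncard {A : Idx 2 2 × S → 𝓞 K | (∀ m w, ‖sg w (A m)‖ ≤ cK K * (3 * H)) ∧
      F (ev A (c.vv H b.1)) b.2.2 = 0 ∧ F (ev A (c.vv H b.2.1)) b.2.2 = 0} : ℝ) ≤ bd := by
    rintro ⟨i, i', x⟩ hb
    simp only [Finset.mem_filter, Finset.mem_product, Finset.mem_range] at hb
    obtain ⟨⟨hi, hi', hx⟩, hne⟩ := hb
    have hx' := (hmem x).1 hx
    have hO : Ortho mu x := by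
      rw [hmu, hsB]
      exact hx'.2.2
    rw [hbd]
    refine hcr (c.BB H) hB x hx'.2.1 mu hmu1 hO
      (fun w' => ?_) (c.vv H i) (c.vv H i') (hc.fam.prim _ _) c.s0 (c.k1 / 2 * c.VV H)
      (by positivity) (hvg i hi) (2 * c.VV H) (by linarith) (hv i hi)
      (c.D0 * ((i : ℤ) - i').natAbs) (ssx_sep_pos c hc i i' hne)
      (ssx_sep c hc (JJ H) i i' hne) (cK K * (3 * H)) (by nlinarith only [hcH, hH]) ?_ ?_
    · obtain ⟨j, hj⟩ := hb2 w'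
      exact ⟨j, hj x hx'.1⟩
    · have e3 : 2 * (c.VV H : ℝ) * (c1 K 2 2 * mu) = 2 * ((c.VV H : ℝ) * (c1 K 2 2 * mu)) := by ring
      rw [e3]
      linarith only [hA1, hcH, hH, hcm0]
    · have e3 : c1 K 2 2 * mu / (c.k1 / 2 * c.VV H) ≤ 2 * (c1 K 2 2 * mu / c.k1) := by
        have e4 : 2 * (c1 K 2 2 * mu / c.k1) = c1 K 2 2 * mu / (c.k1 / 2 * 1) := by
          field_simp
        rw [e4]
        gcongr
      have e5 : cK K * ((Fintype.card S : ℝ) * (2 * c.VV H)) ≤ cK K * H := by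
        refine mul_le_mul_of_nonneg_left ?_ hcK.le
        linarith
      linarith
  have hcount : ((c.TSx R H).ncard : ℝ) ≤
      (JJ H : ℝ) ^ 2 * (C1 * (c.BB H : ℝ) ^ (mK K * (2 + 1))) * bd := by
    refine hcf.trans ((Finset.sum_le_card_nsmul _ _ _ hb).trans ?_)
    rw [nsmul_eq_mul]
    refine mul_le_mul_of_nonneg_right ?_ hbd0
    have h4 : ((range (JJ H) ×ˢ (range (JJ H) ×ˢ GF)).filter (fun b => b.1 ≠ b.2.1)).card ≤
        JJ H * (JJ H * GF.card) := by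
      refine (Finset.card_filter_le _ _).trans ?_
      rw [Finset.card_product, Finset.card_product, Finset.card_range]
    calc (((range (JJ H) ×ˢ (range (JJ H) ×ˢ GF)).filter (fun b => b.1 ≠ b.2.1)).card : ℝ)
        ≤ (JJ H : ℝ) * ((JJ H : ℝ) * GF.card) := by exact_mod_cast h4
      _ = (JJ H : ℝ) ^ 2 * GF.card := by ring
      _ ≤ (JJ H : ℝ) ^ 2 * (C1 * (c.BB H : ℝ) ^ (mK K * (2 + 1))) :=
          mul_le_mul_of_nonneg_left hGc (by positivity)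
  refine hcount.trans ?_
  clear hcount hb hcf hGc hmem hbd0
  have hX : c.XR c.p.rho H = q * H ^ (mK K * MM S) := by
    rw [CPar.XR, hq, ← mul_pow]
    congr 1
    ring
  have hT : c.TT H = JJ H * c.T1 H := rfl
  have hT1' : c0 ^ 2 ≤ c.T1 H ^ 2 := pow_le_pow_left₀ hc0.le h1 2
  have hHB : H ≤ H ^ 2 * c.BB H := by
    nlinarith only [hH, hB1, mul_nonneg (sub_nonneg.2 hH) (sub_nonneg.2 hB1), sq_nonneg H]
  have hHB1 : 1 ≤ H ^ 2 * (c.BB H : ℝ) := by linarith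
  have hHBm : H ≤ (H ^ 2 * (c.BB H : ℝ)) ^ mK K :=
    hHB.trans (le_self_pow₀ hHB1 hm.ne')
  have hkey : cst / (H ^ 2 * (c.BB H : ℝ)) ^ mK K ≤ eps * c0 ^ 2 * q := by
    rw [div_le_iff₀ (by positivity)]
    have h5 : cst = eps * c0 ^ 2 * q * D := by
      rw [hD]
      field_simp
    rw [h5]
    exact mul_le_mul_of_nonneg_left (hHD.trans hHBm) (by positivity)
  have hVne : (c.VV H : ℝ) ≠ 0 := by linarith
  have hBne : (c.BB H : ℝ) ≠ 0 := by linarith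
  have hHne : H ≠ 0 := by linarith
  have hbd' : (JJ H : ℝ) ^ 2 * (C1 * (c.BB H : ℝ) ^ (mK K * (2 + 1))) * bd =
      (JJ H : ℝ) ^ 2 * H ^ (mK K * MM S) * (cst / (H ^ 2 * (c.BB H : ℝ)) ^ mK K) := by
    have e6 : 2 * (c.VV H : ℝ) / ((cK K * (3 * H)) ^ 2 * (c.k1 / 2 * c.VV H) *
        (c.BB H : ℝ) ^ 4) = (4 / (9 * cK K ^ 2 * c.k1)) /
          ((H ^ 2 * (c.BB H : ℝ)) * (c.BB H : ℝ) ^ (2 + 1)) := by
      field_simp
      ring
    rw [hbd, e6, hcst, div_pow, mul_pow (H ^ 2 * (c.BB H : ℝ)), ← pow_mul,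
      mul_comm (2 + 1) (mK K)]
    have e7 : (cK K * (3 * H)) ^ (mK K * MM S) = (3 * cK K) ^ (mK K * MM S) *
        H ^ (mK K * MM S) := by
      rw [← mul_pow]
      congr 1
      ring
    rw [e7]
    have e8 : (c.BB H : ℝ) ^ (mK K * (2 + 1)) ≠ 0 := pow_ne_zero _ hBne
    have e9 : (H ^ 2 * (c.BB H : ℝ)) ^ mK K ≠ 0 := pow_ne_zero _ (by positivity)
    generalize (4 / (9 * cK K ^ 2 * c.k1)) ^ mK K = z at *
    generalize (H ^ 2 * (c.BB H : ℝ)) ^ mK K = y at *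
    generalize (c.BB H : ℝ) ^ (mK K * (2 + 1)) = u at *
    field_simp
  rw [hbd']
  calc (JJ H : ℝ) ^ 2 * H ^ (mK K * MM S) * (cst / (H ^ 2 * (c.BB H : ℝ)) ^ mK K)
      ≤ (JJ H : ℝ) ^ 2 * H ^ (mK K * MM S) * (eps * c0 ^ 2 * q) :=
        mul_le_mul_of_nonneg_left hkey (by positivity)
    _ = eps * ((JJ H : ℝ) ^ 2 * c0 ^ 2) * (q * H ^ (mK K * MM S)) := by ring
    _ ≤ eps * ((JJ H : ℝ) ^ 2 * c.T1 H ^ 2) * (q * H ^ (mK K * MM S)) := by gcongr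
    _ = eps * c.TT H ^ 2 * c.XR c.p.rho H := by
        rw [hX, hT]
        ring

end NKCHP
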