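import Pool.Agent.Lib.MP_e426f4_ag.CK.CardCl
import Pool.Agent.Lib.MP_e426f4_ag.CK.Heights
import Pool.Agent.Lib.MP_e426f4_ag.CK.FirstLower
import Pool.Agent.Lib.MP_e426f4_ag.CK.FirstUpper
import Pool.Agent.Lib.MP_e426f4_ag.CK.SecondSame
import Pool.Agent.Lib.MP_e426f4_ag.CK.SecondSx
import Pool.Agent.Lib.MP_e426f4_ag.CK.SecondBad
import Pool.Agent.Lib.MP_e426f4_ag.CK.SecondMain

/-!
CK-SecondMoment. Templates: C/SecondMoment.lean, NK/SecondMoment.lean. N(A) = number of (i, x) with (A, i, x) in Pairs rho. Sum of N(A)^2 = Pairs + TSame + TSx + TBad + TMain (cases i = i' or not, x = y or not); Pairs <= (1 + 8 eps) TT XR <= eps TT^2 XR eventually (TT_atTop). E >= 0 since the empty sum is <= E. N(A) > 0 implies FSol c.v A (x is unimodular, so x /= 0; J = JJ H).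
Sum over Cl of (N(A) - TT)^2 <= (100 eps + 10 E) TT^2 XR, card_Cl.
-/

namespace NKCHP

open NumberField GenHP NFHP NKHP Finset Filter Topology
open ConicHP (ev JJ)

variable {K : Type} [Field K] [NumberField K] {S : Type} [Fintype S]

private theorem ct_algebra (u v S N X Y : ℝ) (hu : 0 ≤ u) (hv : 0 ≤ v) (hu1 : u ≤ 1) (hX : 0 ≤ X)
    (hS : (1 - u) * X ≤ S) (hN : N ≤ (1 + v) * X) (hCS : S ^ 2 ≤ Y * N) (hY : 0 ≤ Y) :
    (1 - 2 * u - v) * X ≤ Y := by
  rcases hX.eq_or_lt with rfl | hXp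
  · simpa using hY
  have h1 : ((1 - u) * X) ^ 2 ≤ S ^ 2 := pow_le_pow_left₀ (mul_nonneg (by linarith) hX) hS 2
  have h2 : Y * N ≤ Y * ((1 + v) * X) := mul_le_mul_of_nonneg_left hN hY
  have h3 : (1 - u) ^ 2 * X ≤ Y * (1 + v) := by
    have h4 : (1 - u) ^ 2 * X * X ≤ Y * (1 + v) * X := by nlinarith only [h1, h2, hCS]
    exact le_of_mul_le_mul_right h4 hXp
  have h5 : (1 - 2 * u - v) * (1 + v) ≤ (1 - u) ^ 2 := by nlinarith only [hu, hv, mul_nonneg hu hv]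
  have h6 : (1 - 2 * u - v) * X * (1 + v) ≤ Y * (1 + v) := by
    calc (1 - 2 * u - v) * X * (1 + v) = (1 - 2 * u - v) * (1 + v) * X := by ring
      _ ≤ (1 - u) ^ 2 * X := mul_le_mul_of_nonneg_right h5 hX
      _ ≤ Y * (1 + v) := h3
  exact le_of_mul_le_mul_right h6 (by linarith)

theorem second_moment (c : CPar K S) {eps k0 : ℝ} {w : ℕ} (hc : c.Valid eps k0 w)
    (E : ℝ) (hE : TailE K w E) :
    ∀ᶠ H : ℝ in atTop,
      (Set.ncard {A | A ∈ c.Cl c.p.rho H ∧ ¬ FSol c.v A} : ℝ) ≤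
        (100 * eps + 10 * E) * c.XR c.p.rho H := by
  classical
  have hp := hc.pv
  have heps := hp.eps_pos
  have heps1 := hp.eps_le
  have hE0 : 0 ≤ E := by
    have := hE ∅ (fun I hI => absurd hI (Finset.notMem_empty I))
    simpa using this
  obtain ⟨K0, hK0, hlow⟩ := S1_lower c hc E hE
  have hlow' := hlow K0 le_rfl
  have hup := S1_upper c hc K0 hK0 c.p.rho le_rfl (by linarith [hp.rho_pos])
  have hsame := S2_same c hc K0 hK0
  have hsx := S2_samex c hc K0 hK0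
  obtain ⟨G, tau, hG, htau, htau1, hbad⟩ := S2_bad c hc K0 hK0
  have hmain := S2_main c hc E hE K0 hK0 G hG tau htau htau1
  have hcl := card_Cl c hp.Q_pos c.p.rho eps hp.rho_pos heps
  have hTT' := (TT_atTop c hc).eventually_ge_atTop ((1 + 8 * eps) / eps)
  filter_upwards [hlow', hup, hsame, hsx, hbad, hmain, hcl, hTT', Filter.eventually_gt_atTop 0] with
    H hlow hup hsame hsx hbad hmain hcl hTT hH0
  obtain ⟨-, hcl2⟩ := hcl
  have hX0 : 0 ≤ c.XR c.p.rho H := (XR_pos c hc hp.rho_pos hH0).le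
  set X : ℝ := c.XR c.p.rho H with hX
  set T : ℝ := c.TT H with hT
  have hT0 : 0 < T := lt_of_lt_of_le (by positivity) hTT
  -- finsets
  set CL : Finset (Idx 2 2 × S → 𝓞 K) := (Cl_finite c c.p.rho H).toFinset with hCL
  set GF : Finset (ℕ × (Fin (2 + 1) → 𝓞 K)) := (range (JJ H)) ×ˢ (GC_finite c K0 H).toFinset
    with hGF
  have hGFm : ∀ z, z ∈ GF ↔ z.1 < JJ H ∧ z.2 ∈ c.GC K0 H := by
    intro z
    rw [hGF, Finset.mem_product, Finset.mem_range, Set.Finite.mem_toFinset]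
  have hCLm : ∀ A, A ∈ CL ↔ A ∈ c.Cl c.p.rho H := by
    intro A
    rw [hCL, Set.Finite.mem_toFinset]
  set Ev : (Idx 2 2 × S → 𝓞 K) → (ℕ × (Fin (2 + 1) → 𝓞 K)) → Prop :=
    fun A z => F (ev A (c.vv H z.1)) z.2 = 0 with hEv
  set N : (Idx 2 2 × S → 𝓞 K) → ℕ := fun A => (GF.filter (fun z => Ev A z)).card with hN
  have hPairs : (c.Pairs c.p.rho K0 H).ncard = ∑ A ∈ CL, N A := by
    have e1 : c.Pairs c.p.rho K0 H = (((CL ×ˢ GF).filter (fun q => Ev q.1 q.2) :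
        Finset ((Idx 2 2 × S → 𝓞 K) × (ℕ × (Fin (2 + 1) → 𝓞 K)))) :
          Set ((Idx 2 2 × S → 𝓞 K) × (ℕ × (Fin (2 + 1) → 𝓞 K)))) := by
      ext q
      rw [Finset.mem_coe, Finset.mem_filter, Finset.mem_product, hCLm, hGFm]
      exact ⟨fun h => ⟨⟨h.1, h.2.1, h.2.2.1⟩, h.2.2.2⟩, fun h => ⟨h.1.1, h.1.2.1, h.1.2.2, h.2⟩⟩
    rw [e1, Set.ncard_coe_finset, Finset.card_filter, Finset.sum_product]
    exact Finset.sum_congr rfl fun A _ => (Finset.card_filter _ _).symm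
  have hTrip : ∑ A ∈ CL, (N A) ^ 2 ≤ (c.Pairs c.p.rho K0 H).ncard + (c.TSame K0 H).ncard +
      (c.TSx K0 H).ncard + (c.TBad K0 G tau H).ncard + (c.TMain K0 G tau H).ncard := by
    set TR : Finset ((Idx 2 2 × S → 𝓞 K) × (ℕ × (Fin (2 + 1) → 𝓞 K)) ×
        (ℕ × (Fin (2 + 1) → 𝓞 K))) :=
      (CL ×ˢ (GF ×ˢ GF)).filter (fun q => Ev q.1 q.2.1 ∧ Ev q.1 q.2.2) with hTR
    have hcard : ∑ A ∈ CL, (N A) ^ 2 = TR.card := by
      rw [hTR, Finset.card_filter, Finset.sum_product]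
      refine Finset.sum_congr rfl fun A _ => ?_
      rw [hN, sq]
      simp only
      rw [← Finset.card_product, Finset.card_eq_sum_ones, ← Finset.sum_filter,
        ← Finset.filter_product, Finset.sum_const]
    rw [hcard]
    set f1 : ((Idx 2 2 × S → 𝓞 K) × ℕ × (Fin (2 + 1) → 𝓞 K)) →
      ((Idx 2 2 × S → 𝓞 K) × (ℕ × (Fin (2 + 1) → 𝓞 K)) × (ℕ × (Fin (2 + 1) → 𝓞 K))) :=
      fun q => (q.1, q.2, q.2) with hf1
    set f2 : ((Idx 2 2 × S → 𝓞 K) × ℕ × (Fin (2 + 1) → 𝓞 K) × (Fin (2 + 1) → 𝓞 K)) →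
      ((Idx 2 2 × S → 𝓞 K) × (ℕ × (Fin (2 + 1) → 𝓞 K)) × (ℕ × (Fin (2 + 1) → 𝓞 K))) :=
      fun q => (q.1, (q.2.1, q.2.2.1), (q.2.1, q.2.2.2)) with hf2
    set f3 : ((Idx 2 2 × S → 𝓞 K) × ℕ × ℕ × (Fin (2 + 1) → 𝓞 K)) →
      ((Idx 2 2 × S → 𝓞 K) × (ℕ × (Fin (2 + 1) → 𝓞 K)) × (ℕ × (Fin (2 + 1) → 𝓞 K))) :=
      fun q => (q.1, (q.2.1, q.2.2.2), (q.2.2.1, q.2.2.2)) with hf3
    have hsub : (TR : Set ((Idx 2 2 × S → 𝓞 K) × (ℕ × (Fin (2 + 1) → 𝓞 K)) ×
        (ℕ × (Fin (2 + 1) → 𝓞 K)))) ⊆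
        (f1 '' c.Pairs c.p.rho K0 H) ∪ (f2 '' c.TSame K0 H) ∪ (f3 '' c.TSx K0 H) ∪
          c.TBad K0 G tau H ∪ c.TMain K0 G tau H := by
      rintro ⟨A, ⟨i, x⟩, ⟨i', y⟩⟩ hq
      rw [Finset.mem_coe, hTR, Finset.mem_filter, Finset.mem_product, Finset.mem_product] at hq
      obtain ⟨⟨hA, hx, hy⟩, hFx, hFy⟩ := hq
      rw [hCLm] at hA
      rw [hGFm] at hx hy
      simp only at hx hy hA
      simp only [hEv] at hFx hFy
      by_cases hii : i = i'
      · subst hii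
        by_cases hxy : x = y
        · subst hxy
          exact Or.inl (Or.inl (Or.inl (Or.inl ⟨(A, i, x), ⟨hA, hx.1, hx.2, hFx⟩, rfl⟩)))
        · exact Or.inl (Or.inl (Or.inl (Or.inr
            ⟨(A, i, x, y), ⟨hA, hx.1, hx.2, hy.2, hFx, hFy, hxy⟩, rfl⟩)))
      · by_cases hxy : x = y
        · subst hxy
          exact Or.inl (Or.inl (Or.inr
            ⟨(A, i, i', x), ⟨hA, hx.1, hy.1, hii, hx.2, hFx, hFy⟩, rfl⟩))
        · by_cases hbad : BadPr G tau (c.BB H) x y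
          · exact Or.inl (Or.inr ⟨hA, hx.1, hy.1, hii, hx.2, hy.2, hFx, hFy, hxy, hbad⟩)
          · exact Or.inr ⟨hA, hx.1, hy.1, hii, hx.2, hy.2, hFx, hFy, hxy, hbad⟩
    have hfinP := (Pairs_finite c c.p.rho K0 H).image f1
    have hfinS := (TSame_finite c K0 H).image f2
    have hfinX := (TSx_finite c K0 H).image f3
    have hfinB := TBad_finite c K0 G tau H
    have hfinM := TMain_finite c K0 G tau H
    calc TR.card = (TR : Set ((Idx 2 2 × S → 𝓞 K) × (ℕ × (Fin (2 + 1) → 𝓞 K)) ×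
          (ℕ × (Fin (2 + 1) → 𝓞 K)))).ncard := (Set.ncard_coe_finset _).symm
      _ ≤ _ := Set.ncard_le_ncard hsub ((((hfinP.union hfinS).union hfinX).union hfinB).union hfinM)
      _ ≤ _ := Set.ncard_union_le _ _
      _ ≤ _ := Nat.add_le_add_right (Set.ncard_union_le _ _) _
      _ ≤ _ := Nat.add_le_add_right (Nat.add_le_add_right (Set.ncard_union_le _ _) _) _
      _ ≤ _ := Nat.add_le_add_right (Nat.add_le_add_right (Nat.add_le_add_right
          (Set.ncard_union_le _ _) _) _) _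
      _ ≤ _ := Nat.add_le_add_right (Nat.add_le_add_right (Nat.add_le_add
          (Nat.add_le_add (Set.ncard_image_le (Pairs_finite c c.p.rho K0 H))
            (Set.ncard_image_le (TSame_finite c K0 H)))
          (Set.ncard_image_le (TSx_finite c K0 H))) _) _
  -- positive part
  set CP : Finset (Idx 2 2 × S → 𝓞 K) := CL.filter (fun A => 0 < N A) with hCP
  have hCS : (∑ A ∈ CL, (N A : ℝ)) ^ 2 ≤ (CP.card : ℝ) * ∑ A ∈ CL, (N A : ℝ) ^ 2 := by
    have e1 : ∑ A ∈ CL, (N A : ℝ) = ∑ A ∈ CP, (N A : ℝ) := by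
      symm
      refine Finset.sum_subset (Finset.filter_subset _ _) fun A hA hA' => ?_
      have : ¬ 0 < N A := fun h => hA' (Finset.mem_filter.mpr ⟨hA, h⟩)
      have h0 : N A = 0 := by omega
      rw [h0]
      simp
    rw [e1]
    refine (sq_sum_le_card_mul_sum_sq).trans
      (mul_le_mul_of_nonneg_left ?_ (by (clear * -; positivity)))
    exact Finset.sum_le_sum_of_subset_of_nonneg (Finset.filter_subset _ _)
      fun _ _ _ => by (clear * -; positivity)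
  -- vectors of forms without a soluble fibre
  have hns : (Set.ncard {A | A ∈ c.Cl c.p.rho H ∧ ¬ FSol c.v A} : ℝ) ≤
      (c.Cl c.p.rho H).ncard - CP.card := by
    have e1 : (c.Cl c.p.rho H).ncard = CL.card :=
      Set.ncard_eq_toFinset_card _ (Cl_finite c c.p.rho H)
    have hsub : {A | A ∈ c.Cl c.p.rho H ∧ ¬ FSol c.v A} ⊆
        ((CL \ CP : Finset (Idx 2 2 × S → 𝓞 K)) : Set (Idx 2 2 × S → 𝓞 K)) := by
      intro A hA
      have hA1 : A ∈ CL := (hCLm A).2 hA.1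
      rw [Finset.mem_coe, Finset.mem_sdiff]
      refine ⟨hA1, fun hAP => hA.2 ?_⟩
      have hpos := (Finset.mem_filter.mp hAP).2
      obtain ⟨⟨i, x⟩, hx⟩ := Finset.card_pos.mp hpos
      rw [Finset.mem_filter, hGFm] at hx
      obtain ⟨⟨-, ⟨-, ⟨b, hb⟩, -⟩⟩, hFx⟩ := hx
      refine ⟨JJ H, i, x, ?_, hFx⟩
      intro h0
      simp only at hb
      simp [h0] at hb
    have h3 : Set.ncard {A | A ∈ c.Cl c.p.rho H ∧ ¬ FSol c.v A} ≤ (CL \ CP).card := by
      rw [← Set.ncard_coe_finset]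
      exact Set.ncard_le_ncard hsub (Finset.finite_toSet _)
    have h4 : (CL \ CP).card + CP.card = CL.card :=
      Finset.card_sdiff_add_card_eq_card (Finset.filter_subset _ _)
    rw [e1]
    have h5 : Set.ncard {A | A ∈ c.Cl c.p.rho H ∧ ¬ FSol c.v A} + CP.card ≤ CL.card := by omega
    have h6 : ((Set.ncard {A | A ∈ c.Cl c.p.rho H ∧ ¬ FSol c.v A} : ℕ) : ℝ) + (CP.card : ℝ) ≤
        CL.card := by
      exact_mod_cast h5
    linarith only [h6]
  refine hns.trans ?_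
  set u : ℝ := 8 * eps + 2 * E with hu
  set v : ℝ := 44 * eps + 5 * E with hv
  have hu0 : 0 ≤ u := by positivity
  have hv0 : 0 ≤ v := by positivity
  by_cases hu1 : u ≤ 1
  · have hS : (1 - u) * (T * X) ≤ ∑ A ∈ CL, (N A : ℝ) := by
      have : ((∑ A ∈ CL, N A : ℕ) : ℝ) = ∑ A ∈ CL, (N A : ℝ) := by push_cast; rfl
      rw [← this, ← hPairs]
      refine le_trans (le_of_eq ?_) hlow
      rw [hu]; ring
    have hN2 : ∑ A ∈ CL, (N A : ℝ) ^ 2 ≤ (1 + v) * (T ^ 2 * X) := by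
      have h1 : ((∑ A ∈ CL, (N A) ^ 2 : ℕ) : ℝ) ≤ ((c.Pairs c.p.rho K0 H).ncard : ℝ) +
          (c.TSame K0 H).ncard + (c.TSx K0 H).ncard + (c.TBad K0 G tau H).ncard +
          (c.TMain K0 G tau H).ncard := by exact_mod_cast hTrip
      have h2 : ((∑ A ∈ CL, (N A) ^ 2 : ℕ) : ℝ) = ∑ A ∈ CL, (N A : ℝ) ^ 2 := by push_cast; rfl
      rw [h2] at h1
      have h3 : (1 + 8 * eps) * T ≤ eps * T ^ 2 := by
        rw [div_le_iff₀ heps] at hTT
        nlinarith only [mul_le_mul_of_nonneg_right hTT hT0.le]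
      have h4 : (1 + 8 * eps) * T * X ≤ eps * T ^ 2 * X := mul_le_mul_of_nonneg_right h3 hX0
      rw [hv]
      calc ∑ A ∈ CL, (N A : ℝ) ^ 2 ≤ eps * T ^ 2 * X + eps * T ^ 2 * X + eps * T ^ 2 * X +
            eps * T ^ 2 * X + (1 + 40 * eps + 5 * E) * T ^ 2 * X := by
              linarith only [h1, h4, hbad, hmain, hsame, hsx, hup]
        _ = (1 + (44 * eps + 5 * E)) * (T ^ 2 * X) := by ring
    -- scale out T
    have hCP0 : (0 : ℝ) ≤ CP.card := by (clear * -; positivity)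
    have hkey := ct_algebra u v ((∑ A ∈ CL, (N A : ℝ)) / T) ((∑ A ∈ CL, (N A : ℝ) ^ 2) / T ^ 2) X
      CP.card hu0 hv0 hu1 hX0 ?_ ?_ ?_ hCP0
    · have h5 : ((c.Cl c.p.rho H).ncard : ℝ) - CP.card ≤
          (1 + eps) * X - (1 - 2 * u - v) * X := by
        linarith only [hcl2, hkey]
      refine h5.trans ?_
      have h6 : (1 + eps) * X - (1 - 2 * u - v) * X = (eps + 2 * u + v) * X := by ring
      rw [h6]
      refine mul_le_mul_of_nonneg_right ?_ hX0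
      rw [hu, hv]
      linarith only [heps, hE0]
    · rw [le_div_iff₀ hT0]
      linarith only [hS]
    · rw [div_le_iff₀ (by positivity)]
      linarith only [hN2]
    · rw [div_pow, ← mul_div_assoc]
      exact div_le_div_of_nonneg_right hCS (by positivity)
  · push Not at hu1
    have h7 : ((c.Cl c.p.rho H).ncard : ℝ) - CP.card ≤ (1 + eps) * X := by
      have : (0 : ℝ) ≤ CP.card := by (clear * -; positivity)
      linarith only [hcl2, this]
    refine h7.trans (mul_le_mul_of_nonneg_right ?_ hX0)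
    rw [hu] at hu1
    linarith only [heps, heps1, hu1, hE0]

end NKCHP
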