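import Pool.Agent.Lib.MP_e426f4_ag.CK.Basic
import Pool.Agent.Lib.MP_e426f4_ag.C.ShortC
import Pool.Agent.Lib.MP_e426f4_ag.N.Span1

/-!
CK-SpanCross: the complex vectors of forms vanishing at a point of one fibre and a point of another fibre are spanned by short integral vectors. Template: ConicHP.span_cross (C/ShortC.lean): the same vectors al, al', ep (identities over any commutative ring: ConicHP.sum_two), NFHP.span_single (d = 2) at x and at y, norms in place of absolute values. QQ = ConicHP.QQ.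
exists_minorS: ConicHP.exists_minorS over the domain O_K.
-/

namespace NKCHP

open NumberField GenHP NFHP NKHP Finset Filter Topology
open ConicHP (ev JJ)

variable {K : Type} [Field K] [NumberField K] {S : Type} [Fintype S]

/-- two separated unimodular vectors have a nonzero minor -/
theorem exists_minorS (v v' : S → 𝓞 K) (hv : PrimS v) (Dd : ℕ) (hDd : 0 < Dd)
    (hsep : ∃ a : S → 𝓞 K, ∑ s, a s * v s = 0 ∧ ∑ s, a s * v' s = (Dd : 𝓞 K)) :
    ∃ s1 s2, v s1 * v' s2 - v s2 * v' s1 ≠ 0 := by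
  by_contra hcon
  push Not at hcon
  obtain ⟨a, ha, ha'⟩ := hsep
  obtain ⟨c, hc⟩ := hv
  have h0 : ∀ s2, v s2 = 0 := by
    intro s2
    have h1 : (Dd : 𝓞 K) * v s2 = 0 := by
      rw [← ha', Finset.sum_mul]
      calc ∑ s, a s * v' s * v s2 = ∑ s, a s * v s * v' s2 := by
            refine Finset.sum_congr rfl fun s _ => ?_
            have h3 : v s * v' s2 = v s2 * v' s := sub_eq_zero.mp (hcon s s2)
            calc a s * v' s * v s2 = a s * (v s2 * v' s) := by ring
              _ = a s * (v s * v' s2) := by rw [h3]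
              _ = _ := by ring
        _ = (∑ s, a s * v s) * v' s2 := by rw [Finset.sum_mul]
        _ = 0 := by rw [ha, zero_mul]
    rcases mul_eq_zero.mp h1 with h | h
    · exact absurd h (Nat.cast_ne_zero.mpr hDd.ne')
    · exact h
  rw [Finset.sum_eq_zero fun s _ => by rw [h0 s, mul_zero]] at hc
  exact zero_ne_one hc

omit [Fintype S] in
private theorem norm_two_le [DecidableEq S] (s1 s2 : S) (h12 : s1 ≠ s2) (a b : 𝓞 K) (M : ℝ)
    (hM : 0 ≤ M) (w : InfinitePlace K) (ha : ‖sg w a‖ ≤ M) (hb : ‖sg w b‖ ≤ M) (s : S) :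
    ‖sg w ((Pi.single s1 a : S → 𝓞 K) s - (Pi.single s2 b : S → 𝓞 K) s)‖ ≤ M := by
  by_cases h1 : s = s1
  · subst h1
    rw [Pi.single_eq_same, Pi.single_eq_of_ne h12, sub_zero]
    exact ha
  · rw [Pi.single_eq_of_ne h1, zero_sub]
    by_cases h2 : s = s2
    · subst h2
      rw [Pi.single_eq_same, map_neg, norm_neg]
      exact hb
    · rw [Pi.single_eq_of_ne h2, neg_zero, map_zero, norm_zero]
      exact hM

theorem span_cross (x y : Fin (2 + 1) → 𝓞 K) (hx : x ≠ 0) (hy : y ≠ 0) (mu : ℝ) (hmu : 1 ≤ mu)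
    (hgx : Ortho mu x) (hgy : Ortho mu y)
    (v v' : S → 𝓞 K) (Vm : ℝ) (hVm : 1 ≤ Vm) (hVv : ∀ s w, ‖sg w (v s)‖ ≤ Vm)
    (hVv' : ∀ s w, ‖sg w (v' s)‖ ≤ Vm) (s1 s2 : S) (hDe : v s1 * v' s2 - v s2 * v' s1 ≠ 0) :
    ∃ V : (Idx 2 2 × S) ⊕ (ConicHP.QQ ⊕ ConicHP.QQ) → Idx 2 2 × S → 𝓞 K,
      (∀ i, F (ev (V i) v) x = 0 ∧ F (ev (V i) v') y = 0) ∧
      (∀ i m w, ‖sg w (V i m)‖ ≤
        Sum.elim (fun _ => 4 * Vm ^ 2) (fun _ => 3 * mu * Vm) i) ∧
      ∀ (w : InfinitePlace K) (A : Idx 2 2 × S → ℂ),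
        F (ev A (fun s => sg w (v s))) (fun i => sg w (x i)) = 0 →
        F (ev A (fun s => sg w (v' s))) (fun i => sg w (y i)) = 0 →
        ∃ r : (Idx 2 2 × S) ⊕ (ConicHP.QQ ⊕ ConicHP.QQ) → ℂ,
          ∀ m, A m = ∑ i, r i * sg w (V i m) := by
  classical
  obtain ⟨g, hg0, hgm, hgs⟩ := NFHP.span_single (d := 2) (by norm_num) x hx mu hmu hgx
  obtain ⟨g', hg0', hgm', hgs'⟩ := NFHP.span_single (d := 2) (by norm_num) y hy mu hmu hgy
  set De : 𝓞 K := v s1 * v' s2 - v s2 * v' s1 with hDedef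
  have h12 : s1 ≠ s2 := by
    rintro rfl
    apply hDe
    rw [hDedef]
    ring
  -- the dual vectors
  set al : S → 𝓞 K := fun s =>
    (Pi.single s1 (v' s2) : S → 𝓞 K) s - (Pi.single s2 (v' s1) : S → 𝓞 K) s with hal
  set al' : S → 𝓞 K := fun s =>
    (Pi.single s2 (v s1) : S → 𝓞 K) s - (Pi.single s1 (v s2) : S → 𝓞 K) s with hal'
  have hVm0 : (0 : ℝ) ≤ Vm := by linarith
  have halv : ∑ s, al s * v s = De := by
    rw [hal]
    rw [ConicHP.sum_two, hDedef]
    ring
  have halv' : ∑ s, al s * v' s = 0 := by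
    rw [hal]
    rw [ConicHP.sum_two]
    ring
  have hal'v : ∑ s, al' s * v s = 0 := by
    rw [hal']
    rw [ConicHP.sum_two]
    ring
  have hal'v' : ∑ s, al' s * v' s = De := by
    rw [hal']
    rw [ConicHP.sum_two, hDedef]
  have halb : ∀ s w, ‖sg w (al s)‖ ≤ Vm := fun s w =>
    norm_two_le s1 s2 h12 _ _ Vm hVm0 w (hVv' _ w) (hVv' _ w) s
  have halb' : ∀ s w, ‖sg w (al' s)‖ ≤ Vm := fun s w =>
    norm_two_le s2 s1 h12.symm _ _ Vm hVm0 w (hVv _ w) (hVv _ w) s
  -- the vectors orthogonal to both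
  set ep : S → S → 𝓞 K := fun s s' => (Pi.single s De : S → 𝓞 K) s' - v s * al s' - v' s * al' s'
    with hep
  have hepv : ∀ s, ∑ s', ep s s' * v s' = 0 := by
    intro s
    have h1 : ∑ s', ep s s' * v s' = ∑ s', (Pi.single s De : S → 𝓞 K) s' * v s'
        - v s * ∑ s', al s' * v s' - v' s * ∑ s', al' s' * v s' := by
      rw [hep]
      simp only [sub_mul, Finset.sum_sub_distrib, Finset.mul_sum]
      congr 1
      · congr 1
        refine Finset.sum_congr rfl fun s' _ => by ring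
      · refine Finset.sum_congr rfl fun s' _ => by ring
    rw [h1, halv, hal'v, Finset.sum_eq_single s, Pi.single_eq_same]
    · ring
    · intro i _ hi
      rw [Pi.single_eq_of_ne hi, zero_mul]
    · simp
  have hepv' : ∀ s, ∑ s', ep s s' * v' s' = 0 := by
    intro s
    have h1 : ∑ s', ep s s' * v' s' = ∑ s', (Pi.single s De : S → 𝓞 K) s' * v' s'
        - v s * ∑ s', al s' * v' s' - v' s * ∑ s', al' s' * v' s' := by
      rw [hep]
      simp only [sub_mul, Finset.sum_sub_distrib, Finset.mul_sum]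
      congr 1
      · congr 1
        refine Finset.sum_congr rfl fun s' _ => by ring
      · refine Finset.sum_congr rfl fun s' _ => by ring
    rw [h1, halv', hal'v', Finset.sum_eq_single s, Pi.single_eq_same]
    · ring
    · intro i _ hi
      rw [Pi.single_eq_of_ne hi, zero_mul]
    · simp
  have hmul : ∀ (w : InfinitePlace K) (a b : 𝓞 K), ‖sg w a‖ ≤ Vm → ‖sg w b‖ ≤ Vm →
      ‖sg w (a * b)‖ ≤ Vm * Vm := by
    intro w a b ha hb
    rw [map_mul, norm_mul]
    exact mul_le_mul ha hb (norm_nonneg _) hVm0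
  have hDeb : ∀ w, ‖sg w De‖ ≤ 2 * Vm ^ 2 := by
    intro w
    rw [hDedef, map_sub]
    refine (norm_sub_le _ _).trans ?_
    have e1 := hmul w _ _ (hVv s1 w) (hVv' s2 w)
    have e2 := hmul w _ _ (hVv s2 w) (hVv' s1 w)
    nlinarith
  have hepb : ∀ s s' w, ‖sg w (ep s s')‖ ≤ 4 * Vm ^ 2 := by
    intro s s' w
    rw [hep]
    simp only [map_sub]
    refine (norm_sub_le _ _).trans ?_
    have e1 : ‖sg w ((Pi.single s De : S → 𝓞 K) s') - sg w (v s * al s')‖ ≤
        2 * Vm ^ 2 + Vm * Vm := by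
      refine (norm_sub_le _ _).trans ?_
      refine add_le_add ?_ ?_
      · by_cases hs : s' = s
        · subst hs
          rw [Pi.single_eq_same]
          exact hDeb w
        · rw [Pi.single_eq_of_ne hs, map_zero, norm_zero]
          positivity
      · exact hmul w _ _ (hVv _ w) (halb _ w)
    have e2 : ‖sg w (v' s * al' s')‖ ≤ Vm * Vm := hmul w _ _ (hVv' _ w) (halb' _ w)
    nlinarith
  refine ⟨Sum.elim (fun p m => (Pi.single p.1 (1 : 𝓞 K) : Idx 2 2 → 𝓞 K) m.1 * ep p.2 m.2)
    (Sum.elim (fun q m => g q m.1 * al m.2) (fun q m => g' q m.1 * al' m.2)), ?_, ?_, ?_⟩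
  · rintro (p | q | q)
    · simp only [Sum.elim_inl]
      rw [ConicHP.F_ev_tensor, ConicHP.F_ev_tensor, hepv, hepv', zero_mul, zero_mul]
      exact ⟨rfl, rfl⟩
    · simp only [Sum.elim_inl, Sum.elim_inr]
      rw [ConicHP.F_ev_tensor, ConicHP.F_ev_tensor, hg0, halv', zero_mul, mul_zero]
      exact ⟨rfl, rfl⟩
    · simp only [Sum.elim_inl, Sum.elim_inr]
      rw [ConicHP.F_ev_tensor, ConicHP.F_ev_tensor, hg0', hal'v, zero_mul, mul_zero]
      exact ⟨rfl, rfl⟩
  · rintro (p | q | q) m w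
    · simp only [Sum.elim_inl]
      rw [map_mul, norm_mul]
      have e1 : ‖sg w ((Pi.single p.1 (1 : 𝓞 K) : Idx 2 2 → 𝓞 K) m.1)‖ ≤ 1 := by
        by_cases hs : m.1 = p.1
        · rw [hs, Pi.single_eq_same, map_one, norm_one]
        · rw [Pi.single_eq_of_ne hs, map_zero, norm_zero]
          exact zero_le_one
      calc _ ≤ 1 * (4 * Vm ^ 2) := mul_le_mul e1 (hepb _ _ w) (norm_nonneg _) zero_le_one
        _ = _ := by ring
    · simp only [Sum.elim_inr, Sum.elim_inl]
      rw [map_mul, norm_mul]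
      have e1 := hgm q m.1 w
      calc _ ≤ (((2 : ℕ) : ℝ) + 1) * mu * Vm :=
            mul_le_mul e1 (halb _ w) (norm_nonneg _) (by positivity)
        _ = _ := by push_cast; ring
    · simp only [Sum.elim_inr, Sum.elim_inl]
      rw [map_mul, norm_mul]
      have e1 := hgm' q m.1 w
      calc _ ≤ (((2 : ℕ) : ℝ) + 1) * mu * Vm :=
            mul_le_mul e1 (halb' _ w) (norm_nonneg _) (by positivity)
        _ = _ := by push_cast; ring
  · intro w A hA hA'
    obtain ⟨r, hr⟩ := hgs w _ hA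
    obtain ⟨r', hr'⟩ := hgs' w _ hA'
    have hDeR : sg w De ≠ 0 := sg_ne_zero w hDe
    refine ⟨Sum.elim (fun p => A p / sg w De)
      (Sum.elim (fun q => r q / sg w De) (fun q => r' q / sg w De)), ?_⟩
    rintro ⟨t, s'⟩
    rw [Fintype.sum_sum_type, Fintype.sum_sum_type, Fintype.sum_prod_type]
    simp only [Sum.elim_inl, Sum.elim_inr]
    have e1 : ∑ t1 : Idx 2 2, ∑ s : S, A (t1, s) / sg w De *
        sg w ((Pi.single t1 (1 : 𝓞 K) : Idx 2 2 → 𝓞 K) t * ep s s') =
        ∑ s : S, A (t, s) / sg w De * sg w (ep s s') := by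
      rw [Finset.sum_eq_single t]
      · refine Finset.sum_congr rfl fun s _ => ?_
        rw [Pi.single_eq_same, one_mul]
      · intro t1 _ ht1
        refine Finset.sum_eq_zero fun s _ => ?_
        rw [Pi.single_eq_of_ne ht1.symm, zero_mul, map_zero, mul_zero]
      · simp
    have e2 : ∑ q : ConicHP.QQ, r q / sg w De * sg w (g q t * al s') =
        ev A (fun s => sg w (v s)) t * sg w (al s') / sg w De := by
      rw [hr t, Finset.sum_mul, Finset.sum_div]
      refine Finset.sum_congr rfl fun q _ => ?_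
      rw [map_mul]
      ring
    have e3 : ∑ q : ConicHP.QQ, r' q / sg w De * sg w (g' q t * al' s') =
        ev A (fun s => sg w (v' s)) t * sg w (al' s') / sg w De := by
      rw [hr' t, Finset.sum_mul, Finset.sum_div]
      refine Finset.sum_congr rfl fun q _ => ?_
      rw [map_mul]
      ring
    rw [e1, e2, e3]
    have e4 : ∑ s : S, A (t, s) / sg w De * sg w (ep s s') =
        (∑ s : S, A (t, s) * sg w (ep s s')) / sg w De := by
      rw [Finset.sum_div]
      exact Finset.sum_congr rfl fun s _ => by ring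
    have e5 : ∑ s : S, A (t, s) * sg w (ep s s') = sg w De * A (t, s') -
        ev A (fun s => sg w (v s)) t * sg w (al s') -
        ev A (fun s => sg w (v' s)) t * sg w (al' s') := by
      have f1 : ∀ s, A (t, s) * sg w (ep s s') =
          A (t, s) * sg w ((Pi.single s De : S → 𝓞 K) s')
          - A (t, s) * sg w (v s) * sg w (al s') - A (t, s) * sg w (v' s) * sg w (al' s') := by
        intro s
        rw [hep]
        simp only [map_sub, map_mul]
        ring
      rw [Finset.sum_congr rfl fun s _ => f1 s, Finset.sum_sub_distrib, Finset.sum_sub_distrib,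
        ← Finset.sum_mul, ← Finset.sum_mul, Finset.sum_eq_single s', Pi.single_eq_same]
      · simp only [ev]
        ring
      · intro s _ hs
        rw [Pi.single_eq_of_ne hs.symm, map_zero, mul_zero]
      · simp
    rw [e4, e5]
    field_simp
    ring

end NKCHP
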